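import Mathlib

/-! Finite groups generated by involutions without short relations. -/

namespace Pool.Agent.MP_1c0fc2_co

open Finset

variable {ι : Type}

/-- Reduced words of bounded length. -/
def RW (ι : Type) (L : ℕ) : Type := {w : List ι // w.IsChain (· ≠ ·) ∧ w.length ≤ L}

instance [Finite ι] (L : ℕ) : Finite (RW ι L) :=
  ((List.finite_length_le ι L).subset (fun _ h => h.2)).to_subtype

/-- The underlying move on lists. -/
def mv [DecidableEq ι] (L : ℕ) (i : ι) (w : List ι) : List ι :=
  if w.head? = some i then w.tail else if w.length < L then i :: w else w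

theorem chain_cons {i : ι} {w : List ι} (h : w.IsChain (· ≠ ·)) (hi : w.head? ≠ some i) :
    (i :: w).IsChain (· ≠ ·) := by
  cases w with
  | nil => simp
  | cons a w =>
    rw [List.isChain_cons_cons]
    exact ⟨fun e => hi (by simp [e]), h⟩

theorem head_ne {i : ι} {w : List ι} (h : (i :: w).IsChain (· ≠ ·)) : w.head? ≠ some i := by
  cases w with
  | nil => simp
  | cons a w =>
    rw [List.isChain_cons_cons] at h
    simpa using h.1.symm

theorem mv_ok [DecidableEq ι] {L : ℕ} (i : ι) {w : List ι}
    (h : w.IsChain (· ≠ ·) ∧ w.length ≤ L) :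
    (mv L i w).IsChain (· ≠ ·) ∧ (mv L i w).length ≤ L := by
  unfold mv
  split_ifs with h1 h2
  · exact ⟨h.1.tail, by simp; omega⟩
  · exact ⟨chain_cons h.1 h1, h2⟩
  · exact h

theorem mv_mv [DecidableEq ι] {L : ℕ} (i : ι) {w : List ι}
    (h : w.IsChain (· ≠ ·) ∧ w.length ≤ L) : mv L i (mv L i w) = w := by
  by_cases h1 : w.head? = some i
  · obtain ⟨t, rfl⟩ : ∃ t, w = i :: t := by
      cases w with
      | nil => simp at h1
      | cons a t => exact ⟨t, by simpa using h1⟩
    have h2 := head_ne h.1
    have h3 : t.length < L := h.2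
    simp [mv, h2, h3]
  · by_cases h2 : w.length < L <;> simp [mv, h1, h2]

/-- The involutions. -/
def gen [DecidableEq ι] (L : ℕ) (i : ι) : Equiv.Perm (RW ι L) :=
  Function.Involutive.toPerm (fun w => ⟨mv L i w.1, mv_ok i w.2⟩)
    (fun w => Subtype.ext (mv_mv i w.2))

theorem gen_prod [DecidableEq ι] (L : ℕ) (w : List ι) (h : w.IsChain (· ≠ ·))
    (hl : w.length ≤ L) : (((w.map (gen L)).prod ⟨[], by simp⟩ : RW ι L)).1 = w := by
  induction w with
  | nil => rfl
  | cons i w ih =>
    have h3 : w.length < L := hl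
    rw [List.map_cons, List.prod_cons, Equiv.Perm.mul_apply]
    change mv L i _ = _
    rw [ih h.tail h3.le]
    simp [mv, head_ne h, h3]

open Classical in
theorem exists_sys (ι : Type) [Finite ι] (L : ℕ) :
    ∃ (X : Type) (_ : Group X) (_ : Fintype X) (s : ι → X), (∀ i, s i * s i = 1) ∧
      Function.Injective s ∧ (∀ i, s i ≠ 1) ∧ ∀ B : X → Prop,
        (∀ y, B y → ∃ i j, i ≠ j ∧ (B (s i * y) ∨ s i * y = 1) ∧ (B (s j * y) ∨ s j * y = 1)) →
        (∃ y, B y) → L < (univ.filter B).card := by
  have key : ∀ w w' : List ι, w.IsChain (· ≠ ·) → w'.IsChain (· ≠ ·) → w.length ≤ L + 1 →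
      w'.length ≤ L + 1 → (w.map (gen (L + 1))).prod = (w'.map (gen (L + 1))).prod → w = w' := by
    intro w w' h1 h2 h3 h4 h5
    rw [← gen_prod (L + 1) w h1 h3, h5, gen_prod (L + 1) w' h2 h4]
  let hF : Fintype (Equiv.Perm (RW ι (L + 1))) := Fintype.ofFinite _
  refine ⟨Equiv.Perm (RW ι (L + 1)), inferInstance, hF, gen (L + 1), ?_, ?_, ?_, ?_⟩
  · intro i
    ext1 w
    exact Subtype.ext (mv_mv i w.2)
  · intro i j h
    simpa using key [i] [j] (by simp) (by simp) (by simp) (by simp) (by simpa using h)
  · intro i h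
    simpa using key [i] [] (by simp) (by simp) (by simp) (by simp) (by simpa using h)
  generalize gen (ι := ι) (L + 1) = s at key
  rintro B hB ⟨y, hy⟩
  have walk : ∀ i, (B (s i * y) ∨ s i * y = 1) → ∀ m,
      (∃ w : List ι, w.IsChain (· ≠ ·) ∧ w.getLast? = some i ∧ w.length ≤ m + 1 ∧
        (w.map s).prod * y = 1) ∨
      ∃ w : List ι, w.IsChain (· ≠ ·) ∧ w.getLast? = some i ∧ w.length = m + 1 ∧
        ∀ j ≤ m, B (((w.drop j).map s).prod * y) := by
    intro i hi m
    induction m with
    | zero =>
      rcases hi with hi | hi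
      · exact Or.inr ⟨[i], by simp, by simp, by simp, by simpa using hi⟩
      · exact Or.inl ⟨[i], by simp, by simp, by simp, by simpa using hi⟩
    | succ m ih =>
      rcases ih with ⟨w, h1, h2, h3, h4⟩ | ⟨w, h1, h2, h3, h4⟩
      · exact Or.inl ⟨w, h1, h2, by omega, h4⟩
      obtain ⟨a, ha, hBa⟩ : ∃ a, w.head? ≠ some a ∧
          (B (s a * ((w.map s).prod * y)) ∨ s a * ((w.map s).prod * y) = 1) := by
        obtain ⟨a, b, hab, ha, hb⟩ := hB _ (h4 0 (Nat.zero_le _))
        by_cases h : w.head? = some a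
        · exact ⟨b, by rw [h]; simpa using hab, hb⟩
        · exact ⟨a, h, ha⟩
      have hl : (a :: w).getLast? = some i := by
        cases w with
        | nil => simp at h3
        | cons b w => rwa [List.getLast?_cons_cons]
      rcases hBa with hBa | hBa
      · refine Or.inr ⟨a :: w, chain_cons h1 ha, hl, by simp [h3], fun j hj => ?_⟩
        cases j with
        | zero => simpa [mul_assoc] using hBa
        | succ j => simpa using h4 j (by omega)
      · exact Or.inl ⟨a :: w, chain_cons h1 ha, hl, by simp [h3], by simpa [mul_assoc] using hBa⟩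
  have fin : ∀ w : List ι, w.IsChain (· ≠ ·) → w.length = L + 1 →
      (∀ j ≤ L, B (((w.drop j).map s).prod * y)) → L < (univ.filter B).card := by
    intro w h1 h3 h4
    have := card_le_card_of_injOn (s := range (L + 1)) (t := univ.filter B)
      (fun j => ((w.drop j).map s).prod * y)
      (fun j hj => by simpa using h4 j (by simpa [Nat.lt_succ_iff] using hj)) ?_
    · simpa using this
    · intro j hj j' hj' h
      have e := key _ _ (h1.drop j) (h1.drop j') (by simp; omega) (by simp; omega)
        (mul_right_cancel h)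
      have := congrArg List.length e
      simp only [coe_range, Set.mem_Iio, List.length_drop] at hj hj' this
      omega
  obtain ⟨i, j, hij, hi, hj⟩ := hB y hy
  rcases walk i hi L with ⟨w, h1, h2, h3, h4⟩ | ⟨w, h1, -, h3, h4⟩
  · rcases walk j hj L with ⟨w', g1, g2, g3, g4⟩ | ⟨w', g1, -, g3, g4⟩
    · have := key w w' h1 g1 h3 g3 (mul_right_cancel (h4.trans g4.symm))
      rw [this, g2] at h2
      exact absurd (Option.some.inj h2).symm hij
    · exact fin w' g1 g3 g4
  · exact fin w h1 h3 h4

end Pool.Agent.MP_1c0fc2_co
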