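import Pool.Agent.MP_1c0fc2_co.ES
import Pool.Agent.MP_1c0fc2_co.Girth

/-! Arrowing, and the separation of a tree from graphs with a cycle or of another order. -/

namespace Pool.Agent.MP_1c0fc2_co

open Finset

variable {V α β : Type}

/-- Covering form of the arrow relation. -/
def Arr (G : SimpleGraph V) (T : SimpleGraph α) : Prop :=
  ∀ C : Bool → SimpleGraph V, (∀ b, C b ≤ G) → (∀ x y, G.Adj x y → ∃ b, (C b).Adj x y) →
    ∃ b, Has (C b) T

/-- Some finite graph arrows `T` but not `H`. -/
def Sep (T : SimpleGraph α) (H : SimpleGraph β) : Prop :=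
  ∃ (V : Type) (_ : Finite V) (G : SimpleGraph V), Arr G T ∧ ¬ Arr G H

theorem deg_cover [Fintype V] {G : SimpleGraph V} {C : Bool → SimpleGraph V}
    (h : ∀ x y, G.Adj x y → ∃ b, (C b).Adj x y) (v : V) :
    (nb G v).card ≤ (nb (C false) v).card + (nb (C true) v).card := by
  classical
  refine le_trans (card_le_card fun x hx => ?_) (card_union_le _ _)
  obtain ⟨b, hb⟩ := h v x (mem_nb.1 hx)
  cases b <;> simp [hb]

theorem arr_of_deg [Fintype V] [Nonempty V] [Fintype α] {T : SimpleGraph α} (hT : T.IsTree)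
    {k : ℕ} (hk : Fintype.card α = k + 2) {G : SimpleGraph V}
    (hG : ∀ v, 2 * k + 1 ≤ (nb G v).card) : Arr G T := by
  classical
  obtain ⟨S, h1, -, h3⟩ := exists_rt hT k hk
  intro C _ hC
  by_contra hno
  push Not at hno
  have e1 := degree_sum_le (G := C false) (S := S)
    fun v x W hc hx hvx => hno false (h3 V _ v x W hc hx hvx)
  have e2 := degree_sum_le (G := C true) (S := S)
    fun v x W hc hx hvx => hno true (h3 V _ v x W hc hx hvx)
  have e3 : ∑ _v : V, (2 * k + 1) ≤ ∑ v, ((nb (C false) v).card + (nb (C true) v).card) :=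
    sum_le_sum fun v _ => (hG v).trans (deg_cover hC v)
  rw [sum_const, sum_add_distrib, card_univ, smul_eq_mul] at e3
  have : 0 < Fintype.card V := Fintype.card_pos
  rw [h1] at e1 e2
  nlinarith

theorem const_of_conn {γ : Type} {H : SimpleGraph β} (hH : H.Connected) (φ : β → γ)
    (h : ∀ x y, H.Adj x y → φ x = φ y) (x y : β) : φ x = φ y := by
  obtain ⟨p⟩ := hH.preconnected x y
  induction p with
  | nil => rfl
  | cons hadj _ ih => exact (h _ _ hadj).trans ih

theorem iso_of_hom {T : SimpleGraph α} {H : SimpleGraph β} (hT : T.IsAcyclic) (hH : H.Connected)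
    (g : β ≃ α) (hg : ∀ x y, H.Adj x y → T.Adj (g x) (g y)) : Nonempty (T ≃g H) := by
  have h1 : H ≤ T.comap g := fun x y h => hg x y h
  have h2 : (T.comap g).IsAcyclic := hT.of_comap g.toEmbedding
  have h3 : H.IsTree := ⟨hH, h2.anti h1⟩
  have h4 := (SimpleGraph.isTree_iff_maximal_isAcyclic.1 h3).2.le_of_ge h2 h1
  exact ⟨SimpleGraph.Iso.symm ⟨g, fun {x y} => ⟨fun h => h4 h, hg x y⟩⟩⟩

theorem not_arr_of_not_has {G : SimpleGraph V} {H : SimpleGraph β} (h : ¬ Has G H) :
    ¬ Arr G H := fun ha => by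
  obtain ⟨_, hb⟩ := ha (fun _ => G) (fun _ => le_rfl) (fun _ _ h => ⟨true, h⟩)
  exact h hb

theorem sep_cycle [Fintype α] [Fintype β] {T : SimpleGraph α} (hT : T.IsTree) {k : ℕ}
    (hk : Fintype.card α = k + 2) {H : SimpleGraph β} (hH : ¬ H.IsAcyclic) : Sep T H := by
  classical
  obtain ⟨X, _, _, s, h1, h2, h3, h4⟩ := exists_sys (Fin (2 * k + 1)) (Fintype.card β)
  let G : SimpleGraph X :=
    { Adj := fun x y => ∃ i, y = s i * x
      symm := ⟨by
        rintro x y ⟨i, rfl⟩
        exact ⟨i, by rw [← mul_assoc, h1, one_mul]⟩⟩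
      loopless := ⟨by
        rintro x ⟨i, hi⟩
        exact h3 i (by simpa using hi)⟩ }
  refine ⟨X, inferInstance, G, arr_of_deg hT hk fun v => ?_, not_arr_of_not_has ?_⟩
  · have := card_le_card_of_injOn (s := univ) (t := nb G v) (fun i => s i * v)
      (fun i _ => by simpa using ⟨i, rfl⟩) (fun i _ j _ h => h2 (mul_right_cancel h))
    simpa using this
  · rintro ⟨f, hf, hadj⟩
    simp only [SimpleGraph.IsAcyclic, not_forall, not_not] at hH
    obtain ⟨u, p, hp⟩ := hH
    have := h4 (fun y => ∃ x ∈ p.support, f x = y) ?_ ⟨f u, u, by simp, rfl⟩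
    · refine absurd this (not_lt.2 ?_)
      refine le_trans (card_le_card (t := univ.image f) fun y hy => ?_) (card_image_le.trans ?_)
      · simp only [mem_filter, mem_univ, true_and, mem_image] at hy ⊢
        obtain ⟨x, -, hx⟩ := hy
        exact ⟨x, hx⟩
      · simp
    · rintro y ⟨x, hx, rfl⟩
      obtain ⟨a, b, hab, hs⟩ := Set.ncard_eq_two.1 (hp.ncard_neighborSet_toSubgraph_eq_two hx)
      have ha : p.toSubgraph.Adj x a := by
        rw [← SimpleGraph.Subgraph.mem_neighborSet, hs]
        simp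
      have hb : p.toSubgraph.Adj x b := by
        rw [← SimpleGraph.Subgraph.mem_neighborSet, hs]
        simp
      obtain ⟨i, hi⟩ := hadj x a ha.adj_sub
      obtain ⟨j, hj⟩ := hadj x b hb.adj_sub
      refine ⟨i, j, fun h => hab (hf (by rw [hi, hj, h])), Or.inl ⟨a, ?_, hi⟩, Or.inl ⟨b, ?_, hj⟩⟩
      · exact p.mem_verts_toSubgraph.1 ha.snd_mem
      · exact p.mem_verts_toSubgraph.1 hb.snd_mem

theorem sep_size [Fintype α] [Fintype β] {T : SimpleGraph α} (hT : T.IsTree)
    {H : SimpleGraph β} (hH : H.Connected) (hlt : Fintype.card α < Fintype.card β) :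
    Sep T H := by
  classical
  have hne := hT.connected.nonempty
  have hpos : 0 < Fintype.card α := Fintype.card_pos
  by_cases h1 : Fintype.card α = 1
  · refine ⟨Unit, inferInstance, ⊥, fun C _ _ => ⟨true, fun _ => (), ?_, ?_⟩,
      not_arr_of_not_has ?_⟩
    · intro a b _
      exact Fintype.card_le_one_iff.1 h1.le a b
    · intro a b hab
      exact absurd (Fintype.card_le_one_iff.1 h1.le a b) hab.ne
    · rintro ⟨f, hf, -⟩
      have := Fintype.card_le_of_injective f hf
      simp at this
      omega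
  obtain ⟨k, hk⟩ : ∃ k, Fintype.card α = k + 2 := ⟨Fintype.card α - 2, by omega⟩
  let G : SimpleGraph (α × α) :=
    { Adj := fun p q => p ≠ q ∧ (p.1 = q.1 ∨ p.2 = q.2)
      symm := ⟨fun p q h => ⟨h.1.symm, h.2.imp Eq.symm Eq.symm⟩⟩
      loopless := ⟨fun p h => h.1 rfl⟩ }
  refine ⟨α × α, inferInstance, G, arr_of_deg hT hk fun v => ?_, fun ha => ?_⟩
  · have hsub : ((univ.erase v.2).image fun y => (v.1, y)) ∪
        ((univ.erase v.1).image fun x => (x, v.2)) ⊆ nb G v := by
      intro q hq
      simp only [mem_union, mem_image, mem_erase, mem_univ, and_true] at hq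
      rw [mem_nb]
      rcases hq with ⟨y, hy, rfl⟩ | ⟨x, hx, rfl⟩
      · exact ⟨fun h => hy (congrArg Prod.snd h).symm, Or.inl rfl⟩
      · exact ⟨fun h => hx (congrArg Prod.fst h).symm, Or.inr rfl⟩
    have := card_le_card hsub
    rw [card_union_of_disjoint, card_image_of_injective _ (Prod.mk_right_injective _),
      card_image_of_injective _ (Prod.mk_left_injective _), card_erase_of_mem (mem_univ _),
      card_erase_of_mem (mem_univ _), card_univ, hk] at this
    · omega
    · rw [disjoint_left]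
      intro q hq hq'
      simp only [mem_image, mem_erase, mem_univ, and_true] at hq hq'
      obtain ⟨y, hy, rfl⟩ := hq
      obtain ⟨x, -, hx⟩ := hq'
      exact hy (congrArg Prod.snd hx).symm
  · let C : Bool → SimpleGraph (α × α) := fun b =>
      { Adj := fun p q => p ≠ q ∧ (if b then p.1 else p.2) = (if b then q.1 else q.2)
        symm := ⟨fun p q h => ⟨h.1.symm, h.2.symm⟩⟩
        loopless := ⟨fun p h => h.1 rfl⟩ }
    obtain ⟨b, f, hf, hadj⟩ := ha C
      (fun b p q h => ⟨h.1, by
        have := h.2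
        cases b
        · exact Or.inr this
        · exact Or.inl this⟩)
      (fun p q h => h.2.elim (fun e => ⟨true, h.1, e⟩) fun e => ⟨false, h.1, e⟩)
    have hc := const_of_conn hH (fun x => if b then (f x).1 else (f x).2)
      fun x y h => (hadj x y h).2
    have := Fintype.card_le_of_injective (fun x => if b then (f x).2 else (f x).1)
      (fun x y h => hf (by
        have := hc x y
        cases b
        · exact Prod.ext h this
        · exact Prod.ext this h))
    omega

theorem iso_of_stars [Fintype α] [Fintype β] {T : SimpleGraph α} (hT : T.IsAcyclic)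
    {H : SimpleGraph β} (hH : H.IsTree) (hc : Fintype.card α = Fintype.card β)
    {r : α} (hr : ∀ a, a ≠ r → T.Adj r a) {r' : β} (hr' : ∀ a, a ≠ r' → H.Adj r' a) :
    Nonempty (T ≃g H) := by
  classical
  let e₀ : β ≃ α := Fintype.equivOfCardEq hc.symm
  let e : β ≃ α := e₀.trans (Equiv.swap (e₀ r') r)
  have he : e r' = r := by simp [e]
  refine iso_of_hom hT hH.connected e fun x y hxy => ?_
  by_cases hx : x = r'
  · subst hx
    rw [he]
    exact hr _ (fun h => hxy.ne (e.injective (h.trans he.symm)).symm)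
  by_cases hy : y = r'
  · subst hy
    rw [he]
    exact (hr _ (fun h => hxy.ne (e.injective (h.trans he.symm)))).symm
  exact absurd (SimpleGraph.is3Clique_triple_iff.2 ⟨hr' x hx, hr' y hy, hxy⟩)
    (hH.isAcyclic.cliqueFree le_rfl _)

end Pool.Agent.MP_1c0fc2_co
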