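import Pool.Agent.MP_1c0fc2_co.PDefs

/-! Completions: private copies of `H - uu'` glued on pairs of root vertices. -/

namespace Pool.Agent.MP_1c0fc2_co

open Finset

set_option linter.unusedSectionVars false

/-- the standing hypotheses on the graph `H` (given by its edge set) and the edge `uu'` -/
structure HData (a b : ℕ) {β : Type} [DecidableEq β] (EH : Finset (Finset β)) (u u' : β) :
    Prop where
  hb : 0 < b
  hab : b < a
  ne : u ≠ u'
  mem : ({u, u'} : Finset β) ∈ EH
  card : ∀ e ∈ EH, e.card = 2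
  weak : ∀ S ⊆ EH, S.Nonempty → th a b ≤ del a b S
  strict : ∀ S ⊆ EH.erase {u, u'}, 2 ≤ S.card → th a b < del a b S

section comp
variable {a b : ℕ} {β 𝕍 A : Type} [DecidableEq β] [DecidableEq 𝕍] [Fintype A] [DecidableEq A]
  {EH : Finset (Finset β)} {u u' : β}

/-- all edges of the completions -/
def CE (EH : Finset (Finset β)) (u u' : β) (ψ : A → β ↪ 𝕍) : Finset (Finset 𝕍) :=
  univ.biUnion (fun α => (EH.erase {u, u'}).image (fun e => e.map (ψ α)))

/-- the part of `I` in one completion -/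
def partI (EH : Finset (Finset β)) (u u' : β) (ψ : A → β ↪ 𝕍) (I : Finset (Finset 𝕍)) (α : A) :
    Finset (Finset β) :=
  (EH.erase {u, u'}).filter (fun e => e.map (ψ α) ∈ I)

/-- rooted cost of the part of `I` in one completion -/
def cost (a b : ℕ) (EH : Finset (Finset β)) (u u' : β) (ψ : A → β ↪ 𝕍) (I : Finset (Finset 𝕍))
    (α : A) : ℤ :=
  (a : ℤ) * (((partI EH u u' ψ I α).biUnion id) \ {u, u'}).card -
    (b : ℤ) * (partI EH u u' ψ I α).card

lemma mem_CE {ψ : A → β ↪ 𝕍} {s : Finset 𝕍} :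
    s ∈ CE EH u u' ψ ↔ ∃ α, ∃ e ∈ EH.erase {u, u'}, e.map (ψ α) = s := by
  simp only [CE, mem_biUnion, mem_univ, true_and, mem_image]

lemma exists_priv (hH : HData a b EH u u') {e : Finset β} (he : e ∈ EH.erase {u, u'}) :
    ∃ z ∈ e, z ≠ u ∧ z ≠ u' := by
  by_contra hcon
  push Not at hcon
  have hsub : e ⊆ {u, u'} := by
    intro z hz
    by_cases h : z = u
    · simp [h]
    · simp [hcon z hz h]
  have := eq_of_subset_of_card_le hsub (by
    rw [card_pair hH.ne, hH.card e (mem_of_mem_erase he)])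
  exact (mem_erase.1 he).1 this

lemma cost_cases (hH : HData a b EH u u') (ψ : A → β ↪ 𝕍) (I : Finset (Finset 𝕍)) (α : A)
    (hne : (partI EH u u' ψ I α).Nonempty) :
    (u ∈ (partI EH u u' ψ I α).biUnion id ∧ u' ∈ (partI EH u u' ψ I α).biUnion id ∧
      0 ≤ cost a b EH u u' ψ I α) ∨
    ((u ∈ (partI EH u u' ψ I α).biUnion id ∨ u' ∈ (partI EH u u' ψ I α).biUnion id) ∧
      (a : ℤ) - b ≤ cost a b EH u u' ψ I α) ∨ th a b ≤ cost a b EH u u' ψ I α := by
  set J := partI EH u u' ψ I α with hJ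
  have hJs : J ⊆ EH.erase {u, u'} := filter_subset _ _
  have hw := hH.weak J (hJs.trans (erase_subset _ _)) hne
  have hsd := card_sdiff_add_card_inter (J.biUnion id) {u, u'}
  unfold cost
  rw [← hJ]
  unfold del th at hw
  unfold th
  have ha0 : (0 : ℤ) ≤ a := by positivity
  by_cases h1 : u ∈ J.biUnion id <;> by_cases h2 : u' ∈ J.biUnion id
  · left
    refine ⟨h1, h2, ?_⟩
    have hn : ({u, u'} : Finset β) ∉ J := fun h => (mem_erase.1 (hJs h)).1 rfl
    have hw2 := hH.weak (insert {u, u'} J) (insert_subset hH.mem (hJs.trans (erase_subset _ _)))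
      (insert_nonempty _ _)
    unfold del th at hw2
    have e1 : (insert {u, u'} J).biUnion id = J.biUnion id := by
      rw [biUnion_insert]
      apply union_eq_right.2
      intro z hz
      simp only [id, mem_insert, mem_singleton] at hz
      rcases hz with rfl | rfl
      · exact h1
      · exact h2
    rw [e1, card_insert_of_notMem hn] at hw2
    have e2 : J.biUnion id ∩ {u, u'} = {u, u'} := by
      apply inter_eq_right.2
      intro z hz
      simp only [mem_insert, mem_singleton] at hz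
      rcases hz with rfl | rfl
      · exact h1
      · exact h2
    rw [e2, card_pair hH.ne] at hsd
    have : ((J.biUnion id).card : ℤ) = (J.biUnion id \ {u, u'}).card + 2 := by
      exact_mod_cast hsd.symm
    rw [this] at hw2
    push_cast at hw2
    linarith
  · right; left
    refine ⟨Or.inl h1, ?_⟩
    have : (J.biUnion id ∩ {u, u'}).card ≤ 1 := by
      refine (card_le_card (t := {u}) ?_).trans (by simp)
      intro z hz
      obtain ⟨z1, z2⟩ := mem_inter.1 hz
      simp only [mem_insert, mem_singleton] at z2 ⊢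
      rcases z2 with rfl | rfl
      · rfl
      · exact absurd z1 h2
    have h3 : ((J.biUnion id).card : ℤ) ≤ (J.biUnion id \ {u, u'}).card + 1 := by
      exact_mod_cast (by omega : (J.biUnion id).card ≤ (J.biUnion id \ {u, u'}).card + 1)
    nlinarith
  · right; left
    refine ⟨Or.inr h2, ?_⟩
    have : (J.biUnion id ∩ {u, u'}).card ≤ 1 := by
      refine (card_le_card (t := {u'}) ?_).trans (by simp)
      intro z hz
      obtain ⟨z1, z2⟩ := mem_inter.1 hz
      simp only [mem_insert, mem_singleton] at z2 ⊢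
      rcases z2 with rfl | rfl
      · exact absurd z1 h1
      · rfl
    have h3 : ((J.biUnion id).card : ℤ) ≤ (J.biUnion id \ {u, u'}).card + 1 := by
      exact_mod_cast (by omega : (J.biUnion id).card ≤ (J.biUnion id \ {u, u'}).card + 1)
    nlinarith
  · right; right
    have : J.biUnion id ∩ {u, u'} = ∅ := by
      apply eq_empty_of_forall_notMem
      intro z hz
      obtain ⟨z1, z2⟩ := mem_inter.1 hz
      simp only [mem_insert, mem_singleton] at z2
      rcases z2 with rfl | rfl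
      · exact h1 z1
      · exact h2 z1
    rw [this, card_empty, add_zero] at hsd
    rw [hsd]
    exact hw

lemma cost_nonneg (hH : HData a b EH u u') (ψ : A → β ↪ 𝕍) (I : Finset (Finset 𝕍)) (α : A) :
    0 ≤ cost a b EH u u' ψ I α := by
  have hab : (b : ℤ) < a := by exact_mod_cast hH.hab
  have hb : (0 : ℤ) < b := by exact_mod_cast hH.hb
  rcases (partI EH u u' ψ I α).eq_empty_or_nonempty with h | h
  · simp [cost, h]
  · rcases cost_cases hH ψ I α h with h | h | h
    · exact h.2.2
    · linarith [h.2]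
    · unfold th at h; linarith

variable (W : 𝕍 → Prop) [DecidablePred W]

lemma comp_core (ψ : A → β ↪ 𝕍) (hW : ∀ α z, W (ψ α z) ↔ z = u ∨ z = u')
    (hdis : ∀ α α' z z', α ≠ α' → ψ α z = ψ α' z' → W (ψ α z))
    (T I : Finset (Finset 𝕍)) (hI : I ⊆ CE EH u u' ψ) :
    (a : ℤ) * (((T ∪ I).biUnion id).filter W).card - b * T.card +
      ∑ α, cost a b EH u u' ψ I α ≤ del a b (T ∪ I) := by
  have hE : (T ∪ I).card ≤ T.card + ∑ α, (partI EH u u' ψ I α).card := by
    refine (card_union_le _ _).trans (Nat.add_le_add_left ?_ _)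
    have : I ⊆ univ.biUnion (fun α => (partI EH u u' ψ I α).image (fun e => e.map (ψ α))) := by
      intro s hs
      obtain ⟨α, e, he, rfl⟩ := mem_CE.1 (hI hs)
      exact mem_biUnion.2 ⟨α, mem_univ _, mem_image_of_mem _ (mem_filter.2 ⟨he, hs⟩)⟩
    refine (card_le_card this).trans (card_biUnion_le.trans ?_)
    exact sum_le_sum (fun α _ => card_image_le)
  have hV : (((T ∪ I).biUnion id).filter W).card +
      ∑ α, (((partI EH u u' ψ I α).biUnion id) \ {u, u'}).card ≤ ((T ∪ I).biUnion id).card := by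
    have h1 : (univ.biUnion (fun α =>
        (((partI EH u u' ψ I α).biUnion id) \ {u, u'}).map (ψ α))).card =
        ∑ α, (((partI EH u u' ψ I α).biUnion id) \ {u, u'}).card := by
      rw [card_biUnion]
      · exact sum_congr rfl (fun α _ => card_map _)
      · intro α _ α' _ hne
        rw [Function.onFun, disjoint_left]
        intro x hx hx'
        obtain ⟨z, hz, rfl⟩ := mem_map.1 hx
        obtain ⟨z', -, hz'⟩ := mem_map.1 hx'
        have := (hW α z).1 (hdis α α' z z' hne hz'.symm)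
        have h2 := (mem_sdiff.1 hz).2
        simp only [mem_insert, mem_singleton] at h2
        exact h2 this
    have h2 : univ.biUnion (fun α =>
        (((partI EH u u' ψ I α).biUnion id) \ {u, u'}).map (ψ α)) ⊆
        ((T ∪ I).biUnion id).filter (fun x => ¬ W x) := by
      intro x hx
      obtain ⟨α, -, hx⟩ := mem_biUnion.1 hx
      obtain ⟨z, hz, rfl⟩ := mem_map.1 hx
      obtain ⟨hz1, hz2⟩ := mem_sdiff.1 hz
      obtain ⟨e, he, hze⟩ := mem_biUnion.1 hz1
      refine mem_filter.2 ⟨mem_biUnion.2 ⟨e.map (ψ α), mem_union_right _ (mem_filter.1 he).2,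
        mem_map_of_mem _ hze⟩, ?_⟩
      rw [hW]
      simpa using hz2
    have h3 := card_filter_add_card_filter_not (s := (T ∪ I).biUnion id) W
    have h4 := card_le_card h2
    omega
  unfold del cost
  rw [sum_sub_distrib, ← mul_sum, ← mul_sum]
  have hE' : ((T ∪ I).card : ℤ) ≤ T.card + ∑ α, ((partI EH u u' ψ I α).card : ℤ) := by
    exact_mod_cast hE
  have hV' : ((((T ∪ I).biUnion id).filter W).card : ℤ) +
      ∑ α, ((((partI EH u u' ψ I α).biUnion id) \ {u, u'}).card : ℤ) ≤
      ((T ∪ I).biUnion id).card := by exact_mod_cast hV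
  have ha0 : (0 : ℤ) ≤ a := by positivity
  have hb0 : (0 : ℤ) ≤ b := by positivity
  nlinarith

lemma root_mem (ψ : A → β ↪ 𝕍) (hW : ∀ α z, W (ψ α z) ↔ z = u ∨ z = u')
    (T I : Finset (Finset 𝕍)) (α : A) (z : β) (hz : z = u ∨ z = u')
    (h : z ∈ (partI EH u u' ψ I α).biUnion id) :
    ψ α z ∈ ((T ∪ I).biUnion id).filter W := by
  obtain ⟨e, he, hze⟩ := mem_biUnion.1 h
  exact mem_filter.2 ⟨mem_biUnion.2 ⟨e.map (ψ α), mem_union_right _ (mem_filter.1 he).2,
    mem_map_of_mem _ hze⟩, (hW α z).2 hz⟩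

lemma cost_ge (hH : HData a b EH u u') (ψ : A → β ↪ 𝕍) (hW : ∀ α z, W (ψ α z) ↔ z = u ∨ z = u')
    (T I : Finset (Finset 𝕍)) (α : A) (hne : (partI EH u u' ψ I α).Nonempty) :
    (2 ≤ (((T ∪ I).biUnion id).filter W).card ∧ ψ α u ∈ ((T ∪ I).biUnion id).filter W ∧
      ψ α u' ∈ ((T ∪ I).biUnion id).filter W) ∨
    (1 ≤ (((T ∪ I).biUnion id).filter W).card ∧ (a : ℤ) - b ≤ cost a b EH u u' ψ I α) ∨
    th a b ≤ cost a b EH u u' ψ I α := by
  rcases cost_cases hH ψ I α hne with h | h | h
  · left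
    have h1 := root_mem W ψ hW T I α u (Or.inl rfl) h.1
    have h2 := root_mem W ψ hW T I α u' (Or.inr rfl) h.2.1
    exact ⟨one_lt_card.2 ⟨_, h1, _, h2, fun e => hH.ne ((ψ α).injective e)⟩, h1, h2⟩
  · right; left
    refine ⟨card_pos.2 ?_, h.2⟩
    rcases h.1 with h1 | h1
    · exact ⟨_, root_mem W ψ hW T I α u (Or.inl rfl) h1⟩
    · exact ⟨_, root_mem W ψ hW T I α u' (Or.inr rfl) h1⟩
  · right; right; exact h

lemma part_nonempty (ψ : A → β ↪ 𝕍) (I : Finset (Finset 𝕍)) (hI : I ⊆ CE EH u u' ψ)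
    (hne : I.Nonempty) : ∃ α, (partI EH u u' ψ I α).Nonempty := by
  obtain ⟨s, hs⟩ := hne
  obtain ⟨α, e, he, rfl⟩ := mem_CE.1 (hI hs)
  exact ⟨α, e, mem_filter.2 ⟨he, hs⟩⟩

lemma supp_le_filter (T I : Finset (Finset 𝕍)) (hT : ∀ e ∈ T, ∀ x ∈ e, W x) :
    T.biUnion id ⊆ ((T ∪ I).biUnion id).filter W := by
  intro x hx
  obtain ⟨e, he, hxe⟩ := mem_biUnion.1 hx
  exact mem_filter.2 ⟨mem_biUnion.2 ⟨e, mem_union_left _ he, hxe⟩, hT e he x hxe⟩

lemma two_le_sum (hH : HData a b EH u u') (ψ : A → β ↪ 𝕍) (I : Finset (Finset 𝕍)) (α α' : A)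
    (hne : α ≠ α') : cost a b EH u u' ψ I α + cost a b EH u u' ψ I α' ≤
      ∑ α, cost a b EH u u' ψ I α := by
  rw [← sum_pair hne]
  exact sum_le_sum_of_subset_of_nonneg (subset_univ _) (fun i _ _ => cost_nonneg hH ψ I i)

lemma one_le_sum (hH : HData a b EH u u') (ψ : A → β ↪ 𝕍) (I : Finset (Finset 𝕍)) (α : A) :
    cost a b EH u u' ψ I α ≤ ∑ α, cost a b EH u u' ψ I α :=
  single_le_sum (fun i _ => cost_nonneg hH ψ I i) (mem_univ α)

/-- weak sparsity -/
lemma comp_weak (hH : HData a b EH u u') (ψ : A → β ↪ 𝕍) (hW : ∀ α z, W (ψ α z) ↔ z = u ∨ z = u')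
    (hdis : ∀ α α' z z', α ≠ α' → ψ α z = ψ α' z' → W (ψ α z))
    (T I : Finset (Finset 𝕍)) (hI : I ⊆ CE EH u u' ψ) (hT : ∀ e ∈ T, ∀ x ∈ e, W x)
    (hT1 : T.Nonempty → th a b ≤ del a b T) (hne : (T ∪ I).Nonempty) :
    th a b ≤ del a b (T ∪ I) := by
  have hc := comp_core (a := a) (b := b) W ψ hW hdis T I hI
  have hs : 0 ≤ ∑ α, cost a b EH u u' ψ I α := sum_nonneg (fun i _ => cost_nonneg hH ψ I i)
  have ha0 : (0 : ℤ) ≤ a := by positivity
  have hab : (b : ℤ) < a := by exact_mod_cast hH.hab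
  have hb : (0 : ℤ) < b := by exact_mod_cast hH.hb
  rcases T.eq_empty_or_nonempty with rfl | hTn
  · rw [empty_union] at hne
    obtain ⟨α, hα⟩ := part_nonempty ψ I hI hne
    have h1 := one_le_sum hH ψ I α
    simp only [card_empty, Nat.cast_zero, mul_zero, sub_zero] at hc
    rcases cost_ge W hH ψ hW ∅ I α hα with h | h | h
    · have : (2 : ℤ) ≤ (((∅ ∪ I).biUnion id).filter W).card := by exact_mod_cast h.1
      unfold th; nlinarith
    · have : (1 : ℤ) ≤ (((∅ ∪ I).biUnion id).filter W).card := by exact_mod_cast h.1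
      unfold th; nlinarith [h.2]
    · have : (0 : ℤ) ≤ (((∅ ∪ I).biUnion id).filter W).card := by positivity
      nlinarith
  · have h1 := hT1 hTn
    have h2 : ((T.biUnion id).card : ℤ) ≤ (((T ∪ I).biUnion id).filter W).card := by
      exact_mod_cast card_le_card (supp_le_filter W T I hT)
    unfold del at h1
    nlinarith

/-- two nonempty parts -/
lemma comp_two (hH : HData a b EH u u') (ψ : A → β ↪ 𝕍) (hW : ∀ α z, W (ψ α z) ↔ z = u ∨ z = u')
    (hdis : ∀ α α' z z', α ≠ α' → ψ α z = ψ α' z' → W (ψ α z))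
    (I : Finset (Finset 𝕍)) (hI : I ⊆ CE EH u u' ψ) (α α' : A) (hne : α ≠ α')
    (h1 : (partI EH u u' ψ I α).Nonempty) (h2 : (partI EH u u' ψ I α').Nonempty) :
    (a : ℤ) * 2 ≤ del a b I ∨ (a : ℤ) * 3 - b * 2 ≤ del a b I := by
  have hc := comp_core (a := a) (b := b) W ψ hW hdis ∅ I hI
  have hs : 0 ≤ ∑ α, cost a b EH u u' ψ I α := sum_nonneg (fun i _ => cost_nonneg hH ψ I i)
  have ha0 : (0 : ℤ) ≤ a := by positivity
  have hab : (b : ℤ) < a := by exact_mod_cast hH.hab
  have hb : (0 : ℤ) < b := by exact_mod_cast hH.hb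
  have h3 := two_le_sum hH ψ I α α' hne
  simp only [card_empty, Nat.cast_zero, mul_zero, sub_zero] at hc
  have h0 : (0 : ℤ) ≤ (((∅ ∪ I).biUnion id).filter W).card := by positivity
  have hu : del a b (∅ ∪ I) = del a b I := by rw [empty_union]
  rw [hu] at hc
  rcases cost_ge W hH ψ hW ∅ I α h1 with h | h | h
  · have : (2 : ℤ) ≤ (((∅ ∪ I).biUnion id).filter W).card := by exact_mod_cast h.1
    left; nlinarith
  · have h5 : (1 : ℤ) ≤ (((∅ ∪ I).biUnion id).filter W).card := by exact_mod_cast h.1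
    rcases cost_ge W hH ψ hW ∅ I α' h2 with h' | h' | h'
    · have : (2 : ℤ) ≤ (((∅ ∪ I).biUnion id).filter W).card := by exact_mod_cast h'.1
      left; nlinarith
    · right; nlinarith [h.2, h'.2]
    · right; unfold th at h'; nlinarith [h.2]
  · rcases cost_ge W hH ψ hW ∅ I α' h2 with h' | h' | h'
    · have : (2 : ℤ) ≤ (((∅ ∪ I).biUnion id).filter W).card := by exact_mod_cast h'.1
      left; nlinarith
    · have h5 : (1 : ℤ) ≤ (((∅ ∪ I).biUnion id).filter W).card := by exact_mod_cast h'.1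
      right; unfold th at h; nlinarith [h'.2]
    · left; unfold th at h h'; nlinarith

/-- strict sparsity -/
lemma comp_strict (hH : HData a b EH u u') (ψ : A → β ↪ 𝕍)
    (hW : ∀ α z, W (ψ α z) ↔ z = u ∨ z = u')
    (hdis : ∀ α α' z z', α ≠ α' → ψ α z = ψ α' z' → W (ψ α z))
    (T I : Finset (Finset 𝕍)) (hI : I ⊆ CE EH u u' ψ) (hT : ∀ e ∈ T, ∀ x ∈ e, W x)
    (hT1 : T.Nonempty → th a b ≤ del a b T) (hT2 : 2 ≤ T.card → th a b < del a b T)
    (hT3 : T.Nonempty → ∀ α, ({ψ α u, ψ α u'} : Finset 𝕍) ∉ T ∧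
      th a b ≤ del a b (insert {ψ α u, ψ α u'} T))
    (h2 : 2 ≤ (T ∪ I).card) : th a b < del a b (T ∪ I) := by
  have hc := comp_core (a := a) (b := b) W ψ hW hdis T I hI
  have hs : 0 ≤ ∑ α, cost a b EH u u' ψ I α := sum_nonneg (fun i _ => cost_nonneg hH ψ I i)
  have ha0 : (0 : ℤ) ≤ a := by positivity
  have hab : (b : ℤ) < a := by exact_mod_cast hH.hab
  have hb : (0 : ℤ) < b := by exact_mod_cast hH.hb
  rcases I.eq_empty_or_nonempty with rfl | hIn
  · rw [union_empty] at h2 ⊢
    exact hT2 h2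
  obtain ⟨α, hα⟩ := part_nonempty ψ I hI hIn
  rcases T.eq_empty_or_nonempty with rfl | hTn
  · rw [empty_union] at h2 ⊢
    by_cases hoth : ∃ α', α' ≠ α ∧ (partI EH u u' ψ I α').Nonempty
    · obtain ⟨α', hne, hα'⟩ := hoth
      rcases comp_two W hH ψ hW hdis I hI α α' hne.symm hα hα' with h | h
      · unfold th; linarith
      · unfold th; linarith
    · push Not at hoth
      have him : (partI EH u u' ψ I α).image (fun e => e.map (ψ α)) = I := by
        ext s
        constructor
        · intro hs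
          obtain ⟨e, he, rfl⟩ := mem_image.1 hs
          exact (mem_filter.1 he).2
        · intro hs
          obtain ⟨α', e, he, rfl⟩ := mem_CE.1 (hI hs)
          have hm : e ∈ partI EH u u' ψ I α' := mem_filter.2 ⟨he, hs⟩
          by_cases hα' : α' = α
          · subst hα'; exact mem_image_of_mem _ hm
          · rw [hoth α' hα'] at hm; exact absurd hm (notMem_empty _)
      have h3 := hH.strict (partI EH u u' ψ I α) (filter_subset _ _)
        (by rw [← card_image_map (ψ α), him]; exact h2)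
      rwa [← del_image_map a b (ψ α), him] at h3
  · have h1 := hT1 hTn
    have h4 : ((T.biUnion id).card : ℤ) ≤ (((T ∪ I).biUnion id).filter W).card := by
      exact_mod_cast card_le_card (supp_le_filter W T I hT)
    have h5 := one_le_sum hH ψ I α
    rcases cost_ge W hH ψ hW T I α hα with h | h | h
    · obtain ⟨hn, h6⟩ := hT3 hTn α
      have h7 : (insert ({ψ α u, ψ α u'} : Finset 𝕍) T).biUnion id ⊆
          ((T ∪ I).biUnion id).filter W := by
        rw [biUnion_insert]
        refine union_subset ?_ (supp_le_filter W T I hT)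
        intro x hx
        simp only [id, mem_insert, mem_singleton] at hx
        rcases hx with rfl | rfl
        · exact h.2.1
        · exact h.2.2
      have h8 : (((insert ({ψ α u, ψ α u'} : Finset 𝕍) T).biUnion id).card : ℤ) ≤
          (((T ∪ I).biUnion id).filter W).card := by exact_mod_cast card_le_card h7
      unfold del at h6
      rw [card_insert_of_notMem hn] at h6
      push_cast at h6
      nlinarith
    · unfold del at h1
      nlinarith [h.2]
    · unfold del at h1
      unfold th at h h1 ⊢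
      nlinarith

end comp

end Pool.Agent.MP_1c0fc2_co
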