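import Mathlib

/-! Counting lemmas for chains of finite sets. -/

namespace Pool.Agent.MP_1c0fc2_co

open Finset Nat

variable {V : Type} [DecidableEq V]

theorem sum_fact (R : Finset V) (a b : ℕ) :
    (∑ E ∈ R.powerset, (a + E.card)! * (b + (R.card - E.card))!) * (a + b + 1)! =
      (a + b + R.card + 1)! * a ! * b ! := by
  induction R using Finset.induction_on generalizing a b with
  | empty => simp; ring
  | insert x R hx ih =>
    rw [Finset.sum_powerset_insert hx, card_insert_of_notMem hx]
    have h1 : ∑ E ∈ R.powerset, (a + E.card)! * (b + (R.card + 1 - E.card))! =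
        ∑ E ∈ R.powerset, (a + E.card)! * (b + 1 + (R.card - E.card))! := by
      refine sum_congr rfl fun E hE => ?_
      have := card_le_card (mem_powerset.1 hE)
      congr 2
      omega
    have h2 : ∑ E ∈ R.powerset, (a + (insert x E).card)! * (b + (R.card + 1 - (insert x E).card))! =
        ∑ E ∈ R.powerset, (a + 1 + E.card)! * (b + (R.card - E.card))! := by
      refine sum_congr rfl fun E hE => ?_
      have hxE : x ∉ E := fun h => hx (mem_powerset.1 hE h)
      rw [card_insert_of_notMem hxE]
      congr 2 <;> omega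
    rw [h1, h2]
    have e1 := ih a (b + 1)
    have e2 := ih (a + 1) b
    have hpos : 0 < a + b + 2 := by omega
    apply Nat.eq_of_mul_eq_mul_left hpos
    rw [show a + (b + 1) + 1 = (a + b + 1) + 1 by ring, Nat.factorial_succ (a + b + 1),
      show a + (b + 1) + R.card + 1 = a + b + (R.card + 1) + 1 by ring,
      Nat.factorial_succ b] at e1
    rw [show a + 1 + b + 1 = (a + b + 1) + 1 by ring, Nat.factorial_succ (a + b + 1),
      show a + 1 + b + R.card + 1 = a + b + (R.card + 1) + 1 by ring,
      Nat.factorial_succ a] at e2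
    generalize (∑ E ∈ R.powerset, (a + E.card)! * (b + 1 + (R.card - E.card))!) = X at *
    generalize (∑ E ∈ R.powerset, (a + 1 + E.card)! * (b + (R.card - E.card))!) = Y at *
    generalize (a + b + (R.card + 1) + 1)! = P at *
    calc (a + b + 2) * ((X + Y) * (a + b + 1)!)
        = X * ((a + b + 1 + 1) * (a + b + 1)!) + Y * ((a + b + 1 + 1) * (a + b + 1)!) := by ring
      _ = _ := by rw [e1, e2]; ring

open Classical in
/-- Number of orderings of `D` in which `p` first holds at the very end. -/
noncomputable def cc (p : Finset V → Prop) (D : Finset V) : ℕ :=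
  (if D = ∅ ∧ p D then 1 else 0) +
    ∑ x ∈ D, if p D ∧ ¬ p (D.erase x) then (D.card - 1)! else 0

theorem cc_pos {p : Finset V → Prop} {D : Finset V} (h : cc p D ≠ 0) : p D := by
  by_contra hp
  apply h
  simp [cc, hp]

open Classical in
theorem lym (p : Finset V → Prop) (hp : ∀ A B, A ⊆ B → p A → p B) (R : Finset V) :
    ∑ D ∈ R.powerset, cc p D * (R.card - D.card)! = if p R then R.card ! else 0 := by
  induction R using Finset.strongInduction with
  | H R ih =>
    have h1 : ∀ D ∈ R.powerset, cc p D * (R.card - D.card)! =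
        (if D = R then cc p R else 0) +
          ∑ x ∈ R, if x ∉ D then cc p D * (R.card - 1 - D.card)! else 0 := by
      intro D hD
      have hDR := mem_powerset.1 hD
      by_cases h : D = R
      · subst h
        rw [sum_eq_zero (fun x hx => by simp [hx])]
        simp
      · have hlt : D.card < R.card := card_lt_card (hDR.ssubset_of_ne h)
        rw [if_neg h, zero_add, ← sum_filter, sum_const, smul_eq_mul, ← sdiff_eq_filter,
          card_sdiff_of_subset hDR]
        obtain ⟨m, hm⟩ : ∃ m, R.card = D.card + (m + 1) := ⟨R.card - D.card - 1, by omega⟩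
        rw [hm, show D.card + (m + 1) - D.card = m + 1 by omega,
          show D.card + (m + 1) - 1 - D.card = m by omega, Nat.factorial_succ]
        ring
    rw [sum_congr rfl h1, sum_add_distrib, sum_ite_eq' R.powerset R, if_pos (mem_powerset_self R),
      sum_comm]
    have h2 : ∀ x ∈ R, (∑ D ∈ R.powerset,
        if x ∉ D then cc p D * (R.card - 1 - D.card)! else 0) =
        if p (R.erase x) then (R.card - 1)! else 0 := by
      intro x hx
      have := ih (R.erase x) (erase_ssubset hx)
      rw [card_erase_of_mem hx] at this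
      rw [← this, ← sum_filter]
      refine sum_congr ?_ fun _ _ => rfl
      ext D
      simp [subset_erase]
    rw [sum_congr rfl h2, cc, add_assoc, ← sum_add_distrib]
    by_cases hR : p R
    · rw [if_pos hR]
      have h3 : ∀ x ∈ R, ((if p R ∧ ¬ p (R.erase x) then (R.card - 1)! else 0) +
          if p (R.erase x) then (R.card - 1)! else 0) = (R.card - 1)! := by
        intro x _
        by_cases hx : p (R.erase x) <;> simp [hx, hR]
      rw [sum_congr rfl h3, sum_const, smul_eq_mul]
      by_cases he : R = ∅
      · subst he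
        simp [hR]
      · have : 0 < R.card := card_pos.2 (nonempty_iff_ne_empty.2 he)
        rw [if_neg (fun h => he h.1), zero_add, Nat.mul_factorial_pred (by omega)]
    · rw [if_neg hR, if_neg (fun h => hR h.2), zero_add]
      refine sum_eq_zero fun x _ => ?_
      have : ¬ p (R.erase x) := fun h => hR (hp _ _ (erase_subset _ _) h)
      simp [this, hR]

open Classical in
/-- Every maximal chain crosses a monotone property at most once. -/
theorem cross_le (p : Finset V → Prop) (hp : ∀ A B, A ⊆ B → p A → p B) (R : Finset V) :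
    ∑ x ∈ R, ∑ A ∈ (R.erase x).powerset,
      (if ¬ p A ∧ p (insert x A) then A.card ! * (R.card - 1 - A.card)! else 0) ≤
        if p R then R.card ! else 0 := by
  rw [← lym p hp R]
  have h1 : ∀ x ∈ R, ∑ A ∈ (R.erase x).powerset,
      (if ¬ p A ∧ p (insert x A) then A.card ! * (R.card - 1 - A.card)! else 0) =
      ∑ D ∈ R.powerset, if x ∈ D then
        (if p D ∧ ¬ p (D.erase x) then (D.card - 1)! else 0) * (R.card - D.card)! else 0 := by
    intro x hx
    rw [← sum_filter (fun D => x ∈ D)]
    refine sum_bij' (fun A _ => insert x A) (fun D _ => D.erase x) ?_ ?_ ?_ ?_ ?_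
    · intro A hA
      have := subset_erase.1 (mem_powerset.1 hA)
      simp [insert_subset_iff, hx, this.1]
    · intro D hD
      simp only [mem_filter, mem_powerset] at hD ⊢
      exact erase_subset_erase _ hD.1
    · intro A hA
      exact erase_insert (subset_erase.1 (mem_powerset.1 hA)).2
    · intro D hD
      exact insert_erase (mem_filter.1 hD).2
    · intro A hA
      have hxA := (subset_erase.1 (mem_powerset.1 hA)).2
      rw [erase_insert hxA, card_insert_of_notMem hxA]
      by_cases h : ¬ p A ∧ p (insert x A)
      · rw [if_pos h, if_pos ⟨h.2, h.1⟩]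
        congr 2
        omega
      · rw [if_neg h, if_neg (fun h' => h ⟨h'.2, h'.1⟩), zero_mul]
  rw [sum_congr rfl h1, sum_comm]
  refine sum_le_sum fun D hD => ?_
  rw [← sum_filter, cc, add_mul, sum_mul]
  refine le_add_left (le_of_eq (sum_congr ?_ fun _ _ => rfl))
  ext x
  simp only [mem_filter, and_iff_right_iff_imp]
  exact fun h => mem_powerset.1 hD h

open Classical in
/-- The block-moving injection. -/
theorem glue_le (q p₁ p₂ : Finset V → Prop) (hp : ∀ A B, A ⊆ B → p₁ A → p₁ B)
    (h : ∀ A D, D ⊆ A → p₁ D → p₂ (A \ D) → q A) (R : Finset V) :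
    ∑ A ∈ R.powerset, (if ¬ q A then A.card ! * (R.card - A.card)! else 0) ≤
      ∑ A ∈ R.powerset, (if ¬ p₁ A then A.card ! * (R.card - A.card)! else 0) +
      ∑ A ∈ R.powerset, (if ¬ p₂ A then A.card ! * (R.card - A.card)! else 0) := by
  have h1 : ∀ A ∈ R.powerset, (if ¬ q A then A.card ! * (R.card - A.card)! else 0) ≤
      (if ¬ p₁ A then A.card ! * (R.card - A.card)! else 0) +
      ∑ D ∈ A.powerset, if ¬ p₂ (A \ D) then
        cc p₁ D * (A \ D).card ! * (R.card - A.card)! else 0 := by
    intro A _
    by_cases hq : q A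
    · simp [hq]
    by_cases h₁ : p₁ A
    · have := lym p₁ hp A
      rw [if_pos h₁] at this
      rw [if_pos hq, if_neg (not_not.2 h₁), zero_add, ← this, sum_mul]
      refine sum_le_sum fun D hD => ?_
      have hDA := mem_powerset.1 hD
      by_cases hc : cc p₁ D = 0
      · simp [hc]
      · rw [if_pos (fun h₂ => hq (h A D hDA (cc_pos hc) h₂)), card_sdiff_of_subset hDA]
    · simp [hq, h₁]
  refine (sum_le_sum h1).trans ?_
  rw [sum_add_distrib]
  refine Nat.add_le_add_left ?_ _
  have h2 : ∀ B ∈ R.powerset, (∑ D ∈ (R \ B).powerset, if ¬ p₂ B then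
        cc p₁ D * B.card ! * (R.card - B.card - D.card)! else 0) ≤
      if ¬ p₂ B then B.card ! * (R.card - B.card)! else 0 := by
    intro B hB
    by_cases h₂ : p₂ B
    · simp [h₂]
    · simp only [h₂, not_false_eq_true, if_true]
      have := lym p₁ hp (R \ B)
      rw [card_sdiff_of_subset (mem_powerset.1 hB)] at this
      have h3 : ∑ D ∈ (R \ B).powerset, cc p₁ D * (R.card - B.card - D.card)! ≤
          (R.card - B.card)! := by
        rw [this]
        split_ifs <;> simp
      calc _ = B.card ! * ∑ D ∈ (R \ B).powerset, cc p₁ D * (R.card - B.card - D.card)! := by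
            rw [mul_sum]
            exact sum_congr rfl fun _ _ => by ring
        _ ≤ _ := Nat.mul_le_mul_left _ h3
  refine le_trans (le_of_eq ?_) (sum_le_sum h2)
  rw [sum_sigma', sum_sigma']
  refine sum_bij' (fun z _ => ⟨z.1 \ z.2, z.2⟩) (fun z _ => ⟨z.1 ∪ z.2, z.2⟩) ?_ ?_ ?_ ?_ ?_
  · rintro ⟨A, D⟩ hz
    simp only [mem_sigma, mem_powerset] at hz ⊢
    refine ⟨sdiff_subset.trans hz.1, fun x hx => ?_⟩
    simp [hz.1 (hz.2 hx), hx]
  · rintro ⟨B, D⟩ hz
    simp only [mem_sigma, mem_powerset] at hz ⊢
    exact ⟨union_subset hz.1 (hz.2.trans sdiff_subset), subset_union_right⟩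
  · rintro ⟨A, D⟩ hz
    simp only [mem_sigma, mem_powerset] at hz
    simp [sdiff_union_of_subset hz.2]
  · rintro ⟨B, D⟩ hz
    simp only [mem_sigma, mem_powerset] at hz
    have : Disjoint B D := by
      rw [disjoint_right]
      intro x hx
      exact (mem_sdiff.1 (hz.2 hx)).2
    simp [union_sdiff_cancel_right this]
  · rintro ⟨A, D⟩ hz
    simp only [mem_sigma, mem_powerset] at hz
    have e1 := card_sdiff_of_subset hz.2
    have e2 := card_le_card hz.2
    have e3 : R.card - (A \ D).card - D.card = R.card - A.card := by omega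
    simp only [e3]

end Pool.Agent.MP_1c0fc2_co
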