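import Mathlib

namespace Pool.Agent.MP_1c0fc2_co

/-- `G` is Ramsey for `H`: whenever the edges of `G` are split into a red graph `R` and the
remaining blue graph `G \ R`, one of the two contains a subgraph isomorphic to `H`. -/
def Arrows {V W : Type} (G : SimpleGraph V) (H : SimpleGraph W) : Prop :=
  ∀ R : SimpleGraph V, R ≤ G → H.IsContained R ∨ H.IsContained (G \ R)

end Pool.Agent.MP_1c0fc2_co
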