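import Pool.Agent.MP_1c0fc2_co.EIface

/-! The robust weighted hypergraph container theorem. -/

namespace Pool.Agent.MP_1c0fc2_co

open Finset

namespace Cont

variable {V : Type} [Fintype V] [DecidableEq V]

lemma wDeg_eq (w : Finset V → ℝ) (S : Finset V) :
    wDeg w S = ∑ e, if S ⊆ e then w e else 0 := by
  unfold wDeg
  rw [sum_filter]

lemma wIn_eq (w : Finset V → ℝ) (I : Finset V) :
    wIn w I = ∑ e, if e ⊆ I then w e else 0 := by
  unfold wIn
  rw [← sum_filter]
  congr 1
  ext e
  simp

lemma wDeg_mono {w w' : Finset V → ℝ} (h : ∀ e, w e ≤ w' e) (S : Finset V) :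
    wDeg w S ≤ wDeg w' S :=
  sum_le_sum fun e _ => h e

lemma wDeg_nonneg {w : Finset V → ℝ} (h : ∀ e, 0 ≤ w e) (S : Finset V) : 0 ≤ wDeg w S :=
  sum_nonneg fun e _ => h e

lemma le_wDeg {w : Finset V → ℝ} (h : ∀ e, 0 ≤ w e) {S e : Finset V} (hS : S ⊆ e) :
    w e ≤ wDeg w S :=
  single_le_sum (f := w) (fun e _ => h e) (by simpa using hS)

lemma exists_of_wDeg_pos {w : Finset V → ℝ} {S : Finset V} (h : 0 < wDeg w S) :
    ∃ e, S ⊆ e ∧ w e ≠ 0 := by
  by_contra hc
  push Not at hc
  have : wDeg w S = 0 := sum_eq_zero fun e he => hc e (by simpa using he)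
  linarith

/-- summing over links of a vertex -/
lemma sum_link (g : Finset V → ℝ) (v : V) :
    ∑ f : Finset V, (if v ∉ f then g (insert v f) else 0) =
      ∑ e : Finset V, if v ∈ e then g e else 0 := by
  rw [← sum_filter, ← sum_filter]
  refine sum_bij' (fun f _ => insert v f) (fun e _ => e.erase v) ?_ ?_ ?_ ?_ ?_
  · intro f _
    simp
  · intro e _
    simp
  · intro f hf
    exact erase_insert (by simpa using hf)
  · intro e he
    exact insert_erase (by simpa using he)
  · intro f _
    rfl

lemma sum_mem_eq (g : Finset V → ℝ) :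
    ∑ v : V, ∑ e : Finset V, (if v ∈ e then g e else 0) = ∑ e : Finset V, (e.card : ℝ) * g e := by
  rw [sum_comm]
  refine sum_congr rfl fun e _ => ?_
  rw [← sum_filter]
  simp

lemma sum_wDeg_all (w : Finset V → ℝ) :
    ∑ S : Finset V, wDeg w S = ∑ e : Finset V, (2 : ℝ) ^ e.card * w e := by
  simp_rw [wDeg_eq]
  rw [sum_comm]
  refine sum_congr rfl fun e _ => ?_
  rw [← sum_filter]
  have : (univ.filter fun S : Finset V => S ⊆ e) = e.powerset := by
    ext S
    simp
  rw [this]
  simp

omit [DecidableEq V] in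
/-- a set of large values is large -/
lemma large_set (g : V → ℝ) (t u s : ℝ) (ht : 0 ≤ t) (hu : ∀ v, g v ≤ u)
    (hs : s ≤ ∑ v, g v) :
    s ≤ ((univ.filter fun v => t ≤ g v).card : ℝ) * u + (Fintype.card V : ℝ) * t := by
  classical
  refine hs.trans ?_
  rw [← sum_filter_add_sum_filter_not univ (fun v => t ≤ g v)]
  refine add_le_add ?_ ?_
  · have := sum_le_card_nsmul (univ.filter fun v => t ≤ g v) g u (fun v _ => hu v)
    simpa using this
  · have h1 := sum_le_card_nsmul (univ.filter fun v => ¬ t ≤ g v) g t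
      (fun v hv => le_of_lt (by simpa using hv))
    have h2 : ((univ.filter fun v => ¬ t ≤ g v).card : ℝ) ≤ (Fintype.card V : ℝ) := by
      exact_mod_cast card_le_univ _
    rw [nsmul_eq_mul] at h1
    exact h1.trans (mul_le_mul_of_nonneg_right h2 ht)

/-- the hypotheses of the container theorem -/
structure Hyp (k : ℕ) (K : ℝ) (w : Finset V → ℝ) (N M x : ℝ) (b : ℕ) : Prop where
  nn : ∀ e, 0 ≤ w e
  unif : ∀ e, w e ≠ 0 → e.card = k
  tot : ∑ e, w e = M
  pos : 0 < M
  card : (Fintype.card V : ℝ) ≤ N
  b1 : 1 ≤ b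
  bx : (b : ℝ) ≤ x * N
  deg : ∀ S : Finset V, S.Nonempty → wDeg w S ≤ K * ((b : ℝ) / N) ^ (S.card - 1) * M / N

lemma Hyp.nonempty {k : ℕ} {K : ℝ} {w : Finset V → ℝ} {N M x : ℝ} {b : ℕ}
    (h : Hyp (k + 1) K w N M x b) : Nonempty V := by
  have : ∃ e, w e ≠ 0 := by
    by_contra hc
    push Not at hc
    have h1 := h.tot
    have h2 := h.pos
    simp [hc] at h1
    linarith
  obtain ⟨e, he⟩ := this
  have h3 := h.unif e he
  obtain ⟨v, _⟩ : e.Nonempty := card_pos.1 (by omega)
  exact ⟨v⟩

lemma Hyp.Npos {k : ℕ} {K : ℝ} {w : Finset V → ℝ} {N M x : ℝ} {b : ℕ}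
    (h : Hyp (k + 1) K w N M x b) : 0 < N := by
  have := h.nonempty
  have h1 : (0 : ℝ) < Fintype.card V := by exact_mod_cast Fintype.card_pos
  linarith [h.card]

lemma Hyp.xpos {k : ℕ} {K : ℝ} {w : Finset V → ℝ} {N M x : ℝ} {b : ℕ}
    (h : Hyp (k + 1) K w N M x b) : 0 < x := by
  have h1 : (1 : ℝ) ≤ b := by exact_mod_cast h.b1
  have h2 := h.bx
  have h3 := h.Npos
  by_contra hc
  push Not at hc
  nlinarith

/-- the conclusion of the basic lemma -/
def Concl (k : ℕ) (δ A : ℝ) (w : Finset V → ℝ) (N M x : ℝ) (b : ℕ) : Prop :=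
  ∃ DD : Finset (Finset V), DD.Nonempty ∧ DD.card ≤ (Fintype.card V + 1) ^ (k * b) ∧
    (∀ D ∈ DD, δ * N ≤ (D.card : ℝ) ∧ ∀ v ∈ D, 0 < wDeg w {v}) ∧
    ∀ I : Finset V, wIn w I ≤ x ^ (k + 1) * M → ∃ D ∈ DD, ((I ∩ D).card : ℝ) ≤ A * x * N

lemma basic_one {K : ℝ} (hK : 1 ≤ K) {w : Finset V → ℝ} {N M x : ℝ} {b : ℕ}
    (h : Hyp (0 + 1) K w N M x b) : Concl 0 (1 / (2 * K)) 2 w N M x b := by
  classical
  have hN := h.Npos
  have hM := h.pos
  have ht : 0 < M / (2 * N) := by positivity
  refine ⟨{univ.filter fun v => M / (2 * N) ≤ wDeg w {v}}, by simp, by simp, ?_, ?_⟩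
  · intro D hD
    rw [mem_singleton] at hD
    subst hD
    refine ⟨?_, fun v hv => lt_of_lt_of_le ht (by simpa using hv)⟩
    have h1 : M ≤ ∑ v, wDeg w {v} := by
      simp_rw [wDeg_eq, singleton_subset_iff]
      rw [sum_mem_eq, ← h.tot]
      refine le_of_eq (sum_congr rfl fun e _ => ?_)
      by_cases he : w e = 0
      · simp [he]
      · simp [h.unif e he]
    have h2 := large_set (fun v => wDeg w {v}) (M / (2 * N)) (K * M / N) M ht.le
      (fun v => by simpa using h.deg {v} (by simp)) h1
    set d : ℝ := ((univ.filter fun v => M / (2 * N) ≤ wDeg w {v}).card : ℝ)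
    have h3 : (Fintype.card V : ℝ) * (M / (2 * N)) ≤ M / 2 := by
      calc _ ≤ N * (M / (2 * N)) := mul_le_mul_of_nonneg_right h.card ht.le
        _ = M / 2 := by field_simp
    have h4 : M / 2 ≤ d * (K * M / N) := by linarith
    have hK0 : 0 < K := by linarith
    rw [div_mul_eq_mul_div, div_le_iff₀ (by positivity)]
    have h5 : M / 2 * (2 * N / M) ≤ d * (K * M / N) * (2 * N / M) :=
      mul_le_mul_of_nonneg_right h4 (by positivity)
    have h6 : M / 2 * (2 * N / M) = N := by field_simp
    have h7 : d * (K * M / N) * (2 * N / M) = d * (2 * K) := by field_simp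
    linarith
  · intro I hI
    refine ⟨_, mem_singleton_self _, ?_⟩
    set D := univ.filter fun v => M / (2 * N) ≤ wDeg w {v} with hD
    have h1 : ((I ∩ D).card : ℝ) * (M / (2 * N)) ≤ ∑ v ∈ I ∩ D, wDeg w {v} := by
      have := card_nsmul_le_sum (I ∩ D) (fun v => wDeg w {v}) (M / (2 * N))
        (fun v hv => by simpa [hD] using (mem_inter.1 hv).2)
      simpa using this
    have h2 : ∀ v, wDeg w {v} = w {v} := by
      intro v
      unfold wDeg
      refine Finset.sum_eq_single_of_mem (f := w) ({v} : Finset V)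
        (mem_filter.2 ⟨mem_univ _, Subset.refl _⟩) ?_
      intro e he hne
      by_contra hc
      have h3 := h.unif e hc
      have h4 : {v} ⊆ e := by simpa using he
      exact hne (eq_of_subset_of_card_le h4 (by rw [h3, card_singleton])).symm
    have h3 : ∑ v ∈ I ∩ D, wDeg w {v} ≤ wIn w I := by
      simp_rw [h2]
      unfold wIn
      rw [← sum_image (s := I ∩ D) (g := fun v => ({v} : Finset V)) (f := w)
        (fun a _ b _ hab => singleton_injective hab)]
      refine sum_le_sum_of_subset_of_nonneg ?_ fun e _ _ => h.nn e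
      intro e he
      obtain ⟨v, hv, rfl⟩ := mem_image.1 he
      simpa using (mem_inter.1 hv).1
    have h4 : ((I ∩ D).card : ℝ) * (M / (2 * N)) ≤ x * M := by
      have := h1.trans (h3.trans hI)
      simpa using this
    have h5 := mul_le_mul_of_nonneg_right h4 (show 0 ≤ 2 * N / M by positivity)
    have h6 : ((I ∩ D).card : ℝ) * (M / (2 * N)) * (2 * N / M) = (I ∩ D).card := by field_simp
    have h7 : x * M * (2 * N / M) = 2 * x * N := by field_simp
    linarith

/-- no nonempty subset is saturated -/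
def Good (thr w' : Finset V → ℝ) (f : Finset V) : Prop :=
  ∀ S ⊆ f, S.Nonempty → wDeg w' S < thr S

open Classical in
/-- the weight added to `f` when the link of `v` is examined -/
noncomputable def inc (thr w w' : Finset V → ℝ) (v : V) (f : Finset V) : ℝ :=
  if v ∉ f ∧ Good thr w' f then w (insert v f) else 0

/-- good degree -/
noncomputable def gd (thr w w' : Finset V → ℝ) (v : V) : ℝ := ∑ f, inc thr w w' v f

/-- one step of the algorithm -/
noncomputable def step (thr w w' : Finset V → ℝ) (v : V) : Finset V → ℝ :=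
  fun f => w' f + inc thr w w' v f

lemma inc_nonneg {thr w w' : Finset V → ℝ} (h : ∀ e, 0 ≤ w e) (v : V) (f : Finset V) :
    0 ≤ inc thr w w' v f := by
  unfold inc
  split_ifs
  · exact h _
  · exact le_rfl

lemma inc_le {thr w w' : Finset V → ℝ} (h : ∀ e, 0 ≤ w e) (v : V) (f : Finset V) :
    inc thr w w' v f ≤ if v ∉ f then w (insert v f) else 0 := by
  unfold inc
  by_cases h1 : v ∈ f
  · simp [h1]
  · by_cases h2 : Good thr w' f
    · simp [h1, h2]
    · simp [h1, h2, h]

lemma gd_step_le {thr w w' : Finset V → ℝ} (h : ∀ e, 0 ≤ w e) (u v : V) :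
    gd thr w (step thr w w' u) v ≤ gd thr w w' v := by
  refine sum_le_sum fun f _ => ?_
  have hg : Good thr (step thr w w' u) f → Good thr w' f := fun hg S hS hne =>
    lt_of_le_of_lt (wDeg_mono (fun e => le_add_of_nonneg_right (inc_nonneg h u e)) S)
      (hg S hS hne)
  by_cases h1 : v ∉ f ∧ Good thr (step thr w w' u) f
  · have h2 : v ∉ f ∧ Good thr w' f := ⟨h1.1, hg h1.2⟩
    unfold inc
    rw [if_pos h1, if_pos h2]
  · have : inc thr w (step thr w w' u) v f = 0 := by
      unfold inc
      rw [if_neg h1]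
    rw [this]
    exact inc_nonneg h v f

lemma gd_le {thr w w' : Finset V → ℝ} (h : ∀ e, 0 ≤ w e) (v : V) :
    gd thr w w' v ≤ wDeg w {v} := by
  refine (sum_le_sum fun f _ => inc_le h v f).trans ?_
  rw [sum_link, wDeg_eq]
  simp

/-- degree of a vertex inside `I` -/
noncomputable def dIn (w : Finset V → ℝ) (I : Finset V) (v : V) : ℝ :=
  ∑ e : Finset V, if v ∈ e then (if e ⊆ I then w e else 0) else 0

lemma wIn_step_le {thr w w' : Finset V → ℝ} (h : ∀ e, 0 ≤ w e) {I : Finset V} {v : V}
    (hv : v ∈ I) : wIn (step thr w w' v) I ≤ wIn w' I + dIn w I v := by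
  rw [wIn_eq, wIn_eq, dIn, ← sum_link, ← sum_add_distrib]
  refine sum_le_sum fun f _ => ?_
  have h1 := inc_le (thr := thr) (w' := w') h v f
  by_cases hf : f ⊆ I
  · have h2 : insert v f ⊆ I := insert_subset hv hf
    simp only [hf, h2, if_true, step]
    linarith
  · have h2 : ¬ insert v f ⊆ I := fun hc => hf ((subset_insert _ _).trans hc)
    simp [hf, h2]

/-- invariant of the algorithm -/
structure Inv (K : ℝ) (thr w w' : Finset V → ℝ) : Prop where
  nn : ∀ f, 0 ≤ w' f
  supp : ∀ f, w' f ≠ 0 → ∃ v, v ∉ f ∧ w (insert v f) ≠ 0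
  deg : ∀ S : Finset V, S.Nonempty → wDeg w' S ≤ (K + 1) * thr S

lemma Inv.step {K : ℝ} {thr w w' : Finset V → ℝ} (hK : 0 ≤ K) (h : ∀ e, 0 ≤ w e)
    (hthr : ∀ S, 0 ≤ thr S)
    (hdeg : ∀ (S : Finset V) (v : V), v ∉ S → wDeg w (insert v S) ≤ K * thr S)
    (hi : Inv K thr w w') (v : V) : Inv K thr w (step thr w w' v) := by
  refine ⟨fun f => add_nonneg (hi.nn f) (inc_nonneg h v f), ?_, ?_⟩
  · intro f hf
    by_cases h1 : w' f = 0
    · have h2 : inc thr w w' v f ≠ 0 := by
        intro hc
        apply hf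
        simp [Cont.step, h1, hc]
      unfold inc at h2
      split_ifs at h2 with h3
      · exact ⟨v, h3.1, h2⟩
      · exact absurd rfl h2
    · exact hi.supp f h1
  · intro S hS
    have hsplit : wDeg (Cont.step thr w w' v) S = wDeg w' S + wDeg (inc thr w w' v) S := by
      unfold wDeg Cont.step
      rw [sum_add_distrib]
    rw [hsplit]
    by_cases hsat : wDeg w' S < thr S
    · have h1 : wDeg (inc thr w w' v) S ≤ K * thr S := by
        by_cases hv : v ∈ S
        · have : wDeg (inc thr w w' v) S = 0 := by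
            refine sum_eq_zero fun f hf => ?_
            have h2 : S ⊆ f := by simpa using hf
            unfold inc
            rw [if_neg (fun hc => hc.1 (h2 hv))]
          rw [this]
          exact mul_nonneg hK (hthr S)
        · refine le_trans ?_ (hdeg S v hv)
          have h3 : wDeg w (insert v S) =
              ∑ e : Finset V, if v ∈ e then (if insert v S ⊆ e then w e else 0) else 0 := by
            rw [wDeg_eq]
            refine sum_congr rfl fun e _ => ?_
            by_cases h4 : v ∈ e
            · simp only [h4, if_true]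
            · have : ¬ insert v S ⊆ e := fun hc => h4 (hc (mem_insert_self _ _))
              simp [h4, this]
          rw [h3, ← sum_link, wDeg_eq]
          refine sum_le_sum fun f _ => ?_
          have h1 := inc_le (thr := thr) (w' := w') h v f
          by_cases hf : S ⊆ f
          · have h2 : insert v S ⊆ insert v f := insert_subset_insert v hf
            simp only [hf, h2, if_true]
            exact h1
          · simp only [hf, if_false]
            split_ifs
            · exact le_rfl
            · exact h _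
            · exact le_rfl
      linarith
    · have : wDeg (inc thr w w' v) S = 0 := by
        refine sum_eq_zero fun f hf => ?_
        have h2 : S ⊆ f := by simpa using hf
        unfold inc
        rw [if_neg (fun hc => hsat (hc.2 S h2 hS))]
      rw [this, add_zero]
      exact hi.deg S hS

lemma runs [Nonempty V] {K : ℝ} {thr w : Finset V → ℝ} (hK : 0 ≤ K) (h : ∀ e, 0 ≤ w e)
    (hthr : ∀ S, 0 ≤ thr S)
    (hdeg : ∀ (S : Finset V) (v : V), v ∉ S → wDeg w (insert v S) ≤ K * thr S)
    (lam : ℝ) (i : ℕ) :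
    ∃ WW : Finset (Finset V → ℝ), WW.Nonempty ∧ WW.card ≤ (Fintype.card V) ^ i ∧
      (∀ w' ∈ WW, Inv K thr w w') ∧
      ∀ I J : Finset V, J ⊆ I → J.Nonempty → (∀ v ∈ J, dIn w I v ≤ lam) →
        ∃ w' ∈ WW, wIn w' I ≤ i * lam ∧ ∀ v ∈ J, (i : ℝ) * gd thr w w' v ≤ ∑ f, w' f := by
  classical
  induction i with
  | zero =>
    refine ⟨{0}, by simp, by simp, ?_, ?_⟩
    · intro w' hw'
      rw [mem_singleton] at hw'
      subst hw'
      refine ⟨fun _ => le_rfl, fun f hf => absurd rfl hf, fun S _ => ?_⟩
      have : wDeg (0 : Finset V → ℝ) S = 0 := by simp [wDeg]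
      rw [this]
      exact mul_nonneg (by linarith) (hthr S)
    · intro I J _ _ _
      exact ⟨0, by simp, by simp [wIn], by simp⟩
  | succ i ih =>
    obtain ⟨WW, hne, hcard, hinv, hrun⟩ := ih
    refine ⟨(WW ×ˢ (univ : Finset V)).image fun p => step thr w p.1 p.2, ?_, ?_, ?_, ?_⟩
    · exact (hne.product univ_nonempty).image _
    · refine card_image_le.trans ?_
      rw [card_product, card_univ, pow_succ]
      exact Nat.mul_le_mul_right _ hcard
    · intro w' hw'
      obtain ⟨p, hp, rfl⟩ := mem_image.1 hw'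
      exact (hinv p.1 (mem_product.1 hp).1).step hK h hthr hdeg p.2
    · intro I J hJ hJne hlam
      obtain ⟨w', hw', h1, h2⟩ := hrun I J hJ hJne hlam
      obtain ⟨u, hu, hmax⟩ := exists_max_image J (gd thr w w') hJne
      refine ⟨step thr w w' u, mem_image.2 ⟨(w', u), by simp [hw'], rfl⟩, ?_, ?_⟩
      · have h3 := wIn_step_le (thr := thr) (w' := w') h (hJ hu)
        have h4 := hlam u hu
        push_cast
        linarith
      · intro v hv
        have h3 : ∑ f, step thr w w' u f = ∑ f, w' f + gd thr w w' u := by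
          unfold step gd
          rw [sum_add_distrib]
        have h4 := gd_step_le (thr := thr) (w' := w') h u v
        have h5 := h2 v hv
        have h6 := hmax v hv
        have h7 : (i : ℝ) * gd thr w (step thr w w' u) v ≤ i * gd thr w w' v :=
          mul_le_mul_of_nonneg_left h4 (Nat.cast_nonneg i)
        rw [h3]
        push_cast
        linarith

/-- most of the weight is good when the auxiliary weight is small -/
lemma sum_gd_ge {thr w w' : Finset V → ℝ} (h : ∀ e, 0 ≤ w e) (h0 : w ∅ = 0)
    (h' : ∀ e, 0 ≤ w' e) {R : ℝ} (hR : 0 ≤ R)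
    (hdeg : ∀ S : Finset V, S.Nonempty → wDeg w S ≤ R * thr S) :
    ∑ e, w e - R * ∑ S, wDeg w' S ≤ ∑ v, gd thr w w' v := by
  classical
  have h1 : ∑ e, (if Good thr w' e then w e else 0) ≤ ∑ v, gd thr w w' v := by
    have h2 : ∀ v, ∑ e : Finset V, (if v ∈ e then (if Good thr w' e then w e else 0) else 0) ≤
        gd thr w w' v := by
      intro v
      rw [← sum_link]
      refine sum_le_sum fun f _ => ?_
      by_cases h3 : v ∉ f ∧ Good thr w' (insert v f)
      · have h4 : v ∉ f ∧ Good thr w' f :=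
          ⟨h3.1, fun S hS hne => h3.2 S (hS.trans (subset_insert _ _)) hne⟩
        unfold inc
        rw [if_pos h4, if_pos h3.1, if_pos h3.2]
      · refine le_trans (le_of_eq ?_) (inc_nonneg h v f)
        by_cases h4 : v ∈ f
        · simp [h4]
        · have : ¬ Good thr w' (insert v f) := fun hc => h3 ⟨h4, hc⟩
          simp [this]
    refine le_trans ?_ (sum_le_sum fun v _ => h2 v)
    rw [sum_mem_eq]
    refine sum_le_sum fun e _ => ?_
    rcases e.eq_empty_or_nonempty with rfl | he
    · simp [h0]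
    · have h3 : (1 : ℝ) ≤ e.card := by exact_mod_cast card_pos.2 he
      have h4 : 0 ≤ (if Good thr w' e then w e else 0) := by
        split_ifs
        · exact h e
        · exact le_rfl
      nlinarith
  have h2 : ∑ e, (if Good thr w' e then 0 else w e) ≤ R * ∑ S, wDeg w' S := by
    have h3 : ∑ e, (if Good thr w' e then 0 else w e) ≤
        ∑ S : Finset V, if S.Nonempty ∧ thr S ≤ wDeg w' S then wDeg w S else 0 := by
      have h4 : ∀ S : Finset V, (if S.Nonempty ∧ thr S ≤ wDeg w' S then wDeg w S else 0) =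
          ∑ e : Finset V, if (S.Nonempty ∧ thr S ≤ wDeg w' S) ∧ S ⊆ e then w e else 0 := by
        intro S
        by_cases h5 : S.Nonempty ∧ thr S ≤ wDeg w' S
        · simp only [h5, and_self, true_and, if_true]
          exact wDeg_eq w S
        · simp only [h5, false_and, if_false, sum_const_zero]
      simp_rw [h4]
      rw [sum_comm]
      refine sum_le_sum fun e _ => ?_
      have h5 : ∀ S : Finset V,
          0 ≤ (if (S.Nonempty ∧ thr S ≤ wDeg w' S) ∧ S ⊆ e then w e else 0) := by
        intro S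
        split_ifs
        · exact h e
        · exact le_rfl
      by_cases h6 : Good thr w' e
      · rw [if_pos h6]
        exact sum_nonneg fun S _ => h5 S
      · rw [if_neg h6]
        unfold Good at h6
        push Not at h6
        obtain ⟨S, hS, hne, hsat⟩ := h6
        refine le_trans (le_of_eq ?_) (single_le_sum (fun S _ => h5 S) (mem_univ S))
        rw [if_pos ⟨⟨hne, hsat⟩, hS⟩]
    refine h3.trans ?_
    rw [mul_sum]
    refine sum_le_sum fun S _ => ?_
    split_ifs with h4
    · exact (hdeg S h4.1).trans (mul_le_mul_of_nonneg_left h4.2 hR)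
    · exact mul_nonneg hR (wDeg_nonneg h' S)
  have h3 : ∑ e, w e = ∑ e, (if Good thr w' e then w e else 0) +
      ∑ e, (if Good thr w' e then 0 else w e) := by
    rw [← sum_add_distrib]
    refine sum_congr rfl fun e _ => ?_
    split_ifs <;> simp
  linarith

lemma bad_card {k : ℕ} {K : ℝ} {w : Finset V → ℝ} {N M x : ℝ} {b : ℕ}
    (h : Hyp (k + 1) K w N M x b) {I : Finset V} (hI : wIn w I ≤ x ^ (k + 1) * M) :
    ((I.filter fun v => ¬ dIn w I v ≤ (k + 1) * x ^ k * M / N).card : ℝ) ≤ x * N := by
  have hN := h.Npos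
  have hM := h.pos
  have hx := h.xpos
  set B := I.filter fun v => ¬ dIn w I v ≤ (k + 1) * x ^ k * M / N with hB
  have h0 : ∀ v, 0 ≤ dIn w I v := by
    intro v
    refine sum_nonneg fun e _ => ?_
    split_ifs
    · exact h.nn e
    · exact le_rfl
    · exact le_rfl
  have h1 : (B.card : ℝ) * ((k + 1) * x ^ k * M / N) ≤ ∑ v ∈ B, dIn w I v := by
    have := card_nsmul_le_sum B (dIn w I) ((k + 1) * x ^ k * M / N)
      (fun v hv => le_of_lt (not_le.1 (mem_filter.1 hv).2))
    rwa [nsmul_eq_mul] at this
  have h2 : ∑ v ∈ B, dIn w I v ≤ ∑ v, dIn w I v :=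
    sum_le_sum_of_subset_of_nonneg (subset_univ _) fun v _ _ => h0 v
  have h3 : ∑ v, dIn w I v = (k + 1) * wIn w I := by
    unfold dIn
    rw [sum_mem_eq, wIn_eq, mul_sum]
    refine sum_congr rfl fun e _ => ?_
    by_cases he : w e = 0
    · simp [he]
    · rw [h.unif e he]
      push_cast
      rfl
  have h4 : (B.card : ℝ) * ((k + 1) * x ^ k * M / N) ≤ (k + 1) * (x ^ (k + 1) * M) := by
    refine h1.trans (h2.trans ?_)
    rw [h3]
    exact mul_le_mul_of_nonneg_left hI (by positivity)
  have h5 := mul_le_mul_of_nonneg_right h4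
    (show 0 ≤ N / ((k + 1) * x ^ k * M) by positivity)
  have h6 : (B.card : ℝ) * ((k + 1) * x ^ k * M / N) * (N / ((k + 1) * x ^ k * M)) = B.card := by
    field_simp
  have h7 : ((k : ℝ) + 1) * (x ^ (k + 1) * M) * (N / ((k + 1) * x ^ k * M)) = x * N := by
    field_simp
    ring
  linarith

/-- statement of the basic lemma for uniformity `k + 1` -/
def Basic (k : ℕ) : Prop :=
  ∀ K : ℝ, 1 ≤ K → ∃ δ A : ℝ, 0 < δ ∧ 0 < A ∧
    ∀ (V : Type) [Fintype V] [DecidableEq V] (w : Finset V → ℝ) (N M x : ℝ) (b : ℕ),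
      Hyp (k + 1) K w N M x b → Concl k δ A w N M x b

lemma basic_succ (k : ℕ) (ih : Basic k) : Basic (k + 1) := by
  intro K hK
  have hK0 : 0 < K := by linarith
  set c : ℝ := 1 / (K * 2 ^ (k + 2)) with hc
  have hc0 : 0 < c := by positivity
  have hc4 : c ≤ 1 / 4 := by
    rw [hc]
    refine one_div_le_one_div_of_le (by norm_num) ?_
    have h1 : (4 : ℝ) ≤ 2 ^ (k + 2) := by
      have : (1 : ℝ) ≤ 2 ^ k := one_le_pow₀ (by norm_num)
      rw [pow_add]
      linarith
    nlinarith
  obtain ⟨δ', A', hδ', hA', hih⟩ := ih ((K + 1) / c) (by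
    rw [le_div_iff₀ hc0]
    linarith)
  set r : ℝ := ((k : ℝ) + 2) / c with hr
  have hr1 : 1 ≤ r := by
    rw [hr, le_div_iff₀ hc0]
    have : (0 : ℝ) ≤ k := Nat.cast_nonneg k
    linarith
  refine ⟨min δ' (1 / (4 * K)), max (A' * r) 1, lt_min hδ' (by positivity),
    lt_of_lt_of_le one_pos (le_max_right _ _), ?_⟩
  intro V _ _ w N M x b h
  classical
  have hN := h.Npos
  have hM := h.pos
  have hx := h.xpos
  have hne := h.nonempty
  have hb : (0 : ℝ) < b := by exact_mod_cast h.b1
  set q : ℝ := (b : ℝ) / N with hq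
  have hq0 : 0 < q := by positivity
  set thr : Finset V → ℝ := fun S => q ^ S.card * M / N with hthr
  have hthr0 : ∀ S, 0 ≤ thr S := fun S => by simp only [hthr]; positivity
  have hdeg : ∀ (S : Finset V) (v : V), v ∉ S → wDeg w (insert v S) ≤ K * thr S := by
    intro S v hv
    have h1 := h.deg (insert v S) (insert_nonempty _ _)
    rw [card_insert_of_notMem hv, Nat.add_sub_cancel] at h1
    refine h1.trans (le_of_eq ?_)
    simp only [hthr]
    ring
  set lam : ℝ := (((k + 1 : ℕ) : ℝ) + 1) * x ^ (k + 1) * M / N with hlam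
  obtain ⟨WW, hWne, hWcard, hWinv, hWrun⟩ := runs hK0.le h.nn hthr0 hdeg lam b
  have hAx : x * N ≤ max (A' * r) 1 * x * N := by
    have h1 : (1 : ℝ) ≤ max (A' * r) 1 := le_max_right _ _
    have h2 : 0 < x * N := by positivity
    nlinarith
  -- the family attached to one auxiliary weight function
  have key : ∀ w' : Finset V → ℝ, Inv K thr w w' → ∃ DD : Finset (Finset V), DD.Nonempty ∧
      DD.card ≤ (Fintype.card V + 1) ^ (k * b) ∧
      (∀ D ∈ DD, min δ' (1 / (4 * K)) * N ≤ (D.card : ℝ) ∧ ∀ v ∈ D, 0 < wDeg w {v}) ∧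
      ∀ I J : Finset V, ((I \ J).card : ℝ) ≤ x * N → wIn w' I ≤ b * lam →
        (∀ v ∈ J, (b : ℝ) * gd thr w w' v ≤ ∑ f, w' f) →
        ∃ D ∈ DD, ((I ∩ D).card : ℝ) ≤ max (A' * r) 1 * x * N := by
    intro w' hw'
    have hunif : ∀ f, w' f ≠ 0 → f.card = k + 1 := by
      intro f hf
      obtain ⟨v, hv, hv'⟩ := hw'.supp f hf
      have := h.unif _ hv'
      rw [card_insert_of_notMem hv] at this
      omega
    set M' : ℝ := ∑ f, w' f with hM'
    by_cases hcase : c * q * M ≤ M'
    · have hM'0 : 0 < M' := lt_of_lt_of_le (by positivity) hcase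
      have hqM : q * M ≤ M' / c := by
        rw [le_div_iff₀ hc0]
        linarith
      have hyp : Hyp (k + 1) ((K + 1) / c) w' N M' (r * x) b := by
        refine ⟨hw'.nn, hunif, rfl, hM'0, h.card, h.b1, ?_, ?_⟩
        · have h1 := h.bx
          have h2 : 0 < x * N := by positivity
          nlinarith
        · intro S hS
          refine (hw'.deg S hS).trans ?_
          obtain ⟨s, hs⟩ : ∃ s, S.card = s + 1 :=
            Nat.exists_eq_succ_of_ne_zero (card_pos.2 hS).ne'
          simp only [hthr, hs, Nat.add_sub_cancel, ← hq]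
          calc (K + 1) * (q ^ (s + 1) * M / N) = (K + 1) * q ^ s / N * (q * M) := by ring
            _ ≤ (K + 1) * q ^ s / N * (M' / c) :=
              mul_le_mul_of_nonneg_left hqM (by positivity)
            _ = (K + 1) / c * q ^ s * M' / N := by ring
      obtain ⟨DD, h1, h2, h3, h4⟩ := hih V w' N M' (r * x) b hyp
      refine ⟨DD, h1, h2, ?_, ?_⟩
      · intro D hD
        refine ⟨le_trans (mul_le_mul_of_nonneg_right (min_le_left _ _) hN.le) (h3 D hD).1, ?_⟩
        intro v hv
        obtain ⟨f, hf, hf'⟩ := exists_of_wDeg_pos ((h3 D hD).2 v hv)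
        obtain ⟨u, _, hu'⟩ := hw'.supp f hf'
        exact lt_of_lt_of_le (lt_of_le_of_ne (h.nn _) hu'.symm)
          (le_wDeg h.nn (hf.trans (subset_insert _ _)))
      · intro I J _ hI _
        have h5 : wIn w' I ≤ (r * x) ^ (k + 1) * M' := by
          refine hI.trans ?_
          have h6 : (b : ℝ) * lam = ((k : ℝ) + 2) * x ^ (k + 1) * (q * M) := by
            simp only [hlam, hq]
            push_cast
            ring
          have h7 : r ≤ r ^ (k + 1) := le_self_pow₀ hr1 (by omega)
          calc (b : ℝ) * lam = ((k : ℝ) + 2) * x ^ (k + 1) * (q * M) := h6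
            _ ≤ ((k : ℝ) + 2) * x ^ (k + 1) * (M' / c) :=
              mul_le_mul_of_nonneg_left hqM (by positivity)
            _ = r * (x ^ (k + 1) * M') := by
              rw [hr]
              ring
            _ ≤ r ^ (k + 1) * (x ^ (k + 1) * M') :=
              mul_le_mul_of_nonneg_right h7 (by positivity)
            _ = (r * x) ^ (k + 1) * M' := by
              rw [mul_pow]
              ring
        obtain ⟨D, hD, hD'⟩ := h4 I h5
        refine ⟨D, hD, hD'.trans ?_⟩
        have h6 : A' * r ≤ max (A' * r) 1 := le_max_left _ _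
        have h7 : 0 < x * N := by positivity
        nlinarith
    · push Not at hcase
      have ht : 0 < c * M / N := by positivity
      refine ⟨{univ.filter fun v => c * M / N ≤ gd thr w w' v}, by simp, ?_, ?_, ?_⟩
      · rw [card_singleton]
        exact Nat.one_le_pow _ _ (Nat.succ_pos _)
      · intro D hD
        rw [mem_singleton] at hD
        subst hD
        refine ⟨?_, fun v hv => lt_of_lt_of_le (lt_of_lt_of_le ht (by simpa using hv))
          (gd_le h.nn v)⟩
        have h0 : w ∅ = 0 := by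
          by_contra hc'
          have := h.unif _ hc'
          simp at this
        have h1 := sum_gd_ge (thr := thr) h.nn h0 hw'.nn (R := K / q) (by positivity) (by
          intro S hS
          refine (h.deg S hS).trans (le_of_eq ?_)
          obtain ⟨s, hs⟩ : ∃ s, S.card = s + 1 :=
            Nat.exists_eq_succ_of_ne_zero (card_pos.2 hS).ne'
          simp only [hthr, hs, Nat.add_sub_cancel, ← hq]
          field_simp
          ring)
        have h2 : ∑ S, wDeg w' S = 2 ^ (k + 1) * M' := by
          rw [sum_wDeg_all, hM', mul_sum]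
          refine sum_congr rfl fun e _ => ?_
          by_cases he : w' e = 0
          · simp [he]
          · rw [hunif e he]
        have h3 : K / q * (2 ^ (k + 1) * M') ≤ M / 2 := by
          calc K / q * (2 ^ (k + 1) * M') ≤ K / q * (2 ^ (k + 1) * (c * q * M)) := by
                gcongr
            _ = M / 2 := by
              rw [hc]
              field_simp
              ring
        rw [h.tot, h2] at h1
        have h4 := large_set (gd thr w w') (c * M / N) (K * M / N) (M / 2) ht.le
          (fun v => (gd_le h.nn v).trans (by simpa using h.deg {v} (by simp))) (by linarith)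
        set d : ℝ := ((univ.filter fun v => c * M / N ≤ gd thr w w' v).card : ℝ)
        have h5 : (Fintype.card V : ℝ) * (c * M / N) ≤ M / 4 := by
          calc _ ≤ N * (c * M / N) := mul_le_mul_of_nonneg_right h.card ht.le
            _ = c * M := by field_simp
            _ ≤ 1 / 4 * M := mul_le_mul_of_nonneg_right hc4 hM.le
            _ = M / 4 := by ring
        have h6 : M / 4 ≤ d * (K * M / N) := by linarith
        have h7 : M / 4 * (N / (K * M)) ≤ d * (K * M / N) * (N / (K * M)) :=
          mul_le_mul_of_nonneg_right h6 (by positivity)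
        have h8 : M / 4 * (N / (K * M)) = 1 / (4 * K) * N := by field_simp
        have h9 : d * (K * M / N) * (N / (K * M)) = d := by field_simp
        refine le_trans (mul_le_mul_of_nonneg_right (min_le_right _ _) hN.le) ?_
        linarith
      · intro I J hIJ _ hJ
        refine ⟨_, mem_singleton_self _, le_trans ?_ (hIJ.trans hAx)⟩
        refine Nat.cast_le.2 (card_le_card ?_)
        intro v hv
        obtain ⟨hv1, hv2⟩ := mem_inter.1 hv
        refine mem_sdiff.2 ⟨hv1, fun hvJ => ?_⟩
        have h1 := hJ v hvJ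
        have h2 : c * M / N ≤ gd thr w w' v := by simpa using hv2
        have h3 : (b : ℝ) * (c * M / N) ≤ b * gd thr w w' v :=
          mul_le_mul_of_nonneg_left h2 hb.le
        have h4 : (b : ℝ) * (c * M / N) = c * q * M := by
          rw [hq]
          ring
        linarith
  choose! F hF1 hF2 hF3 hF4 using key
  refine ⟨WW.biUnion F, ?_, ?_, ?_, ?_⟩
  · obtain ⟨w', hw'⟩ := hWne
    obtain ⟨D, hD⟩ := hF1 w' (hWinv w' hw')
    exact ⟨D, mem_biUnion.2 ⟨w', hw', hD⟩⟩
  · refine (card_biUnion_le_card_mul WW F _ fun w' hw' => hF2 w' (hWinv w' hw')).trans ?_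
    rw [Nat.succ_mul, pow_add, mul_comm]
    exact Nat.mul_le_mul_left _ (hWcard.trans (Nat.pow_le_pow_left (Nat.le_succ _) _))
  · intro D hD
    obtain ⟨w', hw', hD'⟩ := mem_biUnion.1 hD
    exact hF3 w' (hWinv w' hw') D hD'
  · intro I hI
    have hbad := bad_card h hI
    set J := I.filter fun v => dIn w I v ≤ lam with hJ
    have hIJ : ((I \ J).card : ℝ) ≤ x * N := by
      refine le_trans (le_of_eq ?_) hbad
      congr 2
      ext v
      simp only [hJ, hlam, mem_sdiff, mem_filter]
      tauto
    rcases J.eq_empty_or_nonempty with hJe | hJne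
    · obtain ⟨w', hw'⟩ := hWne
      obtain ⟨D, hD⟩ := hF1 w' (hWinv w' hw')
      refine ⟨D, mem_biUnion.2 ⟨w', hw', hD⟩, le_trans ?_ (hIJ.trans hAx)⟩
      rw [hJe, sdiff_empty]
      exact Nat.cast_le.2 (card_le_card inter_subset_left)
    · obtain ⟨w', hw', h1, h2⟩ := hWrun I J (filter_subset _ _) hJne
        (fun v hv => (mem_filter.1 hv).2)
      obtain ⟨D, hD, hD'⟩ := hF4 w' (hWinv w' hw') I J hIJ h1 h2
      exact ⟨D, mem_biUnion.2 ⟨w', hw', hD⟩, hD'⟩

lemma basic (k : ℕ) : Basic k := by
  induction k with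
  | zero =>
    intro K hK
    exact ⟨1 / (2 * K), 2, by positivity, by norm_num, fun V _ _ w N M x b h => basic_one hK h⟩
  | succ k ih => exact basic_succ k ih

/-- iteration of the basic lemma -/
lemma iterate {k : ℕ} {K ε δ A : ℝ} (hK : 1 ≤ K) (hε : 0 < ε) (hε1 : ε ≤ 1)
    (hA : 0 < A) {w : Finset V → ℝ} {N M x : ℝ} {b : ℕ} (h : Hyp (k + 1) K w N M x b)
    (hB : ∀ (w : Finset V → ℝ) (M x : ℝ), Hyp (k + 1) (K / ε) w N M x b →
      Concl k δ A w N M x b) (j : ℕ) :
    ∃ CC : Finset (Finset V), CC.card ≤ (Fintype.card V + 1) ^ (k * j * b) ∧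
      (∀ C ∈ CC, wIn w C ≤ ε * M ∨ (C.card : ℝ) ≤ Fintype.card V - j * (δ * N)) ∧
      ∀ I : Finset V, wIn w I ≤ x ^ (k + 1) * M →
        ∃ C ∈ CC, ((I \ C).card : ℝ) ≤ j * (A * (x / ε) * N) := by
  classical
  have hN := h.Npos
  have hM := h.pos
  have hx := h.xpos
  have hstep : 0 ≤ A * (x / ε) * N := by positivity
  have key : ∀ C : Finset V, ∃ G : Finset (Finset V),
      G.card ≤ (Fintype.card V + 1) ^ (k * b) ∧
      (∀ C' ∈ G, wIn w C' ≤ ε * M ∨ (¬ wIn w C ≤ ε * M ∧ (C'.card : ℝ) ≤ C.card - δ * N)) ∧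
      ∀ I : Finset V, wIn w I ≤ x ^ (k + 1) * M →
        ∃ C' ∈ G, ((I \ C').card : ℝ) ≤ (I \ C).card + A * (x / ε) * N := by
    intro C
    by_cases hC : wIn w C ≤ ε * M
    · refine ⟨{C}, ?_, ?_, ?_⟩
      · rw [card_singleton]
        exact Nat.one_le_pow _ _ (Nat.succ_pos _)
      · intro C' hC'
        rw [mem_singleton] at hC'
        exact Or.inl (hC' ▸ hC)
      · intro I _
        exact ⟨C, mem_singleton_self _, by linarith⟩
    · set wC : Finset V → ℝ := fun e => if e ⊆ C then w e else 0 with hwC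
      have hle : ∀ e, wC e ≤ w e := by
        intro e
        simp only [hwC]
        split_ifs
        · exact le_rfl
        · exact h.nn e
      have hlt : ε * M < wIn w C := not_le.1 hC
      have hMle : M ≤ wIn w C / ε := by
        rw [le_div_iff₀ hε]
        linarith
      have hM' : 0 < wIn w C := lt_trans (by positivity) hlt
      have hyp : Hyp (k + 1) (K / ε) wC N (wIn w C) (x / ε) b := by
        refine ⟨?_, ?_, (wIn_eq w C).symm, hM', h.card, h.b1, ?_, ?_⟩
        · intro e
          simp only [hwC]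
          split_ifs
          · exact h.nn e
          · exact le_rfl
        · intro e he
          refine h.unif e fun hc => he ?_
          simp [hwC, hc]
        · refine h.bx.trans (mul_le_mul_of_nonneg_right ?_ hN.le)
          rw [le_div_iff₀ hε]
          nlinarith
        · intro S hS
          refine (wDeg_mono hle S).trans ((h.deg S hS).trans ?_)
          calc K * ((b : ℝ) / N) ^ (S.card - 1) * M / N
              = K * ((b : ℝ) / N) ^ (S.card - 1) / N * M := by ring
            _ ≤ K * ((b : ℝ) / N) ^ (S.card - 1) / N * (wIn w C / ε) :=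
              mul_le_mul_of_nonneg_left hMle (by positivity)
            _ = K / ε * ((b : ℝ) / N) ^ (S.card - 1) * wIn w C / N := by ring
      obtain ⟨DD, _, h2, h3, h4⟩ := hB wC _ _ hyp
      refine ⟨DD.image fun D => C \ D, card_image_le.trans h2, ?_, ?_⟩
      · intro C' hC'
        obtain ⟨D, hD, rfl⟩ := mem_image.1 hC'
        refine Or.inr ⟨hC, ?_⟩
        have hsub : D ⊆ C := by
          intro v hv
          obtain ⟨e, he, he'⟩ := exists_of_wDeg_pos ((h3 D hD).2 v hv)
          have : e ⊆ C := by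
            by_contra hc
            exact he' (by simp [hwC, hc])
          exact this (he (mem_singleton_self v))
        have h5 := card_sdiff_add_card_eq_card hsub
        have h6 : ((C \ D).card : ℝ) + D.card = C.card := by exact_mod_cast h5
        linarith [(h3 D hD).1]
      · intro I hI
        have h5 : wIn wC I ≤ (x / ε) ^ (k + 1) * wIn w C := by
          have h6 : wIn wC I ≤ wIn w I := sum_le_sum fun e _ => hle e
          have h7 : ε ^ (k + 1) ≤ ε := pow_le_of_le_one hε.le hε1 (by omega)
          refine h6.trans (hI.trans ?_)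
          calc x ^ (k + 1) * M ≤ x ^ (k + 1) * (wIn w C / ε) :=
                mul_le_mul_of_nonneg_left hMle (by positivity)
            _ ≤ x ^ (k + 1) * (wIn w C / ε ^ (k + 1)) := by gcongr
            _ = (x / ε) ^ (k + 1) * wIn w C := by
              rw [div_pow]
              ring
        obtain ⟨D, hD, hD'⟩ := h4 I h5
        refine ⟨C \ D, mem_image.2 ⟨D, hD, rfl⟩, ?_⟩
        have h6 : (I \ (C \ D)).card ≤ (I \ C).card + (I ∩ D).card := by
          refine le_trans (card_le_card ?_) (card_union_le _ _)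
          intro v hv
          simp only [mem_sdiff, mem_union, mem_inter] at hv ⊢
          tauto
        have h7 : ((I \ (C \ D)).card : ℝ) ≤ (I \ C).card + (I ∩ D).card := by exact_mod_cast h6
        linarith
  choose G hG1 hG2 hG3 using key
  induction j with
  | zero =>
    refine ⟨{univ}, by simp, ?_, ?_⟩
    · intro C hC
      rw [mem_singleton] at hC
      subst hC
      right
      simp
    · intro I _
      exact ⟨univ, mem_singleton_self _, by simp⟩
  | succ j ih =>
    obtain ⟨CC, h1, h2, h3⟩ := ih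
    refine ⟨CC.biUnion G, ?_, ?_, ?_⟩
    · refine (card_biUnion_le_card_mul CC G _ fun C _ => hG1 C).trans ?_
      have : k * (j + 1) * b = k * j * b + k * b := by ring
      rw [this, pow_add]
      exact Nat.mul_le_mul_right _ h1
    · intro C' hC'
      obtain ⟨C, hC, hC''⟩ := mem_biUnion.1 hC'
      rcases hG2 C C' hC'' with h4 | ⟨h4, h5⟩
      · exact Or.inl h4
      · right
        have h6 := (h2 C hC).resolve_left h4
        push_cast
        linarith
    · intro I hI
      obtain ⟨C, hC, h4⟩ := h3 I hI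
      obtain ⟨C', hC', h5⟩ := hG3 C I hI
      refine ⟨C', mem_biUnion.2 ⟨C, hC, hC'⟩, ?_⟩
      push_cast
      linarith

end Cont

open Cont in
theorem contStmt : ContStmt := by
  intro k K ε hk hK hε
  obtain ⟨k, rfl⟩ : ∃ k', k = k' + 1 := Nat.exists_eq_succ_of_ne_zero (by omega)
  by_cases hε1 : ε ≤ 1
  · obtain ⟨δ, A, hδ, hA, hB⟩ := basic k (K / ε) (by
      rw [le_div_iff₀ hε]
      linarith)
    obtain ⟨j, hj⟩ := exists_nat_gt (1 / δ)
    have hj0 : (0 : ℝ) < j := lt_trans (by positivity) hj
    have hj1 : 1 < j * δ := by rwa [div_lt_iff₀ hδ] at hj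
    refine ⟨k * j, j * A / ε, by positivity, ?_⟩
    intro V _ _ w N M x b h1 h2 h3 h4 h5 h6 h7 h8
    have h : Hyp (k + 1) K w N M x b := ⟨h1, h2, h3, h4, h5, h6, h7, h8⟩
    have hN := h.Npos
    obtain ⟨CC, c1, c2, c3⟩ := iterate hK hε hε1 hA h (fun w M x hw => hB V w N M x b hw) j
    refine ⟨CC, c1, ?_, ?_⟩
    · intro C hC
      refine (c2 C hC).resolve_right fun hc => ?_
      have h9 : (0 : ℝ) ≤ C.card := Nat.cast_nonneg _
      nlinarith
    · intro I hI
      obtain ⟨C, hC, hC'⟩ := c3 I hI
      exact ⟨C, hC, hC'.trans (le_of_eq (by ring))⟩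
  · refine ⟨0, 1, one_pos, ?_⟩
    intro V _ _ w N M x b _ _ h3 h4 _ _ h7 _
    refine ⟨{univ}, by simp, ?_, ?_⟩
    · intro C hC
      rw [mem_singleton] at hC
      subst hC
      have : wIn w univ = M := by
        rw [← h3]
        simp [wIn]
      rw [this]
      nlinarith [not_le.1 hε1]
    · intro I _
      refine ⟨univ, mem_singleton_self _, ?_⟩
      have : (0 : ℝ) ≤ b := Nat.cast_nonneg _
      have h9 : I \ univ = ∅ := sdiff_eq_empty_iff_subset.2 (subset_univ _)
      rw [h9, card_empty, Nat.cast_zero]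
      linarith

end Pool.Agent.MP_1c0fc2_co
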