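import Mathlib

/-! Interface of the sparse Ramsey engine: statements of the three modules. -/

namespace Pool.Agent.MP_1c0fc2_co

open Finset

/-- total weight of the hyperedges inside `I` -/
noncomputable def wIn {V : Type} (w : Finset V → ℝ) (I : Finset V) : ℝ :=
  ∑ e ∈ I.powerset, w e

/-- total weight of the hyperedges containing `S` -/
noncomputable def wDeg {V : Type} [Fintype V] [DecidableEq V] (w : Finset V → ℝ)
    (S : Finset V) : ℝ :=
  ∑ e ∈ univ.filter (fun e : Finset V => S ⊆ e), w e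

/-- robust weighted container theorem -/
def ContStmt : Prop :=
  ∀ (k : ℕ) (K ε : ℝ), 1 ≤ k → 1 ≤ K → 0 < ε → ∃ (T : ℕ) (A : ℝ), 0 < A ∧
    ∀ (V : Type) [Fintype V] [DecidableEq V] (w : Finset V → ℝ) (N M x : ℝ) (b : ℕ),
      (∀ e, 0 ≤ w e) → (∀ e, w e ≠ 0 → e.card = k) → ∑ e, w e = M → 0 < M →
      (Fintype.card V : ℝ) ≤ N → 1 ≤ b → (b : ℝ) ≤ x * N →
      (∀ S : Finset V, S.Nonempty → wDeg w S ≤ K * ((b : ℝ) / N) ^ (S.card - 1) * M / N) →
      ∃ 𝒞 : Finset (Finset V), 𝒞.card ≤ (Fintype.card V + 1) ^ (T * b) ∧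
        (∀ C ∈ 𝒞, wIn w C ≤ ε * M) ∧
        ∀ I : Finset V, wIn w I ≤ x ^ k * M → ∃ C ∈ 𝒞, ((I \ C).card : ℝ) ≤ A * x * N

/-- supersaturated ordered hypergraph Ramsey theorem -/
def SuperStmt : Prop :=
  ∀ (v u t : ℕ), ∃ ε : ℝ, 0 < ε ∧ ∃ n₀ : ℕ, ∀ n : ℕ, n₀ ≤ n →
    ∀ EK : Finset (Finset (Fin v)), (∀ e ∈ EK, e.card = u) →
    ∀ C : Fin t → Finset (Finset (Fin n)),
      (∀ i, (((univ : Finset (Fin v → Fin n)).filter
          (fun f => StrictMono f ∧ ∀ e ∈ EK, e.image f ∈ C i)).card : ℝ) ≤ ε * (n : ℝ) ^ v) →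
      ε * (n : ℝ) ^ u ≤
        ((((univ : Finset (Fin n)).powersetCard u).filter (fun a => ∀ i, a ∉ C i)).card : ℝ)

/-- the engine: a Ramsey system of increasing copies of a sparse ordered hypergraph, in which
small subsystems overlap little -/
def EngineStmt : Prop :=
  ∀ (v u t k₀ a b : ℕ) (EK : Finset (Finset (Fin v))), b < a * u →
    (∀ e ∈ EK, e.card = u) →
    (∀ S ⊆ EK, 2 ≤ S.card →
      ((a : ℤ) * u - b) < (a : ℤ) * (S.biUnion id).card - (b : ℤ) * S.card) →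
    ∃ (n : ℕ) (Φ : Finset (Fin v → Fin n)), (∀ f ∈ Φ, StrictMono f) ∧
      (∀ χ : Finset (Fin n) → Fin t, ∃ f ∈ Φ, ∃ c, ∀ e ∈ EK, χ (e.image f) = c) ∧
      (∀ F ⊆ Φ, F.Nonempty → F.card ≤ k₀ →
        ((a : ℤ) * u - b) + F.card * ((a : ℤ) * v - (b : ℤ) * EK.card - ((a : ℤ) * u - b)) ≤
          (a : ℤ) * (F.biUnion fun f => univ.image f).card -
            (b : ℤ) * (F.biUnion fun f => EK.image (fun e => e.image f)).card)

end Pool.Agent.MP_1c0fc2_co
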