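import Pool.Agent.MP_1c0fc2_co.EIface

/-! Counting increasing copies of an ordered hypergraph. -/

namespace Pool.Agent.MP_1c0fc2_co

open Finset

/-- the `u`-subsets of `Fin n` -/
abbrev EpAt (n u : ℕ) : Type := {A : Finset (Fin n) // A.card = u}

variable {v n : ℕ}

/-- the atoms of a copy -/
def epIm (EK : Finset (Finset (Fin v))) (u : ℕ) (f : Fin v → Fin n) : Finset (EpAt n u) :=
  univ.filter fun A => A.1 ∈ EK.image fun e => e.image f

/-- all increasing maps -/
def epPhi (v n : ℕ) : Finset (Fin v → Fin n) := univ.filter fun f => StrictMono f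

/-- the number of copies with a given set of atoms -/
noncomputable def epW (EK : Finset (Finset (Fin v))) (u n : ℕ) (E : Finset (EpAt n u)) : ℝ :=
  ((epPhi v n).filter fun f => epIm EK u f = E).card

lemma mem_epPhi {f : Fin v → Fin n} : f ∈ epPhi v n ↔ StrictMono f := by simp [epPhi]

lemma mem_epIm {EK : Finset (Finset (Fin v))} {u : ℕ} {f : Fin v → Fin n} {A : EpAt n u} :
    A ∈ epIm EK u f ↔ ∃ e ∈ EK, e.image f = A.1 := by simp [epIm]

lemma ep_card_At (n u : ℕ) : (Fintype.card (EpAt n u) : ℝ) ≤ (n : ℝ) ^ u := by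
  have h : Fintype.card (EpAt n u) = n.choose u := by
    rw [Fintype.card_finset_len, Fintype.card_fin]
  rw [h]
  exact_mod_cast Nat.choose_le_pow n u

lemma ep_image_val {EK : Finset (Finset (Fin v))} {u : ℕ} (hEK : ∀ e ∈ EK, e.card = u)
    {f : Fin v → Fin n} (hf : Function.Injective f) :
    (epIm EK u f).image Subtype.val = EK.image fun e => e.image f := by
  ext A
  simp only [mem_image, mem_epIm]
  constructor
  · rintro ⟨A, ⟨e, he, h⟩, rfl⟩
    exact ⟨e, he, h⟩
  · rintro ⟨e, he, rfl⟩
    exact ⟨⟨e.image f, by rw [card_image_of_injective _ hf, hEK e he]⟩, ⟨e, he, rfl⟩, rfl⟩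

lemma ep_card_im {EK : Finset (Finset (Fin v))} {u : ℕ} (hEK : ∀ e ∈ EK, e.card = u)
    {f : Fin v → Fin n} (hf : Function.Injective f) : (epIm EK u f).card = EK.card := by
  rw [← card_image_of_injective _ Subtype.val_injective, ep_image_val hEK hf,
    card_image_of_injective _ (image_injective hf)]

lemma ep_card_atoms {EK : Finset (Finset (Fin v))} {u : ℕ} (hEK : ∀ e ∈ EK, e.card = u)
    {F : Finset (Fin v → Fin n)} (hF : F ⊆ epPhi v n) :
    (F.biUnion (epIm EK u)).card = (F.biUnion fun f => EK.image fun e => e.image f).card := by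
  rw [← card_image_of_injective _ Subtype.val_injective, biUnion_image]
  congr 1
  exact biUnion_congr rfl fun f hf => ep_image_val hEK (mem_epPhi.1 (hF hf)).injective

lemma ep_sum_W (EK : Finset (Finset (Fin v))) (u n : ℕ) (s : Finset (Finset (EpAt n u))) :
    ∑ E ∈ s, epW EK u n E = ((epPhi v n).filter fun f => epIm EK u f ∈ s).card := by
  simp only [epW]
  exact_mod_cast sum_card_fiberwise_eq_card_filter _ _ _

lemma ep_wIn (EK : Finset (Finset (Fin v))) (u n : ℕ) (I : Finset (EpAt n u)) :
    wIn (epW EK u n) I = ((epPhi v n).filter fun f => epIm EK u f ⊆ I).card := by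
  simp only [wIn, ep_sum_W, mem_powerset]

lemma ep_wDeg (EK : Finset (Finset (Fin v))) (u n : ℕ) (S : Finset (EpAt n u)) :
    wDeg (epW EK u n) S = ((epPhi v n).filter fun f => S ⊆ epIm EK u f).card := by
  simp only [wDeg, ep_sum_W, mem_filter, mem_univ, true_and]

lemma ep_total (EK : Finset (Finset (Fin v))) (u n : ℕ) :
    ∑ E, epW EK u n E = (epPhi v n).card := by
  simp only [ep_sum_W, mem_univ, filter_true]

lemma ep_card_Phi (v n : ℕ) : ((epPhi v n).card : ℝ) ≤ (n : ℝ) ^ v := by
  have := card_le_univ (epPhi v n)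
  rw [Fintype.card_fun, Fintype.card_fin, Fintype.card_fin] at this
  exact_mod_cast this

lemma ep_W_supp {EK : Finset (Finset (Fin v))} {u : ℕ} (hEK : ∀ e ∈ EK, e.card = u)
    (E : Finset (EpAt n u)) (h : epW EK u n E ≠ 0) : E.card = EK.card := by
  obtain ⟨f, hf⟩ : ((epPhi v n).filter fun f => epIm EK u f = E).Nonempty := by
    rw [← card_pos, Nat.pos_iff_ne_zero]
    exact fun h0 => h (by simp [epW, h0])
  rw [mem_filter] at hf
  rw [← hf.2, ep_card_im hEK (mem_epPhi.1 hf.1).injective]

/-- few increasing maps have a given set in their image -/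
lemma ep_cover (U : Finset (Fin n)) :
    ((epPhi v n).filter fun f => U ⊆ univ.image f).card * n ^ U.card ≤ 2 ^ v * v ^ v * n ^ v := by
  have h1 : ((epPhi v n).filter fun f => U ⊆ univ.image f) ⊆
      ((univ : Finset (Fin v)).powersetCard U.card).biUnion fun U' =>
        Fintype.piFinset fun i => if i ∈ U' then U else univ := by
    intro f hf
    rw [mem_filter] at hf
    refine mem_biUnion.2 ⟨univ.filter fun i => f i ∈ U, mem_powersetCard.2 ⟨subset_univ _, ?_⟩,
      Fintype.mem_piFinset.2 fun i => ?_⟩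
    · rw [← card_image_of_injective _ (mem_epPhi.1 hf.1).injective]
      congr 1
      ext y
      simp only [mem_image, mem_filter, mem_univ, true_and]
      constructor
      · rintro ⟨i, hi, rfl⟩; exact hi
      · intro hy
        obtain ⟨i, -, rfl⟩ := mem_image.1 (hf.2 hy)
        exact ⟨i, hy, rfl⟩
    · split_ifs with h
      · exact (mem_filter.1 h).2
      · exact mem_univ _
  refine (Nat.mul_le_mul_right _ ((card_le_card h1).trans card_biUnion_le)).trans ?_
  rw [sum_mul]
  have h2 : ∀ U' ∈ (univ : Finset (Fin v)).powersetCard U.card,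
      (Fintype.piFinset fun i => if i ∈ U' then U else univ).card * n ^ U.card ≤ v ^ v * n ^ v := by
    intro U' hU'
    have hc := (mem_powersetCard.1 hU').2
    have hv : U.card ≤ v := by simpa [hc] using card_le_univ U'
    rw [Fintype.card_piFinset, prod_congr rfl (g := fun i => if i ∈ U' then U.card else n)
      fun i _ => by split_ifs <;> simp, prod_ite, prod_const, prod_const, filter_mem_eq_inter,
      univ_inter, hc, mul_assoc, ← pow_add]
    have h3 : (univ.filter fun i => i ∉ U').card + U.card = v := by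
      have := card_filter_add_card_filter_not (s := univ) fun i => i ∈ U'
      rw [filter_mem_eq_inter, univ_inter, hc, card_univ, Fintype.card_fin] at this
      omega
    rw [h3]
    refine Nat.mul_le_mul_right _ ?_
    rcases Nat.eq_zero_or_pos v with rfl | hv0
    · obtain h0 : U.card = 0 := by omega
      simp [h0]
    · exact (Nat.pow_le_pow_left hv _).trans (Nat.pow_le_pow_right hv0 hv)
  refine (sum_le_card_nsmul _ _ _ h2).trans ?_
  rw [smul_eq_mul, mul_assoc, card_powersetCard, card_univ, Fintype.card_fin]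
  exact Nat.mul_le_mul_right _ (Nat.choose_le_two_pow _ _)

/-- a set of atoms inside a copy is as sparse as the pattern -/
lemma ep_sparse {EK : Finset (Finset (Fin v))} {u a b : ℕ}
    (hsp : ∀ S ⊆ EK, 2 ≤ S.card →
      ((a : ℤ) * u - b) < (a : ℤ) * (S.biUnion id).card - (b : ℤ) * S.card)
    {f : Fin v → Fin n} (hf : Function.Injective f) {S : Finset (EpAt n u)} (hS : S.Nonempty)
    (hSf : S ⊆ epIm EK u f) :
    (S.card = 1 ∧ (S.biUnion Subtype.val).card = u) ∨
      ((a : ℤ) * u - b) < (a : ℤ) * (S.biUnion Subtype.val).card - (b : ℤ) * S.card := by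
  rcases Nat.lt_or_ge S.card 2 with h | h
  · have h1 : S.card = 1 := by have := hS.card_pos; omega
    obtain ⟨A, rfl⟩ := card_eq_one.1 h1
    exact Or.inl ⟨h1, by simp⟩
  right
  have h1 : (EK.filter fun e => e.image f ∈ S.image Subtype.val).image (fun e => e.image f) =
      S.image Subtype.val := by
    ext A
    constructor
    · intro hA
      obtain ⟨e, he, rfl⟩ := mem_image.1 hA
      exact (mem_filter.1 he).2
    · intro hA
      obtain ⟨A', hA', rfl⟩ := mem_image.1 hA
      obtain ⟨e, he, h2⟩ := mem_epIm.1 (hSf hA')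
      exact mem_image.2 ⟨e, mem_filter.2 ⟨he, h2 ▸ hA⟩, h2⟩
  have h2 : (EK.filter fun e => e.image f ∈ S.image Subtype.val).card = S.card := by
    rw [← card_image_of_injective _ (image_injective hf), h1,
      card_image_of_injective _ Subtype.val_injective]
  have h3 : ((EK.filter fun e => e.image f ∈ S.image Subtype.val).biUnion id).card =
      (S.biUnion Subtype.val).card := by
    rw [← card_image_of_injective _ hf, biUnion_image]
    congr 1
    have := congrArg (fun T : Finset (Finset (Fin n)) => T.biUnion id) h1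
    simpa only [image_biUnion, id] using this
  have := hsp _ (filter_subset _ _) (h2 ▸ h)
  rwa [h2, h3] at this

/-- codegrees -/
lemma ep_codeg {EK : Finset (Finset (Fin v))} {u a b : ℕ} (hEK : ∀ e ∈ EK, e.card = u)
    (hsp : ∀ S ⊆ EK, 2 ≤ S.card →
      ((a : ℤ) * u - b) < (a : ℤ) * (S.biUnion id).card - (b : ℤ) * S.card) {q : ℝ} (hq : 0 ≤ q)
    (hn : ∀ m j : ℕ, 1 ≤ j → j ≤ EK.card → (j = 1 ∧ m = u) ∨ ((a : ℤ) * u - b) < a * m - b * j →
      (n : ℝ) ^ u ≤ q ^ (j - 1) * (n : ℝ) ^ m)
    (S : Finset (EpAt n u)) (hS : S.Nonempty) :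
    wDeg (epW EK u n) S * (n : ℝ) ^ u ≤ q ^ (S.card - 1) * (2 ^ v * v ^ v * (n : ℝ) ^ v) := by
  rw [ep_wDeg]
  rcases ((epPhi v n).filter fun f => S ⊆ epIm EK u f).eq_empty_or_nonempty with h | ⟨f, hf⟩
  · rw [h, card_empty, Nat.cast_zero, zero_mul]; positivity
  rw [mem_filter] at hf
  have hi := (mem_epPhi.1 hf.1).injective
  have h1 := hn _ _ hS.card_pos ((card_le_card hf.2).trans (ep_card_im hEK hi).le)
    (ep_sparse hsp hi hS hf.2)
  have h2 : ((epPhi v n).filter fun f => S ⊆ epIm EK u f) ⊆
      (epPhi v n).filter fun f => S.biUnion Subtype.val ⊆ univ.image f := by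
    intro g hg
    rw [mem_filter] at hg ⊢
    refine ⟨hg.1, biUnion_subset.2 fun A hA => ?_⟩
    obtain ⟨e, -, h⟩ := mem_epIm.1 (hg.2 hA)
    exact h ▸ image_subset_image (subset_univ _)
  have h3 : (((epPhi v n).filter fun f => S ⊆ epIm EK u f).card : ℝ) *
      (n : ℝ) ^ (S.biUnion Subtype.val).card ≤ 2 ^ v * v ^ v * (n : ℝ) ^ v := by
    exact_mod_cast (Nat.mul_le_mul_right _ (card_le_card h2)).trans (ep_cover _)
  refine (mul_le_mul_of_nonneg_left h1 (by positivity)).trans ?_
  rw [mul_left_comm]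
  exact mul_le_mul_of_nonneg_left h3 (by positivity)

/-- the number of small families with a given number of vertices -/
lemma ep_fam (hn : 0 < n) (k₀ : ℕ) (𝔅 : Finset (Finset (Fin v → Fin n)))
    (h : ∀ F ∈ 𝔅, F.card ≤ k₀) :
    ∑ F ∈ 𝔅, 1 / (n : ℝ) ^ (F.biUnion fun f => univ.image f).card ≤
      (k₀ * v + 1) * 2 ^ ((k₀ * v) ^ v) := by
  have hn' : (0 : ℝ) < n := by exact_mod_cast hn
  have h1 : ∀ F ∈ 𝔅, (F.biUnion fun f => univ.image f).card ∈ range (k₀ * v + 1) := by
    intro F hF
    rw [mem_range, Nat.lt_succ_iff]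
    refine (card_biUnion_le_card_mul _ _ v fun f _ => card_image_le.trans (by simp)).trans ?_
    exact Nat.mul_le_mul_right _ (h F hF)
  rw [← sum_fiberwise_of_maps_to h1]
  refine (sum_le_card_nsmul _ _ ((2 : ℝ) ^ ((k₀ * v) ^ v)) fun ν hν => ?_).trans
    (by rw [card_range, nsmul_eq_mul]; push_cast; rfl)
  rw [sum_congr rfl (g := fun _ => 1 / (n : ℝ) ^ ν) fun F hF => by rw [(mem_filter.1 hF).2],
    sum_const, nsmul_eq_mul, mul_one_div, div_le_iff₀ (by positivity)]
  have h2 : (𝔅.filter fun F => (F.biUnion fun f => univ.image f).card = ν) ⊆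
      ((univ : Finset (Fin n)).powersetCard ν).biUnion fun U =>
        (Fintype.piFinset fun _ : Fin v => U).powerset := by
    intro F hF
    refine mem_biUnion.2 ⟨_, mem_powersetCard.2 ⟨subset_univ _, (mem_filter.1 hF).2⟩,
      mem_powerset.2 fun f hf => Fintype.mem_piFinset.2 fun i => ?_⟩
    exact mem_biUnion.2 ⟨f, hf, mem_image_of_mem _ (mem_univ i)⟩
  have h3 : (𝔅.filter fun F => (F.biUnion fun f => univ.image f).card = ν).card ≤
      n ^ ν * 2 ^ ((k₀ * v) ^ v) := by
    refine (card_le_card h2).trans ((card_biUnion_le_card_mul _ _ (2 ^ ((k₀ * v) ^ v))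
      fun U hU => ?_).trans (Nat.mul_le_mul_right _ ?_))
    · rw [card_powerset, Fintype.card_piFinset, prod_const, (mem_powersetCard.1 hU).2, card_univ,
        Fintype.card_fin]
      exact Nat.pow_le_pow_right (by norm_num)
        (Nat.pow_le_pow_left (Nat.lt_succ_iff.1 (mem_range.1 hν)) _)
    · rw [card_powersetCard, card_univ, Fintype.card_fin]
      exact Nat.choose_le_pow n ν
  rw [mul_comm]
  exact_mod_cast h3

end Pool.Agent.MP_1c0fc2_co
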