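import Mathlib

/-! The choice of the parameters. -/

namespace Pool.Agent.MP_1c0fc2_co

theorem ep_num (a b u v k k₀ : ℕ) (hb : b < a * u)
    (hG : ((a : ℤ) * u - b) < (a : ℤ) * v - (b : ℤ) * k) :
    ∃ c : ℝ, 0 ≤ c ∧ ∀ S₀ : ℝ, ∃ (n bb : ℕ) (s p p₂ P : ℝ), S₀ ≤ s ∧ 1 ≤ s ∧ s ≤ n ∧ 0 < p ∧ p ≤ 1 ∧
      0 < p₂ ∧ p₂ ≤ 1 ∧ (n : ℝ) ^ u * p = P ∧ s ≤ P ∧ 1 ≤ bb ∧ bb * s * s = P ∧
      (n : ℝ) ^ u + 1 ≤ Real.exp (c * s) ∧
      (∀ m j : ℕ, 1 ≤ j → j ≤ k → (j = 1 ∧ m = u) ∨ ((a : ℤ) * u - b) < a * m - b * j →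
        (n : ℝ) ^ u ≤ (bb / (n : ℝ) ^ u) ^ (j - 1) * (n : ℝ) ^ m) ∧
      p₂ * ((p / s) ^ k * (n : ℝ) ^ v) = P * s ∧
      (∀ ν e φ : ℕ, φ ≤ k₀ → (a : ℤ) * ν - (b : ℤ) * e <
          ((a : ℤ) * u - b) + φ * ((a : ℤ) * v - (b : ℤ) * k - ((a : ℤ) * u - b)) →
        p ^ e * p₂ ^ φ * (n : ℝ) ^ ν ≤ P / s) := by
  obtain ⟨c, hc⟩ : ∃ c : ℕ, c = 2 * k + k₀ * (k + 1) + 2 := ⟨_, rfl⟩
  refine ⟨1 + (c * a * u : ℕ), by positivity, fun S₀ => ?_⟩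
  obtain ⟨s, hs0, hs1⟩ : ∃ s : ℕ, S₀ ≤ s ∧ 1 ≤ s :=
    ⟨⌈S₀⌉₊ + 1, by push_cast; linarith [Nat.le_ceil S₀], by omega⟩
  have hσ : (1 : ℝ) ≤ s := by exact_mod_cast hs1
  have hσ0 : (s : ℝ) ≠ 0 := by positivity
  obtain ⟨E, hE⟩ : ∃ E : ℤ → ℝ, E = fun z => (s : ℝ) ^ z := ⟨_, rfl⟩
  have Eadd : ∀ y z, E y * E z = E (y + z) := fun y z => by simp only [hE, zpow_add₀ hσ0]
  have Ediv : ∀ y z, E y / E z = E (y - z) := fun y z => by simp only [hE, zpow_sub₀ hσ0]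
  have Epow : ∀ y (m : ℕ), E y ^ m = E (y * m) := fun y m => by
    simp only [hE, zpow_mul, zpow_natCast]
  have Emono : ∀ {y z}, y ≤ z → E y ≤ E z := fun h => by
    simp only [hE]; exact zpow_le_zpow_right₀ hσ h
  have E1 : (s : ℝ) = E 1 := by simp [hE]
  have E0 : (1 : ℝ) = E 0 := by simp [hE]
  have Epos : ∀ y, 0 < E y := fun y => by simp only [hE]; positivity
  have Enat : ∀ m : ℕ, ((s ^ m : ℕ) : ℝ) = E m := fun m => by simp [hE]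
  obtain ⟨θ, hθ⟩ : ∃ θ : ℕ, a * u = b + θ + 1 := ⟨a * u - b - 1, by omega⟩
  have hθ' : (a : ℤ) * u - b = θ + 1 := by
    have : (a : ℤ) * u = b + θ + 1 := by exact_mod_cast hθ
    linarith
  obtain ⟨G, hG'⟩ : ∃ G : ℤ, G = (a : ℤ) * v - (b : ℤ) * k - ((a : ℤ) * u - b) := ⟨_, rfl⟩
  have hG1 : 1 ≤ G := by omega
  have hcz : (c : ℤ) = 2 * k + k₀ * (k + 1) + 2 := by exact_mod_cast hc
  have hkk : (0 : ℤ) ≤ k₀ * (k + 1) := by positivity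
  have hc2 : (2 : ℤ) ≤ c := by omega
  have ha : (1 : ℤ) ≤ a := by
    rcases Nat.eq_zero_or_pos a with rfl | h
    · simp at hb
    · exact_mod_cast h
  have hcθ : (0 : ℤ) ≤ c * θ := by positivity
  have hn : ((s ^ (c * a) : ℕ) : ℝ) = E (c * a) := by rw [Enat]; push_cast; rfl
  have hbb : ((s ^ (c * θ + (2 * k + k₀ * (k + 1))) : ℕ) : ℝ) = E (c * (θ + 1) - 2) := by
    rw [Enat]; congr 1; push_cast; linarith
  refine ⟨s ^ (c * a), s ^ (c * θ + (2 * k + k₀ * (k + 1))), s, E (-(c * b)), E (-(c * G - k - 1)),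
    E (c * (θ + 1)), hs0, hσ, ?_, Epos _, ?_, Epos _, ?_, ?_, ?_, Nat.one_le_pow _ _ hs1, ?_, ?_,
    fun m j hj hjk h => ?_, ?_, fun ν e φ hφ h => ?_⟩
  · rw [hn, E1]; exact Emono (by nlinarith)
  · rw [E0]; exact Emono (by simp only [Left.neg_nonpos_iff]; positivity)
  · rw [E0]; exact Emono (by nlinarith)
  · rw [hn, Epow, Eadd, ← hθ']; congr 1; ring
  · rw [E1]; exact Emono (by nlinarith)
  · rw [hbb, E1, Eadd, Eadd]; congr 1; ring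
  · have h1 : (s : ℝ) ≤ Real.exp s := by linarith [Real.add_one_le_exp (s : ℝ)]
    have h2 : ((s ^ (c * a) : ℕ) : ℝ) ^ u ≤ Real.exp ((c * a * u : ℕ) * s) := by
      rw [Real.exp_nat_mul, Nat.cast_pow, ← pow_mul]
      exact pow_le_pow_left₀ (by positivity) h1 _
    have h3 : 1 ≤ Real.exp ((c * a * u : ℕ) * (s : ℝ)) := Real.one_le_exp (by positivity)
    have h4 : 2 ≤ Real.exp s := by linarith [Real.add_one_le_exp (s : ℝ)]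
    rw [add_mul, one_mul, Real.exp_add]
    nlinarith
  · rw [hbb, hn, Epow, Epow, Ediv, Epow, Eadd]
    refine Emono ?_
    rw [Nat.cast_sub hj, ← hθ']
    have hj' : (1 : ℤ) ≤ j := by exact_mod_cast hj
    have hjk' : (j : ℤ) ≤ k := by exact_mod_cast hjk
    rcases h with ⟨rfl, rfl⟩ | h
    · simp
    · have := mul_le_mul_of_nonneg_left (Int.add_one_le_of_lt h) (show (0 : ℤ) ≤ c by positivity)
      push_cast
      nlinarith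
  · rw [hn, E1, Ediv, Epow, Epow, Eadd, Eadd, Eadd, ← hθ', hG']; congr 1; ring
  · rw [hn, E1, Epow, Epow, Epow, Eadd, Eadd, Ediv]
    refine Emono ?_
    rw [← hG', hθ'] at h
    have h1 := mul_le_mul_of_nonneg_left (Int.add_one_le_of_lt h) (show (0 : ℤ) ≤ c by positivity)
    have h2 : (φ : ℤ) * (k + 1) ≤ k₀ * (k + 1) :=
      mul_le_mul_of_nonneg_right (by exact_mod_cast hφ) (by positivity)
    nlinarith

end Pool.Agent.MP_1c0fc2_co
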