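import Pool.Agent.MP_1c0fc2_co.EProb1
import Pool.Agent.MP_1c0fc2_co.EProb2
import Pool.Agent.MP_1c0fc2_co.EProb3

/-! The sparse Ramsey engine from containers and supersaturation. -/

namespace Pool.Agent.MP_1c0fc2_co

open Finset

/-- many atoms lie outside `t` light containers -/
lemma ep_out {v u t n : ℕ} {ε : ℝ} {EK : Finset (Finset (Fin v))}
    (hS : ∀ C : Fin t → Finset (Finset (Fin n)),
      (∀ i, (((univ : Finset (Fin v → Fin n)).filter
          (fun f => StrictMono f ∧ ∀ e ∈ EK, e.image f ∈ C i)).card : ℝ) ≤ ε * (n : ℝ) ^ v) →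
      ε * (n : ℝ) ^ u ≤
        ((((univ : Finset (Fin n)).powersetCard u).filter (fun a => ∀ i, a ∉ C i)).card : ℝ))
    (C : Fin t → Finset (EpAt n u)) (hC : ∀ i, wIn (epW EK u n) (C i) ≤ ε * (n : ℝ) ^ v) :
    ε * (n : ℝ) ^ u ≤ (univ.filter fun A => ∀ i, A ∉ C i).card := by
  refine (hS (fun i => (C i).image Subtype.val) fun i => le_trans ?_ (hC i)).trans ?_
  · rw [ep_wIn, Nat.cast_le]
    refine card_le_card fun f hf => ?_
    rw [mem_filter] at hf ⊢
    refine ⟨mem_epPhi.2 hf.2.1, fun A hA => ?_⟩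
    obtain ⟨e, he, h⟩ := mem_epIm.1 hA
    obtain ⟨A', hA', h'⟩ := mem_image.1 (hf.2.2 e he)
    rwa [← Subtype.ext (h'.trans h)]
  · rw [Nat.cast_le]
    refine le_trans (card_le_card fun A hA => ?_) (card_image_le (f := Subtype.val))
    rw [mem_filter, mem_powersetCard] at hA
    exact mem_image.2 ⟨⟨A, hA.1.2⟩, mem_filter.2 ⟨mem_univ _, fun i hi =>
      hA.2 i (mem_image_of_mem _ hi)⟩, rfl⟩

/-- deleting one member of each bad family -/
lemma ep_delete {α : Type} [DecidableEq α] (Ψ : Finset α) (𝔅 : Finset (Finset α))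
    (hne : ∀ F ∈ 𝔅, F.Nonempty) :
    ∃ D : Finset α, D.card ≤ (𝔅.filter fun F => F ⊆ Ψ).card ∧ ∀ F ∈ 𝔅, ¬ F ⊆ Ψ \ D := by
  rcases 𝔅.eq_empty_or_nonempty with rfl | ⟨F0, hF0⟩
  · exact ⟨∅, by simp, by simp⟩
  have : Nonempty α := ⟨(hne F0 hF0).choose⟩
  choose! g hg using hne
  refine ⟨(𝔅.filter fun F => F ⊆ Ψ).image g, card_image_le, fun F hF h => ?_⟩
  exact (mem_sdiff.1 (h (hg F hF))).2
    (mem_image_of_mem _ (mem_filter.2 ⟨hF, h.trans sdiff_subset⟩))

theorem engine_of (hC : ContStmt) (hS : SuperStmt) : EngineStmt := by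
  intro v u t k₀ a b EK hb hEK hsp
  rcases Nat.eq_zero_or_pos t with rfl | ht
  · exact ⟨0, ∅, by simp, fun χ => (χ ∅).elim0, fun F hF h => absurd (subset_empty.1 hF) h.ne_empty⟩
  rcases Nat.lt_or_ge EK.card 2 with hk | hk
  · refine ⟨v, {id}, by simpa using strictMono_id, fun χ => ⟨id, mem_singleton_self _, ?_⟩,
      fun F hF h _ => ?_⟩
    · rcases EK.eq_empty_or_nonempty with rfl | ⟨e, he⟩
      · exact ⟨⟨0, ht⟩, by simp⟩
      · refine ⟨χ (e.image id), fun e' he' => ?_⟩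
        rw [card_le_one.1 (by omega) e' he' e he]
    · obtain rfl : F = {id} := (subset_singleton_iff.1 hF).resolve_left h.ne_empty
      simp
  have hG : ((a : ℤ) * u - b) < (a : ℤ) * v - (b : ℤ) * EK.card := by
    have h1 := hsp EK Subset.rfl hk
    have h2 : ((EK.biUnion id).card : ℤ) ≤ v := by
      exact_mod_cast (card_le_univ _).trans (Fintype.card_fin v).le
    have := mul_le_mul_of_nonneg_left h2 (show (0 : ℤ) ≤ a by positivity)
    linarith
  obtain ⟨ε₁, hε₁, n₁, hS₁⟩ := hS v u 1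
  obtain ⟨ε, hε, n₀, hS₀⟩ := hS v u t
  obtain ⟨T, A, hA, hC⟩ := hC EK.card (1 + 2 ^ v * v ^ v / ε₁) ε (by omega)
    (le_add_of_nonneg_right (by positivity)) hε
  obtain ⟨c, hc, hnum⟩ := ep_num a b u v EK.card k₀ hb hG
  obtain ⟨C₂, hC₂⟩ : ∃ C₂ : ℝ, C₂ = (k₀ * v + 1) * 2 ^ ((k₀ * v) ^ v) := ⟨_, rfl⟩
  have hC₂0 : 0 < C₂ := by rw [hC₂]; positivity
  obtain ⟨n, bb, s, p, p₂, P, hs, hs1, hsn, hp0, hp1, hq0, hq1, hNP, hsP, hbb1, hbb, hexp, hcod,
    hL, hbad⟩ := hnum (n₀ + n₁ + 4 * (T * t * c + t * A) / ε + 8 / ε + 14 / ε₁ + 16 * C₂)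
  have z1 : (0 : ℝ) ≤ n₀ := by positivity
  have z2 : (0 : ℝ) ≤ n₁ := by positivity
  have z3 : 0 ≤ 4 * (T * t * c + t * A) / ε := by positivity
  have z4 : 0 ≤ 8 / ε := by positivity
  have z5 : 0 ≤ 14 / ε₁ := by positivity
  have hs0 : 0 < s := by linarith
  have hP : 0 < P := by linarith
  have hn : (0 : ℝ) < n := by linarith
  have hn₀ : n₀ ≤ n := by exact_mod_cast (show (n₀ : ℝ) ≤ n by linarith)
  have hn₁ : n₁ ≤ n := by exact_mod_cast (show (n₁ : ℝ) ≤ n by linarith)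
  have hN : (0 : ℝ) < (n : ℝ) ^ u := by positivity
  have hM : ε₁ * (n : ℝ) ^ v < (epPhi v n).card := by
    by_contra h
    have h1 := ep_out (hS₁ n hn₁ EK hEK) (fun _ => univ) fun _ => by
      rw [ep_wIn]
      exact le_trans (by exact_mod_cast card_filter_le _ _) (not_lt.1 h)
    simp only [mem_univ, not_true_eq_false, forall_const, filter_false, card_empty,
      Nat.cast_zero] at h1
    have := mul_pos hε₁ hN
    linarith
  have hM0 : (0 : ℝ) < (epPhi v n).card := lt_trans (by positivity) hM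
  have hxN : p / s * (n : ℝ) ^ u = P / s := by rw [← hNP]; ring
  have hbs : bb * s = P / s := by rw [eq_div_iff hs0.ne', hbb]
  obtain ⟨𝒞, h𝒞1, h𝒞2, h𝒞3⟩ := hC (EpAt n u) (epW EK u n) ((n : ℝ) ^ u) (epPhi v n).card (p / s) bb
    (fun e => by simp only [epW]; positivity) (ep_W_supp hEK) (ep_total EK u n) hM0 (ep_card_At n u)
    hbb1 (by rw [hxN, ← hbs]; exact le_mul_of_one_le_right (by positivity) hs1) fun S hS => by
      rw [le_div_iff₀ hN]
      refine (ep_codeg hEK hsp (by positivity) hcod S hS).trans ?_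
      have h1 := mul_le_mul_of_nonneg_left hM.le
        (show (0 : ℝ) ≤ 2 ^ v * (v : ℝ) ^ v / ε₁ by positivity)
      rw [← mul_assoc, div_mul_cancel₀ _ hε₁.ne'] at h1
      have h0 : (0 : ℝ) ≤ (bb / (n : ℝ) ^ u) ^ (S.card - 1) := by positivity
      have h2 := mul_le_mul_of_nonneg_left h1 h0
      have h3 := mul_nonneg h0 hM0.le
      linarith
  obtain ⟨𝔅, h𝔅⟩ : ∃ 𝔅 : Finset (Finset (Fin v → Fin n)), ∀ F, F ∈ 𝔅 ↔ F ⊆ epPhi v n ∧
      F.Nonempty ∧ F.card ≤ k₀ ∧ (a : ℤ) * (F.biUnion fun f => univ.image f).card -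
        (b : ℤ) * (F.biUnion fun f => EK.image (fun e => e.image f)).card < ((a : ℤ) * u - b) +
        F.card * ((a : ℤ) * v - (b : ℤ) * EK.card - ((a : ℤ) * u - b)) :=
    ⟨@filter _ _ (Classical.decPred _) univ, fun F => by
      rw [@mem_filter _ _ (Classical.decPred _)]; exact and_iff_right (mem_univ _)⟩
  obtain ⟨Ω, hΩ1, hΩ2, hΩ3⟩ := ep_sel (V := EpAt n u) (P := P) (W := P / s * C₂)
    (B := t * (A * (P / s))) (η := ε * P) (γ := T * t * c * (P / s)) hp0.le hp1 hP (by positivity)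
    (hNP ▸ mul_le_mul_of_nonneg_right (ep_card_At n u) hp0.le)
    (Fintype.piFinset fun _ : Fin t => 𝒞) (fun C => univ.filter fun A => ∀ i, A ∉ C i)
    (fun C hC' => by
      have h1 := ep_out (hS₀ n hn₀ EK hEK) C fun i =>
        (h𝒞2 _ (Fintype.mem_piFinset.1 hC' i)).trans
          (mul_le_mul_of_nonneg_left (ep_card_Phi v n) hε.le)
      have := mul_le_mul_of_nonneg_left h1 hp0.le
      rw [← hNP]
      linarith)
    (by
      rw [Fintype.card_piFinset, prod_const, card_univ, Fintype.card_fin, Nat.cast_pow]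
      have h1 : (𝒞.card : ℝ) ≤ Real.exp (c * s) ^ (T * bb) :=
        le_trans (by exact_mod_cast h𝒞1) (pow_le_pow_left₀ (by positivity)
          ((add_le_add_left (ep_card_At n u) 1).trans hexp) _)
      refine (pow_le_pow_left₀ (by positivity) h1 t).trans (le_of_eq ?_)
      rw [← pow_mul, ← Real.exp_nat_mul, ← hbs]
      congr 1
      push_cast
      ring)
    (by
      have h1 : 4 * (T * t * c + t * A) ≤ s * ε := by rw [← div_le_iff₀ hε]; linarith
      have h2 : 8 ≤ P * ε := by rw [← div_le_iff₀ hε]; linarith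
      have h3 := mul_le_mul_of_nonneg_right h1 (show 0 ≤ P / s by positivity)
      rw [show s * ε * (P / s) = ε * P by field_simp] at h3
      linarith)
    𝔅 (fun F => F.biUnion (epIm EK u)) (fun F => p₂ ^ F.card) (fun F => by positivity)
    (by
      have h1 := ep_fam (by exact_mod_cast hn) k₀ 𝔅 fun F hF => ((h𝔅 F).1 hF).2.2.1
      rw [← hC₂] at h1
      refine le_trans ?_ (mul_le_mul_of_nonneg_left h1 (by positivity))
      rw [mul_sum]
      refine sum_le_sum fun F hF => ?_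
      obtain ⟨f1, -, f3, f4⟩ := (h𝔅 F).1 hF
      rw [ep_card_atoms hEK f1, mul_one_div, le_div_iff₀ (by positivity)]
      exact hbad _ _ _ f3 f4)
  have heavy : ∀ χ : Finset (Fin n) → Fin t, ∃ i, (p / s) ^ EK.card * (epPhi v n).card <
      wIn (epW EK u n) (Ω.filter fun A => χ A.1 = i) := by
    intro χ
    by_contra h
    push Not at h
    choose C hC1 hC2 using fun i => h𝒞3 _ (h i)
    have h1 := hΩ2 C (Fintype.mem_piFinset.2 hC1)
    have h2 : (Ω ∩ univ.filter fun A => ∀ i, A ∉ C i) ⊆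
        univ.biUnion fun i => (Ω.filter fun A => χ A.1 = i) \ C i := by
      intro x hx
      rw [mem_inter, mem_filter] at hx
      exact mem_biUnion.2 ⟨χ x.1, mem_univ _, mem_sdiff.2 ⟨mem_filter.2 ⟨hx.1, rfl⟩, hx.2.2 _⟩⟩
    have h3 : ((Ω ∩ univ.filter fun A => ∀ i, A ∉ C i).card : ℝ) ≤
        ∑ i, (((Ω.filter fun A => χ A.1 = i) \ C i).card : ℝ) := by
      exact_mod_cast (card_le_card h2).trans card_biUnion_le
    have h4 := h3.trans (sum_le_sum fun i _ => hC2 i)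
    rw [sum_const, card_univ, Fintype.card_fin, nsmul_eq_mul, mul_assoc A, hxN] at h4
    linarith
  obtain ⟨Ψ, -, hΨ2, hΨ3⟩ := ep_sel (V := Fin v → Fin n)
    (P := Fintype.card (Fin v → Fin n) * p₂ + 1) (W := 4 * (P / s * C₂))
    (B := P) (η := ε₁ * (P * s)) (γ := 4 * P) hq0.le hq1 (by positivity) (by positivity)
    (by linarith)
    (Ω.powerset.filter fun I => (p / s) ^ EK.card * (epPhi v n).card < wIn (epW EK u n) I)
    (fun I => (epPhi v n).filter fun f => epIm EK u f ⊆ I)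
    (fun I hI => by
      have h1 := (mem_filter.1 hI).2
      rw [ep_wIn] at h1
      have h2 := mul_le_mul_of_nonneg_left hM.le (show 0 ≤ (p / s) ^ EK.card by positivity)
      have h3 := mul_le_mul_of_nonneg_left (h2.trans h1.le) hq0.le
      rw [← hL]
      linarith)
    (by
      refine le_trans (Nat.cast_le.2 (card_filter_le _ _)) ?_
      rw [card_powerset, Nat.cast_pow]
      refine le_trans (pow_le_pow_left₀ (by positivity) (b := Real.exp 1)
        (by have := Real.add_one_le_exp 1; push_cast; linarith) _) ?_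
      rw [← Real.exp_nat_mul, mul_one]
      exact Real.exp_le_exp.2 hΩ1)
    (by
      have h1 : 14 ≤ s * ε₁ := by rw [← div_le_iff₀ hε₁]; linarith
      have h2 := mul_le_mul_of_nonneg_left h1 hP.le
      linarith)
    (𝔅.filter fun F => F.biUnion (epIm EK u) ⊆ Ω) id (fun _ => 1) (fun _ => zero_le_one)
    (by simpa only [id, mul_one] using hΩ3)
  obtain ⟨D, hD1, hD2⟩ := ep_delete Ψ (𝔅.filter fun F => F.biUnion (epIm EK u) ⊆ Ω)
    fun F hF => ((h𝔅 F).1 (mem_filter.1 hF).1).2.1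
  have hD3 : (D.card : ℝ) ≤ P := by
    simp only [id, sum_const, nsmul_eq_mul, mul_one] at hΨ3
    have h1 : (D.card : ℝ) ≤ 4 * (4 * (P / s * C₂)) := le_trans (by exact_mod_cast hD1) hΨ3
    have h2 := mul_le_mul_of_nonneg_left (show 16 * C₂ ≤ s by linarith)
      (show 0 ≤ P / s by positivity)
    rw [div_mul_cancel₀ _ hs0.ne'] at h2
    linarith
  refine ⟨n, (Ψ \ D).filter fun f => f ∈ epPhi v n ∧ epIm EK u f ⊆ Ω,
    fun f hf => mem_epPhi.1 (mem_filter.1 hf).2.1, fun χ => ?_, fun F hF h1 h2 => ?_⟩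
  · obtain ⟨i, hi⟩ := heavy χ
    have h1 := hΨ2 _ (mem_filter.2 ⟨mem_powerset.2 (filter_subset _ _), hi⟩)
    obtain ⟨f, hf, hfD⟩ := exists_mem_notMem_of_card_lt_card
      (by exact_mod_cast hD3.trans_lt h1 : D.card < _)
    rw [mem_inter, mem_filter] at hf
    refine ⟨f, mem_filter.2 ⟨mem_sdiff.2 ⟨hf.1, hfD⟩, hf.2.1, hf.2.2.trans (filter_subset _ _)⟩,
      i, fun e he => ?_⟩
    have h2 : (e.image f).card = u := by
      rw [card_image_of_injective _ (mem_epPhi.1 hf.2.1).injective, hEK e he]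
    exact (mem_filter.1 (hf.2.2 (mem_epIm.2 ⟨e, he, rfl⟩ : (⟨_, h2⟩ : EpAt n u) ∈ _))).2
  · by_contra h
    refine hD2 F (mem_filter.2 ⟨(h𝔅 F).2 ⟨fun f hf => (mem_filter.1 (hF hf)).2.1, h1, h2,
      not_le.1 h⟩, biUnion_subset.2 fun f hf => (mem_filter.1 (hF hf)).2.2⟩)
      (hF.trans (filter_subset _ _))

end Pool.Agent.MP_1c0fc2_co
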