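import Mathlib

/-! A selection lemma for random subsets of a finite set. -/

namespace Pool.Agent.MP_1c0fc2_co

open Finset

variable {V : Type} [Fintype V] [DecidableEq V]

lemma ep_sum_prod (α β : V → ℝ) :
    ∑ Ω : Finset V, ∏ x, (if x ∈ Ω then α x else β x) = ∏ x, (α x + β x) := by
  rw [Fintype.prod_add]
  refine sum_congr rfl fun Ω _ => ?_
  rw [prod_ite]
  congr 1
  · exact prod_congr (by ext; simp) fun _ _ => rfl
  · exact prod_congr (by ext; simp) fun _ _ => rfl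

/-- the probability of `Ω` when every point is kept with probability `p` -/
noncomputable def epWt (p : ℝ) (Ω : Finset V) : ℝ := ∏ x, if x ∈ Ω then p else 1 - p

lemma epWt_nonneg {p : ℝ} (h0 : 0 ≤ p) (h1 : p ≤ 1) (Ω : Finset V) : 0 ≤ epWt p Ω :=
  prod_nonneg fun x _ => by split_ifs <;> linarith

lemma ep_sum_wt (p : ℝ) : ∑ Ω : Finset V, epWt p Ω = 1 := by
  simp only [epWt]
  rw [ep_sum_prod (fun _ => p) fun _ => 1 - p]
  simp

lemma ep_sum_sub (p : ℝ) (E : Finset V) :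
    ∑ Ω : Finset V, epWt p Ω * (if E ⊆ Ω then 1 else 0) = p ^ E.card := by
  have h : ∀ Ω : Finset V, epWt p Ω * (if E ⊆ Ω then 1 else 0) =
      ∏ x, if x ∈ Ω then p else (if x ∈ E then 0 else 1 - p) := by
    intro Ω
    split_ifs with hE
    · rw [mul_one, epWt]
      refine prod_congr rfl fun x _ => ?_
      by_cases hx : x ∈ Ω
      · simp [hx]
      · rw [if_neg hx, if_neg hx, if_neg fun h => hx (hE h)]
    · obtain ⟨x, hx, hx'⟩ := not_subset.1 hE
      rw [mul_zero, eq_comm]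
      exact prod_eq_zero (mem_univ x) (by simp [hx, hx'])
  simp only [h]
  rw [ep_sum_prod (fun _ => p) fun x => if x ∈ E then 0 else 1 - p,
    prod_congr rfl (g := fun x => if x ∈ E then p else 1) fun x _ => by split_ifs <;> ring]
  simp

lemma ep_sum_exp {p : ℝ} (h0 : 0 ≤ p) (h1 : p ≤ 1) (O : Finset V) :
    ∑ Ω : Finset V, epWt p Ω * Real.exp (-((Ω ∩ O).card : ℝ)) ≤ Real.exp (-(p * O.card / 2)) := by
  have h : ∀ Ω : Finset V, epWt p Ω * Real.exp (-((Ω ∩ O).card : ℝ)) =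
      ∏ x, if x ∈ Ω then p * (if x ∈ O then Real.exp (-1) else 1) else 1 - p := by
    intro Ω
    have h2 : Real.exp (-((Ω ∩ O).card : ℝ)) = ∏ x, if x ∈ Ω ∩ O then Real.exp (-1) else 1 := by
      rw [prod_ite_mem, univ_inter, prod_const, ← Real.exp_nat_mul]
      simp
    rw [h2, epWt, ← prod_mul_distrib]
    refine prod_congr rfl fun x _ => ?_
    by_cases hx : x ∈ Ω <;> simp [hx]
  simp only [h]
  rw [ep_sum_prod (fun x => p * (if x ∈ O then Real.exp (-1) else 1)) fun _ => 1 - p]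
  have he : Real.exp (-1) ≤ 1 / 2 := by
    rw [Real.exp_neg, ← one_div]
    exact one_div_le_one_div_of_le (by norm_num) (by linarith [Real.add_one_le_exp 1])
  have h3 : ∏ x, (p * (if x ∈ O then Real.exp (-1) else 1) + (1 - p)) ≤
      ∏ x, if x ∈ O then Real.exp (-(p / 2)) else 1 := by
    refine prod_le_prod (fun x _ => ?_) fun x _ => ?_
    · have : 0 ≤ p * (if x ∈ O then Real.exp (-1) else 1) :=
        mul_nonneg h0 (by split_ifs <;> positivity)
      linarith
    · split_ifs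
      · have := Real.add_one_le_exp (-(p / 2))
        nlinarith
      · linarith
  refine h3.trans (le_of_eq ?_)
  rw [prod_ite_mem, univ_inter, prod_const, ← Real.exp_nat_mul]
  congr 1
  ring

lemma ep_sum_fam (p : ℝ) {β : Type} (𝔅 : Finset β) (at' : β → Finset V) (y : β → ℝ) :
    ∑ Ω : Finset V, epWt p Ω * ∑ F ∈ 𝔅.filter (fun F => at' F ⊆ Ω), y F =
      ∑ F ∈ 𝔅, p ^ (at' F).card * y F := by
  simp only [sum_filter, mul_sum]
  rw [sum_comm]
  refine sum_congr rfl fun F _ => ?_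
  rw [← ep_sum_sub, sum_mul]
  refine sum_congr rfl fun Ω _ => ?_
  split_ifs <;> simp

/-- There is a small subset meeting all the large sets `O j` and containing few bad sets. -/
theorem ep_sel {p P W B η γ : ℝ} (h0 : 0 ≤ p) (h1 : p ≤ 1) (hP : 0 < P) (hW : 0 < W)
    (hV : Fintype.card V * p ≤ P) {ι β : Type} (J : Finset ι) (O : ι → Finset V)
    (hO : ∀ j ∈ J, η ≤ p * (O j).card) (hJ : (J.card : ℝ) ≤ Real.exp γ) (hγ : γ + B - η / 2 ≤ -2)
    (𝔅 : Finset β) (at' : β → Finset V) (y : β → ℝ) (hy : ∀ F, 0 ≤ y F)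
    (hB : ∑ F ∈ 𝔅, p ^ (at' F).card * y F ≤ W) :
    ∃ Ω : Finset V, (Ω.card : ℝ) ≤ 4 * P ∧ (∀ j ∈ J, B < (Ω ∩ O j).card) ∧
      ∑ F ∈ 𝔅.filter (fun F => at' F ⊆ Ω), y F ≤ 4 * W := by
  have hw := epWt_nonneg (V := V) h0 h1
  have e1 : ∑ Ω : Finset V, epWt p Ω * Ω.card ≤ P := by
    have h := ep_sum_fam p (univ : Finset V) (fun x => {x}) fun _ => 1
    simp only [singleton_subset_iff, filter_mem_eq_inter, univ_inter, sum_const, nsmul_eq_mul,
      mul_one, card_singleton, pow_one, card_univ] at h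
    rwa [h]
  have e2 : ∑ Ω : Finset V, epWt p Ω * ∑ j ∈ J, Real.exp (B - (Ω ∩ O j).card) ≤ 1 / 4 := by
    simp only [mul_sum]
    rw [sum_comm]
    have h2 : ∀ j ∈ J, ∑ Ω : Finset V, epWt p Ω * Real.exp (B - (Ω ∩ O j).card) ≤
        Real.exp (B - η / 2) := fun j hj => by
      simp only [sub_eq_add_neg, Real.exp_add, mul_left_comm _ (Real.exp B), ← mul_sum]
      refine mul_le_mul_of_nonneg_left ((ep_sum_exp h0 h1 _).trans ?_) (by positivity)
      exact Real.exp_le_exp.2 (by linarith [hO j hj])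
    refine (sum_le_sum h2).trans ?_
    rw [sum_const, nsmul_eq_mul]
    refine (mul_le_mul_of_nonneg_right hJ (by positivity)).trans ?_
    rw [← Real.exp_add]
    refine (Real.exp_le_exp.2 (show γ + (B - η / 2) ≤ -(1 + 1) by linarith)).trans ?_
    rw [Real.exp_neg, ← one_div, Real.exp_add]
    have := Real.add_one_le_exp 1
    exact one_div_le_one_div_of_le (by norm_num) (by nlinarith)
  have e3 := (ep_sum_fam p 𝔅 at' y).trans_le hB
  have e4 : ∑ Ω : Finset V, epWt p Ω * ((Ω.card : ℝ) / (4 * P) +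
      ∑ j ∈ J, Real.exp (B - (Ω ∩ O j).card) +
      (∑ F ∈ 𝔅.filter (fun F => at' F ⊆ Ω), y F) / (4 * W)) < ∑ Ω : Finset V, epWt p Ω * 1 := by
    simp only [mul_add, sum_add_distrib, ← mul_div_assoc, ← sum_div, mul_one, ep_sum_wt]
    have a1 : (∑ Ω : Finset V, epWt p Ω * Ω.card) / (4 * P) ≤ 1 / 4 := by
      rw [div_le_iff₀ (by positivity)]; linarith
    have a3 : (∑ Ω : Finset V, epWt p Ω * ∑ F ∈ 𝔅.filter (fun F => at' F ⊆ Ω), y F) / (4 * W) ≤
        1 / 4 := by
      rw [div_le_iff₀ (by positivity)]; linarith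
    linarith
  obtain ⟨Ω, -, h⟩ := exists_lt_of_sum_lt e4
  have h' := lt_of_mul_lt_mul_left h (hw Ω)
  have b1 : 0 ≤ (Ω.card : ℝ) / (4 * P) := by positivity
  have b2 : 0 ≤ ∑ j ∈ J, Real.exp (B - (Ω ∩ O j).card) := sum_nonneg fun _ _ => by positivity
  have b3 : 0 ≤ (∑ F ∈ 𝔅.filter (fun F => at' F ⊆ Ω), y F) / (4 * W) :=
    div_nonneg (sum_nonneg fun F _ => hy F) (by positivity)
  refine ⟨Ω, (div_le_one (by positivity)).1 (by linarith), fun j hj => ?_,
    (div_le_one (by positivity)).1 (by linarith)⟩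
  have h4 := single_le_sum (f := fun j => Real.exp (B - (Ω ∩ O j).card))
    (fun _ _ => by positivity) hj
  have h5 : Real.exp (B - (Ω ∩ O j).card) < Real.exp 0 := by rw [Real.exp_zero]; linarith
  linarith [Real.exp_lt_exp.1 h5]

end Pool.Agent.MP_1c0fc2_co
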