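import Mathlib

/-! Rooted trees built by grafting and gluing, and their copies in graphs. -/

namespace Pool.Agent.MP_1c0fc2_co

open Finset

/-- Abstract rooted trees. -/
inductive RT : Type
  | point : RT
  | graft : RT → RT
  | glue : RT → RT → RT

/-- Number of edges. -/
def RT.size : RT → ℕ
  | .point => 0
  | .graft S => S.size + 1
  | .glue S₁ S₂ => S₁.size + S₂.size

/-- All vertices are adjacent to the root. -/
def RT.flat : RT → Prop
  | .point => True
  | .graft S => S.size = 0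
  | .glue S₁ S₂ => S₁.flat ∧ S₂.flat

/-- Occurrence in the construction tree. -/
inductive RT.Sub (S₀ : RT) : RT → Prop
  | refl : RT.Sub S₀ S₀
  | graft {S : RT} : RT.Sub S₀ S → RT.Sub S₀ (.graft S)
  | left {S₁ S₂ : RT} : RT.Sub S₀ S₁ → RT.Sub S₀ (.glue S₁ S₂)
  | right {S₁ S₂ : RT} : RT.Sub S₀ S₂ → RT.Sub S₀ (.glue S₁ S₂)

theorem exists_broom {S : RT} (h : ¬ S.flat) :
    ∃ S₁ : RT, S₁.flat ∧ 1 ≤ S₁.size ∧ RT.Sub (.graft S₁) S := by
  induction S with
  | point => exact absurd trivial h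
  | graft S ih =>
    by_cases hS : S.flat
    · exact ⟨S, hS, Nat.one_le_iff_ne_zero.2 h, .refl⟩
    · obtain ⟨S₁, h1, h2, h3⟩ := ih hS
      exact ⟨S₁, h1, h2, h3.graft⟩
  | glue S₁ S₂ ih₁ ih₂ =>
    by_cases hS : S₁.flat
    · obtain ⟨S₃, h1, h2, h3⟩ := ih₂ (fun h' => h ⟨hS, h'⟩)
      exact ⟨S₃, h1, h2, h3.right⟩
    · obtain ⟨S₃, h1, h2, h3⟩ := ih₁ hS
      exact ⟨S₃, h1, h2, h3.left⟩

variable {V : Type} [DecidableEq V]

/-- A copy of a rooted tree with given root image and vertex set. -/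
def Copy (G : SimpleGraph V) : RT → V → Finset V → Prop
  | .point, v, W => W = {v}
  | .graft S, v, W => ∃ c W', G.Adj v c ∧ Copy G S c W' ∧ v ∉ W' ∧ W = insert v W'
  | .glue S₁ S₂, v, W => ∃ W₁ W₂, Copy G S₁ v W₁ ∧ Copy G S₂ v W₂ ∧
      (∀ y ∈ W₁, y ∈ W₂ → y = v) ∧ W = W₁ ∪ W₂

variable {G : SimpleGraph V}

theorem Copy.mem {S : RT} {v : V} {W : Finset V} (h : Copy G S v W) : v ∈ W := by
  induction S generalizing v W with
  | point => rw [h]; simp
  | graft S _ =>
    obtain ⟨c, W', -, -, -, rfl⟩ := h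
    simp
  | glue S₁ S₂ ih₁ _ =>
    obtain ⟨W₁, W₂, h1, -, -, rfl⟩ := h
    exact mem_union_left _ (ih₁ h1)

theorem Copy.card {S : RT} {v : V} {W : Finset V} (h : Copy G S v W) : W.card = S.size + 1 := by
  induction S generalizing v W with
  | point => rw [h]; simp [RT.size]
  | graft S ih =>
    obtain ⟨c, W', -, h1, h2, rfl⟩ := h
    rw [card_insert_of_notMem h2, ih h1, RT.size]
  | glue S₁ S₂ ih₁ ih₂ =>
    obtain ⟨W₁, W₂, h1, h2, h3, rfl⟩ := h
    have h4 : W₁ ∩ W₂ = {v} := by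
      ext y
      simp only [mem_inter, mem_singleton]
      exact ⟨fun h => h3 y h.1 h.2, fun h => h ▸ ⟨h1.mem, h2.mem⟩⟩
    have := card_union_add_card_inter W₁ W₂
    rw [h4, card_singleton, ih₁ h1, ih₂ h2] at this
    rw [RT.size]
    omega

theorem copy_size_zero {S : RT} (h : S.size = 0) (v : V) : Copy G S v {v} := by
  induction S with
  | point => rfl
  | graft S _ => simp [RT.size] at h
  | glue S₁ S₂ ih₁ ih₂ =>
    rw [RT.size] at h
    exact ⟨{v}, {v}, ih₁ (by omega), ih₂ (by omega), by simp, by simp⟩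

theorem Copy.adj_of_flat {S : RT} (hS : S.flat) {c : V} {W : Finset V} (h : Copy G S c W) :
    ∀ y ∈ W, y ≠ c → G.Adj c y := by
  induction S generalizing W with
  | point => rw [h]; simp
  | graft S _ =>
    obtain ⟨d, W', h0, h1, -, rfl⟩ := h
    have h2 := h1.card
    rw [show S.size = 0 from hS] at h2
    obtain ⟨a, rfl⟩ := card_eq_one.1 h2
    have := h1.mem
    intro y hy hyc
    simp only [mem_singleton, mem_insert] at this hy
    rcases hy with rfl | rfl
    · exact absurd rfl hyc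
    · exact this ▸ h0
  | glue S₁ S₂ ih₁ ih₂ =>
    obtain ⟨W₁, W₂, h1, h2, -, rfl⟩ := h
    intro y hy hyc
    rcases mem_union.1 hy with hy | hy
    · exact ih₁ hS.1 h1 y hy hyc
    · exact ih₂ hS.2 h2 y hy hyc

theorem copy_of_flat {S : RT} (hS : S.flat) {c : V} {W : Finset V} (hc : c ∉ W)
    (hW : W.card = S.size) (hadj : ∀ y ∈ W, G.Adj c y) : Copy G S c (insert c W) := by
  induction S generalizing W with
  | point =>
    rw [card_eq_zero.1 hW]
    rfl
  | graft S _ =>
    rw [RT.size, show S.size = 0 from hS] at hW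
    obtain ⟨a, rfl⟩ := card_eq_one.1 hW
    exact ⟨a, {a}, hadj a (by simp), copy_size_zero hS a, hc, rfl⟩
  | glue S₁ S₂ ih₁ ih₂ =>
    rw [RT.size] at hW
    obtain ⟨W₁, h1, h2⟩ := exists_subset_card_eq (s := W) (n := S₁.size) (by omega)
    refine ⟨insert c W₁, insert c (W \ W₁), ih₁ hS.1 (fun h => hc (h1 h)) h2
      (fun y hy => hadj y (h1 hy)), ih₂ hS.2 (fun h => hc (mem_sdiff.1 h).1) ?_
      (fun y hy => hadj y (mem_sdiff.1 hy).1), ?_, ?_⟩
    · rw [card_sdiff_of_subset h1]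
      omega
    · intro y hy hy'
      simp only [mem_insert, mem_sdiff] at hy hy'
      tauto
    · ext y
      have := @h1 y
      simp only [mem_insert, mem_union, mem_sdiff]
      tauto

theorem copy_of_clique (S : RT) {Q : Finset V} (hQ : ∀ y ∈ Q, ∀ z ∈ Q, y ≠ z → G.Adj y z)
    {v : V} (hv : v ∈ Q) (hc : S.size + 1 ≤ Q.card) : ∃ W ⊆ Q, Copy G S v W := by
  induction S generalizing v Q with
  | point => exact ⟨{v}, by simpa, rfl⟩
  | graft S ih =>
    rw [RT.size] at hc
    have h1 : (Q.erase v).card = Q.card - 1 := card_erase_of_mem hv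
    obtain ⟨c, hc'⟩ : (Q.erase v).Nonempty := card_pos.1 (by omega)
    obtain ⟨W, hW, hcopy⟩ := ih (Q := Q.erase v)
      (fun y hy z hz => hQ y (mem_of_mem_erase hy) z (mem_of_mem_erase hz)) hc' (by omega)
    refine ⟨insert v W, insert_subset hv (hW.trans (erase_subset _ _)), c, W,
      hQ v hv c (mem_of_mem_erase hc') (ne_of_mem_erase hc').symm, hcopy, ?_, rfl⟩
    exact fun h => notMem_erase v Q (hW h)
  | glue S₁ S₂ ih₁ ih₂ =>
    rw [RT.size] at hc
    obtain ⟨W₁, hW₁, h1⟩ := ih₁ hQ hv (by omega)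
    have e1 := h1.card
    have e2 : (W₁.erase v).card = W₁.card - 1 := card_erase_of_mem h1.mem
    have e3 := card_sdiff_of_subset ((erase_subset v W₁).trans hW₁)
    obtain ⟨W₂, hW₂, h2⟩ := ih₂ (Q := Q \ W₁.erase v) (v := v)
      (fun y hy z hz => hQ y (mem_sdiff.1 hy).1 z (mem_sdiff.1 hz).1) (by simp [hv]) (by omega)
    refine ⟨W₁ ∪ W₂, union_subset hW₁ (hW₂.trans sdiff_subset), W₁, W₂, h1, h2, ?_, rfl⟩
    intro y hy hy'
    have := (mem_sdiff.1 (hW₂ hy')).2
    by_contra hne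
    exact this (mem_erase.2 ⟨hne, hy⟩)

variable {α : Type} [DecidableEq α]

/-- `S` describes the subgraph of `T` induced on `A`, rooted at `r`. -/
def Rep (T : SimpleGraph α) : RT → α → Finset α → Prop
  | .point, r, A => A = {r}
  | .graft S, r, A => ∃ c A', T.Adj r c ∧ Rep T S c A' ∧ r ∉ A' ∧
      (∀ a ∈ A', T.Adj r a → a = c) ∧ A = insert r A'
  | .glue S₁ S₂, r, A => ∃ A₁ A₂, Rep T S₁ r A₁ ∧ Rep T S₂ r A₂ ∧
      (∀ y ∈ A₁, y ∈ A₂ → y = r) ∧ (∀ a ∈ A₁, ∀ b ∈ A₂, T.Adj a b → a = r ∨ b = r) ∧ A = A₁ ∪ A₂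

variable {T : SimpleGraph α}

theorem Rep.copy {S : RT} {r : α} {A : Finset α} (h : Rep T S r A) : Copy T S r A := by
  induction S generalizing r A with
  | point => exact h
  | graft S ih =>
    obtain ⟨c, A', h1, h2, h3, -, rfl⟩ := h
    exact ⟨c, A', h1, ih h2, h3, rfl⟩
  | glue S₁ S₂ ih₁ ih₂ =>
    obtain ⟨A₁, A₂, h1, h2, h3, -, rfl⟩ := h
    exact ⟨A₁, A₂, ih₁ h1, ih₂ h2, h3, rfl⟩

theorem Rep.embed {S : RT} {r : α} {A : Finset α} (h : Rep T S r A) {v : V} {W : Finset V}
    (hc : Copy G S v W) : ∃ f : α → V, f r = v ∧ (∀ a ∈ A, f a ∈ W) ∧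
      (∀ a ∈ A, ∀ b ∈ A, f a = f b → a = b) ∧
      ∀ a ∈ A, ∀ b ∈ A, T.Adj a b → G.Adj (f a) (f b) := by
  induction S generalizing r A v W with
  | point =>
    rw [h, hc]
    exact ⟨fun _ => v, rfl, by simp, by simp, by simp⟩
  | graft S ih =>
    obtain ⟨c, A', h1, h2, h3, h4, rfl⟩ := h
    obtain ⟨c', W', g1, g2, g3, rfl⟩ := hc
    obtain ⟨f, f1, f2, f3, f4⟩ := ih h2 g2
    have hf : ∀ a ∈ A', Function.update f r v a = f a := fun a ha =>
      Function.update_of_ne (by rintro rfl; exact h3 ha) _ _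
    refine ⟨Function.update f r v, by simp, ?_, ?_, ?_⟩
    · intro a ha
      rcases mem_insert.1 ha with rfl | ha
      · simp
      · rw [hf a ha]
        exact mem_insert_of_mem (f2 a ha)
    · intro a ha b hb hab
      rcases mem_insert.1 ha with ea | ha' <;> rcases mem_insert.1 hb with eb | hb'
      · rw [ea, eb]
      · rw [hf b hb', ea, Function.update_self] at hab
        exact absurd (hab ▸ f2 b hb') g3
      · rw [hf a ha', eb, Function.update_self] at hab
        exact absurd (hab ▸ f2 a ha') g3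
      · rw [hf a ha', hf b hb'] at hab
        exact f3 a ha' b hb' hab
    · intro a ha b hb hab
      rcases mem_insert.1 ha with ea | ha' <;> rcases mem_insert.1 hb with eb | hb'
      · rw [ea, eb] at hab
        exact absurd hab (T.irrefl)
      · rw [hf b hb', ea, Function.update_self, h4 b hb' (ea ▸ hab), f1]
        exact g1
      · rw [hf a ha', eb, Function.update_self, h4 a ha' (eb ▸ hab.symm), f1]
        exact g1.symm
      · rw [hf a ha', hf b hb']
        exact f4 a ha' b hb' hab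
  | glue S₁ S₂ ih₁ ih₂ =>
    obtain ⟨A₁, A₂, h1, h2, h3, h4, rfl⟩ := h
    obtain ⟨W₁, W₂, g1, g2, g3, rfl⟩ := hc
    obtain ⟨f, f1, f2, f3, f4⟩ := ih₁ h1 g1
    obtain ⟨e, e1, e2, e3, e4⟩ := ih₂ h2 g2
    have hr₁ := h1.copy.mem
    have hr₂ := h2.copy.mem
    have k1 : ∀ a ∈ A₁, (if a ∈ A₁ then f a else e a) = f a := fun a ha => if_pos ha
    have k2 : ∀ a ∈ A₂, (if a ∈ A₁ then f a else e a) = e a := by
      intro a ha
      split_ifs with h
      · rw [h3 a h ha, f1, e1]
      · rfl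
    have k3 : ∀ a ∈ A₁, ∀ b ∈ A₂, f a = e b → a = b := by
      intro a ha b hb hab
      have hv : f a = v := g3 _ (f2 a ha) (hab ▸ e2 b hb)
      rw [f3 a ha r hr₁ (hv.trans f1.symm), e3 b hb r hr₂ ((hab.symm.trans hv).trans e1.symm)]
    have k4 : ∀ a ∈ A₁, ∀ b ∈ A₂, T.Adj a b → G.Adj (f a) (e b) := by
      intro a ha b hb hab
      rcases h4 a ha b hb hab with rfl | rfl
      · rw [f1, ← e1]
        exact e4 a hr₂ b hb hab
      · rw [e1, ← f1]
        exact f4 a ha b hr₁ hab
    obtain ⟨g, k1, k2⟩ : ∃ g : α → V, (∀ a ∈ A₁, g a = f a) ∧ ∀ a ∈ A₂, g a = e a :=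
      ⟨fun a => if a ∈ A₁ then f a else e a, k1, k2⟩
    refine ⟨g, by rw [k1 r hr₁, f1], ?_, ?_, ?_⟩
    · intro a ha
      rcases mem_union.1 ha with ha | ha
      · rw [k1 a ha]
        exact mem_union_left _ (f2 a ha)
      · rw [k2 a ha]
        exact mem_union_right _ (e2 a ha)
    · intro a ha b hb hab
      rcases mem_union.1 ha with ha | ha <;> rcases mem_union.1 hb with hb | hb
      · rw [k1 a ha, k1 b hb] at hab
        exact f3 a ha b hb hab
      · rw [k1 a ha, k2 b hb] at hab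
        exact k3 a ha b hb hab
      · rw [k2 a ha, k1 b hb] at hab
        exact (k3 b hb a ha hab.symm).symm
      · rw [k2 a ha, k2 b hb] at hab
        exact e3 a ha b hb hab
    · intro a ha b hb hab
      rcases mem_union.1 ha with ha | ha <;> rcases mem_union.1 hb with hb | hb
      · rw [k1 a ha, k1 b hb]
        exact f4 a ha b hb hab
      · rw [k1 a ha, k2 b hb]
        exact k4 a ha b hb hab
      · rw [k2 a ha, k1 b hb]
        exact (k4 b hb a ha hab.symm).symm
      · rw [k2 a ha, k2 b hb]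
        exact e4 a ha b hb hab

theorem Rep.add_root_leaf {S : RT} {r l : α} {A : Finset α} (h : Rep T S r A) (hl : l ∉ A)
    (hadj : T.Adj r l) (huniq : ∀ a ∈ A, T.Adj l a → a = r) :
    ∃ S', Rep T S' r (insert l A) := by
  have hr := h.copy.mem
  refine ⟨.glue S (.graft .point), A, {r, l}, h, ⟨l, {l}, hadj, rfl, ?_, by simp, rfl⟩, ?_, ?_, ?_⟩
  · simpa using hadj.ne
  · intro y hy hy'
    simp only [mem_insert, mem_singleton] at hy'
    rcases hy' with rfl | rfl
    · rfl
    · exact absurd hy hl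
  · intro a ha b hb hab
    simp only [mem_insert, mem_singleton] at hb
    rcases hb with rfl | rfl
    · exact Or.inr rfl
    · exact Or.inl (huniq a ha hab.symm)
  · ext y
    simp only [mem_insert, mem_union, mem_singleton]
    constructor
    · tauto
    · rintro (h | rfl | h)
      · exact Or.inr h
      · exact Or.inr hr
      · exact Or.inl h

theorem Rep.add_leaf {S : RT} {r u l : α} {A : Finset α} (h : Rep T S r A) (hu : u ∈ A)
    (hl : l ∉ A) (hadj : T.Adj u l) (huniq : ∀ a ∈ A, T.Adj l a → a = u) :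
    ∃ S', Rep T S' r (insert l A) := by
  induction S generalizing r A with
  | point =>
    have : u = r := by
      rw [show A = {r} from h] at hu
      simpa using hu
    subst this
    exact h.add_root_leaf hl hadj huniq
  | graft S ih =>
    by_cases hur : u = r
    · subst hur
      exact h.add_root_leaf hl hadj huniq
    obtain ⟨c, A', h1, h2, h3, h4, rfl⟩ := h
    have hu' : u ∈ A' := (mem_insert.1 hu).resolve_left hur
    obtain ⟨S', hS'⟩ := ih h2 hu' (fun h => hl (mem_insert_of_mem h))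
      (fun a ha => huniq a (mem_insert_of_mem ha))
    refine ⟨.graft S', c, insert l A', h1, hS', ?_, ?_, insert_comm _ _ _⟩
    · simp only [mem_insert, not_or] at hl ⊢
      exact ⟨fun h => hl.1 h.symm, h3⟩
    · intro a ha hra
      rcases mem_insert.1 ha with rfl | ha
      · exact absurd (huniq r (mem_insert_self _ _) hra.symm).symm hur
      · exact h4 a ha hra
  | glue S₁ S₂ ih₁ ih₂ =>
    obtain ⟨A₁, A₂, h1, h2, h3, h4, rfl⟩ := h
    have hl₁ : l ∉ A₁ := fun h => hl (mem_union_left _ h)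
    have hl₂ : l ∉ A₂ := fun h => hl (mem_union_right _ h)
    rcases mem_union.1 hu with hu | hu
    · obtain ⟨S', hS'⟩ := ih₁ h1 hu hl₁ (fun a ha => huniq a (mem_union_left _ ha))
      refine ⟨.glue S' S₂, insert l A₁, A₂, hS', h2, ?_, ?_, (insert_union _ _ _).symm⟩
      · intro y hy hy'
        rcases mem_insert.1 hy with rfl | hy
        · exact absurd hy' hl₂
        · exact h3 y hy hy'
      · intro a ha b hb hab
        rcases mem_insert.1 ha with rfl | ha
        · have := huniq b (mem_union_right _ hb) hab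
          exact Or.inr (h3 b (this ▸ hu) hb)
        · exact h4 a ha b hb hab
    · obtain ⟨S', hS'⟩ := ih₂ h2 hu hl₂ (fun a ha => huniq a (mem_union_right _ ha))
      refine ⟨.glue S₁ S', A₁, insert l A₂, h1, hS', ?_, ?_, (union_insert _ _ _).symm⟩
      · intro y hy hy'
        rcases mem_insert.1 hy' with rfl | hy'
        · exact absurd hy hl₁
        · exact h3 y hy hy'
      · intro a ha b hb hab
        rcases mem_insert.1 hb with rfl | hb
        · have := huniq a (mem_union_left _ ha) hab.symm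
          exact Or.inl (h3 a ha (this ▸ hu))
        · exact h4 a ha b hb hab

/-- Any two vertices of `A` are joined by a walk inside `A`. -/
def Conn (T : SimpleGraph α) (A : Finset α) : Prop :=
  ∀ a ∈ A, ∀ b ∈ A, ∃ p : T.Walk a b, ∀ y ∈ p.support, y ∈ A

theorem uniq_nbr (hT : T.IsAcyclic) {A : Finset α} (hA : Conn T A) {l u : α} (hl : l ∉ A)
    (hu : u ∈ A) (hadj : T.Adj u l) : ∀ a ∈ A, T.Adj l a → a = u := by
  intro a ha hla
  obtain ⟨p, hp⟩ := hA u hu a ha
  by_contra hne
  have hq : (SimpleGraph.Walk.cons hadj (SimpleGraph.Walk.cons hla .nil)).IsPath := by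
    simp [hadj.ne, hla.ne, Ne.symm hne]
  have := (hT.subsingleton_path _ _).elim p.toPath ⟨_, hq⟩
  have hmem : l ∈ (p.toPath : T.Walk u a).support := by
    rw [this]
    simp
  exact hl (hp l (p.support_toPath_subset_support hmem))

theorem Conn.insert {A : Finset α} (hA : Conn T A) {l u : α} (hu : u ∈ A) (hadj : T.Adj u l) :
    Conn T (insert l A) := by
  have key : ∀ b ∈ A, ∃ p : T.Walk l b, ∀ y ∈ p.support, y ∈ Insert.insert l A := by
    intro b hb
    obtain ⟨p, hp⟩ := hA u hu b hb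
    refine ⟨.cons hadj.symm p, fun y hy => ?_⟩
    simp only [SimpleGraph.Walk.support_cons, List.mem_cons] at hy
    rcases hy with rfl | hy
    · simp
    · exact mem_insert_of_mem (hp y hy)
  intro a ha b hb
  rcases mem_insert.1 ha with ea | ha' <;> rcases mem_insert.1 hb with eb | hb'
  · subst ea eb
    exact ⟨.nil, by simp⟩
  · subst ea
    exact key b hb'
  · subst eb
    obtain ⟨p, hp⟩ := key a ha'
    exact ⟨p.reverse, by simpa using hp⟩
  · obtain ⟨p, hp⟩ := hA a ha' b hb'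
    exact ⟨p, fun y hy => mem_insert_of_mem (hp y hy)⟩

omit [DecidableEq α] in
theorem exists_step {A Y : Finset α} (hY : Conn T Y) (hAY : A ⊆ Y) {r : α} (hr : r ∈ A)
    (hlt : A.card < Y.card) : ∃ u ∈ A, ∃ l ∈ Y, l ∉ A ∧ T.Adj u l := by
  obtain ⟨y, hy, hyA⟩ := exists_mem_notMem_of_card_lt_card hlt
  obtain ⟨p, hp⟩ := hY r (hAY hr) y hy
  obtain ⟨d, hd, h1, h2⟩ := p.exists_boundary_dart (A : Set α) hr hyA
  exact ⟨d.fst, h1, d.snd, hp _ (p.dart_snd_mem_support_of_mem_darts hd), h2, d.adj⟩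

theorem grow (hT : T.IsAcyclic) {Y : Finset α} (hY : Conn T Y) {r : α} (hr : r ∈ Y) (m : ℕ)
    (hm : m + 1 ≤ Y.card) :
    ∃ A ⊆ Y, r ∈ A ∧ A.card = m + 1 ∧ Conn T A ∧ ∃ S, Rep T S r A := by
  induction m with
  | zero =>
    refine ⟨{r}, by simpa, by simp, by simp, ?_, .point, rfl⟩
    intro a ha b hb
    rw [mem_singleton] at ha hb
    subst ha hb
    exact ⟨.nil, by simp⟩
  | succ m ih =>
    obtain ⟨A, h1, h2, h3, h4, S, hS⟩ := ih (by omega)
    obtain ⟨u, hu, l, hl, hlA, hadj⟩ := exists_step hY h1 h2 (by omega)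
    exact ⟨insert l A, insert_subset hl h1, mem_insert_of_mem h2,
      by rw [card_insert_of_notMem hlA, h3], h4.insert hu hadj,
      hS.add_leaf hu hlA hadj (uniq_nbr hT h4 hlA hu hadj)⟩

/-- `G` contains a (not necessarily induced) copy of `T`. -/
def Has (G : SimpleGraph V) (T : SimpleGraph α) : Prop :=
  ∃ f : α → V, Function.Injective f ∧ ∀ a b, T.Adj a b → G.Adj (f a) (f b)

/-- The description of a tree minus a leaf. -/
theorem exists_rt [Fintype α] (hT : T.IsTree) (k : ℕ) (hk : Fintype.card α = k + 2) :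
    ∃ S : RT, S.size = k ∧ (S.flat → ∃ r, ∀ a, a ≠ r → T.Adj r a) ∧
      ∀ (V : Type) [DecidableEq V] (G : SimpleGraph V) (v x : V) (W : Finset V),
        Copy G S v W → x ∉ W → G.Adj v x → Has G T := by
  have hU : Conn T univ := fun a _ b _ => by
    obtain ⟨p⟩ := hT.connected.preconnected a b
    exact ⟨p, by simp⟩
  obtain ⟨r₀⟩ := hT.connected.nonempty
  obtain ⟨A, -, h2, h3, h4, -⟩ := grow hT.isAcyclic hU (mem_univ r₀) k (by simp [hk])
  obtain ⟨u, hu, l, -, hlA, hadj⟩ := exists_step hU (subset_univ A) h2 (by simp [hk, h3])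
  obtain ⟨A', g1, g2, g3, -, S, hS⟩ := grow hT.isAcyclic h4 hu k h3.ge
  obtain rfl : A' = A := eq_of_subset_of_card_le g1 (by omega)
  have huniv : insert l A' = univ := by
    apply eq_univ_of_card
    rw [card_insert_of_notMem hlA, h3, hk]
  have hrep : Rep T (.graft S) l univ :=
    ⟨u, A', hadj.symm, hS, hlA, uniq_nbr hT.isAcyclic h4 hlA hu hadj, huniv.symm⟩
  refine ⟨S, by have := hS.copy.card; omega, fun hf => ⟨u, fun a ha => ?_⟩, ?_⟩
  · have : a ∈ insert l A' := huniv ▸ mem_univ a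
    rcases mem_insert.1 this with rfl | h
    · exact hadj
    · exact hS.copy.adj_of_flat hf a h ha
  · intro V _ G v x W hc hx hvx
    obtain ⟨f, -, -, f3, f4⟩ := hrep.embed (G := G) (v := x) (W := insert x W)
      ⟨v, W, hvx.symm, hc, hx, rfl⟩
    exact ⟨f, fun a b hab => f3 a (mem_univ a) b (mem_univ b) hab,
      fun a b hab => f4 a (mem_univ a) b (mem_univ b) hab⟩

end Pool.Agent.MP_1c0fc2_co
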