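import Pool.Agent.MP_1c0fc2_co.Count
import Pool.Agent.MP_1c0fc2_co.Tree

/-! The degree-sum bound for tree-free graphs and its stability version. -/

namespace Pool.Agent.MP_1c0fc2_co

open Finset Nat

variable {V : Type} [DecidableEq V]

/-- A rooted copy of `S` at `v` inside `A` together with `v`. -/
def has (G : SimpleGraph V) (S : RT) (v : V) (A : Finset V) : Prop :=
  ∃ W ⊆ insert v A, Copy G S v W

theorem has_mono (G : SimpleGraph V) (S : RT) (v : V) (A B : Finset V) (h : A ⊆ B)
    (hA : has G S v A) : has G S v B := by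
  obtain ⟨W, h1, h2⟩ := hA
  exact ⟨W, h1.trans (insert_subset_insert _ h), h2⟩

variable [Fintype V]

open Classical in
/-- Neighbourhood as a finite set. -/
noncomputable def nb (G : SimpleGraph V) (v : V) : Finset V := univ.filter (G.Adj v)

omit [DecidableEq V] in
@[simp] theorem mem_nb {G : SimpleGraph V} {v x : V} : x ∈ nb G v ↔ G.Adj v x := by
  simp [nb]

open Classical in
/-- Weighted count of bad sets. -/
noncomputable def bad (G : SimpleGraph V) (S : RT) (v x : V) : ℕ :=
  ∑ A ∈ ((univ.erase v).erase x).powerset,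
    if ¬ has G S v A then A.card ! * (Fintype.card V - 2 - A.card)! else 0

open Classical in
/-- Weighted count of crossings. -/
noncomputable def crs (G : SimpleGraph V) (S : RT) (v x : V) : ℕ :=
  ∑ A ∈ ((univ.erase v).erase x).powerset,
    if ¬ has G S v A ∧ has G S v (insert x A) then
      A.card ! * (Fintype.card V - 2 - A.card)! else 0

/-- Total count of bad marked pairs. -/
noncomputable def NN (G : SimpleGraph V) (U : Finset V) (S : RT) : ℕ :=
  ∑ v ∈ U, ∑ x ∈ nb G v, bad G S v x

/-- Total count of crossing marked pairs. -/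
noncomputable def CC (G : SimpleGraph V) (U : Finset V) (S : RT) : ℕ :=
  ∑ v ∈ U, ∑ x ∈ nb G v, crs G S v x

variable {G : SimpleGraph V} {U : Finset V}

theorem card_ee {v x : V} (h : v ≠ x) :
    ((univ.erase v).erase x).card = Fintype.card V - 2 := by
  rw [card_erase_of_mem (by simp [h.symm]), card_erase_of_mem (mem_univ v), Finset.card_univ]
  omega

theorem NN_point : NN G U .point = 0 := by
  refine sum_eq_zero fun v _ => sum_eq_zero fun x _ => sum_eq_zero fun A _ => ?_
  rw [if_neg (not_not.2 ⟨{v}, by simp, rfl⟩)]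

theorem bad_graft (S : RT) {v x : V} (h : G.Adj v x) :
    bad G (.graft S) v x ≤ crs G (.graft S) v x + bad G S x v := by
  rw [bad, crs, bad, erase_right_comm (a := x), ← sum_add_distrib]
  refine sum_le_sum fun A hA => ?_
  have hvA : v ∉ A := fun hv => by simpa using mem_powerset.1 hA hv
  by_cases h1 : has G (.graft S) v A
  · simp [h1]
  by_cases h2 : has G (.graft S) v (insert x A)
  · simp [h1, h2]
  have h3 : ¬ has G S x A := by
    rintro ⟨W, hW, hc⟩
    refine h2 ⟨insert v W, insert_subset_insert _ hW, x, W, h, hc, fun hv => ?_, rfl⟩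
    rcases mem_insert.1 (hW hv) with h' | h'
    · exact h.ne h'
    · exact hvA h'
  simp [h1, h3]

omit [DecidableEq V] in
theorem sum_swap (hU : ∀ v ∈ U, ∀ x, G.Adj v x → x ∈ U) (f : V → V → ℕ) :
    ∑ v ∈ U, ∑ x ∈ nb G v, f x v = ∑ v ∈ U, ∑ x ∈ nb G v, f v x := by
  refine sum_comm' fun v x => ?_
  simp only [mem_nb]
  exact ⟨fun h => ⟨h.2.symm, hU v h.1 x h.2⟩, fun h => ⟨hU x h.2 v h.1, h.1.symm⟩⟩

theorem NN_graft (hU : ∀ v ∈ U, ∀ x, G.Adj v x → x ∈ U) (S : RT) :
    NN G U (.graft S) ≤ CC G U (.graft S) + NN G U S := by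
  rw [NN, CC, NN, ← sum_swap hU (bad G S), ← sum_add_distrib]
  refine sum_le_sum fun v _ => ?_
  rw [← sum_add_distrib]
  exact sum_le_sum fun x hx => bad_graft S (mem_nb.1 hx)

theorem bad_glue (S₁ S₂ : RT) {v x : V} (h : v ≠ x) :
    bad G (.glue S₁ S₂) v x ≤ bad G S₁ v x + bad G S₂ v x := by
  have := glue_le (fun A => has G (.glue S₁ S₂) v A) (fun A => has G S₁ v A)
    (fun A => has G S₂ v A) (has_mono G S₁ v) ?_ ((univ.erase v).erase x)
  · rw [card_ee h] at this
    rw [bad, bad, bad]
    convert this
  · rintro A D hD ⟨W₁, h1, c1⟩ ⟨W₂, h2, c2⟩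
    refine ⟨W₁ ∪ W₂, union_subset (h1.trans (insert_subset_insert _ hD))
      (h2.trans (insert_subset_insert _ sdiff_subset)), W₁, W₂, c1, c2, fun y y1 y2 => ?_, rfl⟩
    by_contra hy
    have e1 := (mem_insert.1 (h1 y1)).resolve_left hy
    have e2 := (mem_insert.1 (h2 y2)).resolve_left hy
    exact (mem_sdiff.1 e2).2 e1

theorem NN_glue (S₁ S₂ : RT) : NN G U (.glue S₁ S₂) ≤ NN G U S₁ + NN G U S₂ := by
  rw [NN, NN, NN, ← sum_add_distrib]
  refine sum_le_sum fun v _ => ?_
  rw [← sum_add_distrib]
  exact sum_le_sum fun x hx => bad_glue S₁ S₂ (mem_nb.1 hx).ne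

open Classical in
theorem crs_total (S : RT) (v : V) : ∑ x ∈ univ.erase v, crs G S v x ≤
    if has G S v (univ.erase v) then (Fintype.card V - 1)! else 0 := by
  have := cross_le (fun A => has G S v A) (has_mono G S v) (univ.erase v)
  rw [card_erase_of_mem (mem_univ v), Finset.card_univ] at this
  simp only [crs]
  convert this using 6
  omega

theorem nb_subset (v : V) : nb G v ⊆ univ.erase v := by
  intro x hx
  simp [(mem_nb.1 hx).ne.symm]

theorem crs_nb (S : RT) (v : V) : ∑ x ∈ nb G v, crs G S v x ≤ (Fintype.card V - 1)! := by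
  refine (sum_le_sum_of_subset (nb_subset v)).trans ((crs_total S v).trans ?_)
  split_ifs <;> simp

theorem CC_le (S : RT) : CC G U S ≤ U.card * (Fintype.card V - 1)! := by
  rw [CC, ← smul_eq_mul, ← sum_const]
  exact sum_le_sum fun v _ => crs_nb S v

theorem NN_le (hU : ∀ v ∈ U, ∀ x, G.Adj v x → x ∈ U) (S : RT) :
    NN G U S ≤ S.size * (U.card * (Fintype.card V - 1)!) := by
  induction S with
  | point => simp [NN_point]
  | graft S ih =>
    have h1 := NN_graft hU S
    have h2 := CC_le (G := G) (U := U) (.graft S)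
    rw [RT.size, add_mul]
    omega
  | glue S₁ S₂ ih₁ ih₂ =>
    have h1 := NN_glue (G := G) (U := U) S₁ S₂
    rw [RT.size, add_mul]
    omega

theorem NN_slack (hU : ∀ v ∈ U, ∀ x, G.Adj v x → x ∈ U) {S₁ S : RT} (hS : RT.Sub (.graft S₁) S)
    {K m : ℕ} (h : K * CC G U (.graft S₁) + m ≤ K * (U.card * (Fintype.card V - 1)!)) :
    K * NN G U S + m ≤ K * (S.size * (U.card * (Fintype.card V - 1)!)) := by
  induction hS with
  | refl =>
    have h1 := Nat.mul_le_mul_left K (NN_graft hU S₁)
    have h2 := Nat.mul_le_mul_left K (NN_le hU S₁)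
    rw [RT.size, add_mul, mul_add, one_mul]
    rw [mul_add] at h1
    omega
  | @graft S _ ih =>
    have h1 := Nat.mul_le_mul_left K (NN_graft hU S)
    have h2 := Nat.mul_le_mul_left K (CC_le (G := G) (U := U) (.graft S))
    rw [RT.size, add_mul, mul_add, one_mul]
    rw [mul_add] at h1
    omega
  | @left S S' _ ih =>
    have h1 := Nat.mul_le_mul_left K (NN_glue (G := G) (U := U) S S')
    have h2 := Nat.mul_le_mul_left K (NN_le hU S')
    rw [RT.size, add_mul, mul_add]
    rw [mul_add] at h1
    omega
  | @right S S' _ ih =>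
    have h1 := Nat.mul_le_mul_left K (NN_glue (G := G) (U := U) S S')
    have h2 := Nat.mul_le_mul_left K (NN_le hU S)
    rw [RT.size, add_mul, mul_add]
    rw [mul_add] at h1
    omega

theorem NN_free {S : RT} (hfree : ∀ v x W, Copy G S v W → x ∉ W → ¬ G.Adj v x) :
    NN G U S = (∑ v ∈ U, (nb G v).card) * (Fintype.card V - 1)! := by
  rw [NN, sum_mul]
  refine sum_congr rfl fun v _ => ?_
  rw [← smul_eq_mul, ← sum_const]
  refine sum_congr rfl fun x hx => ?_
  have hvx := mem_nb.1 hx
  have h1 := sum_fact ((univ.erase v).erase x) 0 0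
  have h2 : 1 < Fintype.card V := Fintype.one_lt_card_iff.2 ⟨v, x, hvx.ne⟩
  rw [card_ee hvx.ne] at h1
  simp only [zero_add, factorial_one, mul_one, factorial_zero] at h1
  rw [show Fintype.card V - 1 = Fintype.card V - 2 + 1 by omega, ← h1, bad]
  refine sum_congr rfl fun A hA => if_pos ?_
  rintro ⟨W, hW, hc⟩
  refine hfree v x W hc (fun hxW => ?_) hvx
  rcases mem_insert.1 (hW hxW) with h | h
  · exact hvx.ne h.symm
  · simpa using mem_powerset.1 hA h

/-- The degree-sum bound. -/
theorem degree_sum_le {S : RT} (hfree : ∀ v x W, Copy G S v W → x ∉ W → ¬ G.Adj v x) :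
    ∑ v, (nb G v).card ≤ S.size * Fintype.card V := by
  have h1 := NN_le (G := G) (U := univ) (fun _ _ _ _ => mem_univ _) S
  rw [NN_free hfree, ← mul_assoc, Finset.card_univ] at h1
  exact Nat.le_of_mul_le_mul_right h1 (factorial_pos _)

/-- Vertices at which the crossing bound for a broom with `s` bristles is not tight. -/
def Slack (G : SimpleGraph V) (s : ℕ) (v : V) : Prop :=
  (∀ c, G.Adj v c → (nb G c).card ≤ s) ∨
    ∃ c d, G.Adj v c ∧ s + 1 ≤ (nb G c).card ∧ G.Adj c d ∧ d ≠ v ∧ ¬ G.Adj v d

theorem crs_slack {S : RT} (hS : S.flat) (hs : 1 ≤ S.size) {D : ℕ}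
    (hD : ∀ v, (nb G v).card ≤ D) {v : V} (hv : Slack G S.size v) :
    (D + D * D)! * ∑ x ∈ nb G v, crs G (.graft S) v x + (Fintype.card V - 1)! ≤
      (D + D * D)! * (Fintype.card V - 1)! := by
  have hK : 1 ≤ (D + D * D)! := factorial_pos _
  rcases hv with hv | ⟨c, d, hvc, hdeg, hcd, hdv, hnd⟩
  · have h1 := (sum_le_sum_of_subset (nb_subset (G := G) v)).trans (crs_total (G := G) (.graft S) v)
    rw [if_neg] at h1
    · rw [Nat.le_zero.1 h1]
      simpa using Nat.le_mul_of_pos_left _ hK
    · rintro ⟨W, -, c, W', h1, h2, h3, rfl⟩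
      have e1 := h2.card
      have e2 : insert v (W'.erase c) ⊆ nb G c := by
        intro y hy
        rcases mem_insert.1 hy with rfl | hy
        · exact mem_nb.2 h1.symm
        · exact mem_nb.2 (h2.adj_of_flat hS y (mem_of_mem_erase hy) (ne_of_mem_erase hy))
      have e3 := card_le_card e2
      rw [card_insert_of_notMem (fun h => h3 (mem_of_mem_erase h)),
        card_erase_of_mem h2.mem] at e3
      have := hv c h1
      omega
  · have h1 : ∑ x ∈ insert d (nb G v), crs G (.graft S) v x ≤ (Fintype.card V - 1)! := by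
      refine (sum_le_sum_of_subset (insert_subset (by simp [hdv]) (nb_subset v))).trans
        ((crs_total _ v).trans ?_)
      split_ifs <;> simp
    rw [sum_insert (by simpa using hnd)] at h1
    suffices h2 : (Fintype.card V - 1)! ≤ (D + D * D)! * crs G (.graft S) v d by
      have := Nat.mul_le_mul_left (D + D * D)! h1
      rw [mul_add] at this
      omega
    obtain ⟨M, hM⟩ : ∃ M : Finset V, M = (nb G v ∪ (nb G v).biUnion (nb G)).erase v := ⟨_, rfl⟩
    have hMcard : M.card ≤ D + D * D := by
      rw [hM]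
      refine (card_erase_le.trans (card_union_le _ _)).trans (Nat.add_le_add (hD v) ?_)
      refine card_biUnion_le.trans ((sum_le_card_nsmul _ _ D fun x _ => hD x).trans ?_)
      exact Nat.mul_le_mul_right _ (hD v)
    have hM1 : ∀ y, G.Adj v y → y ∈ M := fun y hy => by
      simp [hM, hy.ne.symm, hy]
    have hM2 : ∀ y z, G.Adj v y → G.Adj y z → z ≠ v → z ∈ M := fun y z hy hz hzv => by
      simp only [hM, mem_erase, mem_union, mem_biUnion, mem_nb]
      exact ⟨hzv, Or.inr ⟨y, hy, hz⟩⟩
    have hvM : v ∉ M := by simp [hM]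
    have e0 : (((nb G c).erase v).erase d).card = (nb G c).card - 2 := by
      rw [card_erase_of_mem (by simp [hdv, hcd]), card_erase_of_mem (by simp [hvc.symm])]
      omega
    obtain ⟨Y, hY, hYc⟩ := exists_subset_card_eq (s := ((nb G c).erase v).erase d)
      (n := S.size - 1) (by omega)
    have hY' : ∀ y ∈ Y, y ≠ d ∧ y ≠ v ∧ G.Adj c y := fun y hy => by simpa using hY hy
    have hcY : c ∉ Y := fun h => (hY' c h).2.2.ne rfl
    have hdY : d ∉ Y := fun h => (hY' d h).1 rfl
    have hW : (insert c Y).card = S.size := by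
      rw [card_insert_of_notMem hcY]
      omega
    have hWM : insert d (insert c Y) ⊆ M := by
      refine insert_subset (hM2 c d hvc hcd hdv) (insert_subset (hM1 c hvc) fun y hy => ?_)
      exact hM2 c y hvc (hY' y hy).2.2 (hY' y hy).2.1
    have hdW : d ∉ insert c Y := by simp [hdY, hcd.ne.symm]
    have hMlow := card_le_card hWM
    rw [card_insert_of_notMem hdW, hW] at hMlow
    obtain ⟨O, hO⟩ : ∃ O : Finset V, O = univ \ insert v M := ⟨_, rfl⟩
    have hOc : O.card + M.card + 1 = Fintype.card V := by
      have := card_le_univ (insert v M)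
      rw [hO, card_sdiff_of_subset (subset_univ _), Finset.card_univ, card_insert_of_notMem hvM]
      rw [card_insert_of_notMem hvM] at this
      omega
    have hO' : ∀ y ∈ O, y ≠ v ∧ y ∉ M := fun y hy => by simpa [hO] using hy
    have hdisj : ∀ E ⊆ O, Disjoint (insert c Y) E := fun E hE => by
      rw [disjoint_right]
      intro y hy hy'
      exact (hO' y (hE hy)).2 (hWM (mem_insert_of_mem hy'))
    have h3 := sum_fact O S.size (M.card - 1 - S.size)
    rw [show S.size + (M.card - 1 - S.size) + 1 = M.card by omega,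
      show S.size + (M.card - 1 - S.size) + O.card + 1 = Fintype.card V - 1 by omega] at h3
    have h4 : ∑ E ∈ O.powerset, (S.size + E.card)! * (M.card - 1 - S.size + (O.card - E.card))! ≤
        crs G (.graft S) v d := by
      rw [crs]
      refine le_trans (le_of_eq ?_) (sum_le_sum_of_subset
        (s := O.powerset.image (fun E => insert c Y ∪ E)) ?_)
      · rw [sum_image]
        · refine sum_congr rfl fun E hE => ?_
          have hE' := mem_powerset.1 hE
          have := card_le_card hE'
          rw [if_pos, card_union_of_disjoint (hdisj E hE'), hW]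
          · congr 2
            omega
          · constructor
            · rintro ⟨W, hWs, c', W', g1, g2, g3, rfl⟩
              have hsub : W' ⊆ insert c Y := by
                intro y hy
                have hyv : y ≠ v := fun h => g3 (h ▸ hy)
                have hyM : y ∈ M := by
                  by_cases hyc : y = c'
                  · exact hyc ▸ hM1 c' g1
                  · exact hM2 c' y g1 (g2.adj_of_flat hS y hy hyc) hyv
                have := (mem_insert.1 (hWs (mem_insert_of_mem hy))).resolve_left hyv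
                exact (mem_union.1 this).resolve_right fun h => (hO' y (hE' h)).2 hyM
              have := card_le_card hsub
              rw [g2.card, hW] at this
              omega
            · refine ⟨insert v (insert c (insert d Y)), insert_subset_insert _ ?_, c,
                insert c (insert d Y), hvc, copy_of_flat hS ?_ ?_ ?_, ?_, rfl⟩
              · intro y hy
                simp only [mem_insert, mem_union] at hy ⊢
                tauto
              · simp [hcY, hcd.ne]
              · rw [card_insert_of_notMem hdY]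
                omega
              · intro y hy
                rcases mem_insert.1 hy with rfl | hy
                · exact hcd
                · exact (hY' y hy).2.2
              · intro h
                exact hvM (hWM (by rwa [insert_comm]))
        · intro E hE E' hE' h
          have := congrArg (fun Z => Z \ insert c Y) h
          simp only [union_sdiff_cancel_left (hdisj E (mem_powerset.1 hE)),
            union_sdiff_cancel_left (hdisj E' (mem_powerset.1 hE'))] at this
          exact this
      · intro A hA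
        obtain ⟨E, hE, rfl⟩ := mem_image.1 hA
        rw [mem_powerset]
        intro y hy
        simp only [mem_erase, mem_univ, and_true]
        rcases mem_union.1 hy with hy | hy
        · exact ⟨fun h => hdW (h ▸ hy), fun h => hvM (h ▸ hWM (mem_insert_of_mem hy))⟩
        · have := hO' y (mem_powerset.1 hE hy)
          exact ⟨fun h => this.2 (h ▸ hWM (mem_insert_self _ _)), this.1⟩
    calc (Fintype.card V - 1)! ≤ (Fintype.card V - 1)! * S.size ! * (M.card - 1 - S.size)! := by
          rw [mul_assoc]
          exact Nat.le_mul_of_pos_right _ (Nat.mul_pos (factorial_pos _) (factorial_pos _))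
      _ ≤ crs G (.graft S) v d * (D + D * D)! := by
          rw [← h3]
          exact Nat.mul_le_mul h4 (factorial_le hMcard)
      _ = _ := mul_comm _ _

omit [DecidableEq V] in
theorem slack_of_small {s : ℕ} {c : V} (hc : (nb G c).card ≤ s) : Slack G s c := by
  classical
  by_cases h : ∀ c', G.Adj c c' → (nb G c').card ≤ s
  · exact Or.inl h
  push Not at h
  obtain ⟨c', h1, h2⟩ := h
  have e1 : ((nb G c').erase c).card = (nb G c').card - 1 :=
    card_erase_of_mem (mem_nb.2 h1.symm)
  have e2 : ((nb G c).erase c').card = (nb G c).card - 1 := card_erase_of_mem (mem_nb.2 h1)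
  have e3 : 0 < (nb G c).card := card_pos.2 ⟨c', mem_nb.2 h1⟩
  obtain ⟨d, hd, hd'⟩ := exists_mem_notMem_of_card_lt_card
    (show ((nb G c).erase c').card < ((nb G c').erase c).card by omega)
  simp only [mem_erase, mem_nb, not_and] at hd hd'
  exact Or.inr ⟨c', d, h1, h2, hd.2, hd.1, hd' hd.2.ne.symm⟩

/-- The component of `v` is a clique. -/
def Cl (G : SimpleGraph V) (v : V) : Prop :=
  ∀ y, G.Adj v y → ∀ z, (z = v ∨ G.Adj v z) ↔ (z = y ∨ G.Adj y z)

omit [DecidableEq V] [Fintype V] in
theorem Cl.adj {v w : V} (h : Cl G v) (hw : G.Adj v w) : Cl G w := by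
  intro y hy z
  rcases (h w hw y).2 (Or.inr hy) with rfl | hvy
  · exact (h w hw z).symm
  · exact (h w hw z).symm.trans (h y hvy z)

omit [DecidableEq V] in
theorem slack_near (s : ℕ) {v : V} (h : ¬ Cl G v) : ∃ w, (w = v ∨ G.Adj v w) ∧ Slack G s w := by
  have key : ∀ a c d, G.Adj a c → G.Adj c d → d ≠ a → ¬ G.Adj a d →
      Slack G s a ∨ Slack G s c := fun a c d h1 h2 h3 h4 => by
    by_cases hc : (nb G c).card ≤ s
    · exact Or.inr (slack_of_small hc)
    · exact Or.inl (Or.inr ⟨c, d, h1, by omega, h2, h3, h4⟩)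
  simp only [Cl, not_forall] at h
  obtain ⟨y, hy, z, hz⟩ := h
  by_cases h1 : z = v ∨ G.Adj v z
  · have h2 : ¬ (z = y ∨ G.Adj y z) := fun h => hz ⟨fun _ => h, fun _ => h1⟩
    rw [not_or] at h2
    rcases h1 with rfl | h1
    · exact absurd hy.symm h2.2
    · rcases key y v z hy.symm h1 h2.1 h2.2 with h | h
      · exact ⟨y, Or.inr hy, h⟩
      · exact ⟨v, Or.inl rfl, h⟩
  · have h2 : z = y ∨ G.Adj y z := by
      by_contra h
      exact hz ⟨fun h' => absurd h' h1, fun h' => absurd h' h⟩
    rw [not_or] at h1
    rcases h2 with rfl | h2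
    · exact absurd hy h1.2
    · rcases key v y z hy h2 h1.1 h1.2 with h | h
      · exact ⟨v, Or.inl rfl, h⟩
      · exact ⟨y, Or.inr hy, h⟩

/-- The neighbourhood is a clique with exactly `k` vertices. -/
def Perfect (G : SimpleGraph V) (k : ℕ) (v : V) : Prop :=
  (nb G v).card = k ∧ ∀ y z, G.Adj v y → G.Adj v z → y ≠ z → G.Adj y z

open Classical in
theorem stability {S : RT} (hS : ¬ S.flat) {D : ℕ} (hD : ∀ v, (nb G v).card ≤ D)
    (hfree : ∀ v x W, Copy G S v W → x ∉ W → ¬ G.Adj v x) :
    ((1 + D) * (D + D * D)!) * ∑ v, (nb G v).card +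
      (univ.filter fun v => ¬ Perfect G S.size v).card ≤
      ((1 + D) * (D + D * D)!) * (S.size * Fintype.card V) := by
  obtain ⟨S₁, f1, f2, f3⟩ := exists_broom hS
  obtain ⟨U, hUdef⟩ : ∃ U : Finset V, U = univ.filter fun v => ¬ Cl G v := ⟨_, rfl⟩
  have hU : ∀ v ∈ U, ∀ x, G.Adj v x → x ∈ U := by
    intro v hv x hx
    simp only [hUdef, mem_filter, mem_univ, true_and] at hv ⊢
    exact fun h => hv (h.adj hx.symm)
  obtain ⟨K, hK⟩ : ∃ K, K = (D + D * D)! := ⟨_, rfl⟩
  have hKpos : 1 ≤ K := hK ▸ factorial_pos _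
  obtain ⟨L, hL⟩ : ∃ L : Finset V, L = U.filter (Slack G S₁.size) := ⟨_, rfl⟩
  have h1 : K * CC G U (.graft S₁) + L.card * (Fintype.card V - 1)! ≤
      K * (U.card * (Fintype.card V - 1)!) := by
    rw [CC, mul_sum, hL, card_filter, sum_mul, ← sum_add_distrib, ← smul_eq_mul U.card,
      ← sum_const, mul_sum]
    refine sum_le_sum fun v _ => ?_
    split_ifs with hv
    · rw [one_mul, hK]
      exact crs_slack f1 f2 hD hv
    · simpa using Nat.mul_le_mul_left K (crs_nb _ v)
  have h2 := NN_slack hU f3 h1
  rw [NN_free hfree] at h2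
  have h3 : K * ∑ v ∈ U, (nb G v).card + L.card ≤ K * (S.size * U.card) := by
    refine Nat.le_of_mul_le_mul_right (c := (Fintype.card V - 1)!) ?_ (factorial_pos _)
    calc _ = K * ((∑ v ∈ U, (nb G v).card) * (Fintype.card V - 1)!) +
          L.card * (Fintype.card V - 1)! := by ring
      _ ≤ _ := h2
      _ = _ := by ring
  have h4 : U.card ≤ L.card * (1 + D) := by
    have : U ⊆ L.biUnion fun w => insert w (nb G w) := by
      intro v hv
      have hv' : ¬ Cl G v := by simpa [hUdef] using hv
      obtain ⟨w, hw, hs⟩ := slack_near S₁.size hv'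
      simp only [hL, mem_biUnion, mem_filter, mem_insert, mem_nb]
      rcases hw with rfl | hw
      · exact ⟨w, ⟨hv, hs⟩, Or.inl rfl⟩
      · exact ⟨w, ⟨hU v hv w hw, hs⟩, Or.inr hw.symm⟩
    refine (card_le_card this).trans (card_biUnion_le.trans (sum_le_card_nsmul _ _ _ ?_))
    intro w _
    have := card_insert_le w (nb G w)
    have := hD w
    omega
  have h5 : ∀ v ∈ Uᶜ, ((1 + D) * K) * (nb G v).card + (if ¬ Perfect G S.size v then 1 else 0) ≤
      ((1 + D) * K) * S.size := by
    intro v hv
    have hv' : Cl G v := by simpa [hUdef] using hv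
    have hcl : ∀ y z, G.Adj v y → G.Adj v z → y ≠ z → G.Adj y z := fun y z hy hz hyz =>
      ((hv' y hy z).1 (Or.inr hz)).resolve_left hyz.symm
    have hle : (nb G v).card ≤ S.size := by
      by_contra hlt
      obtain ⟨x, hx⟩ : (nb G v).Nonempty := card_pos.1 (by omega)
      have hvn : v ∉ (nb G v).erase x := by simp
      obtain ⟨W, hW, hc⟩ := copy_of_clique (G := G) S (Q := insert v ((nb G v).erase x)) (v := v)
        (by
          intro y hy z hz hyz
          simp only [mem_insert, mem_erase, mem_nb] at hy hz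
          rcases hy with ey | hy <;> rcases hz with ez | hz
          · exact absurd (ey.trans ez.symm) hyz
          · exact ey ▸ hz.2
          · exact ez ▸ hy.2.symm
          · exact hcl y z hy.2 hz.2 hyz)
        (mem_insert_self _ _)
        (by rw [card_insert_of_notMem hvn, card_erase_of_mem hx]; omega)
      refine hfree v x W hc (fun h => ?_) (mem_nb.1 hx)
      have := hW h
      simp [(mem_nb.1 hx).ne.symm] at this
    split_ifs with hp
    · simpa using Nat.mul_le_mul_left _ hle
    · have hlt : (nb G v).card + 1 ≤ S.size := by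
        rcases hle.lt_or_eq with h | h
        · exact h
        · exact absurd ⟨h, hcl⟩ hp
      have e1 := Nat.mul_le_mul_left ((1 + D) * K) hlt
      have e2 : 1 ≤ (1 + D) * K := Nat.mul_pos (by omega) hKpos
      rw [mul_add] at e1
      omega
  have h6 := sum_le_sum h5
  rw [sum_add_distrib, ← mul_sum, sum_const, smul_eq_mul] at h6
  have h7 : ∑ v ∈ U, (if ¬ Perfect G S.size v then 1 else 0) ≤ U.card := by
    rw [← card_filter]
    exact card_filter_le _ _
  rw [← hK, card_filter, ← sum_add_sum_compl U, ← sum_add_sum_compl U, ← card_add_card_compl U]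
  have h8 := Nat.mul_le_mul_left (1 + D) h3
  nlinarith

end Pool.Agent.MP_1c0fc2_co
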