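import Pool.Agent.MP_1c0fc2_co.EIface

/-! Supersaturated ordered hypergraph Ramsey theorem. -/

namespace Pool.Agent.MP_1c0fc2_co

open Finset

/-- finite hypergraph Ramsey theorem -/
theorem su_ramsey (C : Type) [Fintype C] (u : ℕ) : ∀ m : ℕ, ∃ N : ℕ,
    ∀ (α : Type) [LinearOrder α] (χ : Finset α → C) (A : Finset α), N ≤ A.card →
      ∃ B ⊆ A, B.card = m ∧ ∃ c, ∀ e ⊆ B, e.card = u → χ e = c := by
  classical
  induction u with
  | zero =>
    intro m
    refine ⟨m, fun α _ χ A hA => ?_⟩
    obtain ⟨B, hB, hBc⟩ := exists_subset_card_eq hA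
    refine ⟨B, hB, hBc, χ ∅, fun e _ he => ?_⟩
    rw [card_eq_zero.1 he]
  | succ u ihu =>
    have hend : ∀ r : ℕ, ∃ N : ℕ, ∀ (α : Type) [LinearOrder α] (χ : Finset α → C)
        (A : Finset α), N ≤ A.card → ∃ B ⊆ A, B.card = r ∧ ∃ g : α → C,
          ∀ i ∈ B, ∀ e ⊆ B, e.card = u → (∀ j ∈ e, i < j) → χ (insert i e) = g i := by
      intro r
      induction r with
      | zero =>
        exact ⟨0, fun α _ χ A _ => ⟨∅, empty_subset _, rfl, fun _ => χ ∅, by simp⟩⟩
      | succ r ih =>
        obtain ⟨N, hN⟩ := ih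
        obtain ⟨N', hN'⟩ := ihu N
        refine ⟨N' + 1, fun α _ χ A hA => ?_⟩
        have hne : A.Nonempty := card_pos.1 (by omega)
        have ha : A.min' hne ∈ A := A.min'_mem hne
        have hmin : ∀ x ∈ A, A.min' hne ≤ x := fun x hx => A.min'_le x hx
        generalize A.min' hne = a at ha hmin
        have hcard : N' ≤ (A.erase a).card := by
          rw [card_erase_of_mem ha]; omega
        obtain ⟨B0, hB0, hB0c, c, hc⟩ := hN' α (fun e => χ (insert a e)) _ hcard
        obtain ⟨B, hB, hBc, g, hg⟩ := hN α χ B0 hB0c.ge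
        have hBA : B ⊆ A.erase a := hB.trans hB0
        have haB : a ∉ B := fun h => by simpa using hBA h
        refine ⟨insert a B, ?_, by rw [card_insert_of_notMem haB, hBc],
          Function.update g a c, ?_⟩
        · intro x hx
          rcases mem_insert.1 hx with rfl | hx
          · exact ha
          · exact mem_of_mem_erase (hBA hx)
        · intro i hi e he heu hlt
          have hai : a ≤ i := by
            rcases mem_insert.1 hi with rfl | hi
            · exact le_rfl
            · exact hmin i (mem_of_mem_erase (hBA hi))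
          have heB : e ⊆ B := by
            intro j hj
            rcases mem_insert.1 (he hj) with rfl | h
            · exact absurd (hlt _ hj) (not_lt.2 hai)
            · exact h
          rcases mem_insert.1 hi with rfl | hi
          · rw [Function.update_self]; exact hc e (heB.trans hB) heu
          · rw [Function.update_of_ne (fun h : i = a => haB (h ▸ hi))]
            exact hg i hi e heB heu hlt
    intro m
    obtain ⟨N, hN⟩ := hend (Fintype.card C * m)
    refine ⟨N, fun α _ χ A hA => ?_⟩
    obtain ⟨B, hB, hBc, g, hg⟩ := hN α χ A hA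
    obtain ⟨c, _, hc⟩ := exists_le_card_fiber_of_mul_le_card_of_maps_to (s := B)
      (t := (univ : Finset C)) (n := m)
      (f := g) (fun _ _ => mem_univ _) ⟨χ ∅, mem_univ _⟩ (by rw [card_univ, hBc])
    obtain ⟨B', hB', hc'⟩ := exists_subset_card_eq hc
    have hB'B : B' ⊆ B := fun x hx => (mem_filter.1 (hB' hx)).1
    refine ⟨B', hB'B.trans hB, hc', c, fun e he heu => ?_⟩
    have hne : e.Nonempty := card_pos.1 (by omega)
    have hi : e.min' hne ∈ e := e.min'_mem hne
    have hmin : ∀ x ∈ e, e.min' hne ≤ x := fun x hx => e.min'_le x hx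
    generalize e.min' hne = i at hi hmin
    have h1 := hg i (hB'B (he hi)) (e.erase i) ((erase_subset _ _).trans (he.trans hB'B))
      (by rw [card_erase_of_mem hi]; omega)
      (fun j hj => lt_of_le_of_ne (hmin j (mem_of_mem_erase hj)) (ne_of_mem_erase hj).symm)
    rw [insert_erase hi] at h1
    rw [h1]; exact (mem_filter.1 (hB' (he hi))).2

/-- the number of `R`-sets containing a given set -/
theorem su_count (n R : ℕ) (S : Finset (Fin n)) :
    (((univ : Finset (Fin n)).powersetCard R).filter (fun A => S ⊆ A)).card ≤ n ^ (R - S.card) := by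
  have h1 : (((univ : Finset (Fin n)).powersetCard R).filter (fun A => S ⊆ A)).card ≤
      ((univ : Finset (Fin n)).powersetCard (R - S.card)).card := by
    refine card_le_card_of_injOn (fun A => A \ S) ?_ ?_
    · intro A hA
      have hA' := mem_filter.1 (mem_coe.1 hA)
      refine mem_coe.2 (mem_powersetCard.2 ⟨subset_univ _, ?_⟩)
      rw [card_sdiff_of_subset hA'.2, (mem_powersetCard.1 hA'.1).2]
    · intro A hA B hB h
      have hA' := (mem_filter.1 (mem_coe.1 hA)).2
      have hB' := (mem_filter.1 (mem_coe.1 hB)).2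
      have h' : A \ S = B \ S := h
      rw [← sdiff_union_of_subset hA', ← sdiff_union_of_subset hB', h']
  rw [card_powersetCard, card_univ, Fintype.card_fin] at h1
  exact h1.trans (Nat.choose_le_pow _ _)

theorem superStmt : SuperStmt := by
  classical
  intro v u t
  obtain ⟨N, hN⟩ := su_ramsey (Option (Fin t)) u (u + v)
  obtain ⟨R, hRN, hRu⟩ : ∃ R, N ≤ R ∧ u + v ≤ R := ⟨N + (u + v), by omega, by omega⟩
  have hc : (0 : ℝ) < 1 / (2 ^ R * (R.factorial : ℝ)) := by positivity
  refine ⟨1 / (2 ^ R * (R.factorial : ℝ)) / (t + 1), by positivity, 2 * R + 1,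
    fun n hn EK hEK C hC => ?_⟩
  set c : ℝ := 1 / (2 ^ R * (R.factorial : ℝ)) with hcdef
  set ε : ℝ := c / (t + 1) with hε
  set out := ((univ : Finset (Fin n)).powersetCard u).filter (fun a => ∀ i, a ∉ C i) with hout
  set F : Fin t → Finset (Fin v → Fin n) := fun i => (univ : Finset (Fin v → Fin n)).filter
    (fun f => StrictMono f ∧ ∀ e ∈ EK, e.image f ∈ C i) with hF
  set P := (univ : Finset (Fin n)).powersetCard R with hP
  have hcover : P ⊆ out.biUnion (fun a => P.filter (fun A => a ⊆ A)) ∪
      (univ : Finset (Fin t)).biUnion (fun i => (F i).biUnion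
        (fun f => P.filter (fun A => univ.image f ⊆ A))) := by
    intro A hA
    have hAc : A.card = R := (mem_powersetCard.1 hA).2
    obtain ⟨B, hB, hBc, col, hcol⟩ := hN (Fin n)
      (fun a => if h : ∃ i, a ∈ C i then some h.choose else none) A (by omega)
    rcases col with _ | i
    · obtain ⟨a, ha, hac⟩ := exists_subset_card_eq (s := B) (n := u) (by omega)
      have h1 := hcol a ha hac
      have h2 : ¬ ∃ i, a ∈ C i := fun h => by simp [h] at h1
      refine mem_union_left _ (mem_biUnion.2 ⟨a, ?_, mem_filter.2 ⟨hA, ha.trans hB⟩⟩)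
      exact mem_filter.2 ⟨mem_powersetCard.2 ⟨subset_univ _, hac⟩, fun i hi => h2 ⟨i, hi⟩⟩
    · obtain ⟨B', hB', hB'c⟩ := exists_subset_card_eq (s := B) (n := v) (by omega)
      have hsub : ∀ e : Finset (Fin v), e.image (B'.orderEmbOfFin hB'c) ⊆ B' := by
        intro e x hx
        obtain ⟨j, _, rfl⟩ := mem_image.1 hx
        exact B'.orderEmbOfFin_mem hB'c j
      refine mem_union_right _ (mem_biUnion.2 ⟨i, mem_univ _, mem_biUnion.2
        ⟨B'.orderEmbOfFin hB'c, ?_, mem_filter.2 ⟨hA, (hsub _).trans (hB'.trans hB)⟩⟩⟩)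
      refine mem_filter.2 ⟨mem_univ _, (B'.orderEmbOfFin hB'c).strictMono, fun e he => ?_⟩
      have h1 := hcol _ ((hsub e).trans hB') (by
        rw [card_image_of_injective _ (B'.orderEmbOfFin hB'c).injective, hEK e he])
      by_cases h : ∃ i, e.image (B'.orderEmbOfFin hB'c) ∈ C i
      · rw [dif_pos h] at h1
        have h2 := h.choose_spec
        rwa [Option.some.inj h1] at h2
      · rw [dif_neg h] at h1
        exact absurd h1 (by simp)
  have hcount : P.card ≤ out.card * n ^ (R - u) + ∑ i, (F i).card * n ^ (R - v) := by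
    refine (card_le_card hcover).trans ((card_union_le _ _).trans (add_le_add ?_ ?_))
    · refine card_biUnion_le_card_mul _ _ _ fun a ha => ?_
      have hac : a.card = u := (mem_powersetCard.1 (mem_filter.1 ha).1).2
      rw [← hac]; exact su_count n R a
    · refine card_biUnion_le.trans (sum_le_sum fun i _ => ?_)
      refine card_biUnion_le_card_mul _ _ _ fun f hf => ?_
      have hfc : (univ.image f).card = v := by
        rw [card_image_of_injective _ (mem_filter.1 hf).2.1.injective, card_univ,
          Fintype.card_fin]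
      have h := su_count n R (univ.image f)
      rwa [hfc] at h
  have hn0 : (0 : ℝ) < n := by exact_mod_cast (by omega : 0 < n)
  have hlow : c * (n : ℝ) ^ R ≤ P.card := by
    rw [hP, card_powersetCard, card_univ, Fintype.card_fin]
    refine le_trans ?_ (Nat.pow_le_choose R n)
    have h1 : (n : ℝ) / 2 ≤ ((n + 1 - R : ℕ) : ℝ) := by
      have h2 : n ≤ 2 * (n + 1 - R) := by omega
      have h3 : (n : ℝ) ≤ 2 * ((n + 1 - R : ℕ) : ℝ) := by exact_mod_cast h2
      linarith
    have h4 := pow_le_pow_left₀ (by positivity) h1 R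
    rw [le_div_iff₀ (by positivity)]
    refine le_trans (le_of_eq ?_) h4
    rw [hcdef, div_pow]; field_simp
  have hup : (P.card : ℝ) ≤ out.card * (n : ℝ) ^ (R - u) + t * (ε * (n : ℝ) ^ R) := by
    have h1 : (P.card : ℝ) ≤ out.card * (n : ℝ) ^ (R - u) +
        ∑ i, ((F i).card : ℝ) * (n : ℝ) ^ (R - v) := by exact_mod_cast hcount
    refine h1.trans (add_le_add le_rfl ?_)
    have h2 : ∀ i ∈ (univ : Finset (Fin t)),
        ((F i).card : ℝ) * (n : ℝ) ^ (R - v) ≤ ε * (n : ℝ) ^ R := by
      intro i _
      have h3 : (n : ℝ) ^ R = (n : ℝ) ^ v * (n : ℝ) ^ (R - v) := by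
        rw [← pow_add]; congr 1; omega
      rw [h3, ← mul_assoc]
      exact mul_le_mul_of_nonneg_right (hC i) (by positivity)
    have h4 := sum_le_card_nsmul _ _ _ h2
    rwa [card_univ, Fintype.card_fin, nsmul_eq_mul] at h4
  have hce : c = ε * (t + 1) := by rw [hε]; field_simp
  have h5 : (n : ℝ) ^ R = (n : ℝ) ^ u * (n : ℝ) ^ (R - u) := by
    rw [← pow_add]; congr 1; omega
  have h6 : ε * (n : ℝ) ^ u * (n : ℝ) ^ (R - u) ≤ out.card * (n : ℝ) ^ (R - u) := by
    rw [mul_assoc, ← h5]
    rw [hce] at hlow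
    nlinarith
  exact le_of_mul_le_mul_right h6 (by positivity)

end Pool.Agent.MP_1c0fc2_co
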