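import Mathlib

namespace Pool.Agent.MP_1c0fc2_co

/-- The 2-density `m₂(G)`: the largest value of `(e(J) - 1) / (v(J) - 2)` over all subgraphs `J`
of `G` with at least three vertices. -/
noncomputable def twoDensity {V : Type} (G : SimpleGraph V) : ℝ :=
  sSup {x : ℝ | ∃ J : G.Subgraph, 3 ≤ J.verts.ncard ∧
    x = ((J.edgeSet.ncard : ℝ) - 1) / ((J.verts.ncard : ℝ) - 2)}

end Pool.Agent.MP_1c0fc2_co
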