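import Pool.Agent.MP_1c0fc2_co.Sep
import Pool.Agent.MP_1c0fc2_co.TwoDensity

/-! Graphs with an edge in every densest subgraph are Ramsey isolated. -/

namespace Pool.Agent.MP_1c0fc2_co

open Finset

set_option linter.unusedSectionVars false

section dens
variable {β : Type} [Fintype β] [DecidableEq β]

lemma card_EF_eq (G : SimpleGraph β) : (EF G).card = G.edgeSet.ncard := by
  classical
  have hinj : Function.Injective (Sym2.toFinset : Sym2 β → Finset β) := by
    intro z w h
    apply Sym2.ext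
    intro x
    rw [← Sym2.mem_toFinset, h, Sym2.mem_toFinset]
  rw [← Set.ncard_image_of_injective G.edgeSet hinj, ← Set.ncard_coe_finset]
  congr 1
  ext e
  simp only [mem_coe, mem_EF, Set.mem_image]
  constructor
  · rintro ⟨x, y, h, rfl⟩
    exact ⟨s(x, y), h, Sym2.toFinset_mk_eq⟩
  · rintro ⟨z, hz, rfl⟩
    induction z using Sym2.ind with
    | h x y => exact ⟨x, y, hz, Sym2.toFinset_mk_eq⟩

lemma dens_finite (G : SimpleGraph β) : {x : ℝ | ∃ J : G.Subgraph, 3 ≤ J.verts.ncard ∧
    x = ((J.edgeSet.ncard : ℝ) - 1) / ((J.verts.ncard : ℝ) - 2)}.Finite := by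
  refine (Set.finite_range (fun J : G.Subgraph =>
    ((J.edgeSet.ncard : ℝ) - 1) / ((J.verts.ncard : ℝ) - 2))).subset ?_
  rintro x ⟨J, -, rfl⟩
  exact ⟨J, rfl⟩

lemma dens_le (G : SimpleGraph β) (S : Finset (Finset β)) (hS : S ⊆ EF G) (h2 : 2 ≤ S.card) :
    ((S.card : ℝ) - 1) / (((S.biUnion id).card : ℝ) - 2) ≤ twoDensity G := by
  classical
  let J : G.Subgraph :=
    { verts := (S.biUnion id : Finset β)
      Adj := fun x y => ({x, y} : Finset β) ∈ S
      adj_sub := fun h => pair_mem_EF.1 (hS h)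
      edge_vert := fun {x y} h => by
        simp only [mem_coe, mem_biUnion, id]
        exact ⟨_, h, by simp⟩
      symm := ⟨fun x y h => by rwa [pair_comm]⟩ }
  have hv : J.verts.ncard = (S.biUnion id).card := Set.ncard_coe_finset _
  have he : J.edgeSet.ncard = S.card := by
    rw [← J.edgeSet_spanningCoe, ← card_EF_eq]
    congr 1
    ext e
    rw [mem_EF]
    constructor
    · rintro ⟨x, y, h, rfl⟩
      exact h
    · intro h
      obtain ⟨x, y, hxy, rfl⟩ := mem_EF.1 (hS h)
      exact ⟨x, y, h, rfl⟩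
  apply le_csSup (dens_finite G).bddAbove
  refine ⟨J, ?_, by rw [hv, he]⟩
  rw [hv]
  exact three_le_supp S (fun e h => card_EF (hS h)) h2

lemma dens_attain (G : SimpleGraph β) (h3 : 3 ≤ Fintype.card β) :
    ∃ (v : ℕ) (S : Finset (Finset β)), S ⊆ EF G ∧ (S.biUnion id).card ≤ v ∧ 3 ≤ v ∧
      twoDensity G = ((S.card : ℝ) - 1) / ((v : ℝ) - 2) := by
  classical
  have hne : {x : ℝ | ∃ J : G.Subgraph, 3 ≤ J.verts.ncard ∧
      x = ((J.edgeSet.ncard : ℝ) - 1) / ((J.verts.ncard : ℝ) - 2)}.Nonempty := by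
    refine ⟨_, ⊤, ?_, rfl⟩
    simpa [Set.ncard_univ] using h3
  obtain ⟨J, hJ, hx⟩ := hne.csSup_mem (dens_finite G)
  refine ⟨J.verts.ncard, EF J.spanningCoe, ?_, ?_, hJ, ?_⟩
  · intro e he
    obtain ⟨x, y, h, rfl⟩ := mem_EF.1 he
    exact pair_mem_EF.2 (J.adj_sub h)
  · rw [← Set.ncard_coe_finset]
    apply Set.ncard_le_ncard _ (Set.toFinite _)
    intro x hx
    simp only [mem_coe, mem_biUnion, id] at hx
    obtain ⟨e, he, hx⟩ := hx
    obtain ⟨p, q, h, rfl⟩ := mem_EF.1 he
    simp only [mem_insert, mem_singleton] at hx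
    rcases hx with rfl | rfl
    · exact J.edge_vert h
    · exact J.edge_vert (J.symm.symm _ _ h)
  · rw [card_EF_eq, J.edgeSet_spanningCoe]
    exact hx

lemma one_lt_dens (G : SimpleGraph β) (hc : G.Connected) (hcyc : ¬ G.IsAcyclic) :
    3 ≤ Fintype.card β ∧ 1 < twoDensity G := by
  classical
  have h1 := hc.card_vert_le_card_edgeSet_add_one
  have h2 : Nat.card G.edgeSet + 1 ≠ Nat.card β := fun h =>
    hcyc (SimpleGraph.isTree_iff_connected_and_card.2 ⟨hc, h⟩).isAcyclic
  have h3 : Fintype.card β ≤ (EF G).card := by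
    rw [card_EF_eq, ← Nat.card_coe_set_eq, ← Nat.card_eq_fintype_card]
    omega
  have h4 : (EF G).card ≤ (Fintype.card β).choose 2 := by
    rw [← card_univ, ← card_powersetCard]
    apply card_le_card
    intro e he
    exact mem_powersetCard.2 ⟨subset_univ _, card_EF he⟩
  have hpos : 0 < Fintype.card β := by
    have := hc.nonempty
    exact Fintype.card_pos
  have h5 : 3 ≤ Fintype.card β := by
    by_contra hlt
    have : Fintype.card β = 1 ∨ Fintype.card β = 2 := by omega
    have c1 : Nat.choose 1 2 = 0 := rfl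
    have c2 : Nat.choose 2 2 = 1 := rfl
    rcases this with h | h <;> rw [h] at h3 h4 <;> omega
  refine ⟨h5, lt_of_lt_of_le ?_ (dens_le G (EF G) Subset.rfl (by omega))⟩
  have h6 : ((EF G).biUnion id).card ≤ Fintype.card β := card_le_univ _
  have h7 := three_le_supp (EF G) (fun e h => card_EF h) (by omega)
  have h7' : (3 : ℝ) ≤ ((EF G).biUnion id).card := by exact_mod_cast h7
  have h8 : (((EF G).biUnion id).card : ℝ) ≤ (EF G).card := by exact_mod_cast h6.trans h3
  rw [one_lt_div (by linarith)]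
  linarith

/-- the arithmetic data of a graph with an edge in every densest subgraph -/
lemma data_of_dens (G : SimpleGraph β) (hc : G.Connected) (hcyc : ¬ G.IsAcyclic) {u u' : β}
    (huu : G.Adj u u') (hlt : twoDensity (G.deleteEdges {s(u, u')}) < twoDensity G) :
    ∃ a b : ℕ, HData a b (EF G) u u' ∧ ∃ S ⊆ EF G, 2 ≤ S.card ∧ del a b S ≤ th a b := by
  classical
  obtain ⟨h3, h1⟩ := one_lt_dens G hc hcyc
  obtain ⟨v, S0, hS0, hsupp, hv, hd⟩ := dens_attain G h3
  have hv' : (3 : ℝ) ≤ v := by exact_mod_cast hv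
  have hev : v ≤ S0.card := by
    rw [hd, one_lt_div (by linarith)] at h1
    have : (v : ℝ) < S0.card + 1 := by linarith
    have h' : (v : ℝ) - 1 < S0.card := by linarith
    have : v - 1 < S0.card := by
      have : ((v - 1 : ℕ) : ℝ) < S0.card := by
        rw [Nat.cast_sub (by omega)]; simpa using h'
      exact_mod_cast this
    omega
  obtain ⟨a, ha⟩ : ∃ a, S0.card = a + 1 := ⟨S0.card - 1, by omega⟩
  obtain ⟨b, hb⟩ : ∃ b, v = b + 2 := ⟨v - 2, by omega⟩
  have hb0 : (0 : ℝ) < b := by
    have : 0 < b := by omega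
    exact_mod_cast this
  have hd' : twoDensity G = (a : ℝ) / b := by
    rw [hd, ha, hb]; push_cast; ring_nf
  have key : ∀ S : Finset (Finset β), (∀ e ∈ S, e.card = 2) → 2 ≤ S.card →
      (((S.card : ℝ) - 1) / (((S.biUnion id).card : ℝ) - 2) ≤ (a : ℝ) / b →
        th a b ≤ del a b S) ∧
      (((S.card : ℝ) - 1) / (((S.biUnion id).card : ℝ) - 2) < (a : ℝ) / b →
        th a b < del a b S) := by
    intro S hS h2
    have h7 := three_le_supp S hS h2
    have h7' : (0 : ℝ) < ((S.biUnion id).card : ℝ) - 2 := by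
      have : (3 : ℝ) ≤ (S.biUnion id).card := by exact_mod_cast h7
      linarith
    constructor
    · intro h
      rw [div_le_div_iff₀ h7' hb0] at h
      have : ((th a b : ℤ) : ℝ) ≤ ((del a b S : ℤ) : ℝ) := by
        unfold th del; push_cast; linarith
      exact_mod_cast this
    · intro h
      rw [div_lt_div_iff₀ h7' hb0] at h
      have : ((th a b : ℤ) : ℝ) < ((del a b S : ℤ) : ℝ) := by
        unfold th del; push_cast; linarith
      exact_mod_cast this
  refine ⟨a, b, ⟨by omega, by omega, huu.ne, pair_mem_EF.2 huu, fun e he => card_EF he, ?_, ?_⟩,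
    S0, hS0, by omega, ?_⟩
  · intro S hS hne
    by_cases h2 : 2 ≤ S.card
    · exact (key S (fun e he => card_EF (hS he)) h2).1 (hd' ▸ dens_le G S hS h2)
    · have : S.card = 1 := by have := hne.card_pos; omega
      obtain ⟨e, rfl⟩ := card_eq_one.1 this
      exact (del_singleton a b e (card_EF (hS (mem_singleton_self e)))).ge
  · intro S hS h2
    have hS' : S ⊆ EF (G.deleteEdges {s(u, u')}) := by
      intro e he
      obtain ⟨hne, he'⟩ := mem_erase.1 (hS he)
      obtain ⟨x, y, hxy, rfl⟩ := mem_EF.1 he'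
      refine pair_mem_EF.2 ?_
      rw [SimpleGraph.deleteEdges_adj]
      refine ⟨hxy, fun h => hne ?_⟩
      rw [Set.mem_singleton_iff] at h
      rw [← Sym2.toFinset_mk_eq, h, Sym2.toFinset_mk_eq]
    exact (key S (fun e he => card_EF (hS' he)) h2).2
      ((dens_le _ S hS' h2).trans_lt (hd' ▸ hlt))
  · unfold del th
    have : ((S0.biUnion id).card : ℤ) ≤ b + 2 := by exact_mod_cast hb ▸ hsupp
    rw [ha]
    push_cast
    nlinarith

end dens

/-- mutually contained finite graphs are isomorphic -/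
lemma iso_of_contained {α β : Type} [Fintype α] [DecidableEq α] [Fintype β] [DecidableEq β]
    {H : SimpleGraph α} {H' : SimpleGraph β} (h1 : H.IsContained H') (h2 : H'.IsContained H) :
    Nonempty (H ≃g H') := by
  classical
  obtain ⟨c1⟩ := h1
  obtain ⟨c2⟩ := h2
  let f : α ↪ β := ⟨c1.toHom, c1.injective⟩
  let g : β ↪ α := ⟨c2.toHom, c2.injective⟩
  have hcard : Fintype.card α = Fintype.card β :=
    le_antisymm (Fintype.card_le_of_embedding f) (Fintype.card_le_of_embedding g)
  have hbij : Function.Bijective f :=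
    (Fintype.bijective_iff_injective_and_card f).2 ⟨f.injective, hcard⟩
  have s1 : (EF H).image (fun e => e.map f) ⊆ EF H' := by
    intro s hs
    obtain ⟨e, he, rfl⟩ := mem_image.1 hs
    obtain ⟨x, y, hxy, rfl⟩ := mem_EF.1 he
    rw [map_pair]
    exact pair_mem_EF.2 (c1.toHom.map_rel hxy)
  have s2 : (EF H').image (fun e => e.map g) ⊆ EF H := by
    intro s hs
    obtain ⟨e, he, rfl⟩ := mem_image.1 hs
    obtain ⟨x, y, hxy, rfl⟩ := mem_EF.1 he
    rw [map_pair]
    exact pair_mem_EF.2 (c2.toHom.map_rel hxy)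
  have heq : (EF H).image (fun e => e.map f) = EF H' := by
    apply eq_of_subset_of_card_le s1
    rw [card_image_map]
    have := card_le_card s2
    rwa [card_image_map] at this
  refine ⟨⟨Equiv.ofBijective f hbij, fun {x y} => ⟨fun h => ?_, fun h => c1.toHom.map_rel h⟩⟩⟩
  have h' : ({f x, f y} : Finset β) ∈ EF H' := pair_mem_EF.2 h
  rw [← heq] at h'
  obtain ⟨e, he, hh⟩ := mem_image.1 h'
  rw [← map_pair] at hh
  have := map_injective f hh
  rw [this] at he
  exact pair_mem_EF.1 he

theorem single_core_isolated {α β : Type} [Finite α] [Finite β] (H : SimpleGraph α)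
    (H' : SimpleGraph β) (hH : H.Connected) (hcyc : ¬ H.IsAcyclic)
    (he : ∃ e ∈ H.edgeSet, twoDensity (H.deleteEdges {e}) < twoDensity H) (hH' : H'.Connected)
    (h : ∀ (V : Type) [Finite V] (G : SimpleGraph V), Arrows G H ↔ Arrows G H') :
    Nonempty (H ≃g H') := by
  classical
  have := Fintype.ofFinite α
  have := Fintype.ofFinite β
  obtain ⟨e, he, hlt⟩ := he
  induction e using Sym2.ind with
  | h u u' =>
  have huu : H.Adj u u' := he
  obtain ⟨a, b, hD, S0, hS0, hS0c, hS0d⟩ := data_of_dens H hH hcyc huu hlt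
  have n1 : ¬ ∃ (V : Type) (_ : Finite V) (G : SimpleGraph V), Arrows G H ∧ ¬ Arrows G H' :=
    fun ⟨V, _, G, h1, h2⟩ => h2 ((h V G).1 h1)
  have n2 : ¬ ∃ (V : Type) (_ : Finite V) (G : SimpleGraph V), Arrows G H' ∧ ¬ Arrows G H :=
    fun ⟨V, _, G, h1, h2⟩ => h2 ((h V G).2 h1)
  -- from data for `H'` we get the isomorphism if `H'` is contained in `H`
  by_cases hd : ∃ S ⊆ EF H', 2 ≤ S.card ∧ del a b S ≤ th a b
  · have hc1 : H'.IsContained H := by
      by_contra hn
      exact n1 (main_sep H H' hD hH' hd hn)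
    obtain ⟨c⟩ := id hc1
    let g : β ↪ α := ⟨c.toHom, c.injective⟩
    have s2 : ∀ S ⊆ EF H', S.image (fun e => e.map g) ⊆ EF H := by
      intro S hS s hs
      obtain ⟨e, he, rfl⟩ := mem_image.1 hs
      obtain ⟨x, y, hxy, rfl⟩ := mem_EF.1 (hS he)
      rw [map_pair]
      exact pair_mem_EF.2 (c.toHom.map_rel hxy)
    have hmem : ∀ S ⊆ EF H', 2 ≤ S.card → del a b S ≤ th a b →
        ∃ e ∈ S, e.map g = {u, u'} := by
      intro S hS h2 hdel
      by_contra hno
      have := hD.strict (S.image (fun e => e.map g)) (by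
        intro s hs
        refine mem_erase.2 ⟨?_, s2 S hS hs⟩
        obtain ⟨e, he, rfl⟩ := mem_image.1 hs
        exact fun h => hno ⟨e, he, h⟩) (by rw [card_image_map]; exact h2)
      rw [del_image_map] at this
      exact absurd hdel (not_le.2 this)
    obtain ⟨S, hS, h2, hdel⟩ := hd
    obtain ⟨e0, he0, hm0⟩ := hmem S hS h2 hdel
    obtain ⟨w, w', hww, rfl⟩ := mem_EF.1 (hS he0)
    have hD' : HData a b (EF H') w w' := by
      refine ⟨hD.hb, hD.hab, hww.ne, pair_mem_EF.2 hww, fun e he => card_EF he, ?_, ?_⟩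
      · intro T hT hne
        have := hD.weak _ (s2 T hT) (hne.image _)
        rwa [del_image_map] at this
      · intro T hT hT2
        by_contra hle
        obtain ⟨e1, he1, hm1⟩ := hmem T (hT.trans (erase_subset _ _)) hT2 (not_lt.1 hle)
        have := map_injective g (hm1.trans hm0.symm)
        exact (mem_erase.1 (hT he1)).1 this
    have hc2 : H.IsContained H' := by
      by_contra hn
      exact n2 (main_sep H' H hD' hH ⟨S0, hS0, hS0c, hS0d⟩ hn)
    exact iso_of_contained hc2 hc1
  · exfalso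
    push Not at hd
    have hn : ¬ H.IsContained H' := by
      rintro ⟨c⟩
      let f : α ↪ β := ⟨c.toHom, c.injective⟩
      have := hd (S0.image (fun e => e.map f)) (by
        intro s hs
        obtain ⟨e, he, rfl⟩ := mem_image.1 hs
        obtain ⟨x, y, hxy, rfl⟩ := mem_EF.1 (hS0 he)
        rw [map_pair]
        exact pair_mem_EF.2 (c.toHom.map_rel hxy)) (by rw [card_image_map]; exact hS0c)
      rw [del_image_map] at this
      exact absurd hS0d (not_le.2 this)
    by_cases hedge : ∃ w w', H'.Adj w w'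
    · obtain ⟨w, w', hww⟩ := hedge
      have hD' : HData a b (EF H') w w' := by
        refine ⟨hD.hb, hD.hab, hww.ne, pair_mem_EF.2 hww, fun e he => card_EF he, ?_, ?_⟩
        · intro T hT hne
          by_cases h2 : 2 ≤ T.card
          · exact (hd T hT h2).le
          · have : T.card = 1 := by have := hne.card_pos; omega
            obtain ⟨e, rfl⟩ := card_eq_one.1 this
            exact (del_singleton a b e (card_EF (hT (mem_singleton_self e)))).ge
        · intro T hT h2
          exact hd T (hT.trans (erase_subset _ _)) h2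
      exact n2 (main_sep H' H hD' hH ⟨S0, hS0, hS0c, hS0d⟩ hn)
    · apply n2
      refine ⟨β, inferInstance, ⊥, fun R _ => Or.inl ⟨⟨⟨id, fun {x y} hxy => ?_⟩,
        Function.injective_id⟩⟩, fun harr => ?_⟩
      · exact absurd ⟨x, y, hxy⟩ hedge
      · rcases harr ⊥ le_rfl with h' | h'
        · obtain ⟨c⟩ := h'
          exact c.toHom.map_rel huu
        · obtain ⟨c⟩ := h'
          exact (c.toHom.map_rel huu).1

end Pool.Agent.MP_1c0fc2_co
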