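import Pool.Agent.MP_1c0fc2_co.Comp

/-! Forest-like amalgams of copies of `H - u`. -/

namespace Pool.Agent.MP_1c0fc2_co

open Finset

set_option linter.unusedSectionVars false

lemma overlap_mono {ι γ : Type} [DecidableEq ι] [DecidableEq γ] (A B : ι → Finset γ)
    (h : ∀ k, A k ⊆ B k) (F : Finset ι) :
    ∑ k ∈ F, (A k).card + (F.biUnion B).card ≤ ∑ k ∈ F, (B k).card + (F.biUnion A).card := by
  induction F using Finset.induction_on with
  | empty => simp
  | insert j F hj ih =>
    rw [sum_insert hj, sum_insert hj, biUnion_insert, biUnion_insert]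
    have e1 := card_union_add_card_inter (A j) (F.biUnion A)
    have e2 := card_union_add_card_inter (B j) (F.biUnion B)
    have e3 : (A j ∩ F.biUnion A).card ≤ (B j ∩ F.biUnion B).card :=
      card_le_card (inter_subset_inter (h j) (biUnion_mono (fun k _ => h k)))
    omega

theorem forest2 (hF : ForestStmt) (Ty Nu C : Type) [Fintype Ty] [DecidableEq Ty] [Fintype Nu]
    [DecidableEq Nu] [Fintype C] [Nonempty C] (L : ℕ) :
    ∃ (n : ℕ) (ι : Type) (_ : Fintype ι) (_ : DecidableEq ι) (σ : ι → Option (Ty × Nu) ↪ Fin n),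
      (∀ χ : Fin n → C, ∃ i c, ∀ x, χ (σ i x) = c) ∧
      (∀ F : Finset (ι × Ty), F.Nonempty → F.card ≤ L →
        F.card * Fintype.card Nu + 1 ≤
          (F.biUnion fun k => univ.image (fun y : Nu => σ k.1 (some (k.2, y)))).card + F.card) := by
  classical
  obtain ⟨n, ι, _, σ, hR, hf⟩ := hF (Fintype.card (Option (Ty × Nu))) L C
  let e := Fintype.equivFin (Option (Ty × Nu))
  refine ⟨n, ι, inferInstance, inferInstance, fun i => e.toEmbedding.trans (σ i), ?_, ?_⟩
  · intro χ
    obtain ⟨i, c, hc⟩ := hR χ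
    exact ⟨i, c, fun x => hc _⟩
  · intro F hne hL
    set F' := F.image Prod.fst with hF'
    have h1 := hf F' (hne.image _) (card_image_le.trans hL)
    let A : ι → Finset (Fin n) := fun i =>
      (((F.filter (fun k => k.1 = i)) ×ˢ (univ : Finset Nu)).image
        (fun p => σ i (e (some (p.1.2, p.2)))))
    have hA : ∀ i, (A i).card = (F.filter (fun k => k.1 = i)).card * Fintype.card Nu := by
      intro i
      rw [card_image_of_injOn, card_product, card_univ]
      intro p hp q hq hpq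
      have hp1 := (mem_filter.1 (mem_product.1 hp).1).2
      have hq1 := (mem_filter.1 (mem_product.1 hq).1).2
      have := e.injective ((σ i).injective hpq)
      simp only [Option.some.injEq, Prod.mk.injEq] at this
      exact Prod.ext (Prod.ext (hp1.trans hq1.symm) this.1) this.2
    have h2 := overlap_mono A (fun i => univ.map (σ i)) (by
      intro i x hx
      obtain ⟨p, -, rfl⟩ := mem_image.1 hx
      exact mem_map_of_mem _ (mem_univ _)) F'
    have h3 : ∑ i ∈ F', (A i).card = F.card * Fintype.card Nu := by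
      rw [sum_congr rfl (fun i _ => hA i), ← sum_mul, ← card_eq_sum_card_image]
    have h4 : ∑ i ∈ F', (univ.map (σ i)).card = F'.card * Fintype.card (Option (Ty × Nu)) := by
      simp
    have h5 : F'.biUnion A ⊆ F.biUnion fun k => univ.image
        (fun y : Nu => (e.toEmbedding.trans (σ k.1)) (some (k.2, y))) := by
      intro x hx
      obtain ⟨i, -, hx⟩ := mem_biUnion.1 hx
      obtain ⟨p, hp, rfl⟩ := mem_image.1 hx
      obtain ⟨hp1, hp2⟩ := mem_filter.1 (mem_product.1 hp).1
      refine mem_biUnion.2 ⟨p.1, hp1, mem_image.2 ⟨p.2, mem_univ _, ?_⟩⟩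
      simp [hp2]
    have h6 := card_le_card h5
    have h7 : F'.card ≤ F.card := card_image_le
    show F.card * Fintype.card Nu + 1 ≤ (F.biUnion fun k => univ.image
        (fun y : Nu => (e.toEmbedding.trans (σ k.1)) (some (k.2, y)))).card + F.card
    omega

section amal
variable {a b : ℕ} {β 𝕍 K : Type} [Fintype β] [DecidableEq β] [DecidableEq 𝕍] [Fintype K]
  [DecidableEq K] {EH : Finset (Finset β)} {u u' : β}

/-- all edges of the copies of `H - u` -/
def XE (EH : Finset (Finset β)) (u : β) (ξ : K → β ↪ 𝕍) : Finset (Finset 𝕍) :=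
  univ.biUnion (fun k => (EH.filter (fun e => u ∉ e)).image (fun e => e.map (ξ k)))

lemma mem_XE {ξ : K → β ↪ 𝕍} {s : Finset 𝕍} :
    s ∈ XE EH u ξ ↔ ∃ k, ∃ e ∈ EH, u ∉ e ∧ e.map (ξ k) = s := by
  simp only [XE, mem_biUnion, mem_univ, true_and, mem_image, mem_filter, and_assoc]

lemma amal_core (hH : HData a b EH u u') (ξ : K → β ↪ 𝕍) (T : Finset (Finset 𝕍))
    (hT : T ⊆ XE EH u ξ) (hne : T.Nonempty) :
    ∃ F : Finset K, F.Nonempty ∧ F.card ≤ T.card ∧ ∃ J : K → Finset (Finset β),
      (∀ k ∈ F, th a b ≤ del a b (J k)) ∧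
      (2 ≤ T.card → F.card = 1 → ∀ k ∈ F, th a b < del a b (J k)) ∧
      T.card ≤ ∑ k ∈ F, (J k).card ∧
      (∀ k, ((J k).biUnion id).map (ξ k) ⊆ (univ.erase u).map (ξ k)) ∧
      (F.biUnion fun k => ((J k).biUnion id).map (ξ k)) ⊆ T.biUnion id := by
  choose idx hidx using fun s : T => mem_XE.1 (hT s.2)
  let J : K → Finset (Finset β) := fun k =>
    (EH.filter (fun e => u ∉ e)).filter (fun e => e.map (ξ k) ∈ T)
  have hJ0 : ∀ k, J k ⊆ EH.erase {u, u'} := by
    intro k e he
    obtain ⟨h1, h2⟩ := mem_filter.1 (mem_filter.1 he).1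
    refine mem_erase.2 ⟨?_, h1⟩
    rintro rfl
    exact h2 (by simp)
  have hcov : T ⊆ (univ.image idx).biUnion (fun k => (J k).image (fun e => e.map (ξ k))) := by
    intro s hs
    obtain ⟨e, he, hu, h⟩ := hidx ⟨s, hs⟩
    refine mem_biUnion.2 ⟨idx ⟨s, hs⟩, mem_image_of_mem _ (mem_univ _), mem_image.2 ⟨e, ?_, h⟩⟩
    exact mem_filter.2 ⟨mem_filter.2 ⟨he, hu⟩, by rw [h]; exact hs⟩
  have hcard : T.card ≤ ∑ k ∈ univ.image idx, (J k).card :=
    (card_le_card hcov).trans (card_biUnion_le.trans (sum_le_sum (fun k _ => card_image_le)))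
  refine ⟨univ.image idx, ?_, ?_, J, ?_, ?_, hcard, ?_, ?_⟩
  · obtain ⟨s, hs⟩ := hne
    exact ⟨idx ⟨s, hs⟩, mem_image_of_mem _ (mem_univ _)⟩
  · refine card_image_le.trans ?_
    rw [card_univ, Fintype.card_coe]
  · intro k hk
    obtain ⟨s, -, rfl⟩ := mem_image.1 hk
    obtain ⟨e, he, hu, h⟩ := hidx s
    refine hH.weak _ ((hJ0 _).trans (erase_subset _ _)) ⟨e, ?_⟩
    exact mem_filter.2 ⟨mem_filter.2 ⟨he, hu⟩, by rw [h]; exact s.2⟩
  · intro h2 h1 k hk
    obtain ⟨k0, hk0⟩ := card_eq_one.1 h1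
    rw [hk0] at hk hcard
    rw [mem_singleton.1 hk]
    rw [sum_singleton] at hcard
    exact hH.strict _ (hJ0 _) (by omega)
  · intro k
    apply map_subset_map.2
    intro z hz
    obtain ⟨e, he, hze⟩ := mem_biUnion.1 hz
    refine mem_erase.2 ⟨?_, mem_univ _⟩
    rintro rfl
    exact (mem_filter.1 (mem_filter.1 he).1).2 hze
  · intro x hx
    obtain ⟨k, -, hx⟩ := mem_biUnion.1 hx
    obtain ⟨z, hz, rfl⟩ := mem_map.1 hx
    obtain ⟨e, he, hze⟩ := mem_biUnion.1 hz
    exact mem_biUnion.2 ⟨_, (mem_filter.1 he).2, mem_map_of_mem _ hze⟩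

lemma sum_del (F : Finset K) (J : K → Finset (Finset β)) (ξ : K → β ↪ 𝕍) :
    ∑ k ∈ F, del a b (J k) = (a : ℤ) * (∑ k ∈ F, (((J k).biUnion id).map (ξ k)).card : ℕ) -
      b * (∑ k ∈ F, (J k).card : ℕ) := by
  unfold del
  rw [sum_sub_distrib, ← mul_sum, ← mul_sum]
  push_cast
  simp only [card_map]

lemma amal_sparse (hH : HData a b EH u u') (ξ : K → β ↪ 𝕍) (L : ℕ)
    (hov : ∀ F : Finset K, F.Nonempty → F.card ≤ L →
      ∑ k ∈ F, ((univ.erase u).map (ξ k)).card + 1 ≤
        (F.biUnion fun k => (univ.erase u).map (ξ k)).card + F.card)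
    (T : Finset (Finset 𝕍)) (hT : T ⊆ XE EH u ξ) (hL : T.card ≤ L) (hne : T.Nonempty) :
    th a b ≤ del a b T ∧ (2 ≤ T.card → th a b < del a b T) := by
  obtain ⟨F, hF, hFc, J, h1, h2, h3, h4, h5⟩ := amal_core hH ξ T hT hne
  have h6 := hov F hF (hFc.trans hL)
  have h7 := overlap_mono _ _ h4 F
  have h8 := card_le_card h5
  have h9 := sum_del (a := a) (b := b) F J ξ
  have h10 : (F.card : ℤ) * th a b ≤ ∑ k ∈ F, del a b (J k) := by
    have := card_nsmul_le_sum F (fun k => del a b (J k)) (th a b) h1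
    simpa using this
  have hV : ((∑ k ∈ F, (((J k).biUnion id).map (ξ k)).card : ℕ) : ℤ) + 1 ≤
      (T.biUnion id).card + F.card := by exact_mod_cast (by omega :
        (∑ k ∈ F, (((J k).biUnion id).map (ξ k)).card) + 1 ≤ (T.biUnion id).card + F.card)
  have hE : (T.card : ℤ) ≤ (∑ k ∈ F, (J k).card : ℕ) := by exact_mod_cast h3
  have ha0 : (0 : ℤ) ≤ a := by positivity
  have hab : (b : ℤ) < a := by exact_mod_cast hH.hab
  have hb : (0 : ℤ) < b := by exact_mod_cast hH.hb
  have hk : (1 : ℤ) ≤ F.card := by exact_mod_cast hF.card_pos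
  have hmain : ∑ k ∈ F, del a b (J k) - a * (F.card - 1) ≤ del a b T := by
    rw [h9]; unfold del; nlinarith
  constructor
  · unfold th at h10 ⊢; nlinarith
  · intro hT2
    by_cases hF1 : F.card = 1
    · obtain ⟨k0, hk0⟩ := card_eq_one.1 hF1
      have := h2 hT2 hF1 k0 (by rw [hk0]; exact mem_singleton_self _)
      rw [hk0, sum_singleton, card_singleton] at hmain
      simp only [Nat.cast_one, sub_self, mul_zero, sub_zero] at hmain
      linarith
    · have hk2 : (2 : ℤ) ≤ F.card := by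
        have := hF.card_pos
        omega
      unfold th at h10 ⊢; nlinarith

lemma amal_insert (hH : HData a b EH u u') (ξ : K → β ↪ 𝕍) (L : ℕ) (g : Finset 𝕍)
    (hg : g.card = 2)
    (hov : ∀ F : Finset K, F.Nonempty → F.card ≤ L →
      ∑ k ∈ F, ((univ.erase u).map (ξ k)).card + 2 ≤
        ((F.biUnion fun k => (univ.erase u).map (ξ k)) ∪ g).card + F.card)
    (T : Finset (Finset 𝕍)) (hT : T ⊆ XE EH u ξ) (hL : T.card ≤ L) (hne : T.Nonempty) :
    th a b ≤ del a b (insert g T) := by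
  obtain ⟨F, hF, hFc, J, h1, -, h3, h4, h5⟩ := amal_core hH ξ T hT hne
  have h6 := hov F hF (hFc.trans hL)
  have h7 := overlap_mono _ _ h4 F
  have h9 := sum_del (a := a) (b := b) F J ξ
  have h10 : (F.card : ℤ) * th a b ≤ ∑ k ∈ F, del a b (J k) := by
    have := card_nsmul_le_sum F (fun k => del a b (J k)) (th a b) h1
    simpa using this
  set UA := F.biUnion fun k => ((J k).biUnion id).map (ξ k) with hUA
  set UB := F.biUnion fun k => (univ.erase u).map (ξ k) with hUB
  have hAB : UA ⊆ UB := biUnion_mono (fun k _ => h4 k)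
  have e1 := card_union_add_card_inter UA g
  have e2 := card_union_add_card_inter UB g
  have e3 : (UA ∩ g).card ≤ (UB ∩ g).card := card_le_card (inter_subset_inter hAB Subset.rfl)
  have e4 : UA ∪ g ⊆ (insert g T).biUnion id := by
    rw [biUnion_insert, union_comm]
    exact union_subset_union Subset.rfl h5
  have e5 := card_le_card e4
  have hV : ((∑ k ∈ F, (((J k).biUnion id).map (ξ k)).card : ℕ) : ℤ) + 2 ≤
      ((insert g T).biUnion id).card + F.card := by exact_mod_cast (by omega :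
        (∑ k ∈ F, (((J k).biUnion id).map (ξ k)).card) + 2 ≤
          ((insert g T).biUnion id).card + F.card)
  have hE : ((insert g T).card : ℤ) ≤ (∑ k ∈ F, (J k).card : ℕ) + 1 := by
    exact_mod_cast (card_insert_le _ _).trans (by omega)
  have ha0 : (0 : ℤ) ≤ a := by positivity
  have hab : (b : ℤ) < a := by exact_mod_cast hH.hab
  have hb : (0 : ℤ) < b := by exact_mod_cast hH.hb
  have hk : (1 : ℤ) ≤ F.card := by exact_mod_cast hF.card_pos
  have hmain : ∑ k ∈ F, del a b (J k) - a * (F.card - 2) - b ≤ del a b (insert g T) := by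
    rw [h9]; unfold del; nlinarith
  unfold th at h10 ⊢; nlinarith

end amal

end Pool.Agent.MP_1c0fc2_co
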