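import Pool.Agent.MP_1c0fc2_co.Forest

/-! The finite gadget that is planted on every special copy. -/

namespace Pool.Agent.MP_1c0fc2_co

open Finset

set_option linter.unusedSectionVars false

lemma exists_comp {β Idx A : Type} [DecidableEq β] {u u' : β} (huu : u ≠ u') (κ : A → Idx)
    (hκ : Function.Injective κ) (x y : A → Option Idx × β) (W : Option Idx × β → Prop)
    (hx : ∀ α, W (x α)) (hy : ∀ α, W (y α)) (hk : ∀ α z, ¬ W (some (κ α), z))
    (hxy : ∀ α, x α ≠ y α) :
    ∃ ψ : A → β ↪ Option Idx × β, (∀ α, ψ α u = x α) ∧ (∀ α, ψ α u' = y α) ∧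
      (∀ α z, z ≠ u → z ≠ u' → ψ α z = (some (κ α), z)) ∧
      (∀ α z, W (ψ α z) ↔ z = u ∨ z = u') ∧
      (∀ α α' z z', α ≠ α' → ψ α z = ψ α' z' → W (ψ α z)) := by
  let f : A → β → Option Idx × β := fun α z =>
    if z = u then x α else if z = u' then y α else (some (κ α), z)
  have f1 : ∀ α, f α u = x α := fun α => by simp [f]
  have f2 : ∀ α, f α u' = y α := fun α => by simp [f, huu.symm]
  have f3 : ∀ α z, z ≠ u → z ≠ u' → f α z = (some (κ α), z) := fun α z h1 h2 => by
    simp [f, h1, h2]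
  have fW : ∀ α z, W (f α z) ↔ z = u ∨ z = u' := by
    intro α z
    constructor
    · intro h
      by_contra hcon
      push Not at hcon
      rw [f3 α z hcon.1 hcon.2] at h
      exact hk α z h
    · rintro (rfl | rfl)
      · rw [f1]; exact hx α
      · rw [f2]; exact hy α
  have finj : ∀ α, Function.Injective (f α) := by
    intro α z z' h
    by_cases hz : z = u ∨ z = u'
    · have hz' : z' = u ∨ z' = u' := by rw [← fW α, ← h, fW]; exact hz
      rcases hz with rfl | rfl <;> rcases hz' with rfl | rfl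
      · rfl
      · rw [f1, f2] at h; exact absurd h (hxy α)
      · rw [f1, f2] at h; exact absurd h.symm (hxy α)
      · rfl
    · have hz' : ¬ (z' = u ∨ z' = u') := by rw [← fW α, ← h, fW]; exact hz
      push Not at hz hz'
      rw [f3 α z hz.1 hz.2, f3 α z' hz'.1 hz'.2] at h
      exact (Prod.mk.inj h).2
  refine ⟨fun α => ⟨f α, finj α⟩, f1, f2, f3, fW, ?_⟩
  intro α α' z z' hne h
  by_contra hcon
  have h' : f α z = f α' z' := h
  have hz : ¬ (z = u ∨ z = u') := by rw [← fW α]; exact hcon
  have hz' : ¬ (z' = u ∨ z' = u') := by rw [← fW α', ← h']; exact hcon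
  push Not at hz hz'
  rw [f3 α z hz.1 hz.2, f3 α' z' hz'.1 hz'.2] at h'
  exact hne (hκ (Option.some.inj (Prod.mk.inj h').1))

lemma map_pair' {β 𝕍 : Type} [DecidableEq β] [DecidableEq 𝕍] (θ : β ↪ 𝕍) (x y : β) :
    ({x, y} : Finset β).map θ = {θ x, θ y} := by
  simp [map_insert]

lemma tri_bound {a b : ℕ} {β : Type} [DecidableEq β] {EH : Finset (Finset β)} {u u' : β}
    (hH : HData a b EH u u') {x y z : β} (h1 : ({x, y} : Finset β) ∈ EH)
    (h2 : ({x, z} : Finset β) ∈ EH) (h3 : ({y, z} : Finset β) ∈ EH) : (b : ℤ) * 2 ≤ a := by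
  have hxy : x ≠ y := by
    rintro rfl; have := hH.card _ h1; simp at this
  have hxz : x ≠ z := by
    rintro rfl; have := hH.card _ h2; simp at this
  have hyz : y ≠ z := by
    rintro rfl; have := hH.card _ h3; simp at this
  have hw := hH.weak {{x, y}, {x, z}, {y, z}} (by
    intro e he
    simp only [mem_insert, mem_singleton] at he
    rcases he with rfl | rfl | rfl <;> assumption) (insert_nonempty _ _)
  have n1 : ({x, y} : Finset β) ≠ {x, z} := by
    intro h
    have : y ∈ ({x, z} : Finset β) := by rw [← h]; simp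
    simp only [mem_insert, mem_singleton] at this
    rcases this with h | h
    · exact hxy h.symm
    · exact hyz h
  have n2 : ({x, y} : Finset β) ≠ {y, z} := by
    intro h
    have : x ∈ ({y, z} : Finset β) := by rw [← h]; simp
    simp only [mem_insert, mem_singleton] at this
    rcases this with h | h
    · exact hxy h
    · exact hxz h
  have n3 : ({x, z} : Finset β) ≠ {y, z} := by
    intro h
    have : x ∈ ({y, z} : Finset β) := by rw [← h]; simp
    simp only [mem_insert, mem_singleton] at this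
    rcases this with h | h
    · exact hxy h
    · exact hxz h
  have hc : ({{x, y}, {x, z}, {y, z}} : Finset (Finset β)).card = 3 := by
    rw [card_eq_three]
    exact ⟨_, _, _, n1, n2, n3, rfl⟩
  have hs : (({{x, y}, {x, z}, {y, z}} : Finset (Finset β)).biUnion id).card ≤ 3 := by
    refine (card_le_card (t := {x, y, z}) ?_).trans card_le_three
    intro w hw
    simp only [biUnion_insert, singleton_biUnion, id, mem_union, mem_insert, mem_singleton] at hw ⊢
    tauto
  unfold del th at hw
  rw [hc] at hw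
  have hs' : ((({{x, y}, {x, z}, {y, z}} : Finset (Finset β)).biUnion id).card : ℤ) ≤ 3 := by
    exact_mod_cast hs
  have ha0 : (0 : ℤ) ≤ a := by positivity
  push_cast at hw
  nlinarith

lemma del_insert_new {a b : ℕ} {𝕍 : Type} [DecidableEq 𝕍] (T : Finset (Finset 𝕍))
    (g : Finset 𝕍) (x : 𝕍) (hx : x ∈ g) (hxT : x ∉ T.biUnion id) :
    g ∉ T ∧ del a b T + a - b ≤ del a b (insert g T) := by
  have hn : g ∉ T := fun h => hxT (mem_biUnion.2 ⟨g, h, hx⟩)
  refine ⟨hn, ?_⟩
  unfold del
  rw [card_insert_of_notMem hn]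
  have h1 : insert x (T.biUnion id) ⊆ (insert g T).biUnion id := by
    rw [biUnion_insert]
    exact insert_subset (mem_union_left _ hx) subset_union_right
  have h2 := card_le_card h1
  rw [card_insert_of_notMem hxT] at h2
  have h3 : ((T.biUnion id).card : ℤ) + 1 ≤ ((insert g T).biUnion id).card := by exact_mod_cast h2
  have ha0 : (0 : ℤ) ≤ a := by positivity
  push_cast
  nlinarith

lemma del_insert_ge {a b : ℕ} {𝕍 : Type} [DecidableEq 𝕍] (T : Finset (Finset 𝕍))
    (g : Finset 𝕍) : del a b T - b ≤ del a b (insert g T) := by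
  unfold del
  have h1 : T.biUnion id ⊆ (insert g T).biUnion id := by
    rw [biUnion_insert]; exact subset_union_right
  have h3 : ((T.biUnion id).card : ℤ) ≤ ((insert g T).biUnion id).card := by
    exact_mod_cast card_le_card h1
  have h4 : ((insert g T).card : ℤ) ≤ T.card + 1 := by exact_mod_cast card_insert_le _ _
  have ha0 : (0 : ℤ) ≤ a := by positivity
  have hb0 : (0 : ℤ) ≤ b := by positivity
  nlinarith

lemma split_union {γ : Type} [DecidableEq γ] (T X Y : Finset γ) (h : T ⊆ X ∪ Y) :
    ∃ T1 ⊆ X, ∃ T2 ⊆ Y, T = T1 ∪ T2 ∧ T1 ⊆ T := by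
  refine ⟨T ∩ X, inter_subset_right, T ∩ Y, inter_subset_right, ?_, inter_subset_left⟩
  rw [← inter_union_distrib_left]
  exact (inter_eq_left.2 h).symm

lemma card_image_add_one_le {γ δ : Type} [DecidableEq γ] [DecidableEq δ] (f : γ → δ)
    (A : Finset γ) (x x' : γ) (hx : x ∈ A) (hx' : x' ∈ A) (hne : x ≠ x') (h : f x = f x') :
    (A.image f).card + 1 ≤ A.card := by
  have h1 : A.image f ⊆ (A.erase x).image f := by
    intro y hy
    obtain ⟨w, hw, rfl⟩ := mem_image.1 hy
    by_cases hwx : w = x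
    · rw [hwx, h]; exact mem_image_of_mem _ (mem_erase.2 ⟨hne.symm, hx'⟩)
    · exact mem_image_of_mem _ (mem_erase.2 ⟨hwx, hw⟩)
  have h2 := (card_le_card h1).trans card_image_le
  rw [card_erase_of_mem hx] at h2
  have := card_pos.2 ⟨x, hx⟩
  omega

/-- overlap bound for copies of `H - u` whose neighbours of `u` sit on a forest-like system -/
lemma xi_overlap {β 𝕍 K J : Type} [Fintype β] [DecidableEq β] [DecidableEq 𝕍] [DecidableEq K]
    [DecidableEq J] (u : β) (Nb : β → Prop) [DecidablePred Nb] (hu : ¬ Nb u) (ξ : K → β ↪ 𝕍)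
    (pr : 𝕍 → Option J) (σ : K → {z // Nb z} → J)
    (h1 : ∀ k (y : {z // Nb z}), pr (ξ k y.1) = some (σ k y))
    (h2 : ∀ k z, z ≠ u → ¬ Nb z → pr (ξ k z) = none)
    (h3 : ∀ k k' z z', k ≠ k' → z ≠ u → ¬ Nb z → z' ≠ u → ¬ Nb z' → ξ k z ≠ ξ k' z')
    (F : Finset K) (g : Finset 𝕍) (hg : ∀ x ∈ g, pr x ≠ none) (c : ℕ)
    (hc : ∀ A : Finset 𝕍, g ⊆ A → (A.image pr).card + c ≤ A.card)
    (hF : F.card * Fintype.card {z // Nb z} + 1 ≤
      (F.biUnion fun k => univ.image (σ k)).card + F.card) :
    ∑ k ∈ F, ((univ.erase u).map (ξ k)).card + 1 + c ≤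
      ((F.biUnion fun k => (univ.erase u).map (ξ k)) ∪ g).card + F.card := by
  set U := (F.biUnion fun k => (univ.erase u).map (ξ k)) ∪ g with hU
  set PV : Finset β := (univ.erase u).filter (fun z => ¬ Nb z) with hPV
  have hcard : (univ.erase u).card = Fintype.card {z // Nb z} + PV.card := by
    rw [← card_filter_add_card_filter_not (s := univ.erase u) Nb, Fintype.card_subtype]
    congr 2
    ext z
    simp only [mem_filter, mem_erase, mem_univ, and_true, true_and]
    exact ⟨fun h => h.2, fun h => ⟨fun e => hu (e ▸ h), h⟩⟩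
  have hsum : ∑ k ∈ F, ((univ.erase u).map (ξ k)).card =
      F.card * Fintype.card {z // Nb z} + F.card * PV.card := by
    simp only [card_map, sum_const, smul_eq_mul]
    rw [hcard]; ring
  have hsplit := card_filter_add_card_filter_not (s := U) (fun x => pr x = none)
  have hp : F.card * PV.card ≤ (U.filter (fun x => pr x = none)).card := by
    have e1 : (F.biUnion fun k => PV.map (ξ k)).card = F.card * PV.card := by
      rw [card_biUnion]
      · simp
      · intro k _ k' _ hne
        rw [Function.onFun, disjoint_left]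
        intro x hx hx'
        obtain ⟨z, hz, rfl⟩ := mem_map.1 hx
        obtain ⟨z', hz', h⟩ := mem_map.1 hx'
        obtain ⟨hz1, hz2⟩ := mem_filter.1 hz
        obtain ⟨hz1', hz2'⟩ := mem_filter.1 hz'
        exact h3 k k' z z' hne (mem_erase.1 hz1).1 hz2 (mem_erase.1 hz1').1 hz2' h.symm
    rw [← e1]
    apply card_le_card
    intro x hx
    obtain ⟨k, hk, hx⟩ := mem_biUnion.1 hx
    obtain ⟨z, hz, rfl⟩ := mem_map.1 hx
    obtain ⟨hz1, hz2⟩ := mem_filter.1 hz
    exact mem_filter.2 ⟨mem_union_left _ (mem_biUnion.2 ⟨k, hk, mem_map_of_mem _ hz1⟩),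
      h2 k z (mem_erase.1 hz1).1 hz2⟩
  have hq : (F.biUnion fun k => univ.image (σ k)).card + c ≤
      (U.filter (fun x => ¬ pr x = none)).card := by
    refine le_trans ?_ (hc _ ?_)
    · refine Nat.add_le_add_right ?_ _
      rw [← card_image_of_injective _ (Option.some_injective J)]
      apply card_le_card
      intro j hj
      obtain ⟨j', hj', rfl⟩ := mem_image.1 hj
      obtain ⟨k, hk, hj'⟩ := mem_biUnion.1 hj'
      obtain ⟨y, -, rfl⟩ := mem_image.1 hj'
      refine mem_image.2 ⟨ξ k y.1, mem_filter.2 ⟨mem_union_left _ (mem_biUnion.2 ⟨k, hk,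
        mem_map_of_mem _ (mem_erase.2 ⟨fun e => hu (e ▸ y.2), mem_univ _⟩)⟩), ?_⟩, h1 k y⟩
      rw [h1]; simp
    · intro x hx
      exact mem_filter.2 ⟨mem_union_right _ hx, hg x hx⟩
  omega

end Pool.Agent.MP_1c0fc2_co
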