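import Pool.Agent.MP_1c0fc2_co.Gadget

/-! Assembly of the gadget. -/

namespace Pool.Agent.MP_1c0fc2_co

open Finset

/-- level of a vertex of the gadget -/
def lev {β A0 Xi A2 A3 : Type} (x : Option (A0 ⊕ Xi ⊕ A2 ⊕ A3) × β) : ℕ :=
  match x.1 with
  | none => 0
  | some (Sum.inl _) => 1
  | some (Sum.inr (Sum.inl _)) => 2
  | some (Sum.inr (Sum.inr (Sum.inl _))) => 3
  | some (Sum.inr (Sum.inr (Sum.inr _))) => 4

/-- the index of the piece containing a vertex -/
def prj {β E J R : Type} (x : Option ((E × J) ⊕ R) × β) : Option J :=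
  match x.1 with
  | some (Sum.inl p) => some p.2
  | _ => none

lemma mono_of_comp {β 𝕍 : Type} [DecidableEq β] [DecidableEq 𝕍] {EH : Finset (Finset β)}
    {u u' : β} (θ : β ↪ 𝕍) (All : Finset (Finset 𝕍)) (χ : Finset 𝕍 → Bool) (c : Bool)
    (h1 : ∀ e ∈ EH.erase {u, u'}, e.map θ ∈ All ∧ χ (e.map θ) = c)
    (h2 : ({θ u, θ u'} : Finset 𝕍) ∈ All ∧ χ {θ u, θ u'} = c) :
    ∀ e ∈ EH, e.map θ ∈ All ∧ χ (e.map θ) = c := by
  intro e he
  by_cases h : e = {u, u'}
  · rw [h, map_pair']; exact h2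
  · exact h1 e (mem_erase.2 ⟨h, he⟩)

theorem gadget (hF : ForestStmt) {a b : ℕ} {β : Type} [Fintype β] [DecidableEq β]
    {EH : Finset (Finset β)} {u u' : β} (hH : HData a b EH u u') (L : ℕ) :
    ∃ (𝕍 : Type) (_ : Fintype 𝕍) (_ : DecidableEq 𝕍) (B : Finset 𝕍) (hub : β ↪ 𝕍)
      (EK XP E1 : Finset (Finset 𝕍)),
      (∀ e ∈ EK, e ⊆ B ∧ e.card = 2) ∧ (∀ e ∈ XP, e ⊆ B ∧ e.card = 2) ∧
      (∀ e ∈ E1, e.card = 2) ∧ (∀ z, hub z ∉ B) ∧ (∀ e ∈ EK, e ∉ XP) ∧
      (∀ T ⊆ XP, T.card ≤ L → ∀ I ⊆ EK, (T ∪ I).Nonempty → th a b ≤ del a b (T ∪ I)) ∧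
      (∀ T ⊆ XP, T.card ≤ L → 2 ≤ T.card → th a b < del a b T) ∧
      (∀ T ⊆ E1, ∀ I ⊆ EK, (T ∪ I).Nonempty → th a b ≤ del a b (T ∪ I)) ∧
      (∀ T ⊆ E1, ∀ I ⊆ EK, 2 ≤ (T ∪ I).card → th a b < del a b (T ∪ I)) ∧
      (∀ (χ : Finset 𝕍 → Bool) (c : Bool), (∀ e ∈ EK, χ e = c) → ∃ (θ : β ↪ 𝕍) (c' : Bool),
        ∀ e ∈ EH, e.map θ ∈ EK ∪ XP ∪ E1 ∪ EH.image (fun e => e.map hub) ∧
          χ (e.map θ) = c') := by
  classical
  -- orientation of the edges
  have hor : ∀ e : Finset β, ∃ p : β × β, e ∈ EH → p.1 ≠ p.2 ∧ e = {p.1, p.2} := by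
    intro e
    by_cases he : e ∈ EH
    · obtain ⟨x, y, hxy, h⟩ := card_eq_two.1 (hH.card e he)
      exact ⟨(x, y), fun _ => ⟨hxy, h⟩⟩
    · exact ⟨(u, u), fun h => absurd h he⟩
  choose st hst using hor
  have hs_mem : ∀ e ∈ EH, (st e).1 ∈ e := by
    intro e he
    have h := (hst e he).2
    have : (st e).1 ∈ ({(st e).1, (st e).2} : Finset β) := by simp
    rwa [← h] at this
  have ht_mem : ∀ e ∈ EH, (st e).2 ∈ e := by
    intro e he
    have h := (hst e he).2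
    have : (st e).2 ∈ ({(st e).1, (st e).2} : Finset β) := by simp
    rwa [← h] at this
  let Nb : β → Prop := fun z => ({u, z} : Finset β) ∈ EH
  have hNbu : ¬ Nb u := by
    intro h
    have := hH.card _ h
    simp at this
  let E := {e : Finset β // e ∈ EH}
  let Ty := E × Bool × β
  obtain ⟨n, ι, _, _, σ, hRam, hfor⟩ := forest2 hF Ty {z // Nb z} (Ty → Bool) L
  let A0 := E × Fin n
  let Xi := ι × Ty
  let A2 := A0 × {e : Finset β // e ∈ EH ∧ u ∉ e ∧ u' ∉ e}
  let A3 := (Xi × {e : Finset β // e ∈ EH ∧ u ∉ e}) ⊕ (A2 × {e : Finset β // e ∈ EH.erase {u, u'}})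
  let 𝕍 := Option (A0 ⊕ Xi ⊕ A2 ⊕ A3) × β
  haveI instV : DecidableEq (Option (A0 ⊕ Xi ⊕ A2 ⊕ A3) × β) := inferInstance
  letI instV' : DecidableEq 𝕍 := instV
  let hub : β ↪ 𝕍 := ⟨fun z => (none, z), fun x y h => (Prod.mk.inj h).2⟩
  -- pieces with stars
  obtain ⟨ψ0, p01, p02, p03, p0W, p0d⟩ := exists_comp (Idx := A0 ⊕ Xi ⊕ A2 ⊕ A3) hH.ne
    (fun α : A0 => Sum.inl α) Sum.inl_injective (fun α => hub (st α.1.1).1)
    (fun α => hub (st α.1.1).2) (fun x => lev x = 0) (fun _ => rfl) (fun _ => rfl)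
    (fun _ _ => by simp [lev]) (fun α h => (hst _ α.1.2).1 (hub.injective h))
  have lev0 : ∀ α z, lev (ψ0 α z) ≤ 1 := by
    intro α z
    by_cases h : z = u ∨ z = u'
    · rw [(p0W α z).2 h]; omega
    · push Not at h; rw [p03 α z h.1 h.2]; simp [lev]
  -- copies of H - u
  let hubOf : Ty → β := fun τ => if τ.2.1 then (st τ.1.1).1 else (st τ.1.1).2
  let ξf : Xi → β → 𝕍 := fun k z => if z = u then hub (hubOf k.2) else
    if h : Nb z then (some (Sum.inl (k.2.1, σ k.1 (some (k.2, ⟨z, h⟩)))), k.2.2.2)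
    else (some (Sum.inr (Sum.inl k)), z)
  have x1 : ∀ k, ξf k u = hub (hubOf k.2) := fun k => by simp [ξf]
  have x2 : ∀ k (y : {z // Nb z}),
      ξf k y.1 = (some (Sum.inl (k.2.1, σ k.1 (some (k.2, y)))), k.2.2.2) := by
    intro k y
    have : y.1 ≠ u := fun e => hNbu (e ▸ y.2)
    simp only [ξf, this, if_false, y.2, dif_pos]
  have x3 : ∀ k z, z ≠ u → ¬ Nb z → ξf k z = (some (Sum.inr (Sum.inl k)), z) := by
    intro k z h1 h2
    simp only [ξf, h1, if_false, h2, dif_neg, not_false_eq_true]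
  have xinj : ∀ k, Function.Injective (ξf k) := by
    intro k z z' h
    by_cases h1 : z = u <;> by_cases h1' : z' = u
    · rw [h1, h1']
    · exfalso
      rw [h1, x1] at h
      by_cases h2 : Nb z'
      · rw [x2 k ⟨z', h2⟩] at h; exact absurd (Prod.mk.inj h).1 (by simp)
      · rw [x3 k z' h1' h2] at h; exact absurd (Prod.mk.inj h).1 (by simp)
    · exfalso
      rw [h1', x1] at h
      by_cases h2 : Nb z
      · rw [x2 k ⟨z, h2⟩] at h; exact absurd (Prod.mk.inj h).1 (by simp)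
      · rw [x3 k z h1 h2] at h; exact absurd (Prod.mk.inj h).1 (by simp)
    · by_cases h2 : Nb z <;> by_cases h2' : Nb z'
      · rw [x2 k ⟨z, h2⟩, x2 k ⟨z', h2'⟩] at h
        have h3 := (Prod.mk.inj (Sum.inl.inj (Option.some.inj (Prod.mk.inj h).1))).2
        have h4 := (Prod.mk.inj (Option.some.inj ((σ k.1).injective h3))).2
        exact congrArg Subtype.val h4
      · rw [x2 k ⟨z, h2⟩, x3 k z' h1' h2'] at h
        exact absurd (Option.some.inj (Prod.mk.inj h).1) (by simp)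
      · rw [x2 k ⟨z', h2'⟩, x3 k z h1 h2] at h
        exact absurd (Option.some.inj (Prod.mk.inj h).1) (by simp)
      · rw [x3 k z h1 h2, x3 k z' h1' h2'] at h
        exact (Prod.mk.inj h).2
  let ξ : Xi → β ↪ 𝕍 := fun k => ⟨ξf k, xinj k⟩
  have levx : ∀ k z, z ≠ u → 1 ≤ lev (ξ k z) ∧ lev (ξ k z) ≤ 2 := by
    intro k z h1
    show 1 ≤ lev (ξf k z) ∧ lev (ξf k z) ≤ 2
    by_cases h2 : Nb z
    · rw [x2 k ⟨z, h2⟩]; simp [lev]
    · rw [x3 k z h1 h2]; simp [lev]
  -- red completions on the piece edges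
  have zs : ∀ k : A2, (st k.2.1).1 ≠ u ∧ (st k.2.1).1 ≠ u' ∧ (st k.2.1).2 ≠ u ∧
      (st k.2.1).2 ≠ u' := by
    intro k
    have h1 := hs_mem _ k.2.2.1
    have h2 := ht_mem _ k.2.2.1
    exact ⟨fun e => k.2.2.2.1 (by rwa [e] at h1), fun e => k.2.2.2.2 (by rwa [e] at h1),
      fun e => k.2.2.2.1 (by rwa [e] at h2), fun e => k.2.2.2.2 (by rwa [e] at h2)⟩
  obtain ⟨ψ2, p21, p22, p23, p2W, p2d⟩ := exists_comp (Idx := A0 ⊕ Xi ⊕ A2 ⊕ A3) hH.ne
    (fun α : A2 => Sum.inr (Sum.inr (Sum.inl α)))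
    (fun x y h => Sum.inl.inj (Sum.inr.inj (Sum.inr.inj h)))
    (fun k => ψ0 k.1 (st k.2.1).1) (fun k => ψ0 k.1 (st k.2.1).2) (fun x => lev x ≤ 2)
    (fun k => (lev0 _ _).trans (by omega)) (fun k => (lev0 _ _).trans (by omega))
    (fun _ _ => by simp [lev]) (fun k h => (hst _ k.2.2.1).1 ((ψ0 k.1).injective h))
  have lev2 : ∀ k z, 1 ≤ lev (ψ2 k z) ∧ lev (ψ2 k z) ≤ 3 := by
    intro k z
    by_cases h1 : z = u
    · rw [h1, p21, p03 _ _ (zs k).1 (zs k).2.1]; simp [lev]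
    · by_cases h2 : z = u'
      · rw [h2, p22, p03 _ _ (zs k).2.2.1 (zs k).2.2.2]; simp [lev]
      · rw [p23 k z h1 h2]; simp [lev]
  -- blue completions on all red edges
  let r3 : A3 → 𝕍 × 𝕍 := fun k => match k with
    | Sum.inl k => (ξ k.1 (st k.2.1).1, ξ k.1 (st k.2.1).2)
    | Sum.inr k => (ψ2 k.1 (st k.2.1).1, ψ2 k.1 (st k.2.1).2)
  have r3lev : ∀ k, (1 ≤ lev (r3 k).1 ∧ lev (r3 k).1 ≤ 3) ∧
      (1 ≤ lev (r3 k).2 ∧ lev (r3 k).2 ≤ 3) := by
    rintro (k | k)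
    · have h1 := levx k.1 (st k.2.1).1 (fun e => k.2.2.2 (by have := hs_mem _ k.2.2.1; rwa [e] at this))
      have h2 := levx k.1 (st k.2.1).2 (fun e => k.2.2.2 (by have := ht_mem _ k.2.2.1; rwa [e] at this))
      exact ⟨⟨h1.1, h1.2.trans (by omega)⟩, ⟨h2.1, h2.2.trans (by omega)⟩⟩
    · exact ⟨lev2 _ _, lev2 _ _⟩
  obtain ⟨ψ3, p31, p32, p33, p3W, p3d⟩ := exists_comp (Idx := A0 ⊕ Xi ⊕ A2 ⊕ A3) hH.ne
    (fun α : A3 => Sum.inr (Sum.inr (Sum.inr α)))
    (fun x y h => Sum.inr.inj (Sum.inr.inj (Sum.inr.inj h)))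
    (fun k => (r3 k).1) (fun k => (r3 k).2) (fun x => lev x ≤ 3)
    (fun k => (r3lev k).1.2) (fun k => (r3lev k).2.2)
    (fun _ _ => by simp [lev]) (by
      rintro (k | k) h
      · exact (hst _ k.2.2.1).1 ((ξ k.1).injective h)
      · exact (hst _ (mem_of_mem_erase k.2.2)).1 ((ψ2 k.1).injective h))
  have lev3 : ∀ k z, 1 ≤ lev (ψ3 k z) := by
    intro k z
    by_cases h1 : z = u
    · rw [h1, p31]; exact (r3lev k).1.1
    · by_cases h2 : z = u'
      · rw [h2, p32]; exact (r3lev k).2.1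
      · rw [p33 k z h1 h2]; simp [lev]
  set EK := CE EH u u' ψ3 with hEK
  set EX := XE EH u ξ with hEX
  set E2 := CE EH u u' ψ2 with hE2
  set E1 := CE EH u u' ψ0 with hE1
  have hcardCE : ∀ {A : Type} [Fintype A] [DecidableEq A] (ψ : A → β ↪ 𝕍),
      ∀ e ∈ CE EH u u' ψ, e.card = 2 := by
    intro A _ _ ψ s hs
    obtain ⟨α, e, he, rfl⟩ := mem_CE.1 hs
    rw [card_map]; exact hH.card e (mem_of_mem_erase he)
  have hXlev : ∀ e ∈ EX, ∀ x ∈ e, 1 ≤ lev x ∧ lev x ≤ 2 := by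
    intro s hs x hx
    obtain ⟨k, e, -, hu, rfl⟩ := mem_XE.1 hs
    obtain ⟨z, hz, rfl⟩ := mem_map.1 hx
    exact levx k z (fun h => hu (h ▸ hz))
  have h2lev : ∀ e ∈ E2, ∀ x ∈ e, 1 ≤ lev x ∧ lev x ≤ 3 := by
    intro s hs x hx
    obtain ⟨k, e, -, rfl⟩ := mem_CE.1 hs
    obtain ⟨z, hz, rfl⟩ := mem_map.1 hx
    exact lev2 k z
  have hXPlev : ∀ e ∈ EX ∪ E2, ∀ x ∈ e, 1 ≤ lev x ∧ lev x ≤ 3 := by
    intro s hs x hx
    rcases mem_union.1 hs with h | h
    · exact ⟨(hXlev s h x hx).1, (hXlev s h x hx).2.trans (by omega)⟩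
    · exact h2lev s h x hx
  have h1lev : ∀ e ∈ E1, ∀ x ∈ e, lev x ≤ 1 := by
    intro s hs x hx
    obtain ⟨k, e, -, rfl⟩ := mem_CE.1 hs
    obtain ⟨z, hz, rfl⟩ := mem_map.1 hx
    exact lev0 k z
  -- overlap bounds
  have hov : ∀ (g : Finset 𝕍) (c : ℕ), (∀ x ∈ g, prj x ≠ none) →
      (∀ A : Finset 𝕍, g ⊆ A → (A.image prj).card + c ≤ A.card) →
      ∀ F : Finset Xi, F.Nonempty → F.card ≤ L →
      ∑ k ∈ F, ((univ.erase u).map (ξ k)).card + 1 + c ≤
        ((F.biUnion fun k => (univ.erase u).map (ξ k)) ∪ g).card + F.card := by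
    intro g c hg hc F hne hL
    refine xi_overlap u Nb hNbu ξ prj (fun k y => σ k.1 (some (k.2, y))) ?_ ?_ ?_ F g hg c hc
      (hfor F hne hL)
    · intro k y
      show prj (ξf k y.1) = _
      rw [x2]; rfl
    · intro k z h1 h2
      show prj (ξf k z) = _
      rw [x3 k z h1 h2]; rfl
    · intro k k' z z' hne h1 h2 h1' h2' h
      have h' : ξf k z = ξf k' z' := h
      rw [x3 k z h1 h2, x3 k' z' h1' h2'] at h'
      exact hne (Sum.inl.inj (Sum.inr.inj (Option.some.inj (Prod.mk.inj h').1)))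
  have hX1 : ∀ T ⊆ EX, T.card ≤ L → T.Nonempty →
      th a b ≤ del a b T ∧ (2 ≤ T.card → th a b < del a b T) := by
    intro T hT hL hne
    refine amal_sparse hH ξ L ?_ T hT hL hne
    intro F hF hFL
    have := hov ∅ 0 (by simp) (fun A _ => card_image_le) F hF hFL
    simpa using this
  have hX2 : ∀ T ⊆ EX, T.card ≤ L → T.Nonempty → ∀ k : A2,
      ({ψ2 k u, ψ2 k u'} : Finset 𝕍) ∉ T ∧ th a b ≤ del a b (insert {ψ2 k u, ψ2 k u'} T) := by
    intro T hT hL hne k
    have e1 : ψ2 k u = (some (Sum.inl k.1), (st k.2.1).1) := by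
      rw [p21, p03 _ _ (zs k).1 (zs k).2.1]
    have e2 : ψ2 k u' = (some (Sum.inl k.1), (st k.2.1).2) := by
      rw [p22, p03 _ _ (zs k).2.2.1 (zs k).2.2.2]
    have hne2 : ψ2 k u ≠ ψ2 k u' := fun h => hH.ne ((ψ2 k).injective h)
    constructor
    · intro hin
      obtain ⟨k', e, -, hu, h⟩ := mem_XE.1 (hT hin)
      have key : ∀ w : β, (some (Sum.inl k.1), w) ∈ e.map (ξ k') → w = k'.2.2.2 := by
        intro w hw
        obtain ⟨z, hz, h⟩ := mem_map.1 hw
        have h' : ξf k' z = (some (Sum.inl k.1), w) := h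
        by_cases h2 : Nb z
        · rw [x2 k' ⟨z, h2⟩] at h'; exact (Prod.mk.inj h').2.symm
        · rw [x3 k' z (fun e' => hu (e' ▸ hz)) h2] at h'
          exact absurd (Option.some.inj (Prod.mk.inj h').1) (by simp)
      have k1 := key (st k.2.1).1 (by rw [h, ← e1]; simp)
      have k2 := key (st k.2.1).2 (by rw [h, ← e2]; simp)
      exact (hst _ k.2.2.1).1 (k1.trans k2.symm)
    · refine amal_insert hH ξ L _ (card_pair hne2) ?_ T hT hL hne
      intro F hF hFL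
      refine hov {ψ2 k u, ψ2 k u'} 1 ?_ ?_ F hF hFL
      · intro x hx
        simp only [mem_insert, mem_singleton] at hx
        rcases hx with rfl | rfl
        · rw [e1]; simp [prj]
        · rw [e2]; simp [prj]
      · intro A hA
        refine card_image_add_one_le prj A (ψ2 k u) (ψ2 k u') (hA (by simp)) (hA (by simp)) hne2 ?_
        rw [e1, e2]; rfl
  have hXPweak : ∀ T ⊆ EX ∪ E2, T.card ≤ L → T.Nonempty → th a b ≤ del a b T := by
    intro T hT hL hne
    obtain ⟨T1, h1, T2, h2, rfl, h3⟩ := split_union T EX E2 hT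
    exact comp_weak (fun x => lev x ≤ 2) hH ψ2 p2W p2d T1 T2 h2
      (fun e he x hx => (hXlev e (h1 he) x hx).2)
      (fun hn => (hX1 T1 h1 ((card_le_card h3).trans hL) hn).1) hne
  have hE1weak : ∀ T ⊆ E1, T.Nonempty → th a b ≤ del a b T := by
    intro T hT hne
    have := comp_weak (fun x => lev x = 0) hH ψ0 p0W p0d ∅ T hT (by simp) (by simp)
      (by simpa using hne)
    simpa using this
  have hE1strict : ∀ T ⊆ E1, 2 ≤ T.card → th a b < del a b T := by
    intro T hT h2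
    have := comp_strict (fun x => lev x = 0) hH ψ0 p0W p0d ∅ T hT (by simp) (by simp) (by simp)
      (by simp) (by simpa using h2)
    simpa using this
  have hab : (b : ℤ) < a := by exact_mod_cast hH.hab
  have hE1ins : ∀ T ⊆ E1, T.Nonempty → ∀ k : A3,
      ({ψ3 k u, ψ3 k u'} : Finset 𝕍) ∉ T ∧ th a b ≤ del a b (insert {ψ3 k u, ψ3 k u'} T) := by
    intro T hT hne k
    have hw := hE1weak T hT hne
    by_cases hall : ∀ x ∈ ({ψ3 k u, ψ3 k u'} : Finset 𝕍), x ∈ T.biUnion id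
    swap
    · push Not at hall
      obtain ⟨x, hx, hxT⟩ := hall
      obtain ⟨g1, g2⟩ := del_insert_new (a := a) (b := b) T _ x hx hxT
      exact ⟨g1, by linarith⟩
    have hl : ∀ x ∈ T.biUnion id, lev x ≤ 1 := by
      intro x hx
      obtain ⟨e, he, hxe⟩ := mem_biUnion.1 hx
      exact h1lev e (hT he) x hxe
    have l1 := hl _ (hall (ψ3 k u) (by simp))
    have l2 := hl _ (hall (ψ3 k u') (by simp))
    have m1 := hall (ψ3 k u) (by simp)
    have m2 := hall (ψ3 k u') (by simp)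
    rw [p31] at l1 m1
    rw [p32] at l2 m2
    rw [p31, p32]
    rcases k with k | k
    · have hs1 : (st k.2.1).1 ≠ u := fun e => k.2.2.2 (by have := hs_mem _ k.2.2.1; rwa [e] at this)
      have hs2 : (st k.2.1).2 ≠ u := fun e => k.2.2.2 (by have := ht_mem _ k.2.2.1; rwa [e] at this)
      have n1 : Nb (st k.2.1).1 := by
        by_contra h
        have l1' : lev (ξf k.1 (st k.2.1).1) ≤ 1 := l1
        rw [x3 _ _ hs1 h] at l1'; simp [lev] at l1'
      have n2 : Nb (st k.2.1).2 := by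
        by_contra h
        have l2' : lev (ξf k.1 (st k.2.1).2) ≤ 1 := l2
        rw [x3 _ _ hs2 h] at l2'; simp [lev] at l2'
      have htri := tri_bound hH n1 n2 (by rw [← (hst _ k.2.2.1).2]; exact k.2.2.1)
      have v1 : (r3 (Sum.inl k)).1 = (some (Sum.inl (k.1.2.1, σ k.1.1 (some (k.1.2, ⟨_, n1⟩)))),
        k.1.2.2.2) := x2 k.1 ⟨_, n1⟩
      have v2 : (r3 (Sum.inl k)).2 = (some (Sum.inl (k.1.2.1, σ k.1.1 (some (k.1.2, ⟨_, n2⟩)))),
        k.1.2.2.2) := x2 k.1 ⟨_, n2⟩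
      have hαne : ((k.1.2.1, σ k.1.1 (some (k.1.2, ⟨_, n1⟩))) : A0) ≠
          (k.1.2.1, σ k.1.1 (some (k.1.2, ⟨_, n2⟩))) := by
        intro h
        have h4 := (Prod.mk.inj (Option.some.inj ((σ k.1.1).injective (Prod.mk.inj h).2))).2
        exact (hst _ k.2.2.1).1 (congrArg Subtype.val h4)
      have own : ∀ (α α' : A0) (w z : β), ψ0 α' z = (some (Sum.inl α), w) → α' = α := by
        intro α α' w z h
        by_cases hz : z = u ∨ z = u'
        · have := (p0W α' z).2 hz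
          rw [h] at this; simp [lev] at this
        · push Not at hz
          rw [p03 α' z hz.1 hz.2] at h
          exact Sum.inl.inj (Option.some.inj (Prod.mk.inj h).1)
      have pne : ∀ (α : A0) (w : β), ((some (Sum.inl α), w) : 𝕍) ∈ T.biUnion id →
          (partI EH u u' ψ0 T α).Nonempty := by
        intro α w hw
        obtain ⟨s, hs, hws⟩ := mem_biUnion.1 hw
        obtain ⟨α', e, he, rfl⟩ := mem_CE.1 (hT hs)
        obtain ⟨z, -, hz⟩ := mem_map.1 hws
        have := own α α' w z hz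
        subst this
        exact ⟨e, mem_filter.2 ⟨he, hs⟩⟩
      rw [v1] at m1
      rw [v2] at m2
      constructor
      · intro hin
        obtain ⟨α', e, he, h⟩ := mem_CE.1 (hT hin)
        obtain ⟨z1, -, hz1⟩ := mem_map.1 (show (r3 (Sum.inl k)).1 ∈ e.map (ψ0 α') by
          rw [h]; simp)
        obtain ⟨z2, -, hz2⟩ := mem_map.1 (show (r3 (Sum.inl k)).2 ∈ e.map (ψ0 α') by
          rw [h]; simp)
        rw [v1] at hz1
        rw [v2] at hz2
        exact hαne ((own _ _ _ _ hz1).symm.trans (own _ _ _ _ hz2))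
      · have h5 := del_insert_ge (a := a) (b := b) T
          {(r3 (Sum.inl k)).1, (r3 (Sum.inl k)).2}
        rcases comp_two (fun x => lev x = 0) hH ψ0 p0W p0d T hT _ _ hαne (pne _ _ m1) (pne _ _ m2)
          with h | h
        · unfold th; linarith
        · unfold th; linarith
    · exfalso
      obtain ⟨z, hz, hz1, hz2⟩ := exists_priv hH k.2.2
      have hz3 : lev (ψ2 k.1 z) = 3 := by rw [p23 _ _ hz1 hz2]; simp [lev]
      rw [(hst _ (mem_of_mem_erase k.2.2)).2] at hz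
      simp only [mem_insert, mem_singleton] at hz
      rcases hz with h | h
      · have l1' : lev (ψ2 k.1 (st k.2.1).1) ≤ 1 := l1
        rw [← h, hz3] at l1'; omega
      · have l2' : lev (ψ2 k.1 (st k.2.1).2) ≤ 1 := l2
        rw [← h, hz3] at l2'; omega
  refine ⟨𝕍, inferInstance, inferInstance, univ.filter (fun x => 1 ≤ lev x), hub, EK, EX ∪ E2, E1,
    ?_, ?_, hcardCE ψ0, ?_, ?_, ?_, ?_, ?_, ?_, ?_⟩
  · intro s hs
    refine ⟨?_, hcardCE ψ3 s hs⟩
    obtain ⟨k, e, -, rfl⟩ := mem_CE.1 hs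
    intro x hx
    obtain ⟨z, -, rfl⟩ := mem_map.1 hx
    exact mem_filter.2 ⟨mem_univ _, lev3 k z⟩
  · intro s hs
    refine ⟨fun x hx => mem_filter.2 ⟨mem_univ _, (hXPlev s hs x hx).1⟩, ?_⟩
    rcases mem_union.1 hs with h | h
    · obtain ⟨k, e, he, -, rfl⟩ := mem_XE.1 h
      rw [card_map]; exact hH.card e he
    · exact hcardCE ψ2 s h
  · intro z hz
    have : 1 ≤ lev (hub z) := (mem_filter.1 hz).2
    exact absurd this (by simp [hub, lev])
  · intro s hs hs'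
    obtain ⟨k, e, he, rfl⟩ := mem_CE.1 hs
    obtain ⟨z, hz, hz1, hz2⟩ := exists_priv hH he
    have := (hXPlev _ hs' _ (mem_map_of_mem _ hz)).2
    rw [p33 _ _ hz1 hz2] at this
    simp [lev] at this
  · intro T hT hL I hI hne
    exact comp_weak (fun x => lev x ≤ 3) hH ψ3 p3W p3d T I hI
      (fun e he x hx => (hXPlev e (hT he) x hx).2) (hXPweak T hT hL) hne
  · intro T hT hL h2
    obtain ⟨T1, h1, T2, h2', rfl, h3⟩ := split_union T EX E2 hT
    have hL1 := (card_le_card h3).trans hL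
    exact comp_strict (fun x => lev x ≤ 2) hH ψ2 p2W p2d T1 T2 h2'
      (fun e he x hx => (hXlev e (h1 he) x hx).2) (fun hn => (hX1 T1 h1 hL1 hn).1)
      (fun h => (hX1 T1 h1 hL1 (card_pos.1 (by omega))).2 h) (fun hn => hX2 T1 h1 hL1 hn) h2
  · intro T hT I hI hne
    exact comp_weak (fun x => lev x ≤ 3) hH ψ3 p3W p3d T I hI
      (fun e he x hx => (h1lev e (hT he) x hx).trans (by omega)) (hE1weak T hT) hne
  · intro T hT I hI h2
    exact comp_strict (fun x => lev x ≤ 3) hH ψ3 p3W p3d T I hI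
      (fun e he x hx => (h1lev e (hT he) x hx).trans (by omega)) (hE1weak T hT)
      (hE1strict T hT) (hE1ins T hT) h2
  · intro χ c hc
    set All := EK ∪ (EX ∪ E2) ∪ E1 ∪ EH.image (fun e => e.map hub) with hAll
    have inK : ∀ s ∈ EK, s ∈ All := fun s hs => by simp [hAll, hs]
    have inX : ∀ s ∈ EX, s ∈ All := fun s hs => by simp [hAll, hs]
    have in2 : ∀ s ∈ E2, s ∈ All := fun s hs => by simp [hAll, hs]
    have in1 : ∀ s ∈ E1, s ∈ All := fun s hs => by simp [hAll, hs]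
    have inY : ∀ e ∈ EH, e.map hub ∈ All := fun e he =>
      mem_union_right _ (mem_image_of_mem _ he)
    by_contra hcon
    push Not at hcon
    have no : ∀ (θ : β ↪ 𝕍) (c' : Bool), ¬ ∀ e ∈ EH, e.map θ ∈ All ∧ χ (e.map θ) = c' := by
      intro θ c' h
      obtain ⟨e, he, h'⟩ := hcon θ c'
      exact h' (h e he).1 (h e he).2
    have s3 : ∀ k : A3, ({(r3 k).1, (r3 k).2} : Finset 𝕍) ∈ All → χ {(r3 k).1, (r3 k).2} = !c := by
      intro k hk
      by_contra h
      have h' : χ {(r3 k).1, (r3 k).2} = c := by simpa using h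
      refine no (ψ3 k) c (mono_of_comp (u := u) (u' := u') _ _ χ c ?_ ?_)
      · intro e he
        have : e.map (ψ3 k) ∈ EK := mem_CE.2 ⟨k, e, he, rfl⟩
        exact ⟨inK _ this, hc _ this⟩
      · rw [p31, p32]; exact ⟨hk, h'⟩
    have cX : ∀ k, ∀ e ∈ EH, u ∉ e → χ (e.map (ξ k)) = !c := by
      intro k e he hu
      have h1 : e.map (ξ k) = {(r3 (Sum.inl (k, ⟨e, he, hu⟩))).1,
          (r3 (Sum.inl (k, ⟨e, he, hu⟩))).2} := by
        conv_lhs => rw [(hst e he).2]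
        rw [map_pair']
      rw [h1]
      refine s3 (Sum.inl (k, ⟨e, he, hu⟩)) ?_
      rw [← h1]
      exact inX _ (mem_XE.2 ⟨k, e, he, hu, rfl⟩)
    have c2 : ∀ k, ∀ e ∈ EH.erase {u, u'}, χ (e.map (ψ2 k)) = !c := by
      intro k e he
      have h1 : e.map (ψ2 k) = {(r3 (Sum.inr (k, ⟨e, he⟩))).1,
          (r3 (Sum.inr (k, ⟨e, he⟩))).2} := by
        conv_lhs => rw [(hst e (mem_of_mem_erase he)).2]
        rw [map_pair']
      rw [h1]
      refine s3 (Sum.inr (k, ⟨e, he⟩)) ?_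
      rw [← h1]
      exact in2 _ (mem_CE.2 ⟨k, e, he, rfl⟩)
    have ne0 : ∀ e ∈ EH, u' ∉ e → e ∈ EH.erase {u, u'} := by
      intro e he hu
      refine mem_erase.2 ⟨?_, he⟩
      rintro rfl
      exact hu (by simp)
    have cZ : ∀ α, ∀ e ∈ EH, u ∉ e → u' ∉ e → χ (e.map (ψ0 α)) = c := by
      intro α e he hu hu'
      by_contra h
      have h' : χ (e.map (ψ0 α)) = !c := Bool.eq_not_iff.2 h
      refine no (ψ2 (α, ⟨e, he, hu, hu'⟩)) (!c) (mono_of_comp (u := u) (u' := u') _ _ χ _ ?_ ?_)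
      · intro e' he'
        exact ⟨in2 _ (mem_CE.2 ⟨_, e', he', rfl⟩), c2 _ e' he'⟩
      · rw [p21, p22, ← map_pair', ← (hst e he).2]
        exact ⟨in1 _ (mem_CE.2 ⟨α, e, ne0 e he hu', rfl⟩), h'⟩
    obtain ⟨i, pat, hpat⟩ := hRam (fun j τ =>
      χ {hub (hubOf τ), ((some (Sum.inl (τ.1, j)), τ.2.2) : 𝕍)})
    have star : ∀ (g : E) (j : Fin n) (r : Bool) (z : β), z ≠ u → z ≠ u' →
        ({if r then u else u', z} : Finset β).map (ψ0 (g, j)) =
          {hub (hubOf (g, r, z)), ((some (Sum.inl (g, j)), z) : 𝕍)} := by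
      intro g j r z h1 h2
      rw [map_pair', p03 _ _ h1 h2]
      cases r
      · simp only [Bool.false_eq_true, if_false, hubOf]; rw [p02]
      · simp only [if_true, hubOf]; rw [p01]
    have star0 : ∀ (r : Bool) (z : β), z ≠ u → z ≠ u' →
        ({if r then u else u', z} : Finset β) ∈ EH →
        ({if r then u else u', z} : Finset β) ∈ EH.erase {u, u'} := by
      intro r z h1 h2 h
      refine mem_erase.2 ⟨?_, h⟩
      intro h3
      have : z ∈ ({u, u'} : Finset β) := by rw [← h3]; simp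
      simp only [mem_insert, mem_singleton] at this
      tauto
    have other : ∀ e ∈ EH, ∀ w ∈ e, ∃ y, y ≠ w ∧ e = {w, y} := by
      intro e he w hw
      have h := (hst e he).2
      rw [h] at hw
      simp only [mem_insert, mem_singleton] at hw
      rcases hw with rfl | rfl
      · exact ⟨_, (hst e he).1.symm, h⟩
      · exact ⟨_, (hst e he).1, by rw [pair_comm]; exact h⟩
    have hblue : ∀ (g : E) (r : Bool) (z : β), z ≠ u → z ≠ u' →
        ({if r then u else u', z} : Finset β) ∈ EH → pat (g, r, z) = c := by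
      intro g r z h1 h2 h3
      by_contra h
      have h' : pat (g, r, z) = !c := Bool.eq_not_iff.2 h
      refine no (ξ (i, (g, r, z))) (!c) ?_
      intro e he
      by_cases hu : u ∈ e
      · obtain ⟨y, -, rfl⟩ := other e he u hu
        have hy : Nb y := he
        have e1 : ({u, y} : Finset β).map (ξ (i, (g, r, z))) = {hub (hubOf (g, r, z)),
            ((some (Sum.inl (g, σ i (some ((g, r, z), ⟨y, hy⟩)))), z) : 𝕍)} := by
          rw [map_pair']
          show ({ξf _ u, ξf _ y} : Finset 𝕍) = _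
          rw [x1, x2 _ ⟨y, hy⟩]
        rw [e1]
        constructor
        · rw [← star g _ r z h1 h2]
          exact in1 _ (mem_CE.2 ⟨_, _, star0 r z h1 h2 h3, rfl⟩)
        · rw [← h']
          exact congrFun (hpat (some ((g, r, z), ⟨y, hy⟩))) (g, r, z)
      · exact ⟨inX _ (mem_XE.2 ⟨_, e, he, hu, rfl⟩), cX _ e he hu⟩
    have cY : ∀ e ∈ EH, χ (e.map hub) = !c := by
      intro g hg
      by_contra h
      have h' : χ (g.map hub) = c := by simpa using h
      refine no (ψ0 (⟨g, hg⟩, σ i none)) c (mono_of_comp (u := u) (u' := u') _ _ χ _ ?_ ?_)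
      · intro e he
        refine ⟨in1 _ (mem_CE.2 ⟨_, e, he, rfl⟩), ?_⟩
        have he' := mem_of_mem_erase he
        have fin : ∀ (r : Bool) (y : β), y ≠ u → y ≠ u' → e = {if r then u else u', y} →
            χ (e.map (ψ0 (⟨g, hg⟩, σ i none))) = c := by
          intro r y h1 h2 h3
          rw [h3, star _ _ r y h1 h2, ← hblue ⟨g, hg⟩ r y h1 h2 (h3 ▸ he')]
          exact congrFun (hpat none) (⟨g, hg⟩, r, y)
        by_cases hu : u ∈ e
        · obtain ⟨y, hy, h3⟩ := other e he' u hu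
          refine fin true y hy ?_ h3
          rintro rfl
          exact (mem_erase.1 he).1 h3
        · by_cases hu' : u' ∈ e
          · obtain ⟨y, hy, h3⟩ := other e he' u' hu'
            refine fin false y ?_ hy h3
            rintro rfl
            exact hu (by rw [h3]; simp)
          · exact cZ _ e he' hu hu'
      · rw [p01, p02, ← map_pair', ← (hst g hg).2]
        exact ⟨inY g hg, h'⟩
    exact no hub (!c) (fun e he => ⟨inY e he, cY e he⟩)

end Pool.Agent.MP_1c0fc2_co
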