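import Pool.Agent.MP_1c0fc2_co.Basic

/-! The line system separating a tree that is not a star from other graphs of the same order. -/

namespace Pool.Agent.MP_1c0fc2_co

open Finset

theorem two_mixed {ι : Type} (R : Bool → ι → ι → Prop) (hs : ∀ b i j, R b i j → R b j i)
    (hc : ∀ i j, i ≠ j → ∃ b, R b i j) (hn : ∀ b, ¬ ∀ i j, i ≠ j → R b i j) :
    ∃ i j, i ≠ j ∧ (∀ b, ∃ m, m ≠ i ∧ R b i m) ∧ ∀ b, ∃ m, m ≠ j ∧ R b j m := by
  by_contra hno
  have key : ∀ b, ∃ u, (∀ m, m ≠ u → ¬ R b u m) ∧ ∃ m, m ≠ u ∧ R (!b) u m := by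
    intro b
    have := hn b
    push Not at this
    obtain ⟨i, j, hij, hR⟩ := this
    have h1 : R (!b) i j := by
      obtain ⟨b', hb'⟩ := hc i j hij
      by_cases h : b' = b
      · exact absurd (h ▸ hb') hR
      · rwa [← Bool.eq_not.2 h]
    by_contra hk
    push Not at hk
    refine hno ⟨i, j, hij, fun b' => ?_, fun b' => ?_⟩
    · by_cases h : b' = b
      · by_contra h'
        push Not at h'
        exact hk i (h ▸ h') j hij.symm h1
      · exact ⟨j, hij.symm, by rwa [Bool.eq_not.2 h]⟩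
    · by_cases h : b' = b
      · by_contra h'
        push Not at h'
        exact hk j (h ▸ h') i hij (hs _ _ _ h1)
      · exact ⟨i, hij, by rw [Bool.eq_not.2 h]; exact hs _ _ _ h1⟩
  obtain ⟨u, hu, -⟩ := key false
  obtain ⟨v, hv, m, hm, hm'⟩ := key true
  by_cases huv : u = v
  · subst huv
    exact hu m hm hm'
  · obtain ⟨b, hb⟩ := hc u v huv
    cases b
    · exact hu v (Ne.symm huv) hb
    · exact hv u huv (hs _ _ _ hb)

variable {α β X ι : Type} [Group X]

/-- The line of type `σ` through a point. -/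
def ln (s : ι → X) (σ : Bool) (p : α × X × ι) : α × X :=
  (p.1, if σ then s p.2.2 * p.2.1 else p.2.1)

/-- The `i`-th point of a line of type `σ`. -/
def pt (s : ι → X) (σ : Bool) (l : α × X) (i : ι) : α × X × ι :=
  (l.1, if σ then s i * l.2 else l.2, i)

/-- The graph of the line system. -/
def LG (T : SimpleGraph α) (s : ι → X) (i₀ : ι) : SimpleGraph (α × X × ι) where
  Adj p q := p ≠ q ∧ ((∃ σ, ln s σ p = ln s σ q ∧ ¬ (σ = true ∧ (ln s σ p).2 = 1)) ∨
    (T.Adj p.1 q.1 ∧ p.2 = (s i₀, i₀) ∧ q.2 = (s i₀, i₀)))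
  symm := ⟨fun _ _ h => ⟨h.1.symm, h.2.imp
    (fun ⟨σ, h1, h2⟩ => ⟨σ, h1.symm, h1 ▸ h2⟩) fun h => ⟨h.1.symm, h.2.2, h.2.1⟩⟩⟩
  loopless := ⟨fun _ h => h.1 rfl⟩

variable {s : ι → X}

theorem ln_pt (h1 : ∀ i, s i * s i = 1) (σ : Bool) (l : α × X) (i : ι) :
    ln s σ (pt s σ l i) = l := by
  cases σ <;> simp [ln, pt, ← mul_assoc, h1]

theorem ln_pt' (σ : Bool) (l : α × X) (i : ι) :
    ln s (!σ) (pt s σ l i) = (l.1, s i * l.2) := by
  cases σ <;> simp [ln, pt]

theorem pt_ln (h1 : ∀ i, s i * s i = 1) (σ : Bool) (p : α × X × ι) :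
    pt s σ (ln s σ p) p.2.2 = p := by
  cases σ <;> simp [ln, pt, ← mul_assoc, h1]

theorem pt_inj (σ : Bool) (l : α × X) : Function.Injective (pt s σ l) :=
  fun _ _ h => congrArg (fun p => p.2.2) h

theorem ln_both (h2 : Function.Injective s) {σ : Bool} {p q : α × X × ι}
    (e1 : ln s σ p = ln s σ q) (e2 : ln s (!σ) p = ln s (!σ) q) : p = q := by
  have : ln s false p = ln s false q ∧ ln s true p = ln s true q := by
    cases σ
    · exact ⟨e1, e2⟩
    · exact ⟨e2, e1⟩
  obtain ⟨a, x, i⟩ := p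
  obtain ⟨a', x', i'⟩ := q
  simp only [ln, Bool.false_eq_true, if_false, if_true, Prod.mk.injEq] at this
  obtain ⟨⟨rfl, rfl⟩, -, h⟩ := this
  rw [h2 (mul_right_cancel h)]

variable {T : SimpleGraph α} {i₀ : ι}

theorem adj_pt (h1 : ∀ i, s i * s i = 1) {σ : Bool} {l : α × X} (hl : ¬ (σ = true ∧ l.2 = 1))
    {i j : ι} (hij : i ≠ j) : (LG T s i₀).Adj (pt s σ l i) (pt s σ l j) :=
  ⟨fun h => hij (pt_inj σ l h), Or.inl ⟨σ, by rw [ln_pt h1, ln_pt h1], by rwa [ln_pt h1]⟩⟩

theorem not_arr_LG [Fintype α] [Fintype β] [Fintype ι] (h1 : ∀ i, s i * s i = 1)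
    (hT : T.IsAcyclic) {H : SimpleGraph β} (hH : H.Connected)
    (hc : Fintype.card α = Fintype.card β) (hι : Fintype.card ι < Fintype.card β)
    (ha : Arr (LG T s i₀) H) : Nonempty (T ≃g H) := by
  let C : Bool → SimpleGraph (α × X × ι) := fun b =>
    { Adj := fun p q => (LG T s i₀).Adj p q ∧ (ln s false p = ln s false q ↔ b = false)
      symm := ⟨fun p q h => ⟨h.1.symm, by rw [eq_comm]; exact h.2⟩⟩
      loopless := ⟨fun p h => h.1.ne rfl⟩ }
  obtain ⟨b, f, hf, hadj⟩ := ha C (fun b p q h => h.1) (fun p q h => by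
    by_cases e : ln s false p = ln s false q
    · exact ⟨false, h, by simp [e]⟩
    · exact ⟨true, h, by simp [e]⟩)
  have line : ∀ σ, ¬ ∀ x y, H.Adj x y → ln s σ (f x) = ln s σ (f y) := by
    intro σ h
    have hcst := const_of_conn hH (fun x => ln s σ (f x)) h
    have := Fintype.card_le_of_injective (fun x => (f x).2.2) (fun x y e => hf (by
      have e' : (f x).2.2 = (f y).2.2 := e
      rw [← pt_ln h1 σ (f x), ← pt_ln h1 σ (f y), hcst x y, e']))
    omega
  cases b with
  | false => exact absurd (fun x y h => (hadj x y h).2.2 rfl) (line false)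
  | true =>
    have step : ∀ x y, H.Adj x y → (ln s true (f x) = ln s true (f y) ∧
        (f x).2 ≠ (s i₀, i₀)) ∨
        (T.Adj (f x).1 (f y).1 ∧ (f x).2 = (s i₀, i₀) ∧ (f y).2 = (s i₀, i₀)) := by
      intro x y h
      obtain ⟨⟨-, ⟨σ, e1, e2⟩ | e⟩, e3⟩ := hadj x y h
      · cases σ
        · exact absurd (e3.1 e1) (by simp)
        · refine Or.inl ⟨e1, fun e => e2 ⟨rfl, ?_⟩⟩
          simp [ln, e, h1]
      · exact Or.inr e
    by_cases hsp : ∃ x, (f x).2 = (s i₀, i₀)
    · obtain ⟨x₀, hx₀⟩ := hsp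
      have hall : ∀ x, (f x).2 = (s i₀, i₀) := by
        intro x
        have := const_of_conn hH (fun x => (f x).2 = (s i₀, i₀)) (fun x y h => propext
          ⟨fun e => ((step x y h).resolve_left fun h' => h'.2 e).2.2,
            fun e => ((step y x h.symm).resolve_left fun h' => h'.2 e).2.2⟩) x₀ x
        exact this ▸ hx₀
      have hinj : Function.Injective fun x => (f x).1 := fun x y e =>
        hf (Prod.ext e (by rw [hall, hall]))
      have hbij := (Fintype.bijective_iff_injective_and_card _).2 ⟨hinj, hc.symm⟩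
      exact iso_of_hom hT hH (Equiv.ofBijective _ hbij) fun x y h =>
        ((step x y h).resolve_left fun h' => h'.2 (hall x)).1
    · exact absurd (fun x y h => ((step x y h).resolve_right fun h' => hsp ⟨x, h'.2.1⟩).1)
        (line true)

section
variable [Fintype α] [Fintype X] [Fintype ι] [DecidableEq α] [DecidableEq X] [DecidableEq ι]

theorem LG_deg_le (h1 : ∀ i, s i * s i = 1) (p : α × X × ι) :
    (nb (LG T s i₀) p).card ≤ 2 * Fintype.card ι + Fintype.card α := by
  have : nb (LG T s i₀) p ⊆ (univ.image (pt s false (ln s false p)) ∪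
      univ.image (pt s true (ln s true p))) ∪ univ.image fun a => (a, s i₀, i₀) := by
    intro q hq
    simp only [mem_union, mem_image, mem_univ, true_and]
    rcases (mem_nb.1 hq).2 with ⟨σ, e, -⟩ | ⟨-, -, e⟩
    · have := pt_ln h1 σ q
      rw [← e] at this
      cases σ
      · exact Or.inl (Or.inl ⟨_, this⟩)
      · exact Or.inl (Or.inr ⟨_, this⟩)
    · exact Or.inr ⟨q.1, Prod.ext rfl e.symm⟩
  refine (card_le_card this).trans ((card_union_le _ _).trans (Nat.add_le_add
    ((card_union_le _ _).trans ?_) (card_image_le.trans (by simp))))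
  have e1 := card_image_le (s := univ) (f := pt s false (ln s false p))
  have e2 := card_image_le (s := univ) (f := pt s true (ln s true p))
  rw [card_univ] at e1 e2
  omega

theorem LG_deg_ge (h1 : ∀ i, s i * s i = 1) (h2 : Function.Injective s) (p : α × X × ι)
    (hp : (ln s true p).2 ≠ 1) : 2 * (Fintype.card ι - 1) ≤ (nb (LG T s i₀) p).card := by
  have hsub : ∀ σ, (univ.erase p.2.2).image (pt s σ (ln s σ p)) ⊆ nb (LG T s i₀) p := by
    intro σ q hq
    obtain ⟨j, hj, rfl⟩ := mem_image.1 hq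
    have := adj_pt (T := T) (i₀ := i₀) h1 (σ := σ) (l := ln s σ p)
      (fun h => hp (h.1 ▸ h.2)) (ne_of_mem_erase hj).symm
    rw [pt_ln h1] at this
    exact mem_nb.2 this
  have := card_le_card (union_subset (hsub false) (hsub true))
  rw [card_union_of_disjoint, card_image_of_injective _ (pt_inj _ _),
    card_image_of_injective _ (pt_inj _ _), card_erase_of_mem (mem_univ _), card_univ] at this
  · omega
  · rw [disjoint_left]
    intro q hq hq'
    obtain ⟨j, hj, e⟩ := mem_image.1 hq
    obtain ⟨j', -, e'⟩ := mem_image.1 hq'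
    have : q = p := ln_both h2 (σ := false) (by rw [← e, ln_pt h1])
      (by rw [← e']; exact ln_pt h1 true _ _)
    exact ne_of_mem_erase hj (congrArg (fun p => p.2.2) (e.trans this))

theorem LG_deg_sum (h1 : ∀ i, s i * s i = 1) (h2 : Function.Injective s) :
    2 * (Fintype.card ι - 1) * Fintype.card (α × X × ι) ≤ ∑ p, (nb (LG T s i₀) p).card +
      2 * (Fintype.card ι - 1) * (Fintype.card α * Fintype.card ι) := by
  have e1 : ∀ p : α × X × ι, 2 * (Fintype.card ι - 1) ≤ (nb (LG T s i₀) p).card +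
      2 * (Fintype.card ι - 1) * if (ln s true p).2 = 1 then 1 else 0 := by
    intro p
    split_ifs with h
    · omega
    · simpa using LG_deg_ge h1 h2 p h
  have e2 := sum_le_sum fun p (_ : p ∈ univ) => e1 p
  rw [sum_const, sum_add_distrib, ← mul_sum, ← card_filter, card_univ, smul_eq_mul,
    mul_comm] at e2
  refine e2.trans (Nat.add_le_add_left (Nat.mul_le_mul_left _ ?_) _)
  rw [← Fintype.card_prod, ← card_univ]
  refine card_le_card_of_injOn (fun p => (p.1, p.2.2)) (fun _ _ => by simp) ?_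
  intro p hp q hq e
  simp only [coe_filter, mem_univ, true_and, Set.mem_ofPred_eq, Prod.mk.injEq] at hp hq e
  have : ln s true p = ln s true q := Prod.ext e.1 (hp.trans hq.symm)
  rw [← pt_ln h1 true p, ← pt_ln h1 true q, this, e.2]

end

theorem sep_same [Fintype α] [Fintype β] (hT : T.IsTree) (hstar : ¬ ∃ r, ∀ a, a ≠ r → T.Adj r a)
    {H : SimpleGraph β} (hH : H.Connected) {k : ℕ} (hk : Fintype.card α = k + 2)
    (hc : Fintype.card α = Fintype.card β) (hiso : ¬ Nonempty (T ≃g H)) : Sep T H := by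
  classical
  obtain ⟨S, hS1, hS2, hS3⟩ := exists_rt hT k hk
  have hflat : ¬ S.flat := fun h => hstar (hS2 h)
  obtain ⟨D, hD⟩ : ∃ D, D = 2 * (k + 1) + (k + 2) := ⟨_, rfl⟩
  obtain ⟨K, hK⟩ : ∃ K, K = (1 + D) * (D + D * D).factorial := ⟨_, rfl⟩
  obtain ⟨M, hM⟩ : ∃ M, M = K * (2 * k * ((k + 2) * (k + 1))) := ⟨_, rfl⟩
  obtain ⟨X, _, _, s, h1, h2, -, h4⟩ := exists_sys (Fin (k + 1)) (2 * M + 1)
  refine ⟨α × X × Fin (k + 1), inferInstance, LG T s 0, ?_, fun ha => hiso
    (not_arr_LG h1 hT.isAcyclic hH hc (by simp; omega) ha)⟩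
  intro C hle hcov
  by_contra hno
  push Not at hno
  have hfree : ∀ b v x W, Copy (C b) S v W → x ∉ W → ¬ (C b).Adj v x :=
    fun b v x W hc hx hvx => hno b (hS3 _ _ v x W hc hx hvx)
  have hdeg : ∀ b v, (nb (C b) v).card ≤ D := by
    intro b v
    have e1 := LG_deg_le (T := T) (i₀ := (0 : Fin (k + 1))) h1 v
    rw [Fintype.card_fin, hk, ← hD] at e1
    exact (card_le_card fun x hx => mem_nb.2 (hle b (mem_nb.1 hx))).trans e1
  have hcount : (univ.filter fun v => ¬ Perfect (C false) k v).card +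
      (univ.filter fun v => ¬ Perfect (C true) k v).card ≤ M := by
    have e1 := stability hflat (hdeg false) (hfree false)
    have e2 := stability hflat (hdeg true) (hfree true)
    have e3 := LG_deg_sum (T := T) (i₀ := (0 : Fin (k + 1))) h1 h2
    have e4 := sum_le_sum fun v (_ : v ∈ univ) => deg_cover hcov v
    rw [sum_add_distrib] at e4
    rw [Fintype.card_fin, hk, Nat.add_sub_cancel] at e3
    rw [← hK, hS1] at e1 e2
    have e5 := Nat.mul_le_mul_left K (e3.trans (Nat.add_le_add_right e4 _))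
    rw [hM]
    nlinarith
  let Intact : Bool → α × X → Bool → Prop := fun σ l b =>
    ∀ i j, i ≠ j → (C b).Adj (pt s σ l i) (pt s σ l j)
  have pend : ∀ σ l b i x, Intact σ l b → (C b).Adj (pt s σ l i) x → ln s σ x = l := by
    intro σ l b i x hI hx
    obtain ⟨W, hW, hcopy⟩ := copy_of_clique (G := C b) S (Q := univ.image (pt s σ l))
      (v := pt s σ l i) (by
        intro y hy z hz hyz
        obtain ⟨a, -, rfl⟩ := mem_image.1 hy
        obtain ⟨c, -, rfl⟩ := mem_image.1 hz
        exact hI a c fun h => hyz (h ▸ rfl))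
      (mem_image_of_mem _ (mem_univ _))
      (by rw [card_image_of_injective _ (pt_inj _ _), hS1]; simp)
    by_contra hne
    refine hfree b _ x W hcopy (fun h => hne ?_) hx
    obtain ⟨a, -, rfl⟩ := mem_image.1 (hW h)
    exact ln_pt h1 _ _ _
  have perf : ∀ σ p, (ln s true p).2 ≠ 1 → (∀ b, Perfect (C b) k p) →
      ∃ b, Intact σ (ln s σ p) b := by
    intro σ p hp hP
    have hpres : ¬ (σ = true ∧ (ln s σ p).2 = 1) := fun h => hp (h.1 ▸ h.2)
    have hk0 : 0 < k := by
      obtain ⟨S₁, -, f2, f3⟩ := exists_broom hflat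
      by_contra h0
      have h0' : S.size = 0 := by omega
      apply hflat
      clear * - h0'
      induction S with
      | point => trivial
      | graft S _ => simp [RT.size] at h0'
      | glue S₁ S₂ ih₁ ih₂ =>
        rw [RT.size] at h0'
        exact ⟨ih₁ (by omega), ih₂ (by omega)⟩
    obtain ⟨j, hj⟩ : ∃ j : Fin (k + 1), j ≠ p.2.2 := by
      have : Nontrivial (Fin (k + 1)) := Fin.nontrivial_iff_two_le.2 (by omega)
      exact exists_ne _
    have hadj := adj_pt (T := T) (i₀ := (0 : Fin (k + 1))) h1 hpres hj.symm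
    rw [pt_ln h1] at hadj
    obtain ⟨b, hb⟩ := hcov _ _ hadj
    have hsub : nb (C b) p ⊆ (univ.erase p.2.2).image (pt s σ (ln s σ p)) := by
      intro z hz
      have hpz := hle b (mem_nb.1 hz)
      have hz' : ln s σ z = ln s σ p := by
        rcases hpz.2 with ⟨τ, e, -⟩ | ⟨-, e, -⟩
        · by_cases hτ : τ = σ
          · exact hτ ▸ e.symm
          rw [Bool.eq_not.2 hτ] at e
          by_cases hzy : pt s σ (ln s σ p) j = z
          · rw [← hzy, ln_pt h1]
          have hyz := hle b ((hP b).2 _ _ hb (mem_nb.1 hz) hzy)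
          rcases hyz.2 with ⟨τ', e', -⟩ | ⟨e', -, -⟩
          · by_cases hτ' : τ' = σ
            · rw [hτ', ln_pt h1] at e'
              exact e'.symm
            · rw [Bool.eq_not.2 hτ', ← e] at e'
              exact absurd (ln_both h2 (ln_pt h1 σ _ j) e') hadj.ne.symm
          · have : z.1 = p.1 := (congrArg Prod.fst e).symm
            rw [this] at e'
            exact absurd e' T.irrefl
        · exact absurd (by simp [ln, e, h1]) hp
      refine mem_image.2 ⟨z.2.2, mem_erase.2 ⟨fun h => hpz.ne ?_, mem_univ _⟩, ?_⟩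
      · rw [← pt_ln h1 σ p, ← pt_ln h1 σ z, hz', h]
      · rw [← hz', pt_ln h1]
    have heq := eq_of_subset_of_card_le hsub (by
      rw [card_image_of_injective _ (pt_inj _ _), card_erase_of_mem (mem_univ _), (hP b).1]
      simp)
    have hall : ∀ i, i ≠ p.2.2 → (C b).Adj p (pt s σ (ln s σ p) i) := fun i hi => by
      rw [← mem_nb, heq]
      exact mem_image_of_mem _ (by simpa using hi)
    refine ⟨b, fun i i' hii => ?_⟩
    by_cases e : i = p.2.2
    · rw [e, pt_ln h1]
      exact hall i' (fun h => hii (e.trans h.symm))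
    by_cases e' : i' = p.2.2
    · rw [e', pt_ln h1]
      exact (hall i e).symm
    exact (hP b).2 _ _ (hall i e) (hall i' e') fun h => hii (pt_inj _ _ h)
  have good : ∀ t σ y, ¬ (σ = true ∧ y = 1) → ∃ b, Intact σ (t, y) b := by
    intro t σ₀ y₀ hp₀
    by_contra hbad
    have := h4 (fun y => ∃ σ, ¬ (σ = true ∧ y = 1) ∧ ¬ ∃ b, Intact σ (t, y) b) ?_
      ⟨y₀, σ₀, hp₀, hbad⟩
    · refine absurd this (not_lt.2 ?_)
      obtain ⟨N, hN⟩ : ∃ N, N = (univ.filter fun v => ¬ Perfect (C false) k v) ∪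
        (univ.filter fun v => ¬ Perfect (C true) k v) := ⟨_, rfl⟩
      have hNc : N.card ≤ M := hN ▸ (card_union_le _ _).trans hcount
      refine le_trans (card_le_card (t := insert (s 0) ((N.image fun p => (ln s false p).2) ∪
        N.image fun p => (ln s true p).2)) ?_) ?_
      · intro y hy
        simp only [mem_filter, mem_univ, true_and] at hy
        obtain ⟨σ, hy1, hy2⟩ := hy
        by_cases hy3 : y = s 0
        · simp [hy3]
        have hmem : pt s σ (t, y) 0 ∈ N := by
          by_contra hmem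
          simp only [hN, mem_union, mem_filter, mem_univ, true_and, not_or, not_not] at hmem
          have := perf σ (pt s σ (t, y) 0) ?_ (fun b => by cases b; exacts [hmem.1, hmem.2])
          · rw [ln_pt h1] at this
            exact hy2 this
          · cases σ
            · intro h
              have h' : s 0 * y = 1 := h
              exact hy3 (mul_left_cancel (h'.trans (h1 0).symm))
            · rw [ln_pt h1]
              exact fun h => hy1 ⟨rfl, h⟩
        refine mem_insert_of_mem (mem_union.2 ?_)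
        cases σ
        · exact Or.inl (mem_image.2 ⟨_, hmem, by rw [ln_pt h1]⟩)
        · exact Or.inr (mem_image.2 ⟨_, hmem, by rw [ln_pt h1]⟩)
      · refine (card_insert_le _ _).trans (Nat.add_le_add_right ((card_union_le _ _).trans ?_) 1)
        have e1 := card_image_le (s := N) (f := fun p => (ln s false p).2)
        have e2 := card_image_le (s := N) (f := fun p => (ln s true p).2)
        omega
    · rintro y ⟨σ, hy1, hy2⟩
      obtain ⟨i, j, hij, hi, hj⟩ := two_mixed
        (fun b i j => (C b).Adj (pt s σ (t, y) i) (pt s σ (t, y) j)) (fun _ _ _ h => h.symm)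
        (fun i j hij => hcov _ _ (adj_pt h1 hy1 hij)) (fun b h => hy2 ⟨b, h⟩)
      have key : ∀ i, (∀ b, ∃ m, m ≠ i ∧ (C b).Adj (pt s σ (t, y) i) (pt s σ (t, y) m)) →
          (∃ τ, ¬ (τ = true ∧ s i * y = 1) ∧ ¬ ∃ b, Intact τ (t, s i * y) b) ∨ s i * y = 1 := by
        intro i hi
        by_cases e : s i * y = 1
        · exact Or.inr e
        refine Or.inl ⟨!σ, fun h => e h.2, ?_⟩
        rintro ⟨b, hb⟩
        obtain ⟨m, hm, hadj⟩ := hi b
        have e1 := ln_pt' (s := s) σ (t, y) i
        have e2 := pt_ln h1 (!σ) (pt s σ (t, y) i)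
        rw [e1] at e2
        rw [← e2] at hadj
        have e3 := pend _ _ b _ _ hb hadj
        exact hm (pt_inj _ _ (ln_both h2 (σ := σ) (by rw [ln_pt h1, ln_pt h1])
          (e3.trans e1.symm)))
      exact ⟨i, j, hij, key i hi, key j hj⟩
  choose col hcol using fun t => good t false (s 0) (by simp)
  have hedge : ∀ t t', T.Adj t t' → (C (!col t)).Adj (t, s 0, 0) (t', s 0, 0) ∧
      ¬ (C (col t)).Adj (t, s 0, 0) (t', s 0, 0) := by
    intro t t' htt
    have hn : ¬ (C (col t)).Adj (t, s 0, 0) (t', s 0, 0) := fun h =>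
      htt.ne (congrArg Prod.fst (pend false (t, s 0) (col t) 0 _ (hcol t) h)).symm
    obtain ⟨b, hb⟩ := hcov (t, s 0, 0) (t', s 0, 0)
      ⟨fun h => htt.ne (congrArg Prod.fst h), Or.inr ⟨htt, rfl, rfl⟩⟩
    by_cases e : b = col t
    · exact absurd (e ▸ hb) hn
    · exact ⟨Bool.eq_not.2 e ▸ hb, hn⟩
  have hcst := const_of_conn hT.connected col fun t t' htt => by
    by_contra e
    have := (hedge t' t htt.symm).1.symm
    rw [← Bool.eq_not.2 e] at this
    exact (hedge t t' htt).2 this
  obtain ⟨t₀⟩ := hT.connected.nonempty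
  exact hno (!col t₀) ⟨fun t => (t, s 0, 0), fun _ _ h => congrArg Prod.fst h,
    fun t t' h => hcst t t₀ ▸ (hedge t t' h).1⟩

end Pool.Agent.MP_1c0fc2_co
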