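import Pool.Agent.MP_1c0fc2_co.Defs
import Pool.Agent.MP_1c0fc2_co.Lines

/-! Every tree is Ramsey isolated. -/

namespace Pool.Agent.MP_1c0fc2_co

variable {V α β : Type}

theorem has_iff {G : SimpleGraph V} {T : SimpleGraph α} : Has G T ↔ T.IsContained G :=
  ⟨fun ⟨f, hf, h⟩ => ⟨⟨⟨f, fun {a b} => h a b⟩, hf⟩⟩,
    fun ⟨c⟩ => ⟨c.toHom, c.injective, fun _ _ h => c.toHom.map_rel h⟩⟩

theorem arr_iff {G : SimpleGraph V} {T : SimpleGraph α} : Arr G T ↔ Arrows G T := by
  constructor
  · intro h R hR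
    obtain ⟨b, hb⟩ := h (fun b => if b then R else G \ R)
      (fun b => by cases b; exacts [sdiff_le, hR])
      (fun x y hxy => by
        by_cases e : R.Adj x y
        · exact ⟨true, e⟩
        · exact ⟨false, hxy, e⟩)
    cases b
    · exact Or.inr (has_iff.1 hb)
    · exact Or.inl (has_iff.1 hb)
  · intro h C hle hcov
    rcases h (C false) (hle false) with h' | h'
    · exact ⟨false, has_iff.2 h'⟩
    · refine ⟨true, has_iff.2 (h'.mono_right fun x y hxy => ?_)⟩
      obtain ⟨b, hb⟩ := hcov x y hxy.1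
      cases b
      · exact absurd hb hxy.2
      · exact hb

theorem tree_isolated [Finite α] [Finite β] (T : SimpleGraph α) (H : SimpleGraph β)
    (hT : T.IsTree) (hH : H.Connected)
    (h : ∀ (V : Type) [Finite V] (G : SimpleGraph V), Arrows G T ↔ Arrows G H) :
    Nonempty (T ≃g H) := by
  classical
  have := Fintype.ofFinite α
  have := Fintype.ofFinite β
  have n1 : ¬ Sep T H := fun ⟨V, _, G, h1, h2⟩ => h2 (arr_iff.2 ((h V G).1 (arr_iff.1 h1)))
  have n2 : ¬ Sep H T := fun ⟨V, _, G, h1, h2⟩ => h2 (arr_iff.2 ((h V G).2 (arr_iff.1 h1)))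
  have hle : Fintype.card β ≤ Fintype.card α := not_lt.1 fun hlt => n1 (sep_size hT hH hlt)
  have := hT.connected.nonempty
  have := hH.nonempty
  have hpos : 0 < Fintype.card β := Fintype.card_pos
  have hH' : H.IsTree := by
    refine ⟨hH, ?_⟩
    by_contra hc
    by_cases h1 : Fintype.card α = 1
    · have : Subsingleton β := Fintype.card_le_one_iff_subsingleton.1 (by omega)
      exact hc SimpleGraph.IsAcyclic.of_subsingleton
    · exact n1 (sep_cycle hT (k := Fintype.card α - 2) (by omega) hc)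
  have hc : Fintype.card α = Fintype.card β :=
    le_antisymm (not_lt.1 fun hlt => n2 (sep_size hH' hT.connected hlt)) hle
  by_contra hiso
  by_cases h1 : Fintype.card α = 1
  · have : Subsingleton β := Fintype.card_le_one_iff_subsingleton.1 (by omega)
    exact hiso (iso_of_hom hT.isAcyclic hH (Fintype.equivOfCardEq hc.symm)
      fun x y hxy => absurd (Subsingleton.elim x y) hxy.ne)
  by_cases s1 : ∃ r, ∀ a, a ≠ r → T.Adj r a
  · by_cases s2 : ∃ r, ∀ a, a ≠ r → H.Adj r a
    · obtain ⟨r, hr⟩ := s1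
      obtain ⟨r', hr'⟩ := s2
      exact hiso (iso_of_stars hT.isAcyclic hH' hc hr hr')
    · exact n2 (sep_same hH' s2 hT.connected (k := Fintype.card β - 2) (by omega) hc.symm
        fun ⟨e⟩ => hiso ⟨e.symm⟩)
  · exact n1 (sep_same hT s1 hH (k := Fintype.card α - 2) (by omega) hc hiso)

end Pool.Agent.MP_1c0fc2_co
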