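import Pool.Agent.MP_1c0fc2_co.EIface

/-! Density potential of a finite set of edges (edges are two-element finsets). -/

namespace Pool.Agent.MP_1c0fc2_co

open Finset

/-- the potential `a v(S) - b e(S)` -/
def del {α : Type} [DecidableEq α] (a b : ℕ) (S : Finset (Finset α)) : ℤ :=
  (a : ℤ) * (S.biUnion id).card - (b : ℤ) * S.card

/-- the potential of one edge -/
def th (a b : ℕ) : ℤ := (a : ℤ) * 2 - b

lemma biUnion_image_map {α β : Type} [DecidableEq α] [DecidableEq β] (f : α ↪ β)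
    (S : Finset (Finset α)) :
    (S.image (fun e => e.map f)).biUnion id = (S.biUnion id).map f := by
  ext y
  simp only [mem_biUnion, mem_image, id, mem_map]
  constructor
  · rintro ⟨_, ⟨e, he, rfl⟩, hy⟩
    obtain ⟨x, hx, rfl⟩ := mem_map.1 hy
    exact ⟨x, ⟨e, he, hx⟩, rfl⟩
  · rintro ⟨x, ⟨e, he, hx⟩, rfl⟩
    exact ⟨_, ⟨e, he, rfl⟩, mem_map_of_mem _ hx⟩

lemma card_image_map {α β : Type} [DecidableEq β] (f : α ↪ β) (S : Finset (Finset α)) :
    (S.image (fun e => e.map f)).card = S.card :=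
  card_image_of_injective _ (map_injective f)

lemma del_image_map {α β : Type} [DecidableEq α] [DecidableEq β] (a b : ℕ) (f : α ↪ β)
    (S : Finset (Finset α)) : del a b (S.image (fun e => e.map f)) = del a b S := by
  unfold del
  rw [biUnion_image_map, card_map, card_image_map]

lemma del_singleton {α : Type} [DecidableEq α] (a b : ℕ) (e : Finset α) (he : e.card = 2) :
    del a b {e} = th a b := by
  simp [del, th, he]

/-- a set of at least two edges spans at least three vertices -/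
lemma three_le_supp {α : Type} [DecidableEq α] (S : Finset (Finset α))
    (hS : ∀ e ∈ S, e.card = 2) (h2 : 2 ≤ S.card) : 3 ≤ (S.biUnion id).card := by
  obtain ⟨e, he, e', he', hne⟩ := one_lt_card.1 (by omega : 1 < S.card)
  have h1 : e ∪ e' ⊆ S.biUnion id := by
    intro x hx
    rcases mem_union.1 hx with h | h
    · exact mem_biUnion.2 ⟨e, he, h⟩
    · exact mem_biUnion.2 ⟨e', he', h⟩
  have h3 : 3 ≤ (e ∪ e').card := by
    by_contra hlt
    have hc := hS e he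
    have hc' := hS e' he'
    have a1 : e = e ∪ e' := eq_of_subset_of_card_le subset_union_left (by omega)
    have a2 : e' = e ∪ e' := eq_of_subset_of_card_le subset_union_right (by omega)
    exact hne (a1.trans a2.symm)
  exact h3.trans (card_le_card h1)

/-- planting statement -/
def PlantStmt : Prop :=
  ∀ (a b L : ℕ), 0 < b → b < a → ∀ (𝕍 : Type) [Fintype 𝕍] [DecidableEq 𝕍] (B : Finset 𝕍)
    (EK : Finset (Finset 𝕍)), (∀ e ∈ EK, e ⊆ B ∧ e.card = 2) →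
    (∀ S ⊆ EK, 2 ≤ S.card → th a b < del a b S) →
    ∃ (𝔾 ι : Type) (_ : Fintype 𝔾) (_ : DecidableEq 𝔾) (_ : Fintype ι) (Ψ : ι → 𝕍 ↪ 𝔾),
      (∀ χ : Finset 𝔾 → Bool, ∃ i c, ∀ e ∈ EK, χ (e.map (Ψ i)) = c) ∧
      (∀ i j, i ≠ j → ∀ x y, Ψ i x = Ψ j y → x ∈ B ∧ y ∈ B) ∧
      (∀ i j, i ≠ j → ∀ e e' : Finset 𝕍, e.card = 2 → e.map (Ψ i) = e'.map (Ψ j) →
        e ∈ EK ∧ e' ∈ EK) ∧
      (∀ 𝔈 : Finset (Finset 𝕍), (∀ e ∈ 𝔈, e.card = 2) →
        (∀ T ⊆ 𝔈, T.card ≤ L → ∀ I ⊆ EK, (T ∪ I).Nonempty → th a b ≤ del a b (T ∪ I)) →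
        ∀ S : Finset (Finset 𝔾), (∀ s ∈ S, ∃ i, ∃ e ∈ EK ∪ 𝔈, s = e.map (Ψ i)) →
          2 ≤ S.card → S.card ≤ L → del a b S ≤ th a b →
          ∃ i, ∃ S' ⊆ EK ∪ 𝔈, 2 ≤ S'.card ∧ del a b S' ≤ th a b ∧ ∀ e ∈ S', e.map (Ψ i) ∈ S)

/-- forest-like vertex Ramsey systems -/
def ForestStmt : Prop :=
  ∀ (D L : ℕ) (C : Type) [Fintype C] [Nonempty C], ∃ (n : ℕ) (ι : Type) (_ : Fintype ι)
    (σ : ι → Fin D ↪ Fin n),
    (∀ χ : Fin n → C, ∃ i c, ∀ x, χ (σ i x) = c) ∧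
    (∀ F : Finset ι, F.Nonempty → F.card ≤ L →
      F.card * D + 1 ≤ (F.biUnion fun i => univ.map (σ i)).card + F.card)

end Pool.Agent.MP_1c0fc2_co
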