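import Pool.Agent.Mg.F1c0fc2.G5d87df

/-! A graph that is Ramsey equivalent to a connected graph contains it. -/

namespace Pool.Agent.MP_1c0fc2_co.RE

open Function Set Relation

theorem pt_all : ParStmt ∧ K3Stmt ∧ ROMonoStmt ∧ FamStmt ∧ InvAStmt ∧ InvTStmt ∧ InvRStmt ∧
    StepNStmt ∧ StepSStmt ∧ RPStmt ∧ ParamStmt ∧ EngineStmt ∧ RedLocStmt ∧ BlueLiftStmt := by
  have hAtomB : AtomBStmt := atomB_stmt
  have hPar : ParStmt := par_stmt hAtomB
  have hK3 : K3Stmt := k3_stmt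
  have hEq : EqStmt := eq_stmt
  have hROMono : ROMonoStmt := roMono_stmt hEq
  have hRP : RPStmt := rp_stmt
  have hPullB : PullBStmt := pullB_stmt
  have hFam : FamStmt := fam_stmt hRP hPullB
  have hHost : HostStmt := host_stmt
  have hESNode : ESNodeStmt := esnode_stmt
  have hInvA : InvAStmt := invA_stmt hK3 hROMono hHost hESNode
  have hNsep : NsepStmt := nsep_stmt
  have hAtomA : AtomAStmt := atomA_stmt hEq hNsep
  have hEdge : EdgeStmt := edge_stmt
  have hIE3 : IE3Stmt := ie3_stmt hK3 hEdge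
  have hIE4 : IE4Stmt := ie4_stmt
  have hIE : IEStmt := ie_stmt hK3 hIE3 hIE4
  have hCol2 : Col2Stmt := col2_stmt hIE
  have hL6 : L6Stmt := l6_stmt hAtomA hNsep hCol2
  have hBr : BrStmt := br_stmt
  have hMA : MAStmt := ma_stmt hBr
  have hIA : IAStmt := ia_stmt hBr
  have hFP : FPStmt := fp_stmt hBr
  have hBridge : BridgeStmt := bridge_stmt hEq hAtomB
  have hMI : MIStmt := mi_stmt hAtomB hIE hBr hBridge
  have hParam : ParamStmt := param_stmt hEq hK3 hAtomA hL6 hMA hIA hFP hMI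
  have hMT1 : MT1Stmt := mt1_stmt
  have hLink : LinkStmt := link_stmt
  have hGlue : GlueStmt := glue_stmt
  have hLocal : LocalStmt := local_stmt
  have hMap : MapStmt := map_stmt
  have hMT : MTStmt := mt_stmt hMT1 hLink hGlue hLocal hMap
  have hMT0 : MT0Stmt := mt0_stmt hMT
  have hProt : ProtStmt := prot_stmt hMT0
  have hClose : CloseStmt := close_stmt hMT
  have hEngine : EngineStmt := engine_stmt hProt hClose
  have hThNode : ThNodeStmt := thnode_stmt hESNode
  have hLoc : LocStmt := loc_stmt hK3 hESNode hThNode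
  have hInvT : InvTStmt := invT_stmt hParam hEngine hLoc
  have hRedLoc : RedLocStmt := redLoc_stmt hK3 hROMono hLoc
  have hTwoNb : TwoNbStmt := twoNb_stmt
  have hLeaf : LeafStmt := leaf_stmt
  have hPi : PiStmt := pi_stmt hLeaf
  have hRPG : RPGStmt := rpg_stmt hRP hPi
  have hPullR : PullRStmt := pullR_stmt
  have hRedLift : RedLiftStmt := redLift_stmt hK3 hTwoNb hRPG hRedLoc hPullR
  have hInvR : InvRStmt := invR_stmt hRP hParam hEngine hLoc hRedLoc hRedLift
  have hSplit : SplitStmt := split_stmt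
  have hEO : EOStmt := eo_stmt hBr
  have hV0Abs : V0AbsStmt := v0Abs_stmt hEO
  have hV0 : V0Stmt := v0_stmt hK3 hAtomA hSplit hV0Abs
  have hM0T : M0TStmt := m0T_stmt hK3 hAtomB hIE hBr hBridge hRP
  have hGam : GamStmt := gam_stmt hMT hLink hGlue hLocal
  have hHub : HubStmt := hub_stmt
  have hGX : GXStmt := gx_stmt
  have hGRedRP : GRedRPStmt := gRedRP_stmt hRP hLeaf
  have hGRed : GRedStmt := gRed_stmt hK3 hROMono hGX hGRedRP
  have hGBlueN : GBlueNStmt := gBlueN_stmt hK3 hRP hThNode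
  have hCone : ConeStmt := cone_stmt hEq hK3 hNsep
  have hBlueLift : BlueLiftStmt := blueLift_stmt hK3 hCone hTwoNb hRPG hLoc hPullB
  have hStepN : StepNStmt := stepN_stmt hV0 hM0T hGam hParam hEngine hHub hGX hGRed hGBlueN hRedLift hBlueLift
  have hM0A : M0AStmt := m0A_stmt hEq hAtomA hBr hRP
  have hGBlueSRP : GBlueSRPStmt := gBlueSRP_stmt hRP hLeaf
  have hGBlueSRule : GBlueSRuleStmt := gBlueSRule_stmt
  have hGBlueS : GBlueSStmt := gBlueS_stmt hGBlueSRP hGBlueSRule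
  have hStepS : StepSStmt := stepS_stmt hK3 hROMono hAtomA hIA hM0A hM0T hGam hParam hEngine hHub hGX hGBlueS hRedLoc hBlueLift
  exact ⟨hPar, hK3, hROMono, hFam, hInvA, hInvT, hInvR, hStepN, hStepS, hRP, hParam, hEngine,
    hRedLoc, hBlueLift⟩

/-- invariance of the blue weight -/
theorem pt_invB {W U V : Type} [Finite W] [Finite U] [Finite V] {H : SimpleGraph W} {P : Par}
    (hP : P.Ok H) {m : Mode} (hm : Case P H m) {A : SimpleGraph U} {B : SimpleGraph V}
    (hA : In A H) (hB : In B H) (zB : ∀ z, ∃ z', B.Adj z z') (hI : Imp A B)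
    (hr : ∃ O, RO P H m B O) (s : ℕ) (h : BFam P H m A s) : BFam P H m B s := by
  obtain ⟨-, -, -, -, -, -, -, -, -, hRP, hParam, hEngine, hRedLoc, hBlueLift⟩ := pt_all
  obtain ⟨O, hO⟩ := hr
  obtain ⟨L, _, K, hK, hw⟩ := h
  obtain ⟨E, hE, hcol⟩ := hParam W U H P hP m hm A hA
  obtain ⟨Z, _, G, R, Gs, Bs, hL⟩ :=
    hEngine U U A E A ⊥ ∅ (Nat.card W) hE bot_le (xinv_ram_blue A)
  rcases hI Z G (ramOn_bot.1 hL.ram) R hL.core.pre.le with ⟨φ, hφ⟩ | ⟨φ, hφ⟩
  · obtain ⟨γ, -, -, h⟩ := hRedLoc W U U Z V H P hP m A E A ⊥ ∅ G R Gs Bs _ B φ hA le_rfl hL hcol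
      (fun S _ _ _ _ => hA.imp fun _ hh => hh.on S) hφ (fun _ _ _ hx => hx.elim) O hO
    obtain ⟨a, -, b, -, e⟩ := h.two.edge
    exact e.elim
  · refine hBlueLift W U U Z V L H P hP m hm A E A ⊥ ∅ G R Gs Bs _ B φ K s hA hB zB le_rfl hL
      hcol ?_ hφ
    have e : A \ ⊥ = A := sdiff_bot
    refine ⟨?_, ?_, hK.dis, ?_, fun Y _ _ => ?_⟩
    · rw [e]
      exact fun S hS _ => hK.cov S hS
    · rw [e]
      exact hw
    · rw [e]
      exact hK.rule
    · have h1 : RP (cc A ⊥ false) (fun l => K l ∩ Y) (∅ ∩ Y) :=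
        (hRP U L A K ∅).1 hK.rp _ Y sdiff_le
      refine ⟨h1, fun 𝒮 Pt h𝒮 hPt => ?_⟩
      refine (hRP U L _ _ _).2.2.1 h1
        (fun l l' h => (hK.dis l l' h).mono inter_subset_left inter_subset_left) 𝒮 Pt h𝒮 ?_
      rcases hPt.2 with h | ⟨a, b, -, -, e, -⟩
      · exact h
      · exact e.elim

/-- a connected graph with a cycle is contained in every equivalent graph without isolated
vertices -/
theorem pt_cyc {U V : Type} [Finite U] [Finite V] {A : SimpleGraph U} {B : SimpleGraph V}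
    (cA : A.Connected) (nA : ¬ A.IsAcyclic) (zB : ∀ z, ∃ z', B.Adj z z') (iAB : Imp A B)
    (iBA : Imp B A) : In A B := by
  obtain ⟨hPar, hK3, hROMono, hFam, hInvA, hInvT, hInvR, hStepN, hStepS, -⟩ := pt_all
  have hA : In A (A.sum B) := ⟨_, xboth_inl A B⟩
  have hB : In B (A.sum B) := ⟨_, xboth_inr A B⟩
  obtain ⟨P, hP⟩ := hPar _ (A.sum B) fun h => nA (h.embedding SimpleGraph.Embedding.sumInl)
  have h3 : 3 ≤ P.vA := by
    obtain ⟨⟨h1, h2, -⟩, -⟩ := hK3 _ U (A.sum B) P hP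
    exact h1.trans h2
  obtain ⟨m, hm⟩ := xboth_case (A.sum B) P h3
  have zA := xboth_nb cA nA
  have aAB : (∃ O, AS P (A.sum B) A O) ∧ ∃ O, AS P (A.sum B) B O := by
    obtain ⟨S, hS⟩ := hP.exA
    rcases xboth_side hS.two with ⟨k, hk⟩ | ⟨k, hk⟩
    · exact ⟨⟨_, hS.map hk⟩, (hInvA _ _ _ _ P hP B A hB iBA).1 ⟨_, hS.map hk⟩⟩
    · exact ⟨(hInvA _ _ _ _ P hP A B hA iAB).1 ⟨_, hS.map hk⟩, ⟨_, hS.map hk⟩⟩
  have tAB : m ≠ .S1 → (∃ O, TH P (A.sum B) A O) ∧ ∃ O, TH P (A.sum B) B O := fun e => by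
    obtain ⟨S, hS⟩ := hP.exθ
    rcases xboth_side hS.two with ⟨k, hk⟩ | ⟨k, hk⟩
    · exact ⟨⟨_, hS.map hk⟩, hInvT _ _ _ _ P hP m e hm B A hB iBA aAB.1 ⟨_, hS.map hk⟩⟩
    · exact ⟨hInvT _ _ _ _ P hP m e hm A B hA iAB aAB.2 ⟨_, hS.map hk⟩, ⟨_, hS.map hk⟩⟩
  have bAB : (∃ O, BO P (A.sum B) m A O) ∧ ∃ O, BO P (A.sum B) m B O := by
    cases m
    exacts [tAB nofun, tAB nofun, aAB, tAB nofun]
  obtain ⟨-, fB, rB, zbB, zrB⟩ := hFam _ _ _ (A.sum B) P m B A
  obtain ⟨s, hs1, hs2⟩ := xboth_least (zbB bAB.2) _ fB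
  by_contra n
  by_cases hN : m.IsN
  · have e : m ≠ .S1 := by
      rintro rfl
      exact hN
    obtain ⟨tA, tB⟩ := tAB e
    obtain ⟨-, sA⟩ := hInvR _ _ _ _ P hP m hN hm A B hA hB zB iAB tB
    obtain ⟨oB, -⟩ := hInvR _ _ _ _ P hP m hN hm B A hB hA zA iBA tA
    have hr : ∃ O, RO P (A.sum B) m B O := by
      obtain ⟨S, hS⟩ : ∃ S, RO P (A.sum B) m (A.sum B) S := by
        cases m
        exacts [hm.2, hm.2, hN.elim, hN.elim]
      rcases xboth_side hS.two with ⟨k, hk⟩ | ⟨k, hk⟩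
      · exact oB ⟨_, hROMono _ _ _ _ P hP m _ A k _ S hk ((xboth_inl A B).on _) hS⟩
      · exact ⟨_, hROMono _ _ _ _ P hP m _ B k _ S hk ((xboth_inr A B).on _) hS⟩
    obtain ⟨t, h1, h2⟩ := xboth_least (zrB hr) _ rB
    exact hs2 (pt_invB hP hm hA hB zB iAB hr s (hStepN _ _ _ _ P hP m hN hm B A hB hA cA zA iBA n
      t h1 (fun h => h2 (sA t h)) s hs1))
  · have hr : (∃ O, RO P (A.sum B) m A O) ∧ ∃ O, RO P (A.sum B) m B O := by
      cases m
      exacts [(hN trivial).elim, (hN trivial).elim, bAB, bAB]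
    exact hs2 (pt_invB hP hm hA hB zB iAB hr.2 s (hStepS _ _ _ _ P hP m hN hm B A hB hA cA zA iBA
      n hr.1 s hs1))

section Glue
variable {U V Z : Type} {A : SimpleGraph U} {B : SimpleGraph V}

theorem pt_arr (G : SimpleGraph Z) (A : SimpleGraph U) : Arr G A ↔ Arrows G A :=
  forall₂_congr fun _ _ => or_congr in_iff in_iff

theorem pt_imp (h : In A B) : Imp B A := fun _ _ _ e R hR => (e R hR).imp h.trans h.trans

theorem pt_ind (B : SimpleGraph V) (S : Set V) : IH (B.induce S) B Subtype.val :=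
  ⟨Subtype.val_injective, fun _ _ e => e⟩

theorem pt_pull {Y : Type} {J : SimpleGraph (Z ⊕ Y)} {J' : SimpleGraph Z}
    (zA : ∀ z, ∃ z', A.Adj z z')
    (hJ : ∀ p q, J.Adj p q → ∃ x y, p = .inl x ∧ q = .inl y ∧ J'.Adj x y) (h : In A J) :
    In A J' := by
  obtain ⟨ψ, hi, ha⟩ := h
  have h1 : ∀ z, ∃ x, ψ z = .inl x := fun z => by
    obtain ⟨z', e⟩ := zA z
    obtain ⟨x, -, h, -⟩ := hJ _ _ (ha _ _ e)
    exact ⟨x, h⟩
  choose f hf using h1
  refine ⟨f, fun z z' e => hi (by rw [hf, hf, e]), fun z z' e => ?_⟩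
  obtain ⟨x, y, h1, h2, h3⟩ := hJ _ _ (ha _ _ e)
  rw [hf] at h1 h2
  rwa [Sum.inl.inj h1, Sum.inl.inj h2]

/-- isolated vertices of the partner can be dropped -/
theorem pt_strip [Finite V] (zA : ∀ z, ∃ z', A.Adj z z') (iBA : Imp B A) :
    Imp (B.induce B.support) A := by
  classical
  intro Z _ G e R hR
  have key : Arr (G.sum (⊥ : SimpleGraph V)) B := by
    intro R₂ h₂
    have ext : ∀ (J : SimpleGraph (Z ⊕ V)) (J' : SimpleGraph Z),
        (∀ x y, J'.Adj x y → J.Adj (.inl x) (.inl y)) → In (B.induce B.support) J' → In B J := by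
      rintro J J' hJ ⟨φ, hi, ha⟩
      refine ⟨fun v => if h : v ∈ B.support then .inl (φ ⟨v, h⟩) else .inr v, fun v w h => ?_,
        fun v w h => ?_⟩
      · dsimp only at h
        split_ifs at h with h1 h2 h2
        · exact congrArg Subtype.val (hi (Sum.inl.inj h))
        · exact Sum.inr.inj h
      · dsimp only
        rw [dif_pos h.mem_support_left, dif_pos h.mem_support_right]
        exact hJ _ _ (ha _ _ h)
    exact (e (R₂.comap Sum.inl) fun x y h => SimpleGraph.sum_adj_inl.1 (h₂ h)).imp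
      (ext _ _ fun _ _ h => h) (ext _ (G \ R₂.comap Sum.inl) fun x y h =>
        ⟨SimpleGraph.sum_adj_inl.2 h.1, h.2⟩)
  have hs : ∀ (J : SimpleGraph Z) p q, (J.sum (⊥ : SimpleGraph V)).Adj p q →
      ∃ x y, p = .inl x ∧ q = .inl y ∧ J.Adj x y := by
    rintro J (p | p) (q | q) h
    · exact ⟨p, q, rfl, rfl, SimpleGraph.sum_adj_inl.1 h⟩
    · exact absurd h (SimpleGraph.not_adj_sum_inl_inr _ _)
    · exact absurd h.symm (SimpleGraph.not_adj_sum_inl_inr _ _)
    · exact (SimpleGraph.sum_adj_inr.1 h).elim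
  refine (iBA _ _ key (R.sum ⊥) fun p q h => ?_).imp (pt_pull zA (hs R))
    (pt_pull zA fun p q h => ?_)
  · obtain ⟨x, y, rfl, rfl, h⟩ := hs R p q h
    exact SimpleGraph.sum_adj_inl.2 (hR h)
  · obtain ⟨x, y, rfl, rfl, h'⟩ := hs G p q h.1
    exact ⟨x, y, rfl, rfl, h', fun e => h.2 (SimpleGraph.sum_adj_inl.2 e)⟩

theorem pt_cyc' [Finite U] [Finite V] (cA : A.Connected) (nA : ¬ A.IsAcyclic) (iAB : Imp A B)
    (iBA : Imp B A) : In A B := by
  have hin : In (B.induce B.support) B := ⟨_, pt_ind B _⟩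
  refine (pt_cyc cA nA (fun z => ?_) (fun Z _ G e => pt_imp hin Z G (iAB Z G e))
    (pt_strip (xboth_nb cA nA) iBA)).trans hin
  obtain ⟨y, hy⟩ := (B.mem_support).1 z.2
  exact ⟨⟨y, hy.mem_support_right⟩, hy⟩

/-- two disjoint copies are excluded by a minimal Ramsey graph -/
theorem pt_two [Finite U] {a b : U} (hab : A.Adj a b) (iAB : Imp A B) {f g : U → V}
    (hf : IH A B f) (hg : IH A B g) (hd : ∀ x y, f x ≠ g y) : False := by
  obtain ⟨Z, _, G0, Bs, -, h0⟩ := host_stmt U A 0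
  obtain ⟨G, hG, hmin⟩ := (wellFounded_lt (α := SimpleGraph Z)).has_min {G | Arr G A} ⟨G0, h0⟩
  obtain ⟨u, v, huv⟩ : ∃ u v, G.Adj u v := by
    rcases hG ⊥ bot_le with ⟨φ, hφ⟩ | ⟨φ, hφ⟩
    · exact (hφ.2 a b hab).elim
    · exact ⟨_, _, (hφ.2 a b hab).1⟩
  refine hmin (offG G {u}) (fun R hR => ?_) (lt_of_le_not_ge (fun _ _ e => e.1) fun h =>
    (h huv).2.1 rfl)
  rcases iAB Z G hG R (fun _ _ e => (hR e).1) with ⟨φ, hφ⟩ | ⟨φ, hφ⟩
  · exact .inl ⟨_, hf.comp hφ⟩
  · have key : ∀ k : U → V, IH A B k → (∀ x, φ (k x) ≠ u) → In A (offG G {u} \ R) :=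
      fun k hk h => ⟨φ ∘ k, hφ.1.comp hk.1, fun x y e =>
        ⟨⟨(hφ.2 _ _ (hk.2 x y e)).1, h x, h y⟩, (hφ.2 _ _ (hk.2 x y e)).2⟩⟩
    by_cases e : ∃ x, φ (f x) = u
    · obtain ⟨x, hx⟩ := e
      exact .inr (key g hg fun y hy => hd x y (hφ.1 (hx.trans hy.symm)))
    · exact .inr (key f hf fun x hx => e ⟨x, hx⟩)

/-- a graph splits along a set that is closed under adjacency -/
theorem pt_split (B : SimpleGraph V) {S : Set V} (hS : ∀ x y, B.Adj x y → (x ∈ S ↔ y ∈ S)) :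
    Nonempty ((B.induce S).sum (B.induce Sᶜ) ≃g B) := by
  classical
  refine ⟨⟨Equiv.Set.sumCompl S, ?_⟩⟩
  rintro (x | x) (y | y)
  · simp
  · simpa using fun e => y.2 ((hS _ _ e).1 x.2)
  · simpa using fun e => x.2 ((hS _ _ e).2 y.2)
  · simp

/-- from containment to the shape of the partner -/
theorem pt_shape [Finite U] [Finite V] (cA : A.Connected) {a b : U} (hab : A.Adj a b)
    (hAB : In A B) (iAB : Imp A B) :
    ∃ (γ : Type) (F : SimpleGraph γ), Nonempty (B ≃g A.sum F) ∧ ¬ A.IsContained F := by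
  obtain ⟨f, hf⟩ := hAB
  let q := B.connectedComponentMk (f a)
  have hq : ∀ x, f x ∈ q.supp := fun x =>
    SimpleGraph.ConnectedComponent.sound
      ((cA.preconnected x a).map (⟨f, fun {x y} e => hf.2 x y e⟩ : A →g B))
  have h1 : In A (B.induce q.supp) :=
    ⟨fun x => ⟨f x, hq x⟩, fun x y e => hf.1 (congrArg Subtype.val e), fun x y e => hf.2 x y e⟩
  have h2 : In (B.induce q.supp) B := ⟨_, pt_ind B _⟩
  obtain ⟨e⟩ := all_final U q.supp A (B.induce q.supp) cA q.connected_toSimpleGraph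
    fun Z _ G => ⟨fun h => (pt_arr _ _).1 (pt_imp h2 Z G (iAB Z G ((pt_arr _ _).2 h))),
      fun h => (pt_arr _ _).1 (pt_imp h1 Z G ((pt_arr _ _).2 h))⟩
  obtain ⟨e'⟩ := pt_split B (S := q.supp) fun x y h => q.mem_supp_congr_adj h
  refine ⟨_, B.induce q.suppᶜ, ⟨e'.symm.trans (e.symm.sumCongr (.refl))⟩, fun h => ?_⟩
  obtain ⟨g, hg⟩ := in_iff.2 h
  exact pt_two hab iAB hf (hg.comp (pt_ind B _)) fun x y e => (g y).2 (by
    have : f x = (g y).1 := e
    exact this ▸ hq x)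

end Glue

end Pool.Agent.MP_1c0fc2_co.RE

namespace Pool.Agent.MP_1c0fc2_co

open Finset

variable {X α β : Type}

theorem pt_deg [Fintype X] [Nonempty X] [Fintype α] {T : SimpleGraph α} (hT : T.IsTree) {k : ℕ}
    (hk : Fintype.card α ≤ k + 1) {J : SimpleGraph X} (h : ¬ Has J T) :
    ∑ v, (nb J v).card + Fintype.card X ≤ k * Fintype.card X := by
  classical
  have := hT.connected.nonempty
  have hpos : 0 < Fintype.card α := Fintype.card_pos
  by_cases h1 : Fintype.card α = 1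
  · obtain ⟨x⟩ := ‹Nonempty X›
    exact absurd ⟨fun _ => x, fun a b _ => Fintype.card_le_one_iff.1 h1.le a b,
      fun a b e => absurd (Fintype.card_le_one_iff.1 h1.le a b) e.ne⟩ h
  obtain ⟨j, hj⟩ : ∃ j, Fintype.card α = j + 2 := ⟨Fintype.card α - 2, by omega⟩
  obtain ⟨S, h1, -, h3⟩ := exists_rt hT j hj
  have e := degree_sum_le (G := J) (S := S) fun v x W hc hx hvx => h (h3 X _ v x W hc hx hvx)
  have : (j + 1) * Fintype.card X ≤ k * Fintype.card X := Nat.mul_le_mul_right _ (by omega)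
  rw [h1] at e
  nlinarith

/-- the rook graph -/
def rook (Y : Type) : SimpleGraph (Y × Y) where
  Adj p q := p ≠ q ∧ (p.1 = q.1 ∨ p.2 = q.2)
  symm := ⟨fun _ _ h => ⟨h.1.symm, h.2.imp Eq.symm Eq.symm⟩⟩
  loopless := ⟨fun _ h => h.1 rfl⟩

theorem rook_deg {Y : Type} [Fintype Y] {k : ℕ} (hk : Fintype.card Y = k + 1) (v : Y × Y) :
    2 * k ≤ (nb (rook Y) v).card := by
  classical
  have hsub : ((univ.erase v.2).image fun y => (v.1, y)) ∪
      ((univ.erase v.1).image fun x => (x, v.2)) ⊆ nb (rook Y) v := by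
    intro q hq
    simp only [mem_union, mem_image, mem_erase, mem_univ, and_true] at hq
    rw [mem_nb]
    rcases hq with ⟨y, hy, rfl⟩ | ⟨x, hx, rfl⟩
    · exact ⟨fun h => hy (congrArg Prod.snd h).symm, Or.inl rfl⟩
    · exact ⟨fun h => hx (congrArg Prod.fst h).symm, Or.inr rfl⟩
  have := card_le_card hsub
  rw [card_union_of_disjoint, card_image_of_injective _ (Prod.mk_right_injective _),
    card_image_of_injective _ (Prod.mk_left_injective _), card_erase_of_mem (mem_univ _),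
    card_erase_of_mem (mem_univ _), card_univ, hk] at this
  · omega
  · rw [disjoint_left]
    intro q hq hq'
    simp only [mem_image, mem_erase, mem_univ, and_true] at hq hq'
    obtain ⟨y, hy, rfl⟩ := hq
    obtain ⟨x, -, hx⟩ := hq'
    exact hy (congrArg Prod.snd hx).symm

/-- disjoint copies -/
def copies (ι : Type) (G : SimpleGraph X) : SimpleGraph (ι × X) where
  Adj p q := p.1 = q.1 ∧ G.Adj p.2 q.2
  symm := ⟨fun _ _ h => ⟨h.1.symm, h.2.symm⟩⟩
  loopless := ⟨fun _ h => h.2.ne rfl⟩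

/-- if one colour always holds all components, many copies arrow the whole graph -/
theorem arr_copies [Finite β] {B : SimpleGraph β} {G : SimpleGraph X}
    (h : ∀ C : Bool → SimpleGraph X, (∀ x y, G.Adj x y → ∃ b, (C b).Adj x y) →
      ∃ b, ∀ q : B.ConnectedComponent, Has (C b) (B.induce q.supp)) :
    Arr (copies (Bool × B.ConnectedComponent) G) B := by
  classical
  have := Fintype.ofFinite B.ConnectedComponent
  intro C _ hC
  choose col hcol using fun i : Bool × B.ConnectedComponent =>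
    h (fun b => (C b).comap (Prod.mk i)) fun x y e => hC _ _ ⟨rfl, e⟩
  obtain ⟨b, hb⟩ := Fintype.exists_le_card_fiber_of_mul_le_card col
    (n := Fintype.card B.ConnectedComponent) (by simp)
  obtain ⟨e⟩ : Nonempty (B.ConnectedComponent ↪ {i // col i = b}) :=
    Function.Embedding.nonempty_of_card_le (by rwa [Fintype.card_subtype])
  choose φ h1 h2 using hcol
  let ψ : ∀ (q : B.ConnectedComponent) (v : β), v ∈ q.supp → (Bool × B.ConnectedComponent) × X :=
    fun q v hv => ((e q).1, φ (e q).1 q ⟨v, hv⟩)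
  have key : ∀ q v (hv : v ∈ q.supp), ψ (B.connectedComponentMk v) v rfl = ψ q v hv := by
    intro q v hv
    obtain rfl : B.connectedComponentMk v = q := hv
    rfl
  refine ⟨b, fun v => ψ (B.connectedComponentMk v) v rfl, fun v w hvw => ?_, fun v w hvw => ?_⟩
  · have e1 : w ∈ (B.connectedComponentMk v).supp :=
      (e.injective (Subtype.ext (congrArg Prod.fst hvw))).symm
    exact congrArg Subtype.val (h1 _ _ (congrArg Prod.snd (hvw.trans (key _ w e1))))
  · have e1 : w ∈ (B.connectedComponentMk v).supp :=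
      SimpleGraph.ConnectedComponent.sound hvw.symm.reachable
    have e2 := h2 (e (B.connectedComponentMk v)).1 (B.connectedComponentMk v) ⟨v, rfl⟩ ⟨w, e1⟩ hvw
    rw [(e _).2] at e2
    dsimp only
    rw [key _ w e1]
    exact e2

theorem not_arr_rook {ι Y : Type} [Fintype Y] [Fintype α] {T : SimpleGraph α} (hT : T.Connected)
    (hlt : Fintype.card Y < Fintype.card α) : ¬ Arr (copies ι (rook Y)) T := fun ha => by
  let C : Bool → SimpleGraph (ι × Y × Y) := fun b =>
    { Adj := fun p q => p ≠ q ∧ p.1 = q.1 ∧ (p.2.1 = q.2.1 ∨ p.2.2 = q.2.2) ∧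
        (if b then p.2.1 else p.2.2) = (if b then q.2.1 else q.2.2)
      symm := ⟨fun p q h => ⟨h.1.symm, h.2.1.symm, h.2.2.1.imp Eq.symm Eq.symm, h.2.2.2.symm⟩⟩
      loopless := ⟨fun p h => h.1 rfl⟩ }
  obtain ⟨b, f, hf, hadj⟩ := ha C
    (fun b p q h => ⟨h.2.1, fun e => h.1 (Prod.ext h.2.1 e), h.2.2.1⟩)
    (fun p q h => h.2.2.elim (fun e => ⟨true, h.ne, h.1, h.2.2, e⟩)
      fun e => ⟨false, h.ne, h.1, h.2.2, e⟩)
  have hc := const_of_conn hT (fun x => if b then (f x).2.1 else (f x).2.2)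
    fun x y h => (hadj x y h).2.2.2
  have hi := const_of_conn hT (fun x => (f x).1) fun x y h => (hadj x y h).2.1
  have := Fintype.card_le_of_injective (fun x => if b then (f x).2.2 else (f x).2.1)
    (fun x y h => hf (by
      have := hc x y
      cases b
      · exact Prod.ext (hi x y) (Prod.ext h this)
      · exact Prod.ext (hi x y) (Prod.ext this h)))
  omega

/-- a star is separated from every other graph without isolated vertices -/
theorem sep_star [Fintype α] {T : SimpleGraph α} (hT : T.IsTree) {k : ℕ}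
    (hk : Fintype.card α = k + 2) {r : α} (hr : ∀ a, a ≠ r → T.Adj r a) {H : SimpleGraph β}
    (zH : ∀ z, ∃ z', H.Adj z z') [Nonempty β] (h : ¬ Sep T H) : ∃ r, ∀ a, a ≠ r → H.Adj r a := by
  classical
  let G : SimpleGraph (Option (Fin (2 * k + 1))) :=
    { Adj := fun p q => p ≠ q ∧ (p = none ∨ q = none)
      symm := ⟨fun _ _ h => ⟨h.1.symm, h.2.symm⟩⟩
      loopless := ⟨fun _ h => h.1 rfl⟩ }
  have h1 : Arr G T := by
    intro C _ hC
    choose col hcol using fun i : Fin (2 * k + 1) => hC none (some i) ⟨nofun, .inl rfl⟩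
    obtain ⟨b, hb⟩ := Fintype.exists_lt_card_fiber_of_mul_lt_card col (n := k) (by simp)
    obtain ⟨e⟩ : Nonempty ({a // a ≠ r} ↪ {i // col i = b}) :=
      Function.Embedding.nonempty_of_card_le (by
        rw [Fintype.card_subtype_compl, Fintype.card_subtype_eq, Fintype.card_subtype]
        omega)
    have he : ∀ a (h : a ≠ r), (C b).Adj none (some (e ⟨a, h⟩).1) := fun a h => by
      have := hcol (e ⟨a, h⟩).1
      rwa [(e _).2] at this
    refine ⟨b, fun a => if h : a = r then none else some (e ⟨a, h⟩).1, fun x y h => ?_,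
      fun x y h => ?_⟩
    · dsimp only at h
      split_ifs at h with h1 h2 h2
      · exact h1.trans h2.symm
      · exact congrArg Subtype.val (e.injective (Subtype.ext (Option.some.inj h)))
    · dsimp only
      split_ifs with h1 h2 h2
      · exact absurd (h1.trans h2.symm) h.ne
      · exact he y h2
      · exact (he x h1).symm
      · exact absurd (SimpleGraph.is3Clique_triple_iff.2 ⟨hr x h1, hr y h2, h⟩)
          (hT.isAcyclic.cliqueFree le_rfl _)
  obtain ⟨f, hf, ha⟩ : Has G H := by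
    by_contra n
    exact h ⟨_, inferInstance, G, h1, not_arr_of_not_has n⟩
  obtain ⟨c, hc⟩ : ∃ c, f c = none := by
    obtain ⟨z⟩ := ‹Nonempty β›
    obtain ⟨z', e⟩ := zH z
    exact (ha _ _ e).2.elim (fun e => ⟨_, e⟩) fun e => ⟨_, e⟩
  refine ⟨c, fun a hac => ?_⟩
  obtain ⟨z, e⟩ := zH a
  rcases (ha _ _ e).2 with e' | e'
  · exact absurd (hf (e'.trans hc.symm)) hac
  · rw [← hf (e'.trans hc.symm)]
    exact e.symm

/-- a tree is contained in every equivalent graph -/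
theorem pt_tree [Fintype α] [Finite β] {T : SimpleGraph α} (hT : T.IsTree) {k : ℕ}
    (hk : Fintype.card α = k + 2) {B : SimpleGraph β}
    (h : ∀ (V : Type) [Finite V] (G : SimpleGraph V), Arrows G T ↔ Arrows G B) : RE.In T B := by
  classical
  by_contra n
  have ns : ∀ q : B.ConnectedComponent, ¬ Sep T (B.induce q.supp) := by
    rintro q ⟨V, _, G, h1, h2⟩
    exact h2 (arr_iff.2 ((RE.pt_arr _ _).1 (RE.pt_imp ⟨_, RE.pt_ind B _⟩ V G
      ((RE.pt_arr _ _).2 ((h V G).1 (arr_iff.1 h1))))))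
  have sm : ∀ q : B.ConnectedComponent, (B.induce q.supp).IsTree ∧ Nat.card q.supp ≤ k + 1 := by
    intro q
    have := Fintype.ofFinite q.supp
    have cq : (B.induce q.supp).Connected := q.connected_toSimpleGraph
    have tq : (B.induce q.supp).IsTree := ⟨cq, not_not.1 fun hc => ns q (sep_cycle hT hk hc)⟩
    refine ⟨tq, ?_⟩
    rw [Nat.card_eq_fintype_card]
    by_contra hlt
    have hc : Fintype.card α = Fintype.card q.supp :=
      le_antisymm (by omega) (not_lt.1 fun h => ns q (sep_size hT cq h))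
    have hiso : ¬ Nonempty (T ≃g B.induce q.supp) := fun ⟨e⟩ =>
      n (RE.In.trans ⟨e, e.injective, fun _ _ h => e.map_rel_iff.2 h⟩ ⟨_, RE.pt_ind B _⟩)
    by_cases s1 : ∃ r, ∀ a, a ≠ r → T.Adj r a
    · obtain ⟨r, hr⟩ := s1
      have := cq.nonempty
      have : Nontrivial q.supp := Fintype.one_lt_card_iff_nontrivial.1 (by omega)
      obtain ⟨r', hr'⟩ := sep_star hT hk hr (fun z =>
        (SimpleGraph.mem_support _).1 (cq.preconnected.support_eq_univ ▸ Set.mem_univ z)) (ns q)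
      exact hiso (iso_of_stars hT.isAcyclic tq hc hr hr')
    · exact ns q (sep_same hT s1 cq hk hc hiso)
  refine not_arr_rook (ι := Bool × B.ConnectedComponent) (Y := Fin (k + 1)) hT.connected
    (by simp [hk]) (arr_iff.2 ((h _ _).2 (arr_iff.1 (arr_copies fun C hC => ?_))))
  by_contra hno
  push Not at hno
  have e : ∀ b, ∑ v, (nb (C b) v).card + Fintype.card (Fin (k + 1) × Fin (k + 1)) ≤
      k * Fintype.card (Fin (k + 1) × Fin (k + 1)) := fun b => by
    obtain ⟨q, hq⟩ := hno b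
    have := Fintype.ofFinite q.supp
    exact pt_deg (sm q).1 (Nat.card_eq_fintype_card (α := q.supp) ▸ (sm q).2) hq
  have e3 : ∑ _v : Fin (k + 1) × Fin (k + 1), 2 * k ≤
      ∑ v, ((nb (C false) v).card + (nb (C true) v).card) :=
    sum_le_sum fun v _ => (rook_deg (by simp) v).trans (deg_cover hC v)
  rw [sum_const, sum_add_distrib, card_univ, smul_eq_mul] at e3
  have e1 := e false
  have e2 := e true
  have : 0 < Fintype.card (Fin (k + 1) × Fin (k + 1)) := Fintype.card_pos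
  nlinarith

theorem partner [Finite α] [Finite β] (H : SimpleGraph α) (H' : SimpleGraph β)
    (hH : H.Connected) (hH' : ¬ H'.Connected)
    (h : ∀ (V : Type) [Finite V] (G : SimpleGraph V), Arrows G H ↔ Arrows G H') :
    ∃ (γ : Type) (F : SimpleGraph γ), Nonempty (H' ≃g H.sum F) ∧ ¬ H.IsContained F := by
  classical
  have := Fintype.ofFinite α
  have := hH.nonempty
  have i1 : RE.Imp H H' := fun Z _ G e => (RE.pt_arr _ _).2 ((h Z G).1 ((RE.pt_arr _ _).1 e))
  have i2 : RE.Imp H' H := fun Z _ G e => (RE.pt_arr _ _).2 ((h Z G).2 ((RE.pt_arr _ _).1 e))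
  rcases subsingleton_or_nontrivial α with hs | hs
  · exfalso
    have h1 : RE.In H' (⊥ : SimpleGraph Unit) :=
      (i1 Unit ⊥ (fun R _ => .inl ⟨fun _ => (), fun a b _ => Subsingleton.elim a b,
        fun a b e => absurd (Subsingleton.elim a b) e.ne⟩) ⊥ le_rfl).elim id
        fun e => e.trans (RE.In.of_le sdiff_le)
    obtain ⟨f, hf, -⟩ := h1
    have : Subsingleton β := hf.subsingleton
    rcases isEmpty_or_nonempty β with hb | hb
    · obtain ⟨a⟩ := ‹Nonempty α›
      rcases i2 Empty ⊥ (fun R _ => .inl ⟨isEmptyElim, fun a => isEmptyElim a,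
        fun a => isEmptyElim a⟩) ⊥ le_rfl with ⟨g, -⟩ | ⟨g, -⟩ <;> exact (g a).elim
    · exact hH' SimpleGraph.Connected.of_subsingleton
  obtain ⟨a⟩ := ‹Nonempty α›
  obtain ⟨b, hab⟩ := (SimpleGraph.mem_support _).1
    (hH.preconnected.support_eq_univ ▸ Set.mem_univ a)
  refine RE.pt_shape hH hab ?_ i1
  by_cases hc : H.IsAcyclic
  · have : 1 < Fintype.card α := Fintype.one_lt_card
    exact pt_tree ⟨hH, hc⟩ (k := Fintype.card α - 2) (by omega) h
  · exact RE.pt_cyc' hH hc i1 i2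

end Pool.Agent.MP_1c0fc2_co
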