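import Pool.Agent.MP_1c0fc2_co.PlantCore

/-! The planting statement and the forest statement follow from the engine. -/

namespace Pool.Agent.MP_1c0fc2_co

open Finset

theorem forest_of_engine (hE : EngineStmt) : ForestStmt := by
  classical
  intro D L C _ _
  obtain ⟨n, Φ, hmono, hram, hconf⟩ := hE D 1 (Fintype.card C) L 1 0
    ((univ : Finset (Fin D)).image (fun x => ({x} : Finset (Fin D)))) (by norm_num)
    (by
      intro e he
      obtain ⟨x, -, rfl⟩ := mem_image.1 he
      simp)
    (by
      intro S hS h2
      have : (S.biUnion id).card = S.card := by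
        rw [card_biUnion]
        · rw [card_eq_sum_ones S]
          apply sum_congr rfl
          intro e he
          obtain ⟨x, -, rfl⟩ := mem_image.1 (hS he)
          simp
        · intro e he e' he' hne
          obtain ⟨x, -, rfl⟩ := mem_image.1 (hS he)
          obtain ⟨y, -, rfl⟩ := mem_image.1 (hS he')
          simp only [Function.onFun, id, disjoint_singleton]
          intro h; exact hne (by rw [h])
      rw [this]
      push_cast
      omega)
  refine ⟨n, Φ, inferInstance, fun f => ⟨f.1, (hmono f.1 f.2).injective⟩, ?_, ?_⟩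
  · intro χ
    let eC := Fintype.equivFin C
    obtain ⟨f, hf, c, hc⟩ := hram (fun A => if h : A.Nonempty then eC (χ (A.min' h)) else
      eC (Classical.arbitrary C))
    refine ⟨⟨f, hf⟩, eC.symm c, fun x => ?_⟩
    have := hc {x} (mem_image_of_mem _ (mem_univ _))
    simp only [image_singleton, singleton_nonempty, dif_pos, min'_singleton] at this
    rw [← this]
    simp
  · intro F hF hL
    have h1 := hconf (F.image Subtype.val) (by
      intro f hf
      obtain ⟨g, -, rfl⟩ := mem_image.1 hf
      exact g.2) (hF.image _) (card_image_le.trans hL)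
    rw [card_image_of_injective _ Subtype.val_injective] at h1
    have h2 : ((F.image Subtype.val).biUnion fun f => univ.image f) =
        F.biUnion fun i => univ.map (⟨i.1, (hmono i.1 i.2).injective⟩ : Fin D ↪ Fin n) := by
      ext y
      simp [mem_biUnion]
    rw [h2] at h1
    push_cast at h1
    have h3 : (F.card : ℤ) * D + 1 ≤ (F.biUnion fun i => univ.map
        (⟨i.1, (hmono i.1 i.2).injective⟩ : Fin D ↪ Fin n)).card + F.card := by linarith
    exact_mod_cast h3

theorem plant_of_engine (hE : EngineStmt) : PlantStmt := by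
  classical
  intro a b L hb hab 𝕍 _ _ B EK hEK hsp
  set v := B.card with hv
  let β : B ≃ Fin v := B.equivFin
  let emb : Fin v ↪ 𝕍 := ⟨fun x => (β.symm x).1, fun x y h => β.symm.injective (Subtype.ext h)⟩
  have hemb : ∀ x (hx : x ∈ B), emb (β ⟨x, hx⟩) = x := by
    intro x hx; simp [emb]
  have hembB : ∀ y, emb y ∈ B := fun y => (β.symm y).2
  let pull : Finset 𝕍 → Finset (Fin v) := fun e => univ.filter (fun y => emb y ∈ e)
  have hpull : ∀ e, e ⊆ B → (pull e).map emb = e := by
    intro e he
    ext x
    simp only [pull, mem_map, mem_filter, mem_univ, true_and]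
    constructor
    · rintro ⟨y, hy, rfl⟩; exact hy
    · intro hx
      exact ⟨β ⟨x, he hx⟩, by rw [hemb]; exact hx, hemb _ _⟩
  set EK' := EK.image pull with hEK'
  have hback : EK'.image (fun e => e.map emb) = EK := by
    rw [hEK', image_image]
    conv_rhs => rw [← image_id (s := EK)]
    apply image_congr
    intro e he
    exact hpull e (hEK e he).1
  have hcK : EK'.card = EK.card := by rw [← hback, card_image_map]
  set M := (L + 2) * v + v + 3 with hM
  have haM : 1 ≤ a * M := Nat.mul_pos (by omega) (by omega)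
  have hcast : ((a * M - 1 : ℕ) : ℤ) = (a : ℤ) * M - 1 := by
    rw [Nat.cast_sub haM]; push_cast; ring
  have hMv : (v : ℤ) + 2 < M := by
    have : v + 2 < M := by omega
    exact_mod_cast this
  obtain ⟨n, Φ, hmono, hram, hconf⟩ := hE v 2 2 (L + 2) (a * M - 1) (b * M) EK'
    (by
      have h1 : b * M + M ≤ a * M := by nlinarith
      omega)
    (by
      intro e he
      obtain ⟨e0, he0, rfl⟩ := mem_image.1 he
      rw [← card_map emb, hpull e0 (hEK e0 he0).1]
      exact (hEK e0 he0).2)
    (by
      intro S hS h2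
      have h1 := hsp (S.image (fun e => e.map emb)) (by
        rw [← hback]; exact image_subset_image hS) (by rw [card_image_map]; exact h2)
      rw [del_image_map] at h1
      unfold del th at h1
      have h3 : ((S.biUnion id).card : ℤ) ≤ v := by
        have := card_le_univ (S.biUnion id)
        rw [Fintype.card_fin] at this
        exact_mod_cast this
      rw [hcast]
      push_cast
      have hM0 : (0 : ℤ) ≤ M := by positivity
      have h4 : (a : ℤ) * 2 - b + 1 ≤ a * (S.biUnion id).card - b * S.card := by omega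
      have := mul_le_mul_of_nonneg_left h4 hM0
      nlinarith)
  let Ψ : Φ → 𝕍 ↪ (Fin n ⊕ (Φ × 𝕍)) := fun i =>
    ⟨fun x => if h : x ∈ B then Sum.inl (i.1 (β ⟨x, h⟩)) else Sum.inr (i, x), by
      intro x y hxy
      by_cases hx : x ∈ B <;> by_cases hy : y ∈ B <;> simp only [hx, hy, dif_pos, dif_neg,
        not_false_eq_true] at hxy
      · have := β.injective ((hmono i.1 i.2).injective (Sum.inl.inj hxy))
        exact congrArg Subtype.val this
      · exact absurd hxy (by simp)
      · exact absurd hxy (by simp)
      · exact (Prod.mk.inj (Sum.inr.inj hxy)).2⟩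
  let inl : Fin n ↪ (Fin n ⊕ (Φ × 𝕍)) := Function.Embedding.inl
  have hΨB : ∀ (i : Φ) (y : Fin v), Ψ i (emb y) = inl (i.1 y) := by
    intro i y
    have : β ⟨emb y, hembB y⟩ = y := by simp [emb]
    simp only [Ψ, Function.Embedding.coeFn_mk, hembB y, dif_pos, this]
    rfl
  have hmapB : ∀ (i : Φ) (e : Finset (Fin v)), (e.map emb).map (Ψ i) = (e.image i.1).map inl := by
    intro i e
    ext z
    simp only [mem_map, mem_image]
    constructor
    · rintro ⟨_, ⟨y, hy, rfl⟩, rfl⟩
      exact ⟨_, ⟨y, hy, rfl⟩, (hΨB i y).symm⟩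
    · rintro ⟨_, ⟨y, hy, rfl⟩, rfl⟩
      exact ⟨_, ⟨y, hy, rfl⟩, hΨB i y⟩
  have hBu : (univ : Finset (Fin v)).map emb = B := by
    have := hpull B Subset.rfl
    rw [← this]
    congr 1
    ext y
    simp [pull, hembB]
  have hsepV : ∀ i j : Φ, i ≠ j → ∀ x y, Ψ i x = Ψ j y → x ∈ B ∧ y ∈ B := by
    intro i j hij x y hxy
    by_cases hx : x ∈ B <;> by_cases hy : y ∈ B <;>
      simp only [Ψ, Function.Embedding.coeFn_mk, hx, hy, dif_pos, dif_neg,
        not_false_eq_true] at hxy
    · exact ⟨hx, hy⟩
    · exact absurd hxy (by simp)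
    · exact absurd hxy (by simp)
    · exact absurd (Prod.mk.inj (Sum.inr.inj hxy)).1 hij
  have hconf' : ∀ F : Finset Φ, F.Nonempty → F.card ≤ L + 2 →
      ((a : ℤ) * M - 1) * 2 - b * M + F.card * (((a : ℤ) * M - 1) * B.card -
        (b : ℤ) * M * EK.card - (((a : ℤ) * M - 1) * 2 - b * M)) ≤
      ((a : ℤ) * M - 1) * (F.biUnion fun l => B.map (Ψ l)).card -
        (b : ℤ) * M * (F.biUnion fun l => EK.image (fun e => e.map (Ψ l))).card := by
    intro F hF hL
    have h1 := hconf (F.image Subtype.val) (by
      intro f hf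
      obtain ⟨g, -, rfl⟩ := mem_image.1 hf
      exact g.2) (hF.image _) (card_image_le.trans hL)
    rw [card_image_of_injective _ Subtype.val_injective, hcast, hcK] at h1
    have h2 : (F.biUnion fun l => B.map (Ψ l)) =
        ((F.image Subtype.val).biUnion fun f => univ.image f).map inl := by
      rw [image_biUnion, map_eq_image (s := F.biUnion _), biUnion_image]
      apply biUnion_congr rfl
      intro l _
      rw [← hBu, hmapB, map_eq_image]
    have h3 : (F.biUnion fun l => EK.image (fun e => e.map (Ψ l))) =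
        ((F.image Subtype.val).biUnion fun f => EK'.image (fun e => e.image f)).image
          (fun e => e.map inl) := by
      rw [image_biUnion, biUnion_image]
      apply biUnion_congr rfl
      intro l _
      rw [← hback, image_image (s := EK'), image_image (s := EK')]
      apply image_congr
      intro e _
      exact hmapB l e
    rw [h2, h3, card_map, card_image_map]
    push_cast at h1
    exact h1
  have hpair : ∀ i j : Φ, i ≠ j → (B.map (Ψ i) ∩ B.map (Ψ j)).card ≤ 1 ∨
      ∃ e ∈ EK, ∃ e' ∈ EK, e.map (Ψ i) = e'.map (Ψ j) ∧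
        B.map (Ψ i) ∩ B.map (Ψ j) = e.map (Ψ i) := by
    intro i j hij
    apply pair_overlap a b M hb hab B EK hEK hsp Ψ (by omega) i j hij
    have := hconf' {i, j} (insert_nonempty _ _) (card_le_two.trans (by omega))
    rw [card_pair hij] at this
    exact_mod_cast this
  refine ⟨Fin n ⊕ (Φ × 𝕍), Φ, inferInstance, inferInstance, inferInstance, Ψ, ?_, hsepV,
    plant_sepE B EK hEK Ψ hsepV hpair, ?_⟩
  · intro χ
    obtain ⟨f, hf, c, hc⟩ := hram (fun A => finTwoEquiv.symm (χ (A.map inl)))
    refine ⟨⟨f, hf⟩, finTwoEquiv c, fun e he => ?_⟩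
    have h1 := hc (pull e) (mem_image_of_mem _ he)
    rw [← h1, ← hmapB ⟨f, hf⟩, hpull e (hEK e he).1]
    simp
  · intro 𝔈 h𝔈 hP S hS h2 hL hd
    exact plant_main a b M L hb hab B EK hEK Ψ (by rw [← hv]; nlinarith) hsepV hpair
      (fun F hF hFL => hconf' F hF (by omega)) 𝔈 h𝔈 hP S hS h2 hL hd

end Pool.Agent.MP_1c0fc2_co
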