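import Pool.Agent.MP_1c0fc2_co.PDefs

/-! The combinatorial core of the planting lemma. -/

namespace Pool.Agent.MP_1c0fc2_co

open Finset

section count
variable {γ ι : Type} [DecidableEq γ] [DecidableEq ι]

/-- bookkeeping quantity for one kind of object (vertices or edges) -/
def hq (S : Finset γ) (X U : ι → Finset γ) (c : ℕ) (F : Finset ι) : ℤ :=
  ((S ∩ F.biUnion X).card : ℤ) + F.card * c - (F.biUnion U).card

lemma hq_insert (S : Finset γ) (X U : ι → Finset γ) (c : ℕ) (hc : ∀ i, (U i).card = c)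
    (hUX : ∀ i, U i ⊆ X i) (hsep : ∀ i j, i ≠ j → ∀ x, x ∈ X i → x ∈ X j → x ∈ U i)
    (F : Finset ι) (j : ι) (hj : j ∉ F) :
    hq S X U c (insert j F) =
      hq S X U c F + ((S ∩ X j) ∪ (U j ∩ F.biUnion U)).card := by
  unfold hq
  rw [biUnion_insert, biUnion_insert, card_insert_of_notMem hj]
  have key : X j ∩ F.biUnion X = U j ∩ F.biUnion U := by
    ext x
    simp only [mem_inter, mem_biUnion]
    constructor
    · rintro ⟨h1, i, hi, h2⟩
      have hij : i ≠ j := fun e => hj (e ▸ hi)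
      exact ⟨hsep j i hij.symm x h1 h2, i, hi, hsep i j hij x h2 h1⟩
    · rintro ⟨h1, i, hi, h2⟩
      exact ⟨hUX j h1, i, hi, hUX i h2⟩
  have e1 := card_union_add_card_inter (S ∩ X j) (S ∩ F.biUnion X)
  have e2 := card_union_add_card_inter (U j) (F.biUnion U)
  have e3 := card_union_add_card_inter (S ∩ X j) (U j ∩ F.biUnion U)
  have r1 : S ∩ (X j ∪ F.biUnion X) = (S ∩ X j) ∪ (S ∩ F.biUnion X) := inter_union_distrib_left _ _ _
  have r2 : (S ∩ X j) ∩ (S ∩ F.biUnion X) = (S ∩ X j) ∩ (U j ∩ F.biUnion U) := by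
    rw [← key]
    ext x
    simp only [mem_inter]
    tauto
  rw [r1]
  rw [r2] at e1
  rw [hc j] at e2
  push_cast
  have e1' : (((S ∩ X j) ∪ (S ∩ F.biUnion X)).card : ℤ) +
      ((S ∩ X j) ∩ (U j ∩ F.biUnion U)).card = (S ∩ X j).card + (S ∩ F.biUnion X).card := by
    exact_mod_cast e1
  have e2' : ((U j ∪ F.biUnion U).card : ℤ) + (U j ∩ F.biUnion U).card =
      c + (F.biUnion U).card := by exact_mod_cast e2
  have e3' : (((S ∩ X j) ∪ (U j ∩ F.biUnion U)).card : ℤ) +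
      ((S ∩ X j) ∩ (U j ∩ F.biUnion U)).card = (S ∩ X j).card + (U j ∩ F.biUnion U).card := by
    exact_mod_cast e3
  linarith

lemma mono_of_insert (f : Finset ι → ℤ) (F : Finset ι)
    (h : ∀ G ⊆ F, ∀ j ∈ F, j ∉ G → f G ≤ f (insert j G)) :
    ∀ G ⊆ F, ∀ G' ⊆ G, f G' ≤ f G := by
  intro G hG G' hG'
  have : ∀ D : Finset ι, D ⊆ F → f G' ≤ f (G' ∪ D) := by
    intro D
    induction D using Finset.induction_on with
    | empty => intro _; simp
    | insert j D hjD ih =>
      intro hD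
      have hD' : D ⊆ F := (subset_insert _ _).trans hD
      by_cases hj : j ∈ G' ∪ D
      · have : G' ∪ insert j D = G' ∪ D := by
          rw [union_insert, insert_eq_of_mem hj]
        rw [this]; exact ih hD'
      · rw [union_insert]
        exact (ih hD').trans (h _ (union_subset (hG'.trans hG) hD') j (hD (mem_insert_self _ _)) hj)
  have h2 := this G hG
  rwa [union_eq_right.2 hG'] at h2

end count

set_option linter.unusedSectionVars false

section core
variable {𝕍 𝔾 ι : Type} [Fintype 𝕍] [DecidableEq 𝕍] [DecidableEq 𝔾] [DecidableEq ι]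

/-- two copies overlap in at most one edge -/
lemma pair_overlap (a b M : ℕ) (hb : 0 < b) (hab : b < a) (B : Finset 𝕍) (EK : Finset (Finset 𝕍))
    (hEK : ∀ e ∈ EK, e ⊆ B ∧ e.card = 2) (hsp : ∀ S ⊆ EK, 2 ≤ S.card → th a b < del a b S)
    (Ψ : ι → 𝕍 ↪ 𝔾) (hM : B.card + 2 < M) (i j : ι) (hij : i ≠ j)
    (hc : ((a : ℤ) * M - 1) * 2 - b * M + 2 * (((a : ℤ) * M - 1) * B.card - (b : ℤ) * M * EK.card -
        (((a : ℤ) * M - 1) * 2 - b * M)) ≤
      ((a : ℤ) * M - 1) * (({i, j} : Finset ι).biUnion fun l => B.map (Ψ l)).card -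
        (b : ℤ) * M * (({i, j} : Finset ι).biUnion fun l => EK.image (fun e => e.map (Ψ l))).card) :
    (B.map (Ψ i) ∩ B.map (Ψ j)).card ≤ 1 ∨
      ∃ e ∈ EK, ∃ e' ∈ EK, e.map (Ψ i) = e'.map (Ψ j) ∧
        B.map (Ψ i) ∩ B.map (Ψ j) = e.map (Ψ i) := by
  set VI := B.map (Ψ i) ∩ B.map (Ψ j) with hVI
  set EI := EK.image (fun e => e.map (Ψ i)) ∩ EK.image (fun e => e.map (Ψ j)) with hEI
  have u1 : (({i, j} : Finset ι).biUnion fun l => B.map (Ψ l)) = B.map (Ψ i) ∪ B.map (Ψ j) := by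
    simp [biUnion_insert]
  have u2 : (({i, j} : Finset ι).biUnion fun l => EK.image (fun e => e.map (Ψ l))) =
      EK.image (fun e => e.map (Ψ i)) ∪ EK.image (fun e => e.map (Ψ j)) := by
    simp [biUnion_insert]
  have c1 := card_union_add_card_inter (B.map (Ψ i)) (B.map (Ψ j))
  have c2 := card_union_add_card_inter (EK.image (fun e => e.map (Ψ i)))
    (EK.image (fun e => e.map (Ψ j)))
  rw [card_map, card_map, ← hVI] at c1
  rw [card_image_map, card_image_map, ← hEI] at c2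
  rw [u1, u2] at hc
  have c1' : ((B.map (Ψ i) ∪ B.map (Ψ j)).card : ℤ) = B.card + B.card - VI.card := by
    have : ((B.map (Ψ i) ∪ B.map (Ψ j)).card : ℤ) + VI.card = B.card + B.card := by
      exact_mod_cast c1
    linarith
  have c2' : ((EK.image (fun e => e.map (Ψ i)) ∪ EK.image (fun e => e.map (Ψ j))).card : ℤ) =
      EK.card + EK.card - EI.card := by
    have : ((EK.image (fun e => e.map (Ψ i)) ∪ EK.image (fun e => e.map (Ψ j))).card : ℤ) +
      EI.card = EK.card + EK.card := by exact_mod_cast c2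
    linarith
  rw [c1', c2'] at hc
  have hI : ((a : ℤ) * M - 1) * VI.card - (b : ℤ) * M * EI.card ≤ ((a : ℤ) * M - 1) * 2 - b * M := by
    linarith
  have hVB : VI.card ≤ B.card := by
    rw [← card_map (Ψ i)]; exact card_le_card inter_subset_left
  -- support of EI inside VI
  have hsupp : EI.biUnion id ⊆ VI := by
    intro x hx
    obtain ⟨s, hs, hxs⟩ := mem_biUnion.1 hx
    obtain ⟨hs1, hs2⟩ := mem_inter.1 hs
    obtain ⟨e, he, rfl⟩ := mem_image.1 hs1
    obtain ⟨e', he', h'⟩ := mem_image.1 hs2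
    refine mem_inter.2 ⟨map_subset_map.2 (hEK e he).1 hxs, ?_⟩
    have : x ∈ e'.map (Ψ j) := by rw [h']; exact hxs
    exact map_subset_map.2 (hEK e' he').1 this
  have hMpos : (0 : ℤ) < M := by omega
  have hbM : (0 : ℤ) < b * M := by positivity
  have haM : (b : ℤ) * M + M ≤ a * M := by
    have : (b : ℤ) + 1 ≤ a := by omega
    nlinarith
  rcases Nat.lt_or_ge EI.card 2 with hlt | hge
  · rcases Nat.lt_or_ge EI.card 1 with h0 | h1
    · left
      have : EI.card = 0 := by omega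
      rw [this] at hI
      by_contra hcon
      have h2 : (2 : ℤ) ≤ VI.card := by omega
      have : (0 : ℤ) ≤ (a : ℤ) * M - 1 := by linarith
      simp only [Nat.cast_zero, mul_zero, sub_zero] at hI
      nlinarith
    · right
      have h1' : EI.card = 1 := by omega
      obtain ⟨s, hs⟩ := card_eq_one.1 h1'
      have hsm : s ∈ EI := by rw [hs]; exact mem_singleton_self _
      obtain ⟨hs1, hs2⟩ := mem_inter.1 hsm
      obtain ⟨e, he, rfl⟩ := mem_image.1 hs1
      obtain ⟨e', he', h'⟩ := mem_image.1 hs2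
      refine ⟨e, he, e', he', h'.symm, ?_⟩
      have hsub : e.map (Ψ i) ⊆ VI := by
        intro x hx
        exact hsupp (mem_biUnion.2 ⟨_, hsm, hx⟩)
      symm
      apply eq_of_subset_of_card_le hsub
      rw [card_map, (hEK e he).2]
      by_contra hcon
      have h3 : (3 : ℤ) ≤ VI.card := by omega
      rw [h1'] at hI
      have : (0 : ℤ) < (a : ℤ) * M - 1 := by linarith
      simp only [Nat.cast_one, mul_one] at hI
      nlinarith
  · exfalso
    set S := EK.filter (fun e => e.map (Ψ i) ∈ EI) with hS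
    have him : S.image (fun e => e.map (Ψ i)) = EI := by
      ext s
      simp only [mem_image, hS, mem_filter]
      constructor
      · rintro ⟨e, ⟨_, h⟩, rfl⟩; exact h
      · intro h
        obtain ⟨e, he, rfl⟩ := mem_image.1 (mem_inter.1 h).1
        exact ⟨e, ⟨he, h⟩, rfl⟩
    have hcard : S.card = EI.card := by rw [← him, card_image_map]
    have h1 := hsp S (filter_subset _ _) (by omega)
    rw [← del_image_map a b (Ψ i), him] at h1
    unfold del th at h1
    have h2 : ((EI.biUnion id).card : ℤ) ≤ VI.card := by exact_mod_cast card_le_card hsupp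
    have h3 : (a : ℤ) * 2 - b + 1 ≤ a * VI.card - b * EI.card := by
      have : (0 : ℤ) ≤ a := by positivity
      nlinarith
    have h4 : (VI.card : ℤ) + 2 < M := by omega
    nlinarith

lemma plant_sepE (B : Finset 𝕍) (EK : Finset (Finset 𝕍))
    (hEK : ∀ e ∈ EK, e ⊆ B ∧ e.card = 2) (Ψ : ι → 𝕍 ↪ 𝔾)
    (hsepV : ∀ i j, i ≠ j → ∀ x y, Ψ i x = Ψ j y → x ∈ B ∧ y ∈ B)
    (hpair : ∀ i j, i ≠ j → (B.map (Ψ i) ∩ B.map (Ψ j)).card ≤ 1 ∨
      ∃ e ∈ EK, ∃ e' ∈ EK, e.map (Ψ i) = e'.map (Ψ j) ∧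
        B.map (Ψ i) ∩ B.map (Ψ j) = e.map (Ψ i)) :
    ∀ i j, i ≠ j → ∀ e e' : Finset 𝕍, e.card = 2 → e.map (Ψ i) = e'.map (Ψ j) →
        e ∈ EK ∧ e' ∈ EK := by
  intro i j hij e e' he hee
  have hsub : e.map (Ψ i) ⊆ B.map (Ψ i) ∩ B.map (Ψ j) := by
    intro z hz
    obtain ⟨x, hx, rfl⟩ := mem_map.1 hz
    have hz' : Ψ i x ∈ e'.map (Ψ j) := by rw [← hee]; exact hz
    obtain ⟨y, hy, hxy⟩ := mem_map.1 hz'
    obtain ⟨h1, h2⟩ := hsepV i j hij x y hxy.symm
    exact mem_inter.2 ⟨mem_map_of_mem _ h1, by rw [← hxy]; exact mem_map_of_mem _ h2⟩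
  rcases hpair i j hij with h | ⟨e1, he1, e2, he2, h12, hVI⟩
  · have := card_le_card hsub
    rw [card_map] at this
    omega
  · rw [hVI] at hsub
    have h3 : e.map (Ψ i) = e1.map (Ψ i) :=
      eq_of_subset_of_card_le hsub (by rw [card_map, card_map, (hEK e1 he1).2, he])
    have h4 : e = e1 := map_injective _ h3
    have h5 : e' = e2 := map_injective (Ψ j) (by rw [← hee, h3, h12])
    exact ⟨h4 ▸ he1, h5 ▸ he2⟩

lemma plant_main (a b M L : ℕ) (hb : 0 < b) (hab : b < a) (B : Finset 𝕍)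
    (EK : Finset (Finset 𝕍)) (hEK : ∀ e ∈ EK, e ⊆ B ∧ e.card = 2) (Ψ : ι → 𝕍 ↪ 𝔾)
    (hM : L * B.card < M)
    (hsepV : ∀ i j, i ≠ j → ∀ x y, Ψ i x = Ψ j y → x ∈ B ∧ y ∈ B)
    (hpair : ∀ i j, i ≠ j → (B.map (Ψ i) ∩ B.map (Ψ j)).card ≤ 1 ∨
      ∃ e ∈ EK, ∃ e' ∈ EK, e.map (Ψ i) = e'.map (Ψ j) ∧
        B.map (Ψ i) ∩ B.map (Ψ j) = e.map (Ψ i))
    (hconf : ∀ F : Finset ι, F.Nonempty → F.card ≤ L →
      ((a : ℤ) * M - 1) * 2 - b * M + F.card * (((a : ℤ) * M - 1) * B.card -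
        (b : ℤ) * M * EK.card - (((a : ℤ) * M - 1) * 2 - b * M)) ≤
      ((a : ℤ) * M - 1) * (F.biUnion fun l => B.map (Ψ l)).card -
        (b : ℤ) * M * (F.biUnion fun l => EK.image (fun e => e.map (Ψ l))).card)
    (𝔈 : Finset (Finset 𝕍)) (h𝔈 : ∀ e ∈ 𝔈, e.card = 2)
    (hP : ∀ T ⊆ 𝔈, T.card ≤ L → ∀ I ⊆ EK, (T ∪ I).Nonempty → th a b ≤ del a b (T ∪ I))
    (S : Finset (Finset 𝔾)) (hS : ∀ s ∈ S, ∃ i, ∃ e ∈ EK ∪ 𝔈, s = e.map (Ψ i))
    (h2 : 2 ≤ S.card) (hL : S.card ≤ L) (hd : del a b S ≤ th a b) :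
    ∃ i, ∃ S' ⊆ EK ∪ 𝔈, 2 ≤ S'.card ∧ del a b S' ≤ th a b ∧ ∀ e ∈ S', e.map (Ψ i) ∈ S := by
  classical
  have hsepE := plant_sepE B EK hEK Ψ hsepV hpair
  have hcard2 : ∀ e ∈ EK ∪ 𝔈, e.card = 2 := by
    intro e he
    rcases mem_union.1 he with h | h
    · exact (hEK e h).2
    · exact h𝔈 e h
  obtain ⟨S0, hS0, hmin⟩ := exists_min_image
    (S.powerset.filter (fun T => 2 ≤ T.card ∧ del a b T ≤ th a b)) card
    ⟨S, mem_filter.2 ⟨mem_powerset_self _, h2, hd⟩⟩
  obtain ⟨hS0S, h02, h0d⟩ : S0 ⊆ S ∧ 2 ≤ S0.card ∧ del a b S0 ≤ th a b := by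
    have := mem_filter.1 hS0
    exact ⟨mem_powerset.1 this.1, this.2⟩
  set XV : ι → Finset 𝔾 := fun i => univ.map (Ψ i) with hXV
  set UV : ι → Finset 𝔾 := fun i => B.map (Ψ i) with hUV
  set XE : ι → Finset (Finset 𝔾) := fun i => (EK ∪ 𝔈).image (fun e => e.map (Ψ i)) with hXE
  set UE : ι → Finset (Finset 𝔾) := fun i => EK.image (fun e => e.map (Ψ i)) with hUE
  by_cases hone : ∃ i, S0 ⊆ XE i
  · obtain ⟨i, hi⟩ := hone
    have him : ((EK ∪ 𝔈).filter (fun e => e.map (Ψ i) ∈ S0)).image (fun e => e.map (Ψ i)) = S0 := by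
      ext s
      simp only [mem_image, mem_filter]
      constructor
      · rintro ⟨e, ⟨_, h⟩, rfl⟩; exact h
      · intro h
        obtain ⟨e, he, rfl⟩ := mem_image.1 (hi h)
        exact ⟨e, ⟨he, h⟩, rfl⟩
    refine ⟨i, (EK ∪ 𝔈).filter (fun e => e.map (Ψ i) ∈ S0), filter_subset _ _, ?_, ?_, ?_⟩
    · rw [← card_image_map (Ψ i), him]; exact h02
    · rw [← del_image_map a b (Ψ i), him]; exact h0d
    · intro e he; exact hS0S (mem_filter.1 he).2
  exfalso
  push Not at hone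
  choose idx hidx using fun s : S0 => hS s.1 (hS0S s.2)
  set F : Finset ι := univ.image idx with hF
  have hFc : F.card ≤ L := by
    refine card_image_le.trans ?_
    rw [card_univ, Fintype.card_coe]
    exact (card_le_card hS0S).trans hL
  have hFne : F.Nonempty := by
    obtain ⟨s, hs⟩ := card_pos.1 (by omega : 0 < S0.card)
    exact ⟨idx ⟨s, hs⟩, mem_image_of_mem _ (mem_univ _)⟩
  have hidxE : ∀ s : S0, s.1 ∈ XE (idx s) := by
    intro s
    obtain ⟨e, he, h⟩ := hidx s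
    exact mem_image.2 ⟨e, he, h.symm⟩
  set VS := S0.biUnion id with hVS
  have hcV : ∀ i, (UV i).card = B.card := fun i => card_map _
  have hcE : ∀ i, (UE i).card = EK.card := fun i => card_image_map _ _
  have hUXV : ∀ i, UV i ⊆ XV i := fun i => map_subset_map.2 (subset_univ _)
  have hUXE : ∀ i, UE i ⊆ XE i := fun i => image_subset_image subset_union_left
  have hsV : ∀ i j, i ≠ j → ∀ x, x ∈ XV i → x ∈ XV j → x ∈ UV i := by
    intro i j hij z h1 h2
    obtain ⟨x, -, rfl⟩ := mem_map.1 h1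
    obtain ⟨y, -, hy⟩ := mem_map.1 h2
    exact mem_map_of_mem _ (hsepV i j hij x y hy.symm).1
  have hsE : ∀ i j, i ≠ j → ∀ x, x ∈ XE i → x ∈ XE j → x ∈ UE i := by
    intro i j hij z h1 h2
    obtain ⟨e, he, rfl⟩ := mem_image.1 h1
    obtain ⟨e', -, hy⟩ := mem_image.1 h2
    exact mem_image_of_mem _ (hsepE i j hij e e' (hcard2 e he) hy.symm).1
  have hXEV : ∀ i, ∀ s ∈ XE i, s ⊆ XV i := by
    intro i s hs
    obtain ⟨e, -, rfl⟩ := mem_image.1 hs
    exact map_subset_map.2 (subset_univ _)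
  have hUEV : ∀ i, ∀ s ∈ UE i, s ⊆ UV i := by
    intro i s hs
    obtain ⟨e, he, rfl⟩ := mem_image.1 hs
    exact map_subset_map.2 (hEK e he).1
  have hne : ∀ j ∈ F, (S0 ∩ XE j).Nonempty := by
    intro j hj
    obtain ⟨s, -, rfl⟩ := mem_image.1 hj
    exact ⟨s.1, mem_inter.2 ⟨s.2, hidxE s⟩⟩
  -- support of the step edge set
  have hsupp : ∀ (G : Finset ι) (j : ι),
      ((S0 ∩ XE j) ∪ (UE j ∩ G.biUnion UE)).biUnion id ⊆ (VS ∩ XV j) ∪ (UV j ∩ G.biUnion UV) := by
    intro G j x hx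
    obtain ⟨s, hs, hxs⟩ := mem_biUnion.1 hx
    rcases mem_union.1 hs with h | h
    · obtain ⟨h1, h2⟩ := mem_inter.1 h
      exact mem_union_left _ (mem_inter.2 ⟨mem_biUnion.2 ⟨s, h1, hxs⟩, hXEV j s h2 hxs⟩)
    · obtain ⟨h1, h2⟩ := mem_inter.1 h
      obtain ⟨i, hi, h3⟩ := mem_biUnion.1 h2
      exact mem_union_right _ (mem_inter.2 ⟨hUEV j s h1 hxs, mem_biUnion.2 ⟨i, hi, hUEV i s h3 hxs⟩⟩)
  have hstepE : ∀ (G : Finset ι), ∀ j ∈ F,
      th a b ≤ del a b ((S0 ∩ XE j) ∪ (UE j ∩ G.biUnion UE)) := by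
    intro G j hj
    set EJ := (S0 ∩ XE j) ∪ (UE j ∩ G.biUnion UE) with hEJ
    have him : ((𝔈.filter (fun e => e.map (Ψ j) ∈ S0)) ∪
        (EK.filter (fun e => e.map (Ψ j) ∈ EJ))).image (fun e => e.map (Ψ j)) = EJ := by
      ext s
      simp only [mem_image, mem_union, mem_filter]
      constructor
      · rintro ⟨e, (⟨h1, h⟩ | ⟨_, h⟩), rfl⟩
        · exact mem_union_left _ (mem_inter.2 ⟨h, mem_image_of_mem _ (mem_union_right _ h1)⟩)
        · exact h
      · intro h
        rcases mem_union.1 h with h' | h'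
        · obtain ⟨e, he, rfl⟩ := mem_image.1 (mem_inter.1 h').2
          rcases mem_union.1 he with h1 | h1
          · exact ⟨e, Or.inr ⟨h1, h⟩, rfl⟩
          · exact ⟨e, Or.inl ⟨h1, (mem_inter.1 h').1⟩, rfl⟩
        · obtain ⟨e, he, rfl⟩ := mem_image.1 (mem_inter.1 h').1
          exact ⟨e, Or.inr ⟨he, h⟩, rfl⟩
    have hT : (𝔈.filter (fun e => e.map (Ψ j) ∈ S0)).card ≤ L := by
      refine le_trans ?_ ((card_le_card hS0S).trans hL)
      rw [← card_image_map (Ψ j)]
      apply card_le_card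
      intro s hs
      obtain ⟨e, he, rfl⟩ := mem_image.1 hs
      exact (mem_filter.1 he).2
    have hnE : ((𝔈.filter (fun e => e.map (Ψ j) ∈ S0)) ∪
        (EK.filter (fun e => e.map (Ψ j) ∈ EJ))).Nonempty := by
      rw [← image_nonempty (f := fun e => e.map (Ψ j)), him]
      exact (hne j hj).mono subset_union_left
    have := hP _ (filter_subset _ _) hT _ (filter_subset _ _) hnE
    rwa [← del_image_map a b (Ψ j), him] at this
  have ha0 : (0 : ℤ) ≤ a := by positivity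
  have hstep : ∀ (G : Finset ι), ∀ j ∈ F,
      th a b ≤ (a : ℤ) * ((VS ∩ XV j) ∪ (UV j ∩ G.biUnion UV)).card -
        b * ((S0 ∩ XE j) ∪ (UE j ∩ G.biUnion UE)).card := by
    intro G j hj
    have h1 := hstepE G j hj
    unfold del at h1
    have h2 : ((((S0 ∩ XE j) ∪ (UE j ∩ G.biUnion UE)).biUnion id).card : ℤ) ≤
        ((VS ∩ XV j) ∪ (UV j ∩ G.biUnion UV)).card := by exact_mod_cast card_le_card (hsupp G j)
    nlinarith
  set f : Finset ι → ℤ := fun G =>
    a * hq VS XV UV B.card G - b * hq S0 XE UE EK.card G - G.card * th a b with hf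
  have hfins : ∀ (G : Finset ι) (j : ι), j ∉ G → f (insert j G) = f G +
      ((a : ℤ) * ((VS ∩ XV j) ∪ (UV j ∩ G.biUnion UV)).card -
        b * ((S0 ∩ XE j) ∪ (UE j ∩ G.biUnion UE)).card - th a b) := by
    intro G j hj
    simp only [hf]
    rw [hq_insert VS XV UV B.card hcV hUXV hsV G j hj,
      hq_insert S0 XE UE EK.card hcE hUXE hsE G j hj, card_insert_of_notMem hj]
    push_cast
    ring
  have hmono := mono_of_insert f F (by
    intro G _ j hj hjG
    rw [hfins G j hjG]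
    have := hstep G j hj
    linarith)
  have hf0 : f ∅ = 0 := by simp [hf, hq]
  have hVF : VS ∩ F.biUnion XV = VS := by
    apply inter_eq_left.2
    intro x hx
    obtain ⟨s, hs, hxs⟩ := mem_biUnion.1 hx
    exact mem_biUnion.2 ⟨idx ⟨s, hs⟩, mem_image_of_mem _ (mem_univ _),
      hXEV _ s (hidxE ⟨s, hs⟩) hxs⟩
  have hEF : S0 ∩ F.biUnion XE = S0 := by
    apply inter_eq_left.2
    intro s hs
    exact mem_biUnion.2 ⟨idx ⟨s, hs⟩, mem_image_of_mem _ (mem_univ _), hidxE ⟨s, hs⟩⟩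
  have hcf := hconf F hFne hFc
  have hk1 : (1 : ℤ) ≤ F.card := by exact_mod_cast hFne.card_pos
  have hkB : (F.card : ℤ) * B.card < M := by
    have : F.card * B.card < M := lt_of_le_of_lt (Nat.mul_le_mul_right _ hFc) hM
    exact_mod_cast this
  have hUV0 : (0 : ℤ) ≤ (F.biUnion UV).card := by positivity
  have hfF : f F ≤ 0 := by
    simp only [hf, hq]
    rw [hVF, hEF]
    unfold del at h0d
    unfold th at h0d ⊢
    have hD : (F.card : ℤ) * (a * B.card - b * EK.card) -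
        (a * (F.biUnion UV).card - b * (F.biUnion UE).card) ≤ (F.card - 1) * (a * 2 - b) := by
      by_contra hcon
      have hcon' : (F.card - 1) * ((a : ℤ) * 2 - b) + 1 ≤ (F.card : ℤ) * (a * B.card - b * EK.card) -
        (a * (F.biUnion UV).card - b * (F.biUnion UE).card) := by omega
      have hM0 : (0 : ℤ) ≤ M := by positivity
      have := mul_le_mul_of_nonneg_left hcon' hM0
      nlinarith
    nlinarith
  have hzero : ∀ G ⊆ F, f G = 0 := by
    intro G hG
    have h1 := hmono F Subset.rfl G hG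
    have h2 := hmono G hG ∅ (empty_subset _)
    linarith
  have heq : ∀ G ⊆ F, ∀ j ∈ F, j ∉ G →
      (a : ℤ) * ((VS ∩ XV j) ∪ (UV j ∩ G.biUnion UV)).card -
        b * ((S0 ∩ XE j) ∪ (UE j ∩ G.biUnion UE)).card = th a b := by
    intro G hG j hj hjG
    have h1 := hfins G j hjG
    rw [hzero G hG, hzero _ (insert_subset hj hG)] at h1
    linarith
  have hb0 : (0 : ℤ) < b := by exact_mod_cast hb
  have hab' : (b : ℤ) < a := by exact_mod_cast hab
  have hsingle : ∀ j ∈ F, (S0 ∩ XE j).card = 1 ∧ (VS ∩ XV j).card = 2 := by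
    intro j hj
    have h1 := heq ∅ (empty_subset _) j hj (notMem_empty _)
    have h3 := hsupp ∅ j
    simp only [biUnion_empty, inter_empty, union_empty] at h1 h3
    have hE1 : (S0 ∩ XE j).card = 1 := by
      by_contra hcon
      have hge : 2 ≤ (S0 ∩ XE j).card := by
        have := (hne j hj).card_pos
        omega
      have hdel : del a b (S0 ∩ XE j) ≤ th a b := by
        unfold del
        have : (((S0 ∩ XE j).biUnion id).card : ℤ) ≤ (VS ∩ XV j).card := by
          exact_mod_cast card_le_card h3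
        nlinarith
      have := hmin (S0 ∩ XE j) (mem_filter.2
        ⟨mem_powerset.2 (inter_subset_left.trans hS0S), hge, hdel⟩)
      have h4 : S0 ∩ XE j = S0 := eq_of_subset_of_card_le inter_subset_left this
      exact hone j (inter_eq_left.1 h4)
    refine ⟨hE1, ?_⟩
    rw [hE1] at h1
    unfold th at h1
    have : (a : ℤ) * (VS ∩ XV j).card = a * 2 := by push_cast at h1; linarith
    have ha : (a : ℤ) ≠ 0 := by omega
    exact_mod_cast mul_left_cancel₀ ha this
  have hpr : ∀ i ∈ F, ∀ j ∈ F, i ≠ j → UV j ∩ UV i ⊆ VS ∩ XV j ∧ UE j ∩ UE i ⊆ S0 ∩ XE j := by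
    intro i hi j hj hij
    have h1 := heq {i} (singleton_subset_iff.2 hi) j hj (by simpa using hij.symm)
    simp only [singleton_biUnion] at h1
    obtain ⟨hE1, hV2⟩ := hsingle j hj
    have hEI : (UE j ∩ UE i).card ≤ 1 := by
      by_contra hcon
      have h3 := three_le_supp (UE j ∩ UE i) (by
        intro s hs
        obtain ⟨e, he, rfl⟩ := mem_image.1 (mem_inter.1 hs).1
        rw [card_map]; exact (hEK e he).2) (by omega)
      have h4 : (UE j ∩ UE i).biUnion id ⊆ UV j ∩ UV i := by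
        intro x hx
        obtain ⟨s, hs, hxs⟩ := mem_biUnion.1 hx
        exact mem_inter.2 ⟨hUEV j s (mem_inter.1 hs).1 hxs, hUEV i s (mem_inter.1 hs).2 hxs⟩
      have h5 := card_le_card h4
      rcases hpair j i hij.symm with h | ⟨e, he, -, -, -, h⟩
      · simp only [hUV] at h5; omega
      · simp only [hUV] at h5
        rw [h, card_map, (hEK e he).2] at h5
        omega
    have hE2 : ((S0 ∩ XE j) ∪ (UE j ∩ UE i)).card ≤ 2 :=
      (card_union_le _ _).trans (by omega)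
    have hVsub : UV j ∩ UV i ⊆ VS ∩ XV j := by
      by_contra hcon
      have h3 : 3 ≤ ((VS ∩ XV j) ∪ (UV j ∩ UV i)).card := by
        by_contra hlt
        have : VS ∩ XV j = (VS ∩ XV j) ∪ (UV j ∩ UV i) :=
          eq_of_subset_of_card_le subset_union_left (by omega)
        exact hcon (by rw [this]; exact subset_union_right)
      have h3' : (3 : ℤ) ≤ ((VS ∩ XV j) ∪ (UV j ∩ UV i)).card := by exact_mod_cast h3
      have hE2' : (((S0 ∩ XE j) ∪ (UE j ∩ UE i)).card : ℤ) ≤ 2 := by exact_mod_cast hE2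
      unfold th at h1
      nlinarith
    refine ⟨hVsub, ?_⟩
    rw [union_eq_left.2 hVsub, hV2] at h1
    unfold th at h1
    have h6 : (b : ℤ) * ((S0 ∩ XE j) ∪ (UE j ∩ UE i)).card = b * 1 := by push_cast at h1; linarith
    have h7 : ((S0 ∩ XE j) ∪ (UE j ∩ UE i)).card = 1 := by
      exact_mod_cast mul_left_cancel₀ hb0.ne' h6
    have : S0 ∩ XE j = (S0 ∩ XE j) ∪ (UE j ∩ UE i) :=
      eq_of_subset_of_card_le subset_union_left (by omega)
    rw [this]; exact subset_union_right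
  have hall : ∀ G ⊆ F, hq VS XV UV B.card G = 2 * G.card ∧ hq S0 XE UE EK.card G = G.card := by
    intro G
    induction G using Finset.induction_on with
    | empty => intro _; simp [hq]
    | insert j G hjG ih =>
      intro hG
      have hj : j ∈ F := hG (mem_insert_self _ _)
      have hG' : G ⊆ F := (subset_insert _ _).trans hG
      obtain ⟨i1, i2⟩ := ih hG'
      rw [hq_insert VS XV UV B.card hcV hUXV hsV G j hjG,
        hq_insert S0 XE UE EK.card hcE hUXE hsE G j hjG, card_insert_of_notMem hjG, i1, i2]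
      have s1 : UV j ∩ G.biUnion UV ⊆ VS ∩ XV j := by
        intro x hx
        obtain ⟨h1, h2⟩ := mem_inter.1 hx
        obtain ⟨i, hi, h3⟩ := mem_biUnion.1 h2
        exact (hpr i (hG' hi) j hj (fun e => hjG (e ▸ hi))).1 (mem_inter.2 ⟨h1, h3⟩)
      have s2 : UE j ∩ G.biUnion UE ⊆ S0 ∩ XE j := by
        intro x hx
        obtain ⟨h1, h2⟩ := mem_inter.1 hx
        obtain ⟨i, hi, h3⟩ := mem_biUnion.1 h2
        exact (hpr i (hG' hi) j hj (fun e => hjG (e ▸ hi))).2 (mem_inter.2 ⟨h1, h3⟩)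
      rw [union_eq_left.2 s1, union_eq_left.2 s2, (hsingle j hj).1, (hsingle j hj).2]
      push_cast
      constructor <;> ring
  obtain ⟨g1, g2⟩ := hall F Subset.rfl
  simp only [hq] at g1 g2
  rw [hVF] at g1
  rw [hEF] at g2
  have h3 := three_le_supp S0 (by
    intro s hs
    obtain ⟨i, e, he, rfl⟩ := hS s (hS0S hs)
    rw [card_map]; exact hcard2 e he) h02
  have h3' : (3 : ℤ) ≤ VS.card := by exact_mod_cast h3
  unfold del th at h0d
  have hM0 : (0 : ℤ) ≤ M := by positivity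
  have h8 := mul_le_mul_of_nonneg_left h0d hM0
  have g1' : ((F.biUnion UV).card : ℤ) = VS.card + F.card * B.card - 2 * F.card := by linarith
  have g2' : ((F.biUnion UE).card : ℤ) = S0.card + F.card * EK.card - F.card := by linarith
  rw [g1', g2'] at hcf
  nlinarith

end core

end Pool.Agent.MP_1c0fc2_co
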