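import Pool.Agent.MP_1c0fc2_co.Defs
import Pool.Agent.MP_1c0fc2_co.Gadget2
import Pool.Agent.MP_1c0fc2_co.Plant
import Pool.Agent.MP_1c0fc2_co.ECont
import Pool.Agent.MP_1c0fc2_co.ESuper
import Pool.Agent.MP_1c0fc2_co.EProb

/-! The separating graph. -/

namespace Pool.Agent.MP_1c0fc2_co

open Finset

theorem engineStmt : EngineStmt := engine_of contStmt superStmt

theorem plantStmt : PlantStmt := plant_of_engine engineStmt

theorem forestStmt : ForestStmt := forest_of_engine engineStmt

open Classical in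
/-- the edges of a graph as two-element finsets -/
noncomputable def EF {β : Type} [Fintype β] [DecidableEq β] (H : SimpleGraph β) :
    Finset (Finset β) :=
  univ.filter (fun e => ∃ x y, H.Adj x y ∧ e = {x, y})

section
variable {β : Type} [Fintype β] [DecidableEq β] {H : SimpleGraph β}

lemma mem_EF {e : Finset β} : e ∈ EF H ↔ ∃ x y, H.Adj x y ∧ e = {x, y} := by
  simp [EF]

lemma pair_eq_pair {α : Type} [DecidableEq α] {x y x' y' : α} (hxy : x ≠ y)
    (h : ({x, y} : Finset α) = {x', y'}) : (x = x' ∧ y = y') ∨ (x = y' ∧ y = x') := by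
  have h1 : x ∈ ({x', y'} : Finset α) := by rw [← h]; simp
  have h2 : y ∈ ({x', y'} : Finset α) := by rw [← h]; simp
  simp only [mem_insert, mem_singleton] at h1 h2
  rcases h1 with rfl | rfl <;> rcases h2 with h2 | h2
  · exact absurd h2.symm hxy
  · exact Or.inl ⟨rfl, h2⟩
  · exact Or.inr ⟨rfl, h2⟩
  · exact absurd h2.symm hxy

lemma pair_mem_EF {x y : β} : ({x, y} : Finset β) ∈ EF H ↔ H.Adj x y := by
  rw [mem_EF]
  constructor
  · rintro ⟨x', y', h, he⟩
    rcases pair_eq_pair h.ne he.symm with ⟨rfl, rfl⟩ | ⟨rfl, rfl⟩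
    · exact h
    · exact h.symm
  · intro h
    exact ⟨x, y, h, rfl⟩

lemma card_EF {e : Finset β} (he : e ∈ EF H) : e.card = 2 := by
  obtain ⟨x, y, h, rfl⟩ := mem_EF.1 he
  exact card_pair h.ne

end

lemma map_pair {α β : Type} [DecidableEq α] [DecidableEq β] (f : α ↪ β) (x y : α) :
    ({x, y} : Finset α).map f = {f x, f y} := by
  simp

theorem main_sep {β γ : Type} [Fintype β] [DecidableEq β] [Fintype γ] [DecidableEq γ]
    (H : SimpleGraph β) (H2 : SimpleGraph γ) {a b : ℕ} {u u' : β}
    (hH : HData a b (EF H) u u') (hc : H2.Connected)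
    (hd : ∃ S ⊆ EF H2, 2 ≤ S.card ∧ del a b S ≤ th a b) (hn : ¬ H2.IsContained H) :
    ∃ (V : Type) (_ : Finite V) (G : SimpleGraph V), Arrows G H ∧ ¬ Arrows G H2 := by
  classical
  obtain ⟨𝕍, _, _, B, hub, EK, XP, E1, hEK, hXP, hE1, hhub, hdis, w1, s1, w2, s2, hmono⟩ :=
    gadget forestStmt hH (EF H2).card
  obtain ⟨𝔾, ι, _, _, _, Ψ, hRam, sepV, sepE, hloc⟩ :=
    plantStmt a b (EF H2).card hH.hb hH.hab 𝕍 B EK hEK (fun S hS h2 => by
      have := s2 ∅ (empty_subset _) S hS (by simpa using h2)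
      simpa using this)
  set Hub := (EF H).image (fun e => e.map hub) with hHub
  let gr : Finset (Finset 𝕍) → SimpleGraph 𝔾 := fun E =>
    { Adj := fun x y => x ≠ y ∧ ∃ i, ∃ e ∈ E, ({x, y} : Finset 𝔾) = e.map (Ψ i)
      symm := ⟨fun x y ⟨h1, i, e, he, h2⟩ => ⟨h1.symm, i, e, he, by rw [← h2, pair_comm]⟩⟩
      loopless := ⟨fun x h => h.1 rfl⟩ }
  have gr_adj : ∀ E x y, (gr E).Adj x y ↔
      x ≠ y ∧ ∃ i, ∃ e ∈ E, ({x, y} : Finset 𝔾) = e.map (Ψ i) := fun _ _ _ => Iff.rfl
  obtain ⟨S2, hS2, hS2c, hS2d⟩ := hd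
  -- images of the dense set
  have himg : ∀ (f : γ ↪ 𝔾) (𝔈 : Finset (Finset 𝕍)), (∀ e ∈ 𝔈, e.card = 2) →
      (∀ T ⊆ 𝔈, T.card ≤ (EF H2).card → ∀ I ⊆ EK, (T ∪ I).Nonempty →
        th a b ≤ del a b (T ∪ I)) →
      (∀ s ∈ S2, ∃ i, ∃ e ∈ EK ∪ 𝔈, s.map f = e.map (Ψ i)) →
      ∃ i, ∃ S' ⊆ EK ∪ 𝔈, 2 ≤ S'.card ∧ S'.card ≤ (EF H2).card ∧ del a b S' ≤ th a b ∧
        ∀ e ∈ S', ∃ s ∈ S2, e.map (Ψ i) = s.map f := by
    intro f 𝔈 h1 h2 h3
    have hcard : (S2.image (fun e => e.map f)).card ≤ (EF H2).card := by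
      rw [card_image_map]; exact card_le_card hS2
    obtain ⟨i, S', hS', hc2, hdel, hin⟩ := hloc 𝔈 h1 h2 (S2.image (fun e => e.map f))
      (by
        intro s hs
        obtain ⟨s', hs', rfl⟩ := mem_image.1 hs
        exact h3 s' hs')
      (by rw [card_image_map]; exact hS2c) hcard (by rw [del_image_map]; exact hS2d)
    refine ⟨i, S', hS', hc2, ?_, hdel, ?_⟩
    · refine le_trans ?_ hcard
      rw [← card_image_map (Ψ i) S']
      apply card_le_card
      intro s hs
      obtain ⟨e, he, rfl⟩ := mem_image.1 hs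
      exact hin e he
    · intro e he
      obtain ⟨s, hs, h⟩ := mem_image.1 (hin e he)
      exact ⟨s, hs, h.symm⟩
  refine ⟨𝔾, inferInstance, gr (EK ∪ XP ∪ E1 ∪ Hub), ?_, ?_⟩
  · intro R hR
    obtain ⟨i, c, hc⟩ := hRam (fun s => decide (∃ x y, R.Adj x y ∧ s = {x, y}))
    obtain ⟨θ, c', hθ⟩ := hmono
      (fun e => decide (∃ x y, R.Adj x y ∧ e.map (Ψ i) = {x, y})) c hc
    have hinj : Function.Injective (fun x => Ψ i (θ x)) := (Ψ i).injective.comp θ.injective
    cases c' with
    | true =>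
      left
      refine ⟨⟨⟨fun x => Ψ i (θ x), fun {x y} hxy => ?_⟩, hinj⟩⟩
      have h := (hθ _ (pair_mem_EF.2 hxy)).2
      simp only [decide_eq_true_eq, map_pair] at h
      obtain ⟨x', y', h1, h2⟩ := h
      rcases pair_eq_pair (hinj.ne hxy.ne) h2 with ⟨e1, e2⟩ | ⟨e1, e2⟩
      · show R.Adj (Ψ i (θ x)) (Ψ i (θ y))
        rw [e1, e2]; exact h1
      · show R.Adj (Ψ i (θ x)) (Ψ i (θ y))
        rw [e1, e2]; exact h1.symm
    | false =>
      right
      refine ⟨⟨⟨fun x => Ψ i (θ x), fun {x y} hxy => ?_⟩, hinj⟩⟩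
      have h := hθ _ (pair_mem_EF.2 hxy)
      refine ⟨⟨hinj.ne hxy.ne, i, _, h.1, by simp⟩, fun hr => ?_⟩
      have h2 := h.2
      simp only [decide_eq_false_iff_not, map_pair] at h2
      exact h2 ⟨_, _, hr, rfl⟩
  · intro harr
    rcases harr (gr (XP ∪ Hub)) (by
      rintro x y ⟨h1, i, e, he, h2⟩
      refine ⟨h1, i, e, ?_, h2⟩
      rcases mem_union.1 he with h | h
      · simp [h]
      · simp [h]) with hcp | hcp
    · obtain ⟨cp⟩ := hcp
      let f : γ ↪ 𝔾 := ⟨cp.toHom, cp.injective⟩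
      have hf : ∀ x y, H2.Adj x y → ∃ i, ∃ e ∈ XP ∪ Hub, ({f x, f y} : Finset 𝔾) = e.map (Ψ i) :=
        fun x y hxy => (cp.toHom.map_rel hxy).2
      by_cases hh : ∃ v i z, f v = Ψ i (hub z)
      · obtain ⟨v0, i, z0, h0⟩ := hh
        have step : ∀ v w z, H2.Adj v w → f v = Ψ i (hub z) →
            ∃ z', f w = Ψ i (hub z') ∧ H.Adj z z' := by
          intro v w z hvw hz
          obtain ⟨j, e, he, h⟩ := hf v w hvw
          have hv : f v ∈ e.map (Ψ j) := by rw [← h]; simp
          obtain ⟨x, hx, hx'⟩ := mem_map.1 hv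
          have hij : i = j := by
            by_contra hne
            exact hhub z (sepV i j hne _ _ (hz.symm.trans hx'.symm)).1
          subst hij
          have hxz : x = hub z := (Ψ i).injective (hx'.trans hz)
          subst hxz
          rcases mem_union.1 he with he | he
          · exact absurd ((hXP e he).1 hx) (hhub z)
          · obtain ⟨e0, he0, rfl⟩ := mem_image.1 he
            obtain ⟨p, q, hpq, rfl⟩ := mem_EF.1 he0
            rw [map_pair, map_pair] at h
            rcases pair_eq_pair (f.injective.ne hvw.ne) h with ⟨e1, e2⟩ | ⟨e1, e2⟩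
            · have : z = p := hub.injective ((Ψ i).injective (hz.symm.trans e1))
              subst this
              exact ⟨q, e2, hpq⟩
            · have : z = q := hub.injective ((Ψ i).injective (hz.symm.trans e1))
              subst this
              exact ⟨p, e2, hpq.symm⟩
        have hall : ∀ w, ∃ z, f w = Ψ i (hub z) := by
          intro w
          obtain ⟨p⟩ := hc.preconnected v0 w
          clear hf
          induction p generalizing z0 with
          | nil => exact ⟨z0, h0⟩
          | cons hadj p ih =>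
            obtain ⟨z', hz', _⟩ := step _ _ z0 hadj h0
            exact ih z' hz'
        choose g hg using hall
        apply hn
        refine ⟨⟨⟨g, fun {x y} hxy => ?_⟩, fun x y hxy => ?_⟩⟩
        · obtain ⟨z', hz', hadj⟩ := step x y (g x) hxy (hg x)
          have : z' = g y := hub.injective ((Ψ i).injective (hz'.symm.trans (hg y)))
          rwa [this] at hadj
        · apply f.injective
          have hxy' : g x = g y := hxy
          rw [hg x, hg y, hxy']
      · have hall : ∀ s ∈ S2, ∃ i, ∃ e ∈ XP, s.map f = e.map (Ψ i) := by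
          intro s hs
          obtain ⟨x, y, hxy, rfl⟩ := mem_EF.1 (hS2 hs)
          obtain ⟨j, e, he, h⟩ := hf x y hxy
          rcases mem_union.1 he with he | he
          · exact ⟨j, e, he, by rw [map_pair, h]⟩
          · exfalso
            obtain ⟨e0, he0, rfl⟩ := mem_image.1 he
            have hv : f x ∈ (e0.map hub).map (Ψ j) := by rw [← h]; simp
            obtain ⟨x1, hx1, hx1'⟩ := mem_map.1 hv
            obtain ⟨z, -, rfl⟩ := mem_map.1 hx1
            exact hh ⟨x, j, z, hx1'.symm⟩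
        obtain ⟨i, S', hS', hc2, hcL, hdel, hin⟩ := himg f XP (fun e he => (hXP e he).2) w1
          (fun s hs => by
            obtain ⟨j, e, he, h⟩ := hall s hs
            exact ⟨j, e, mem_union_right _ he, h⟩)
        have hsub : S' ⊆ XP := by
          intro e he
          obtain ⟨s, hs, h⟩ := hin e he
          obtain ⟨j, e', he', h'⟩ := hall s hs
          by_cases hij : i = j
          · subst hij
            have : e = e' := map_injective (Ψ i) (h.trans h')
            rwa [this]
          · exact absurd he' (hdis e' (sepE j i (Ne.symm hij) e' e (hXP e' he').2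
              (h'.symm.trans h.symm)).1)
        exact absurd hdel (not_le.2 (s1 S' hsub hcL hc2))
    · obtain ⟨cp⟩ := hcp
      let f : γ ↪ 𝔾 := ⟨cp.toHom, cp.injective⟩
      obtain ⟨i, S', hS', hc2, hcL, hdel, hin⟩ := himg f E1 hE1 (fun T hT _ => w2 T hT)
        (fun s hs => by
          obtain ⟨x, y, hxy, rfl⟩ := mem_EF.1 (hS2 hs)
          obtain ⟨⟨hne, j, e, he, h⟩, hnot⟩ := cp.toHom.map_rel hxy
          refine ⟨j, e, ?_, by rw [map_pair]; exact h⟩
          by_contra hc'
          apply hnot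
          refine ⟨hne, j, e, ?_, h⟩
          simp only [mem_union] at he hc' ⊢
          tauto)
      have heq : S'.filter (· ∈ E1) ∪ S'.filter (· ∈ EK) = S' := by
        ext e
        simp only [mem_union, mem_filter]
        constructor
        · rintro (h | h) <;> exact h.1
        · intro h
          rcases mem_union.1 (hS' h) with h' | h'
          · exact Or.inr ⟨h, h'⟩
          · exact Or.inl ⟨h, h'⟩
      have := s2 (S'.filter (· ∈ E1)) (fun e he => (mem_filter.1 he).2)
        (S'.filter (· ∈ EK)) (fun e he => (mem_filter.1 he).2) (by rw [heq]; exact hc2)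
      rw [heq] at this
      exact absurd hdel (not_le.2 this)

end Pool.Agent.MP_1c0fc2_co
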